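import Pool.Agent.SKA.LLL

set_option autoImplicit false

/-!
# SKA AchEx (package, 0.6 h): an achievable property of cost at most the threshold holds somewhere

Proof. Take the family of `Ach τ σ G` and apply `lll`. `x j ≤ 1/2 < 1`. For the hypothesis `hP`:
`1 - x ≥ exp (-2 x)` for `0 ≤ x ≤ 1/2` (e.g. from convexity, or: `exp (-2x) ≤ 1/(1+2x) ≤ 1 - x`
because
`(1+2x)(1-x) = 1 + x(1-2x) ≥ 1`; `Real.add_one_le_exp`). So
`∏_{j' ∈ Γ j} (1 - x j') ≥ exp (-2 ∑_{j' ∈ Γ j} x j')`, and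
`∑_{j' ∈ Γ j} x j' ≤ ∑_{e ∈ vbl j} ∑_{j' : e ∈ vbl j'} x j' ≤ |vbl j| σ ≤ |vbl j| τ` (every
`j' ∈ Γ j` shares a
variable with `j`; `Finset.sum_biUnion_le`-type argument:
`Γ j ⊆ (vbl j).biUnion (fun e => {j' | e ∈ vbl j'})`
and `Finset.sum_le_sum_of_subset_of_nonneg`, `Finset.sum_biUnion_le_sum` or induction).
Hence `pr (B j) ≤ x j exp (-2 |vbl j| τ) ≤ x j ∏ (1 - x)`.
-/

open Finset

namespace Pool.Agent.SKA

variable {I : Type} [Fintype I] [DecidableEq I] {M : ℕ}

private theorem exp_le {y : ℝ} (h0 : 0 ≤ y) (h1 : y ≤ 1 / 2) : Real.exp (-(2 * y)) ≤ 1 - y := by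
  have h2 := Real.add_one_le_exp (2 * y)
  rw [Real.exp_neg]
  have h3 : (0 : ℝ) < 2 * y + 1 := by linarith
  refine (inv_anti₀ h3 h2).trans ?_
  rw [inv_le_iff_one_le_mul₀ h3]
  nlinarith

theorem ach_exists (hM : 0 < M) {τ σ : ℝ} {G : (I → Fin M) → Prop} (h : Ach τ σ G) (hσ : σ ≤ τ) :
    ∃ ω, G ω := by
  classical
  obtain ⟨J, _, vbl, B, x, hs, hx, hB, hsum, hG⟩ := h
  obtain ⟨ω, hω⟩ := lll hM vbl B hs x (fun j => (hx j).1) (fun j => by linarith [(hx j).2])
    (fun j => by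
      refine (hB j).trans (mul_le_mul_of_nonneg_left ?_ (hx j).1)
      have h1 : ∑ j' ∈ univ.filter (fun j' => j' ≠ j ∧ ¬ Disjoint (vbl j) (vbl j')), x j' ≤
          (vbl j).card * τ := by
        calc ∑ j' ∈ univ.filter (fun j' => j' ≠ j ∧ ¬ Disjoint (vbl j) (vbl j')), x j'
            ≤ ∑ j' ∈ univ.filter (fun j' => j' ≠ j ∧ ¬ Disjoint (vbl j) (vbl j')),
              ∑ _e ∈ (vbl j).filter (fun e => e ∈ vbl j'), x j' := by
              refine sum_le_sum fun j' hj' => ?_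
              obtain ⟨e, he1, he2⟩ := not_disjoint_iff.1 (mem_filter.1 hj').2.2
              exact single_le_sum (f := fun _ : I => x j') (fun _ _ => (hx j').1)
                (mem_filter.2 ⟨he1, he2⟩)
          _ ≤ ∑ j' ∈ univ, ∑ _e ∈ (vbl j).filter (fun e => e ∈ vbl j'), x j' :=
              sum_le_sum_of_subset_of_nonneg (filter_subset _ _)
                fun j' _ _ => sum_nonneg fun _ _ => (hx j').1
          _ = ∑ e ∈ vbl j, ∑ j' ∈ univ.filter (fun j' => e ∈ vbl j'), x j' := by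
              refine sum_comm' fun a b => ?_
              simp only [mem_filter, mem_univ, true_and]
              exact and_comm
          _ ≤ ∑ _e ∈ vbl j, τ := sum_le_sum fun e _ => (hsum e).trans hσ
          _ = (vbl j).card * τ := by rw [sum_const, nsmul_eq_mul]
      calc Real.exp (-(2 * (vbl j).card * τ))
          ≤ Real.exp (∑ j' ∈ univ.filter (fun j' => j' ≠ j ∧ ¬ Disjoint (vbl j) (vbl j')),
            -(2 * x j')) := by
            rw [Real.exp_le_exp, sum_neg_distrib, ← mul_sum]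
            linarith
        _ = ∏ j' ∈ univ.filter (fun j' => j' ≠ j ∧ ¬ Disjoint (vbl j) (vbl j')),
            Real.exp (-(2 * x j')) := Real.exp_sum _ _
        _ ≤ _ := prod_le_prod (fun _ _ => (Real.exp_pos _).le)
            fun j' _ => exp_le (hx j').1 (hx j').2)
  exact ⟨ω, hG ω hω⟩

end Pool.Agent.SKA
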