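import Pool.Agent.SKA.Defs

set_option autoImplicit false

/-!
# SKA AchOps (package, 0.7 h): operations on achievable properties

`ach_true`: the empty family (`J = Empty` or `PEmpty`/`Fin 0`).
`ach_mono`: the same family.
`ach_and`: the family indexed by `J ⊕ J'` (`Sum.elim`); the sum over `univ.filter (e ∈ vbl j)` of a sum type
splits (`Fintype.sum_sum_type` after writing the filtered sum with `Finset.sum_filter`).
`ach_forall`: induction on the finset `T` with `ach_true` and `ach_and` (the property for `insert s T` is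
equivalent to the conjunction; use `ach_mono`).
-/

open Finset

namespace Pool.Agent.SKA

variable {I : Type} [Fintype I] [DecidableEq I] {M : ℕ}

theorem ach_true (τ : ℝ) : Ach (I := I) (M := M) τ 0 (fun _ => True) := by
  refine ⟨Empty, inferInstance, fun j => j.elim, fun j => j.elim, fun j => j.elim,
    fun j => j.elim, fun j => j.elim, fun j => j.elim, fun e => ?_, fun _ _ => trivial⟩
  simp

theorem ach_mono {τ σ σ' : ℝ} {G G' : (I → Fin M) → Prop} (h : Ach τ σ G) (hσ : σ ≤ σ')
    (hG : ∀ ω, G ω → G' ω) : Ach τ σ' G' := by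
  obtain ⟨J, hJ, vbl, B, x, h1, h2, h3, h4, h5⟩ := h
  exact ⟨J, hJ, vbl, B, x, h1, h2, h3, fun e => (h4 e).trans hσ, fun ω hω => hG ω (h5 ω hω)⟩

theorem ach_and {τ σ σ' : ℝ} {G G' : (I → Fin M) → Prop} (h : Ach τ σ G) (h' : Ach τ σ' G') :
    Ach τ (σ + σ') (fun ω => G ω ∧ G' ω) := by
  obtain ⟨J, hJ, vbl, B, x, h1, h2, h3, h4, h5⟩ := h
  obtain ⟨J', hJ', vbl', B', x', h1', h2', h3', h4', h5'⟩ := h'
  refine ⟨J ⊕ J', inferInstance, Sum.elim vbl vbl', Sum.elim B B', Sum.elim x x',
    ?_, ?_, ?_, ?_, ?_⟩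
  · rintro (j | j)
    · exact h1 j
    · exact h1' j
  · rintro (j | j)
    · exact h2 j
    · exact h2' j
  · rintro (j | j)
    · exact h3 j
    · exact h3' j
  · intro e
    rw [Finset.sum_filter, Fintype.sum_sum_type]
    have e1 := h4 e
    have e2 := h4' e
    rw [Finset.sum_filter] at e1 e2
    simp only [Sum.elim_inl, Sum.elim_inr]
    exact add_le_add e1 e2
  · intro ω hω
    exact ⟨h5 ω fun j => hω (Sum.inl j), h5' ω fun j => hω (Sum.inr j)⟩

theorem ach_forall {K : Type} (T : Finset K) {τ : ℝ} (σ : K → ℝ) (G : K → (I → Fin M) → Prop)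
    (h : ∀ s ∈ T, Ach τ (σ s) (G s)) :
    Ach τ (∑ s ∈ T, σ s) (fun ω => ∀ s ∈ T, G s ω) := by
  classical
  induction T using Finset.induction_on with
  | empty =>
    rw [Finset.sum_empty]
    exact ach_mono (ach_true τ) le_rfl (fun ω _ s hs => absurd hs (Finset.notMem_empty s))
  | insert a T ha ih =>
    rw [Finset.sum_insert ha]
    refine ach_mono (ach_and (h a (Finset.mem_insert_self a T))
      (ih fun s hs => h s (Finset.mem_insert_of_mem hs))) le_rfl ?_
    intro ω hω s hs
    rcases Finset.mem_insert.1 hs with rfl | hs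
    · exact hω.1
    · exact hω.2 s hs

end Pool.Agent.SKA
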