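import Pool.Agent.SKA.Supply

set_option autoImplicit false

/-!
# SKA AttachX (package, 0.8 h): private reserved sets for the outer sets

Adapt `Pool/Agent/OrthoChains/Attach.lean` (theorem `attach`, proved; a weighted Hall argument) with `k' = n/2 - 2`, `R = Rsv n`. For `A` with `a = |A| < lo` let `t A` be the set of the reserved `B ⊇ A` with `B ∉ Ex A`. By `supply`
(`a + 2 ≤ n/2 - 2` as `lo + 3 ≤ n/2`, `a < lo`) and `hnum`: `n² |t A| ≥ 6 (n-a).choose (k'-a) - n² m(n+2) ≥ n² (n k'.choose a)`, so `|t A| ≥ n k'.choose a`. Weights `w A = 1/(n k'.choose a)`: `∑_{B ∈ t A} w A ≥ 1`, and for every `B` with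
`|B| = k'`: `∑_{A ⊆ B, |A| < lo} w A = ∑_{a < lo} 1/n ≤ 1` (`lo ≤ n`). Hence Hall's condition, as in the file.
-/

open Finset

namespace Pool.Agent.SKA

theorem attachX {n m lo : ℕ} (hlo : lo + 3 ≤ n / 2)
    (hnum : ∀ a, a < lo → n ^ 2 * (n * (n / 2 - 2).choose a + m * (n + 2)) ≤
      6 * (n - a).choose (n / 2 - 2 - a))
    (Ex : Finset (Fin n) → Finset (Finset (Fin n))) (hEx : ∀ A, (Ex A).card ≤ m * (n + 2)) :
    ∃ g : Finset (Fin n) → Finset (Fin n),
      (∀ A, A.card < lo → A ⊆ g A ∧ Rsv n (g A) ∧ g A ∉ Ex A) ∧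
      Set.InjOn g {A | A.card < lo} := by
  classical
  have hn : 0 < n := by omega
  set k' := n / 2 - 2 with hk'
  have hlon : lo ≤ n := by omega
  let t : {A : Finset (Fin n) // A.card < lo} → Finset (Finset (Fin n)) := fun A =>
    univ.filter fun B => A.1 ⊆ B ∧ Rsv n B ∧ B ∉ Ex A.1
  -- the number of choices
  have ht : ∀ A, n * k'.choose A.1.card ≤ (t A).card := by
    intro A
    have hA := A.2
    have h1 := supply A.1 (by omega)
    have h2 := hnum A.1.card hA
    rw [← hk'] at h1
    have h3 : (univ.filter (fun B => A.1 ⊆ B ∧ Rsv n B)).card ≤ (t A).card + (Ex A.1).card := by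
      refine le_trans (Finset.card_le_card ?_) (Finset.card_union_le _ _)
      intro B hB
      rw [mem_filter] at hB
      rw [mem_union]
      by_cases h : B ∈ Ex A.1
      · exact Or.inr h
      · left
        rw [mem_filter]
        exact ⟨mem_univ _, hB.2.1, hB.2.2, h⟩
    have h4 := hEx A.1
    have h5 : n * k'.choose A.1.card + m * (n + 2) ≤
        (univ.filter (fun B => A.1 ⊆ B ∧ Rsv n B)).card :=
      Nat.le_of_mul_le_mul_left (h2.trans h1) (by positivity)
    omega
  -- the weights
  let w : Finset (Fin n) → ℝ := fun A => 1 / ((n : ℝ) * (k'.choose A.card : ℝ))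
  have hw0 : ∀ A, 0 ≤ w A := fun A => by positivity
  have hcp : ∀ a, a < lo → 0 < k'.choose a := fun a ha => Nat.choose_pos (by omega)
  have hw1 : ∀ A : {A : Finset (Fin n) // A.card < lo}, 1 ≤ ∑ _B ∈ t A, w A.1 := by
    intro A
    have h1 : (0 : ℝ) < (n : ℝ) * (k'.choose A.1.card : ℝ) := by
      have := hcp _ A.2
      positivity
    rw [Finset.sum_const, nsmul_eq_mul, mul_one_div, le_div_iff₀ h1, one_mul]
    exact_mod_cast ht A
  -- the weight below a reserved set
  have hwB : ∀ B : Finset (Fin n), B.card = k' →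
      ∑ A ∈ B.powerset.filter (fun A => A.card < lo), w A ≤ 1 := by
    intro B hB
    rw [← Finset.sum_fiberwise_of_maps_to (t := range lo) (g := Finset.card)
      (fun A hA => mem_range.2 (mem_filter.1 hA).2)]
    have h1 : ∀ a ∈ range lo,
        ∑ A ∈ (B.powerset.filter (fun A => A.card < lo)).filter (fun A => A.card = a), w A =
          1 / (n : ℝ) := by
      intro a ha
      rw [mem_range] at ha
      have h2 : (B.powerset.filter (fun A => A.card < lo)).filter (fun A => A.card = a) =
          powersetCard a B := by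
        ext A
        simp only [mem_filter, mem_powerset, mem_powersetCard]
        constructor
        · rintro ⟨⟨h3, _⟩, h4⟩
          exact ⟨h3, h4⟩
        · rintro ⟨h3, h4⟩
          exact ⟨⟨h3, h4 ▸ ha⟩, h4⟩
      rw [h2]
      have h3 : ∀ A ∈ powersetCard a B, w A = 1 / ((n : ℝ) * (k'.choose a : ℝ)) := by
        intro A hA
        show 1 / ((n : ℝ) * (k'.choose A.card : ℝ)) = _
        rw [(mem_powersetCard.1 hA).2]
      rw [Finset.sum_congr rfl h3, Finset.sum_const, Finset.card_powersetCard, hB, nsmul_eq_mul]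
      have h4 : (k'.choose a : ℝ) ≠ 0 := by
        have := hcp a ha
        positivity
      have h5 : (n : ℝ) ≠ 0 := by positivity
      field_simp
    rw [Finset.sum_congr rfl h1, Finset.sum_const, card_range, nsmul_eq_mul, mul_one_div]
    rw [div_le_one (by positivity)]
    exact_mod_cast hlon
  -- Hall condition
  have hall : ∀ X : Finset {A : Finset (Fin n) // A.card < lo}, X.card ≤ (X.biUnion t).card := by
    intro X
    have h1 : (X.card : ℝ) ≤ ((X.biUnion t).card : ℝ) := by
      calc (X.card : ℝ) = ∑ _A ∈ X, (1 : ℝ) := by simp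
        _ ≤ ∑ A ∈ X, ∑ _B ∈ t A, w A.1 := Finset.sum_le_sum fun A _ => hw1 A
        _ = ∑ B ∈ X.biUnion t, ∑ A ∈ X.filter (fun A => B ∈ t A), w A.1 := by
            refine Finset.sum_comm' ?_
            intro A B
            constructor
            · rintro ⟨h1, h2⟩
              exact ⟨mem_filter.2 ⟨h1, h2⟩, mem_biUnion.2 ⟨A, h1, h2⟩⟩
            · rintro ⟨h1, _⟩
              exact ⟨(mem_filter.1 h1).1, (mem_filter.1 h1).2⟩
        _ ≤ ∑ _B ∈ X.biUnion t, (1 : ℝ) := by
            refine Finset.sum_le_sum fun B hB => ?_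
            obtain ⟨A0, _, hA0⟩ := mem_biUnion.1 hB
            have hBk : B.card = k' := ((mem_filter.1 hA0).2.2.1).1
            refine le_trans ?_ (hwB B hBk)
            have h2 : ∑ A ∈ X.filter (fun A => B ∈ t A), w A.1 =
                ∑ A ∈ (X.filter (fun A => B ∈ t A)).map (Function.Embedding.subtype _), w A := by
              rw [Finset.sum_map]
              rfl
            rw [h2]
            refine Finset.sum_le_sum_of_subset_of_nonneg ?_ (fun A _ _ => hw0 A)
            intro A hA
            obtain ⟨A', hA', rfl⟩ := mem_map.1 hA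
            rw [mem_filter] at hA'
            rw [mem_filter, mem_powerset]
            exact ⟨(mem_filter.1 hA'.2).2.1, A'.2⟩
        _ = ((X.biUnion t).card : ℝ) := by simp
    exact_mod_cast h1
  obtain ⟨f, hf1, hf2⟩ := (Finset.all_card_le_biUnion_card_iff_exists_injective t).1 hall
  refine ⟨fun A => if h : A.card < lo then f ⟨A, h⟩ else A, ?_, ?_⟩
  · intro A hA
    simp only [dif_pos hA]
    have := (mem_filter.1 (hf2 ⟨A, hA⟩)).2
    exact ⟨this.1, this.2.1, this.2.2⟩
  · intro A hA A' hA' h
    have hA1 : A.card < lo := hA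
    have hA2 : A'.card < lo := hA'
    simp only [dif_pos hA1, dif_pos hA2] at h
    have := hf1 h
    exact congrArg Subtype.val this

end Pool.Agent.SKA
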