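import Mathlib

set_option autoImplicit false

/-!
# SKA BMatch (package, 1.0 h): a subgraph with prescribed degrees (Hall)

Proof. Apply Hall's theorem (`Finset.all_card_le_biUnion_card_iff_exists_injective`) to the following bipartite graph. Left
vertices: `(a, s)` with `a ∈ U`, `s < ℓ`, and `e_l` for every edge `e = (a,b)` (`a ∈ U`, `E a b`). Right vertices: `e_r` for every edge `e`,
and `(b, s)`, `b : β`, `s < ℓ`. Neighbours: `(a,s) ~ e_r` for the edges `e` at `a`; `e_l ~ e_r`; `e_l ~ (b,s)` for the edge `e` at `b`.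
(Types: left `{a // a ∈ U} × Fin ℓ ⊕ {e : α × β // e.1 ∈ U ∧ E e.1 e.2}`, right `{e : α × β // ...} ⊕ β × Fin ℓ`.)
Hall condition: let `Z` be a finite set of left vertices, `X` the set of `a` with some `(a,s) ∈ Z`, `Z2` the set of edges with `e_l ∈ Z`, `Y` the set of `b`
that are ends of edges of `Z2`. `|Z| ≤ ℓ|X| + |Z2|`. The neighbourhood contains `e_r` for `e ∈ E(X) ∪ Z2` (`E(X)` = edges with first end in `X`) and all
`(b,s)`, `b ∈ Y`: size `|Z2| + |E(X) \ Z2| + ℓ|Y|`; `E(X) \ Z2` contains all edges `(a,b)` with `a ∈ X`, `b ∉ Y`. By hypothesis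
`ℓ|X| ≤ ℓ|Y| + |{(a,b) : a ∈ X, b ∉ Y, E a b}|`. So `|Z| ≤ |N(Z)|`.
Let `f` be the injection. Put `K a b :⟺ a ∈ U ∧ E a b ∧ f maps some (a,s) to e_r, e = (a,b)`. For `a ∈ U` the `ℓ` left vertices `(a,s)` are mapped injectively to edges
at `a`, so there are exactly `ℓ` such `b`. If `K a b`, then `f (e_l) ≠ e_r` (injectivity), so `f (e_l) = (b,s)` for some `s`; for fixed `b` this is injective in `a`, so at most `ℓ`.
-/

open Finset

namespace Pool.Agent.SKA

variable {α β : Type} [Fintype α] [DecidableEq α] [Fintype β] [DecidableEq β]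

/-- The neighbour relation of the bipartite graph. -/
private def bmatchAdj (ℓ : ℕ) (U : Finset α) (E : α → β → Prop) :
    ({a // a ∈ U} × Fin ℓ) ⊕ {e : α × β // e.1 ∈ U ∧ E e.1 e.2} →
    {e : α × β // e.1 ∈ U ∧ E e.1 e.2} ⊕ (β × Fin ℓ) → Prop
  | .inl x, .inl e => e.1.1 = x.1.1
  | .inl _, .inr _ => False
  | .inr e', .inl e => e = e'
  | .inr e', .inr y => y.1 = e'.1.2

open Classical in
private theorem bmatch_hall (ℓ : ℕ) (U : Finset α) (E : α → β → Prop)
    (h : ∀ X ⊆ U, ∀ Y : Finset β, ℓ * X.card ≤ ℓ * Y.card +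
      ((univ : Finset (α × β)).filter (fun e => e.1 ∈ X ∧ e.2 ∉ Y ∧ E e.1 e.2)).card)
    (Z : Finset (({a // a ∈ U} × Fin ℓ) ⊕ {e : α × β // e.1 ∈ U ∧ E e.1 e.2})) :
    Z.card ≤ (Z.biUnion fun x => univ.filter fun y => bmatchAdj ℓ U E x y).card := by
  obtain ⟨X, hX⟩ : ∃ X : Finset α, X = Z.toLeft.image (fun x => x.1.1) := ⟨_, rfl⟩
  obtain ⟨Y, hY⟩ : ∃ Y : Finset β, Y = Z.toRight.image (fun e => e.1.2) := ⟨_, rfl⟩
  have hXU : X ⊆ U := by
    intro a ha
    rw [hX, mem_image] at ha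
    obtain ⟨x, -, rfl⟩ := ha
    exact x.1.2
  obtain ⟨F, hF⟩ : ∃ F : Finset {e : α × β // e.1 ∈ U ∧ E e.1 e.2},
      F = univ.filter (fun e => e.1.1 ∈ X ∧ e.1.2 ∉ Y) := ⟨_, rfl⟩
  have h1 : Z.toLeft.card ≤ ℓ * X.card := by
    have : Z.toLeft.card ≤ (X ×ˢ (univ : Finset (Fin ℓ))).card := by
      refine card_le_card_of_injOn (fun x => (x.1.1, x.2)) ?_ ?_
      · intro x hx
        rw [coe_product, Set.mem_prod]
        refine ⟨?_, mem_coe.2 (mem_univ _)⟩
        rw [hX]
        exact mem_coe.2 (mem_image_of_mem _ (mem_coe.1 hx))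
      · intro x _ y _ hxy
        have h2 := Prod.ext_iff.1 hxy
        exact Prod.ext (Subtype.ext h2.1) h2.2
    rw [card_product, card_univ, Fintype.card_fin, mul_comm] at this
    exact this
  have h2 : ((univ : Finset (α × β)).filter (fun e => e.1 ∈ X ∧ e.2 ∉ Y ∧ E e.1 e.2)).card ≤
      F.card := by
    have : (univ : Finset (α × β)).filter (fun e => e.1 ∈ X ∧ e.2 ∉ Y ∧ E e.1 e.2) ⊆
        F.image Subtype.val := by
      intro e he
      rw [mem_filter] at he
      rw [mem_image]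
      refine ⟨⟨e, hXU he.2.1, he.2.2.2⟩, ?_, rfl⟩
      rw [hF, mem_filter]
      exact ⟨mem_univ _, he.2.1, he.2.2.1⟩
    exact (card_le_card this).trans card_image_le
  have h3 : Disjoint Z.toRight F := by
    rw [disjoint_left]
    intro e he he'
    rw [hF, mem_filter] at he'
    apply he'.2.2
    rw [hY]
    exact mem_image_of_mem _ he
  have h4 : (Z.toRight ∪ F).disjSum (Y ×ˢ (univ : Finset (Fin ℓ))) ⊆
      Z.biUnion fun x => univ.filter fun y => bmatchAdj ℓ U E x y := by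
    intro y hy
    rw [mem_biUnion]
    rw [mem_disjSum] at hy
    rcases hy with ⟨e, he, rfl⟩ | ⟨⟨b, s⟩, hb, rfl⟩
    · rw [mem_union] at he
      rcases he with he | he
      · exact ⟨.inr e, mem_toRight.1 he, mem_filter.2 ⟨mem_univ _, rfl⟩⟩
      · rw [hF, mem_filter] at he
        have he1 := he.2.1
        rw [hX, mem_image] at he1
        obtain ⟨x, hx, hxe⟩ := he1
        exact ⟨.inl x, mem_toLeft.1 hx, mem_filter.2 ⟨mem_univ _, hxe.symm⟩⟩
    · rw [mem_product] at hb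
      have hb1 := hb.1
      rw [hY, mem_image] at hb1
      obtain ⟨e, he, heb⟩ := hb1
      exact ⟨.inr e, mem_toRight.1 he, mem_filter.2 ⟨mem_univ _, heb.symm⟩⟩
  have h5 := card_le_card h4
  rw [card_disjSum, card_union_of_disjoint h3, card_product, card_univ, Fintype.card_fin] at h5
  have h6 := h X hXU Y
  have h7 := card_toLeft_add_card_toRight (u := Z)
  have h8 : Y.card * ℓ = ℓ * Y.card := mul_comm _ _
  omega

open Classical in
theorem exists_bmatch (ℓ : ℕ) (U : Finset α) (E : α → β → Prop)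
    (h : ∀ X ⊆ U, ∀ Y : Finset β, ℓ * X.card ≤ ℓ * Y.card +
      ((univ : Finset (α × β)).filter (fun e => e.1 ∈ X ∧ e.2 ∉ Y ∧ E e.1 e.2)).card) :
    ∃ K : α → β → Prop, (∀ a b, K a b → a ∈ U ∧ E a b) ∧
      (∀ a ∈ U, (univ.filter (fun b => K a b)).card = ℓ) ∧
      (∀ b, (univ.filter (fun a => K a b)).card ≤ ℓ) := by
  obtain ⟨f, hf, hft⟩ := (Finset.all_card_le_biUnion_card_iff_exists_injective
    (fun x => univ.filter fun y => bmatchAdj ℓ U E x y)).1 (bmatch_hall ℓ U E h)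
  refine ⟨fun a b => ∃ (h1 : a ∈ U) (h2 : E a b) (s : Fin ℓ),
    f (.inl (⟨a, h1⟩, s)) = .inl ⟨(a, b), h1, h2⟩, ?_, ?_, ?_⟩
  · rintro a b ⟨h1, h2, -⟩
    exact ⟨h1, h2⟩
  · intro a ha
    have h1 : ∀ s : Fin ℓ, ∃ b, ∃ h2 : E a b,
        f (.inl (⟨a, ha⟩, s)) = .inl ⟨(a, b), ha, h2⟩ := by
      intro s
      have h2 := (mem_filter.1 (hft (.inl (⟨a, ha⟩, s)))).2
      rcases hfe : f (.inl (⟨a, ha⟩, s)) with e | y
      · rw [hfe] at h2
        obtain ⟨⟨a', b⟩, h3, h4⟩ := e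
        obtain rfl : a' = a := h2
        exact ⟨b, h4, rfl⟩
      · rw [hfe] at h2
        exact h2.elim
    choose g hg hg' using h1
    have h2 : univ.filter (fun b => ∃ (h1 : a ∈ U) (h2 : E a b) (s : Fin ℓ),
        f (.inl (⟨a, h1⟩, s)) = .inl ⟨(a, b), h1, h2⟩) = univ.image g := by
      ext b
      rw [mem_filter, mem_image]
      constructor
      · rintro ⟨-, h1, h2, s, hs⟩
        refine ⟨s, mem_univ _, ?_⟩
        rw [hg' s] at hs
        have h3 := Sum.inl_injective hs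
        exact congrArg (fun e => e.1.2) h3
      · rintro ⟨s, -, rfl⟩
        exact ⟨mem_univ _, ha, hg s, s, hg' s⟩
    have h5 : (univ.image g).card = ℓ := by
      rw [card_image_of_injective, card_univ, Fintype.card_fin]
      intro s s' hss
      have h3 : f (.inl (⟨a, ha⟩, s)) = f (.inl (⟨a, ha⟩, s')) := by
        rw [hg' s, hg' s']
        congr 1
        exact Subtype.ext (Prod.ext rfl hss)
      have h4 := Sum.inl_injective (hf h3)
      exact (Prod.ext_iff.1 h4).2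
    refine Eq.trans ?_ h5
    refine congrArg Finset.card ?_
    rw [← h2]
    ext b
    simp only [mem_filter]
  · intro b
    rw [← Fintype.card_subtype]
    have h1 : ∀ a : {a : α // ∃ (h1 : a ∈ U) (h2 : E a b) (s : Fin ℓ),
        f (.inl (⟨a, h1⟩, s)) = .inl ⟨(a, b), h1, h2⟩}, ∃ s : Fin ℓ,
        f (.inr ⟨(a.1, b), a.2.1, a.2.2.1⟩) = .inr (b, s) := by
      rintro ⟨a, h1, h2, s, hs⟩
      have h3 := (mem_filter.1 (hft (.inr ⟨(a, b), h1, h2⟩))).2
      rcases hfe : f (.inr ⟨(a, b), h1, h2⟩) with e | ⟨y, s'⟩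
      · rw [hfe] at h3
        have h3' : e = ⟨(a, b), h1, h2⟩ := h3
        rw [h3', ← hs] at hfe
        have h4 := hf hfe
        exact absurd h4 (by simp)
      · rw [hfe] at h3
        obtain rfl : y = b := h3
        exact ⟨s', rfl⟩
    choose g hg using h1
    have h2 : Function.Injective g := by
      intro a a' haa
      have h3 : f (.inr ⟨(a.1, b), a.2.1, a.2.2.1⟩) =
          f (.inr ⟨(a'.1, b), a'.2.1, a'.2.2.1⟩) := by
        rw [hg a, hg a', haa]
      have h4 := Sum.inr_injective (hf h3)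
      exact Subtype.ext (congrArg (fun e => e.1.1) h4)
    have h3 := Fintype.card_le_of_injective g h2
    rwa [Fintype.card_fin] at h3

end Pool.Agent.SKA
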