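import Pool.Agent.SKA.RsvF

set_option autoImplicit false

/-!
# SKA BdCut (package, 0.8 h): boundary and degrees of the level graph `LG n k`

`bd_eq`: the ordered pairs `(a,b)` with `a ∈ W`, `b ∉ W`, adjacent in `LG n k`: either `Lo n k a b`
(then `(a,b) ∈ cutU`) or `Lo n k b a` (then `(b,a) ∈ cutV`); the two cases exclude each other
(cardinalities).
`dg_le`: if `|v| = k` the neighbours are sets `insert x v`, `x ∉ v`: at most `n`; if `|v| = k+1`
the neighbours are `v.erase x`, `x ∈ v`: `k+1 = |v| ≤ n`; otherwise none.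
`dg_low`: `|A| = k`: the `n-k` upper neighbours, at most one of them reserved (`rsv_unique`).
`dg_low2`: if `k + 1 ≠ n/2 - 2` no set of level `k+1` is reserved and the degree is `n - k ≥ k+1`;
if `k+1 = n/2-2` then `n - k - 1 ≥ k+1` because `2(k+1) ≤ n - 4`.
`dg_up`: all `k+1` lower neighbours.
-/

open Finset

namespace Pool.Agent.SKA

theorem bd_eq (n k : ℕ) (W : Finset (Finset (Fin n))) :
    bd (LG n k) W = (cutU n k W).card + (cutV n k W).card := by
  classical
  have h1 : ((univ : Finset (Finset (Fin n) × Finset (Fin n))).filter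
      (fun e => e.1 ∈ W ∧ e.2 ∉ W ∧ (LG n k).Adj e.1 e.2)) =
      cutU n k W ∪ (cutV n k W).image Prod.swap := by
    ext ⟨a, b⟩
    simp only [mem_filter, mem_univ, true_and, mem_union, mem_image, cutU, cutV, LG, Prod.exists,
      Prod.swap_prod_mk, Prod.mk.injEq]
    constructor
    · rintro ⟨ha, hb, h | h⟩
      · exact Or.inl ⟨h, ha, hb⟩
      · exact Or.inr ⟨b, a, ⟨h, hb, ha⟩, rfl, rfl⟩
    · rintro (⟨h, ha, hb⟩ | ⟨b', a', ⟨h, hb, ha⟩, rfl, rfl⟩)
      · exact ⟨ha, hb, Or.inl h⟩
      · exact ⟨ha, hb, Or.inr h⟩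
  have h2 : Disjoint (cutU n k W) ((cutV n k W).image Prod.swap) := by
    rw [disjoint_left]
    rintro ⟨a, b⟩ h3 h4
    simp only [mem_filter, mem_univ, true_and, mem_image, cutU, cutV, Prod.exists,
      Prod.swap_prod_mk, Prod.mk.injEq] at h3 h4
    obtain ⟨b', a', ⟨h5, -, -⟩, rfl, rfl⟩ := h4
    have h6 := h3.1.1
    have h7 := h5.2.1
    omega
  have h3 : bd (LG n k) W = (cutU n k W ∪ (cutV n k W).image Prod.swap).card := by
    rw [← h1]
    unfold bd
    congr 1
  rw [h3, card_union_of_disjoint h2, card_image_of_injective _ Prod.swap_injective]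

private theorem cov_insert {n : ℕ} {A D : Finset (Fin n)} (h : A ⊆ D)
    (hc : D.card = A.card + 1) : ∃ x, x ∉ A ∧ D = insert x A := by
  have h1 : (D \ A).card = 1 := by
    have := card_sdiff_add_card_eq_card h
    omega
  obtain ⟨x, hx⟩ := card_eq_one.1 h1
  have h2 : x ∈ D \ A := by rw [hx]; exact mem_singleton_self x
  refine ⟨x, (mem_sdiff.1 h2).2, ?_⟩
  rw [← sdiff_union_of_subset h, hx]
  rfl

theorem dg_le (n k : ℕ) (v : Finset (Fin n)) : dg (LG n k) v ≤ n := by
  classical
  unfold dg
  refine (card_le_card (t := (univ : Finset (Fin n)).image (fun x => symmDiff v {x}))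
    fun w hw => ?_).trans ?_
  · rw [mem_filter] at hw
    rw [mem_image]
    rcases hw.2 with h | h
    · obtain ⟨x, hx, rfl⟩ := cov_insert h.2.2.1 (by rw [h.2.1, h.1])
      refine ⟨x, mem_univ _, ?_⟩
      ext z
      simp only [mem_symmDiff, mem_singleton, mem_insert]
      by_cases hz : z = x
      · subst hz
        simp [hx]
      · simp [hz]
    · obtain ⟨x, hx, rfl⟩ := cov_insert h.2.2.1 (by rw [h.2.1, h.1])
      refine ⟨x, mem_univ _, ?_⟩
      ext z
      simp only [mem_symmDiff, mem_singleton, mem_insert]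
      by_cases hz : z = x
      · subst hz
        simp [hx]
      · simp [hz]
  · refine card_image_le.trans ?_
    rw [card_univ, Fintype.card_fin]

/-- the upper neighbours -/
private theorem card_ups {n k : ℕ} {A : Finset (Fin n)} (hA : A.card = k) :
    ((univ \ A).image (fun x => insert x A)).card = n - k := by
  rw [card_image_of_injOn, card_sdiff_of_subset (subset_univ A), card_univ, Fintype.card_fin, hA]
  intro x hx y hy h
  have hx' : x ∉ A := (mem_sdiff.1 (mem_coe.1 hx)).2
  have h' : insert x A = insert y A := h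
  have h1 : x ∈ insert y A := by
    rw [← h']
    exact mem_insert_self x A
  rcases mem_insert.1 h1 with h2 | h2
  · exact h2
  · exact absurd h2 hx'

theorem dg_low {n k : ℕ} {A : Finset (Fin n)} (hA : A.card = k) : n - k - 1 ≤ dg (LG n k) A := by
  classical
  have h1 : (((univ \ A).image (fun x => insert x A)).filter (fun D => Rsv n D)).card ≤ 1 := by
    refine card_le_one.2 fun D hD D' hD' => ?_
    rw [mem_filter, mem_image] at hD hD'
    obtain ⟨⟨x, hx, rfl⟩, hD⟩ := hD
    obtain ⟨⟨y, hy, rfl⟩, hD'⟩ := hD'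
    exact rsv_unique ⟨subset_insert x A, card_insert_of_notMem (mem_sdiff.1 hx).2⟩
      ⟨subset_insert y A, card_insert_of_notMem (mem_sdiff.1 hy).2⟩ hD hD'
  have h2 := card_filter_add_card_filter_not (s := (univ \ A).image (fun x => insert x A))
    (fun D => Rsv n D)
  rw [card_ups hA] at h2
  have h3 : (((univ \ A).image (fun x => insert x A)).filter (fun D => ¬ Rsv n D)).card ≤
      dg (LG n k) A := by
    unfold dg
    refine card_le_card fun D hD => ?_
    rw [mem_filter, mem_image] at hD
    obtain ⟨⟨x, hx, rfl⟩, hD⟩ := hD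
    rw [mem_filter]
    refine ⟨mem_univ _, Or.inl ⟨hA, ?_, subset_insert x A, hD⟩⟩
    rw [card_insert_of_notMem (mem_sdiff.1 hx).2, hA]
  omega

theorem dg_low2 {n k : ℕ} (h : 2 * k < n) {A : Finset (Fin n)} (hA : A.card = k) :
    k + 1 ≤ dg (LG n k) A := by
  classical
  by_cases hk : k + 1 = n / 2 - 2
  · have := dg_low (n := n) hA
    omega
  · have h3 : ((univ \ A).image (fun x => insert x A)).card ≤ dg (LG n k) A := by
      unfold dg
      refine card_le_card fun D hD => ?_
      rw [mem_image] at hD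
      obtain ⟨x, hx, rfl⟩ := hD
      rw [mem_filter]
      have h4 : (insert x A).card = k + 1 := by
        rw [card_insert_of_notMem (mem_sdiff.1 hx).2, hA]
      refine ⟨mem_univ _, Or.inl ⟨hA, h4, subset_insert x A, fun h5 => hk ?_⟩⟩
      rw [← h4]
      exact h5.1
    rw [card_ups hA] at h3
    omega

theorem dg_up {n k : ℕ} {D : Finset (Fin n)} (hD : D ∈ Vp n k) : dg (LG n k) D = k + 1 := by
  classical
  have h1 : D.card = k + 1 ∧ ¬ Rsv n D := by
    unfold Vp Lv at hD
    rw [mem_filter, mem_filter] at hD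
    exact ⟨hD.1.2, hD.2⟩
  have h2 : (univ.filter (fun w => (LG n k).Adj D w)) = D.powersetCard k := by
    ext w
    rw [mem_filter, mem_powersetCard]
    constructor
    · rintro ⟨-, h | h⟩
      · have := h.1
        omega
      · exact ⟨h.2.2.1, h.1⟩
    · rintro ⟨h3, h4⟩
      exact ⟨mem_univ _, Or.inr ⟨h4, h1.1, h3, h1.2⟩⟩
  unfold dg
  rw [h2, card_powersetCard, h1.1, Nat.choose_succ_self_right]

end Pool.Agent.SKA
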