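import Pool.Agent.SKA.Prob

set_option autoImplicit false

/-!
# SKA Chern (package, 1.0 h): Chernoff bound for the lower tail

Proof. Let `X ω = |{e ∈ F : ω e = i}|`, `N = |F|`, `p = 1/M`, `q = Real.exp (-ε)`.
`∑_ω q^(X ω) = ∑_ω ∏_{e ∈ I} (if e ∈ F ∧ ω e = i then q else 1) = ∏_{e} ∑_{c} (...) =
(M - 1 + q)^N M^(|I| - N)` (`Finset.prod_univ_sum` with `Fintype.piFinset_univ`; `|Fin M| = M`).
So `(1/M^|I|) ∑_ω q^(X ω) = (1 - (1-q) p)^N ≤ exp (-(1-q) p N)` (`Real.add_one_le_exp`).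
Markov: on the event, `q^(X ω) ≥ exp (-ε (1-ε) p N)`. Hence
`pr (event) ≤ exp (ε(1-ε) p N - (1-q) p N)`, and `q = exp (-ε) ≤ 1 - ε + ε^2/2` for `0 ≤ ε` (for `ε ≤ 1`
e.g. `Real.exp_bound'`, or `Real.abs_exp_sub_one_sub_id_le`-type lemmas, or monotonicity), so
`1 - q ≥ ε - ε^2/2` and the exponent is at most `p N (ε - ε^2 - ε + ε^2/2) = -ε^2 N/(2M)`.
-/

open Finset

namespace Pool.Agent.SKA

variable {I : Type} [Fintype I] [DecidableEq I] {M : ℕ}

private theorem chern_exp {ε : ℝ} (h0 : 0 ≤ ε) : Real.exp (-ε) ≤ 1 - ε + ε ^ 2 / 2 := by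
  have h1 := Real.quadratic_le_exp_of_nonneg h0
  have h2 : 0 < 1 - ε + ε ^ 2 / 2 := by nlinarith [sq_nonneg (ε - 1)]
  have h3 : 1 ≤ (1 - ε + ε ^ 2 / 2) * Real.exp ε := by
    have h4 : (1 - ε + ε ^ 2 / 2) * (1 + ε + ε ^ 2 / 2) ≤ (1 - ε + ε ^ 2 / 2) * Real.exp ε :=
      mul_le_mul_of_nonneg_left h1 h2.le
    have h5 : (1 - ε + ε ^ 2 / 2) * (1 + ε + ε ^ 2 / 2) = 1 + ε ^ 4 / 4 := by ring
    have h6 : 0 ≤ ε ^ 4 := by positivity
    linarith
  rw [Real.exp_neg, inv_le_iff_one_le_mul₀ (Real.exp_pos ε)]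
  exact h3

theorem chernoff (hM : 0 < M) (F : Finset I) (i : Fin M) (ε : ℝ) (h0 : 0 ≤ ε) (h1 : ε ≤ 1) :
    pr {ω : I → Fin M | ((F.filter (fun e => ω e = i)).card : ℝ) ≤ (1 - ε) * F.card / M} ≤
      Real.exp (-(ε ^ 2 * F.card / (2 * M))) := by
  classical
  have hMR : (0 : ℝ) < M := by exact_mod_cast hM
  set q : ℝ := Real.exp (-ε) with hq
  have hq0 : 0 < q := Real.exp_pos _
  set X : (I → Fin M) → ℕ := fun ω => (F.filter (fun e => ω e = i)).card with hX
  set A : Set (I → Fin M) := {ω | (X ω : ℝ) ≤ (1 - ε) * F.card / M} with hA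
  change pr A ≤ _
  -- the generating function
  have hgen : ∑ ω : I → Fin M, q ^ X ω =
      ∏ e : I, ∑ c : Fin M, (if e ∈ F ∧ c = i then q else 1) := by
    rw [Finset.prod_univ_sum, Fintype.piFinset_univ]
    refine Finset.sum_congr rfl fun ω _ => ?_
    rw [← Finset.prod_filter, Finset.prod_const]
    congr 1
    simp only [hX]
    congr 1
    ext e
    simp
  have hle : ∑ ω : I → Fin M, q ^ X ω ≤
      (M : ℝ) ^ Fintype.card I * Real.exp (-((1 - q) / M)) ^ F.card := by
    rw [hgen]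
    have h2 : (M : ℝ) ^ Fintype.card I * Real.exp (-((1 - q) / M)) ^ F.card =
        ∏ e : I, ((M : ℝ) * (if e ∈ F then Real.exp (-((1 - q) / M)) else 1)) := by
      rw [Finset.prod_mul_distrib, Finset.prod_const, Finset.card_univ, ← Finset.prod_filter,
        Finset.prod_const]
      congr 3
      ext e
      simp
    rw [h2]
    refine Finset.prod_le_prod (fun e _ => Finset.sum_nonneg fun c _ => ?_) (fun e _ => ?_)
    · split_ifs
      · exact hq0.le
      · exact zero_le_one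
    · by_cases he : e ∈ F
      · simp only [he, true_and, if_true]
        have h3 : ∑ c : Fin M, (if c = i then q else 1) = (M : ℝ) - 1 + q := by
          have h4 : ∀ c : Fin M, (if c = i then q else (1 : ℝ)) = 1 - (if c = i then 1 - q else 0) := by
            intro c
            split_ifs <;> ring
          rw [Finset.sum_congr rfl fun c _ => h4 c, Finset.sum_sub_distrib]
          simp
          ring
        rw [h3]
        have h5 := Real.add_one_le_exp (-((1 - q) / M))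
        have h6 : (M : ℝ) * (-((1 - q) / M) + 1) = M - 1 + q := by
          field_simp
          ring
        rw [← h6]
        exact mul_le_mul_of_nonneg_left h5 hMR.le
      · simp [he]
  -- Markov
  have hmk : (A.ncard : ℝ) * Real.exp (-(ε * ((1 - ε) * F.card / M))) ≤
      ∑ ω : I → Fin M, q ^ X ω := by
    have hAf : A.ncard = (univ.filter (fun ω => ω ∈ A)).card := by
      rw [← Set.ncard_coe_finset]
      congr 1
      ext ω
      simp
    rw [hAf, ← nsmul_eq_mul, ← Finset.sum_const]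
    refine le_trans (Finset.sum_le_sum (g := fun ω => q ^ X ω) ?_)
      (Finset.sum_le_sum_of_subset_of_nonneg (Finset.filter_subset _ _) fun ω _ _ => by positivity)
    intro ω hω
    have hω' : (X ω : ℝ) ≤ (1 - ε) * F.card / M := (Finset.mem_filter.1 hω).2
    rw [hq, ← Real.exp_nat_mul]
    apply Real.exp_le_exp.2
    have h7 : ε * (X ω : ℝ) ≤ ε * ((1 - ε) * F.card / M) := mul_le_mul_of_nonneg_left hω' h0
    linarith
  -- conclusion
  unfold pr
  have hMK : (0 : ℝ) < (M : ℝ) ^ Fintype.card I := pow_pos hMR _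
  rw [div_le_iff₀ hMK]
  have h8 : (A.ncard : ℝ) * Real.exp (-(ε * ((1 - ε) * F.card / M))) ≤
      (M : ℝ) ^ Fintype.card I * Real.exp (-((1 - q) / M)) ^ F.card := hmk.trans hle
  have h9 : (A.ncard : ℝ) ≤ (M : ℝ) ^ Fintype.card I * Real.exp (-((1 - q) / M)) ^ F.card *
      Real.exp (ε * ((1 - ε) * F.card / M)) := by
    have h10 : Real.exp (-(ε * ((1 - ε) * F.card / M))) * Real.exp (ε * ((1 - ε) * F.card / M)) =
        1 := by
      rw [← Real.exp_add, neg_add_cancel, Real.exp_zero]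
    calc (A.ncard : ℝ) = (A.ncard : ℝ) * (Real.exp (-(ε * ((1 - ε) * F.card / M))) *
          Real.exp (ε * ((1 - ε) * F.card / M))) := by rw [h10, mul_one]
      _ = (A.ncard : ℝ) * Real.exp (-(ε * ((1 - ε) * F.card / M))) *
          Real.exp (ε * ((1 - ε) * F.card / M)) := by ring
      _ ≤ _ := mul_le_mul_of_nonneg_right h8 (Real.exp_pos _).le
  refine h9.trans ?_
  rw [mul_comm (Real.exp (-(ε ^ 2 * F.card / (2 * M)))), mul_assoc]
  refine mul_le_mul_of_nonneg_left ?_ hMK.le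
  rw [← Real.exp_nat_mul, ← Real.exp_add]
  apply Real.exp_le_exp.2
  have h11 := chern_exp h0
  rw [← hq] at h11
  have h12 : (F.card : ℝ) * -((1 - q) / M) + ε * ((1 - ε) * F.card / M) =
      (F.card : ℝ) / M * (q - 1 + ε - ε ^ 2) := by
    field_simp
    ring
  have h13 : -(ε ^ 2 * (F.card : ℝ) / (2 * M)) = (F.card : ℝ) / M * (-(ε ^ 2 / 2)) := by
    field_simp
  rw [h12, h13]
  refine mul_le_mul_of_nonneg_left ?_ (by positivity)
  linarith

end Pool.Agent.SKA
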