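import Pool.Agent.SKA.FamCount

set_option autoImplicit false

/-!
# SKA FamAll (package, 0.8 h): the same for the whole family of cuts

`sg` is an involution of `Edg n` (`compl_compl`), so `F ↦ F.image sg` preserves cardinalities and `e ∈ F.image sg ↔ sg e ∈ F`.
`famall_lev`: `F ∈ famCut n k` consists of pairs with `Lo n k A D`, so `Cov` and `|A| = k`; for the images: `(D^c, A^c)` is a cover pair with `|D^c| = n - k - 1`.
`famall_min`: from `fam_min` (`Nums.lev` gives `LevOk n k`).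
`famall_count`: a member `F ∋ e` of the first part comes from some `k`; all its edges have `|e.1| = k`, so `k = |e.1|` and the number is at most the one of `fam_count` for `k = |e.1|` (if this `k` is
in the range; otherwise `0`). The second part: `F = F'.image sg`, `sg e ∈ F'`, `|F'| = f`: the same bound for `sg e`. Total `≤ 2 exp(..)`.
-/

open Finset

namespace Pool.Agent.SKA

private theorem sg_sg {n : ℕ} (e : Edg n) : sg (sg e) = e := by
  unfold sg
  rw [compl_compl, compl_compl]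

private theorem sg_inj {n : ℕ} : Function.Injective (sg (n := n)) := fun e e' h => by
  rw [← sg_sg e, h, sg_sg]

private theorem lo_of_mem {n k : ℕ} {F : Finset (Edg n)} (hF : F ∈ famCut n k) {e : Edg n}
    (he : e ∈ F) : Lo n k e.1 e.2 := by
  classical
  unfold famCut at hF
  obtain ⟨W, _, _, h | h⟩ := (mem_filter.1 hF).2
  · have h1 := he
    rw [h.1] at h1
    unfold cutU at h1
    exact (mem_filter.1 h1).2.1
  · have h1 := he
    rw [h.1] at h1
    unfold cutV at h1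
    exact (mem_filter.1 h1).2.1

private theorem mem_Fam {n lo : ℕ} {F : Finset (Edg n)} (hF : F ∈ Fam n lo) :
    (∃ k, (lo ≤ k ∧ 2 * k < n) ∧ F ∈ famCut n k) ∨
      ∃ F', (∃ k, (lo ≤ k ∧ 2 * k < n) ∧ F' ∈ famCut n k) ∧ F'.image sg = F := by
  unfold Fam at hF
  rcases mem_union.1 hF with h | h
  · obtain ⟨k, hk, h1⟩ := mem_biUnion.1 h
    exact Or.inl ⟨k, (mem_filter.1 hk).2, h1⟩
  · obtain ⟨F', h1, h2⟩ := mem_image.1 h
    obtain ⟨k, hk, h3⟩ := mem_biUnion.1 h1
    refine Or.inr ⟨F', ⟨k, (mem_filter.1 hk).2, h3⟩, ?_⟩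
    rw [← h2]

theorem famall_lev {n lo : ℕ} {F : Finset (Edg n)} (hF : F ∈ Fam n lo) :
    ∃ k, ∀ e ∈ F, Cov e.1 e.2 ∧ e.1.card = k := by
  rcases mem_Fam hF with ⟨k, _, h⟩ | ⟨F', ⟨k, _, h⟩, rfl⟩
  · refine ⟨k, fun e he => ?_⟩
    obtain ⟨h1, h2, h3, _⟩ := lo_of_mem h he
    exact ⟨⟨h3, by rw [h1, h2]⟩, h1⟩
  · refine ⟨n - (k + 1), fun e he => ?_⟩
    obtain ⟨e', he', rfl⟩ := mem_image.1 he
    obtain ⟨h1, h2, h3, _⟩ := lo_of_mem h he'
    have h4 : e'.2.card ≤ n := by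
      have := card_le_univ e'.2
      rwa [Fintype.card_fin] at this
    have h5 : (sg e').1.card = n - (k + 1) := by
      change (e'.2ᶜ).card = _
      rw [card_compl, Fintype.card_fin, h2]
    have h6 : (sg e').2.card = n - k := by
      change (e'.1ᶜ).card = _
      rw [card_compl, Fintype.card_fin, h1]
    refine ⟨⟨?_, ?_⟩, h5⟩
    · change e'.2ᶜ ⊆ e'.1ᶜ
      exact compl_subset_compl.2 h3
    · rw [h5, h6]
      omega

theorem famall_min {n r : ℕ} (h : Nums n r) {F : Finset (Edg n)} (hF : F ∈ Fam n (n / 2 - r ^ 22)) :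
    n ≤ 300 * F.card := by
  rcases mem_Fam hF with ⟨k, hk, h1⟩ | ⟨F', ⟨k, hk, h1⟩, rfl⟩
  · exact fam_min (h.lev k hk.1 hk.2) h1
  · rw [card_image_of_injective _ sg_inj]
    exact fam_min (h.lev k hk.1 hk.2) h1

private theorem exists_Y {n r : ℕ} (h : Nums n r) (e : Edg n) (f : ℕ) :
    ∃ Y : Finset (Finset (Edg n)), (Y.card : ℝ) ≤ Real.exp (1 / (8 * (r : ℝ) ^ 36) * f) ∧
      ∀ F, (∃ k, (n / 2 - r ^ 22 ≤ k ∧ 2 * k < n) ∧ F ∈ famCut n k) → e ∈ F → F.card = f →
        F ∈ Y := by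
  by_cases hk : n / 2 - r ^ 22 ≤ e.1.card ∧ 2 * e.1.card < n
  · refine ⟨(famCut n e.1.card).filter (fun F => e ∈ F ∧ F.card = f),
      fam_count (h.lev _ hk.1 hk.2) r h.hr h.n1 h.hexp h.hlog e f, ?_⟩
    rintro F ⟨k, _, hF⟩ he hf
    have h1 : e.1.card = k := (lo_of_mem hF he).1
    rw [← h1] at hF
    exact mem_filter.2 ⟨hF, he, hf⟩
  · refine ⟨∅, ?_, ?_⟩
    · rw [card_empty, Nat.cast_zero]
      exact (Real.exp_pos _).le
    · rintro F ⟨k, hk', hF⟩ he _
      have h1 : e.1.card = k := (lo_of_mem hF he).1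
      rw [← h1] at hk'
      exact absurd hk' hk

theorem famall_count {n r : ℕ} (h : Nums n r) (e : Edg n) (f : ℕ) :
    (((Fam n (n / 2 - r ^ 22)).filter (fun F => e ∈ F ∧ F.card = f)).card : ℝ) ≤
      2 * Real.exp (1 / (8 * (r : ℝ) ^ 36) * f) := by
  classical
  obtain ⟨Y, hY, hY'⟩ := exists_Y h e f
  obtain ⟨Z, hZ, hZ'⟩ := exists_Y h (sg e) f
  have hsub : (Fam n (n / 2 - r ^ 22)).filter (fun F => e ∈ F ∧ F.card = f) ⊆
      Y ∪ Z.image (fun F => F.image sg) := by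
    intro F hF
    obtain ⟨h1, he, hf⟩ := mem_filter.1 hF
    rcases mem_Fam h1 with h2 | ⟨F', h2, rfl⟩
    · exact mem_union_left _ (hY' F h2 he hf)
    · refine mem_union_right _ (mem_image.2 ⟨F', hZ' F' h2 ?_ ?_, rfl⟩)
      · obtain ⟨e', he', rfl⟩ := mem_image.1 he
        rwa [sg_sg]
      · rw [card_image_of_injective _ sg_inj] at hf
        exact hf
  have h1 : ((Fam n (n / 2 - r ^ 22)).filter (fun F => e ∈ F ∧ F.card = f)).card ≤
      Y.card + Z.card :=
    (card_le_card hsub).trans ((card_union_le _ _).trans (Nat.add_le_add_left card_image_le _))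
  have h2 : (((Fam n (n / 2 - r ^ 22)).filter (fun F => e ∈ F ∧ F.card = f)).card : ℝ) ≤
      (Y.card : ℝ) + Z.card := by
    exact_mod_cast h1
  linarith

end Pool.Agent.SKA
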