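import Pool.Agent.SKA.SqCube
import Pool.Agent.SKA.FamAll

set_option autoImplicit false

/-!
# SKA Clean (package, 1.1 h): the cleaned colour classes still meet every cut

Proof. Let `F ∈ Fam n lo`, `Z = {e ∈ F : ω e = i ∧ InBad ω e}`, `h0 = ⌈ε|F|/M⌉₊`. CLAIM: `|Z| < h0`. Suppose `|Z| ≥ h0`, take `Z0 ⊆ Z`, `|Z0| = h0`, and for `e ∈ Z0` a square `s_e` with `Bad ω s_e` and
`e = p1 s_e ∨ e = p2 s_e` (`InBad`). The map `e ↦ s_e` is injective on `Z0`: if `s_e = s_{e'}`, `e ≠ e'`, then `{e, e'} = {p1 s, p2 s}` lie on different levels (`csq_lev`), but all elements of `F` lie on one level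
(`famall_lev`). So `T0 = Z0.image s` has `h0` elements, each `s ∈ T0` has `p1 s ∈ F ∨ p2 s ∈ F`, `Bad ω s`, `ω (p1 s) = ω (p2 s) = i` (`Bad`, and `ω e = i`).
Disjointness: let `s ≠ s' ∈ T0`, `g ∈ vars s ∩ vars s'`. Let `s1` be `s` or its swap (`csq_swap`) such that `g` is `p1 s1` or `p2 s1`; also `Bad ω s1`. The same for `s'`, `s1'`. By `GoodCol.sh`: `s1 = s1'`. So the colour of
the path `p` of `s1`... precisely: if both or none were swapped then `p1 s = p1 s'` etc. and (`s1 = s1'` with the same kind) we get: none swapped: `s = s'`, contradiction; both swapped: `q1 s = p1 s1 = p1 s1' = q1 s'`,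
`p1 s = q1 s1 = q1 s1' = p1 s'`, and `p2 s = p2 s'`; then `p1 s` is a common path-`p` edge of the bad squares `s`, `s'`, so `s = s'` by `sh`, contradiction. One swapped (say `s1 = s`, `s1'` = swap of `s'`):
`ω (p1 s) = ω (p1 s1') = ω (q1 s')`, but `ω (p1 s) = i = ω (p1 s') ≠ ω (q1 s')` (`Bad`), contradiction.
So `T0` contradicts `GoodCol.del`. Hence `|Z| ≤ h0 - 1 < ε|F|/M` (`Nat.ceil`), and
`|F ∩ Hc ω i| = |{e ∈ F : ω e = i}| - |Z| > (1-ε)|F|/M - ε|F|/M`.
-/

open Finset

namespace Pool.Agent.SKA

theorem clean_cut {n M T lo : ℕ} {ε : ℝ} {ω : Edg n → Fin M} (h : GoodCol n M T lo ε ω)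
    {F : Finset (Edg n)} (hF : F ∈ Fam n lo) (i : Fin M) :
    (1 - 2 * ε) / M * F.card ≤ ((F ∩ Hc ω i).card : ℝ) := by
  classical
  obtain ⟨Z, hZ⟩ : ∃ Z, Z = F.filter (fun e => ω e = i ∧ InBad ω e) := ⟨_, rfl⟩
  have hclaim : Z.card < ⌈ε * F.card / M⌉₊ := by
    by_contra hcon
    push Not at hcon
    obtain ⟨Z0, hZ0, hcard⟩ := exists_subset_card_eq hcon
    have hmem : ∀ e ∈ Z0, e ∈ F ∧ ω e = i ∧ InBad ω e := by
      intro e he
      have h1 := hZ0 he
      rw [hZ] at h1
      exact mem_filter.1 h1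
    have hch : ∀ e : Edg n, ∃ s : (CSq n).S, e ∈ Z0 →
        (CSq n).Bad ω s ∧ (e = (CSq n).p1 s ∨ e = (CSq n).p2 s) := by
      intro e
      by_cases he : e ∈ Z0
      · obtain ⟨s, hs⟩ := (hmem e he).2.2
        exact ⟨s, fun _ => hs⟩
      · by_cases hne : Nonempty (CSq n).S
        · exact ⟨hne.some, fun h0 => absurd h0 he⟩
        · exfalso
          have hpos : 0 < Z0.card ∨ Z0.card = 0 := by omega
          rcases hpos with hp | hp
          · obtain ⟨e', he'⟩ := card_pos.1 hp
            obtain ⟨s, _⟩ := (hmem e' he').2.2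
            exact hne ⟨s⟩
          · -- then the threshold is zero and the empty family contradicts `del`
            rw [hp] at hcard
            exact h.del F hF i ∅ (by rw [card_empty]; exact hcard)
              (fun s hs => absurd hs (notMem_empty s))
              (fun s hs => absurd hs (notMem_empty s))
              (fun s hs => absurd hs (notMem_empty s))
    choose f hf using hch
    have hcol : ∀ e ∈ Z0, ω ((CSq n).p1 (f e)) = i := by
      intro e he
      obtain ⟨hb, h1⟩ := hf e he
      rcases h1 with h1 | h1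
      · rw [← h1]
        exact (hmem e he).2.1
      · rw [hb.1, ← h1]
        exact (hmem e he).2.1
    obtain ⟨k, hk⟩ := famall_lev hF
    have hinj : Set.InjOn f (Z0 : Set (Edg n)) := by
      intro e he e' he' hee
      obtain ⟨_, h1⟩ := hf e he
      obtain ⟨_, h2⟩ := hf e' he'
      have k1 := (hk e (hmem e he).1).2
      have k2 := (hk e' (hmem e' he').1).2
      have k3 := (csq_lev (f e')).1
      rw [hee] at h1
      rcases h1 with h1 | h1 <;> rcases h2 with h2 | h2
      · rw [h1, ← h2]
      · rw [← h1, ← h2] at k3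
        omega
      · rw [← h1, ← h2] at k3
        omega
      · rw [h1, ← h2]
    refine h.del F hF i (Z0.image f) ?_ ?_ ?_ ?_
    · rw [card_image_of_injOn hinj]
      exact hcard
    · intro s hs
      obtain ⟨e, he, rfl⟩ := mem_image.1 hs
      rcases (hf e he).2 with h1 | h1
      · left
        rw [← h1]
        exact (hmem e he).1
      · right
        rw [← h1]
        exact (hmem e he).1
    · intro s hs s' hs' hne
      obtain ⟨e, he, rfl⟩ := mem_image.1 hs
      obtain ⟨e', he', rfl⟩ := mem_image.1 hs'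
      have hb := (hf e he).1
      have hb' := (hf e' he').1
      have hc := hcol e he
      have hc' := hcol e' he'
      rw [disjoint_left]
      intro g hg hg'
      simp only [SqSys.vars, mem_insert, mem_singleton] at hg hg'
      have hp : ∀ s : (CSq n).S, (CSq n).Bad ω s → ω ((CSq n).p1 s) = i →
          (g = (CSq n).p1 s ∨ g = (CSq n).p2 s) → ω g = i := by
        intro s hs hc hg
        rcases hg with hg | hg
        · rw [hg, hc]
        · rw [hg, ← hs.1, hc]
      have hq : ∀ s : (CSq n).S, (CSq n).Bad ω s → ω ((CSq n).p1 s) = i →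
          (g = (CSq n).q1 s ∨ g = (CSq n).q2 s) → ω g ≠ i := by
        intro s hs hc hg h0
        rcases hg with hg | hg
        · rw [hg] at h0
          exact hs.2.2 (hc.trans h0.symm)
        · rw [hg, ← hs.2.1] at h0
          exact hs.2.2 (hc.trans h0.symm)
      have hg1 : (g = (CSq n).p1 (f e) ∨ g = (CSq n).p2 (f e)) ∨
          (g = (CSq n).q1 (f e) ∨ g = (CSq n).q2 (f e)) := by tauto
      have hg1' : (g = (CSq n).p1 (f e') ∨ g = (CSq n).p2 (f e')) ∨
          (g = (CSq n).q1 (f e') ∨ g = (CSq n).q2 (f e')) := by tauto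
      rcases hg1 with hg1 | hg1 <;> rcases hg1' with hg2 | hg2
      · exact hne (h.sh _ _ g hg1 hg2 hb hb')
      · exact hq _ hb' hc' hg2 (hp _ hb hc hg1)
      · exact hq _ hb hc hg1 (hp _ hb' hc' hg2)
      · obtain ⟨t, t1, t2, t3, t4⟩ := csq_swap (f e)
        obtain ⟨t', t1', t2', t3', t4'⟩ := csq_swap (f e')
        have hbt : (CSq n).Bad ω t := by
          refine ⟨?_, ?_, ?_⟩
          · rw [t1, t2]
            exact hb.2.1
          · rw [t3, t4]
            exact hb.1
          · rw [t1, t3]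
            exact hb.2.2.symm
        have hbt' : (CSq n).Bad ω t' := by
          refine ⟨?_, ?_, ?_⟩
          · rw [t1', t2']
            exact hb'.2.1
          · rw [t3', t4']
            exact hb'.1
          · rw [t1', t3']
            exact hb'.2.2.symm
        have htt : t = t' := h.sh t t' g (by rw [t1, t2]; exact hg1) (by rw [t1', t2']; exact hg2)
          hbt hbt'
        have h5 : (CSq n).p1 (f e) = (CSq n).p1 (f e') := by
          rw [← t3, ← t3', htt]
        exact hne (h.sh _ _ ((CSq n).p1 (f e)) (Or.inl rfl) (Or.inl h5) hb hb')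
    · intro s hs
      obtain ⟨e, he, rfl⟩ := mem_image.1 hs
      exact ⟨(hf e he).1, hcol e he⟩
  have hlt : (Z.card : ℝ) < ε * F.card / M := Nat.lt_ceil.1 hclaim
  have hsub : F.filter (fun e => ω e = i) ⊆ Z ∪ (F ∩ Hc ω i) := by
    intro e he
    obtain ⟨h1, h2⟩ := mem_filter.1 he
    by_cases hb : InBad ω e
    · refine mem_union_left _ ?_
      rw [hZ]
      exact mem_filter.2 ⟨h1, h2, hb⟩
    · refine mem_union_right _ (mem_inter.2 ⟨h1, ?_⟩)
      unfold Hc
      exact mem_filter.2 ⟨mem_univ _, h2, hb⟩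
  have h1 : (F.filter (fun e => ω e = i)).card ≤ Z.card + (F ∩ Hc ω i).card :=
    (card_le_card hsub).trans (card_union_le _ _)
  have h2 : ((F.filter (fun e => ω e = i)).card : ℝ) ≤ (Z.card : ℝ) + (F ∩ Hc ω i).card := by
    exact_mod_cast h1
  have h3 := h.cut F hF i
  have h4 : (1 - 2 * ε) / M * F.card = (1 - ε) * F.card / M - ε * F.card / M := by ring
  rw [h4]
  linarith

end Pool.Agent.SKA
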