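import Pool.Agent.SKA.Defs

set_option autoImplicit false

/-!
# SKA CodeConn (package, 0.6 h): the code of an indecomposable set is connected in the distance `≤ 3`

Proof. `Q = S ∪ R0`.
(near) Let `w ∈ W = N(S) Δ R0`. Either `w ∈ N(S)`: then `w` is adjacent to some `s ∈ S ⊆ Q`; or `w ∈ R0 ⊆ Q`.
(conn) Let `∅ ≠ Q1 ⊊ Q` (as subset), `Q2 = Q \ Q1` and suppose that no `q1 ∈ Q1`, `q2 ∈ Q2` are joined by three lazy
steps. Put `W1 = {w ∈ W : ∃ q ∈ Q1, Lz q w}`, `W2` likewise with `Q2`. By (near) `W = W1 ∪ W2`. `W1 ∩ W2 = ∅`: otherwise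
`q1, w, q2` would be two lazy steps. No edge `a b` between `W1` and `W2`: `q1, a, b, q2` would be three lazy steps.
`W1` is nonempty: take `q ∈ Q1`. If `q ∈ W` then `q ∈ W1`. If `q ∉ W` then `q ∉ S` (as `S ⊆ W`), so `q ∈ R0`, and
`q ∉ N(S) Δ R0` gives `q ∈ N(S)`; let `s ∈ S ⊆ W` be adjacent to `q`; `s ∈ Q`, and `s ∉ Q2` (one step), so `s ∈ Q1 ∩ W ⊆ W1`.
In the same way `W2 ≠ ∅`, so `W1 ≠ W`. This contradicts `Indec G W` for `W1`.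
-/

open Finset

namespace Pool.Agent.SKA

variable {V : Type} [Fintype V] [DecidableEq V] (G : SimpleGraph V)

omit [DecidableEq V] in
private theorem mem_nbS {S : Finset V} {v : V} (h : v ∈ NbS G S) : ∃ s ∈ S, G.Adj s v := by
  classical
  unfold NbS at h
  rw [mem_filter] at h
  exact h.2

theorem code_near {W S R0 : Finset V} (hW : W = symmDiff (NbS G S) R0) {w : V} (hw : w ∈ W) :
    ∃ q ∈ S ∪ R0, Lz G q w := by
  rw [hW, mem_symmDiff] at hw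
  rcases hw with ⟨h1, -⟩ | ⟨h1, -⟩
  · obtain ⟨s, hs, h2⟩ := mem_nbS G h1
    exact ⟨s, mem_union_left _ hs, Or.inr h2⟩
  · exact ⟨w, mem_union_right _ h1, Or.inl rfl⟩

omit [Fintype V] [DecidableEq V] in
private theorem lz_symm {a b : V} (h : Lz G a b) : Lz G b a := by
  rcases h with h | h
  · exact Or.inl h.symm
  · exact Or.inr h.symm

private theorem code_near' {W S R0 : Finset V} (hS : S ⊆ W)
    (hW : W = symmDiff (NbS G S) R0) {q : V} (hq : q ∈ S ∪ R0) : ∃ w ∈ W, Lz G q w := by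
  by_cases h1 : q ∈ W
  · exact ⟨q, h1, Or.inl rfl⟩
  · rcases mem_union.1 hq with h2 | h2
    · exact absurd (hS h2) h1
    · have h3 : q ∈ NbS G S := by
        by_contra h3
        apply h1
        rw [hW, mem_symmDiff]
        exact Or.inr ⟨h2, h3⟩
      obtain ⟨s, hs, h4⟩ := mem_nbS G h3
      exact ⟨s, hS hs, Or.inr h4.symm⟩

theorem code_conn {W S R0 : Finset V} (hI : Indec G W) (hS : S ⊆ W)
    (hW : W = symmDiff (NbS G S) R0) :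
    ∀ Q1 ⊆ S ∪ R0, Q1.Nonempty → Q1 ≠ S ∪ R0 → ∃ q1 ∈ Q1, ∃ q2 ∈ S ∪ R0, q2 ∉ Q1 ∧
      ∃ a b, Lz G q1 a ∧ Lz G a b ∧ Lz G b q2 := by
  classical
  intro Q1 hQ hne hneq
  by_contra hcon
  have h3 : ∀ q1 ∈ Q1, ∀ q2 ∈ S ∪ R0, q2 ∉ Q1 → ∀ a b, Lz G q1 a → Lz G a b → ¬ Lz G b q2 :=
    fun q1 h1 q2 h2 h2' a b ha hab hb => hcon ⟨q1, h1, q2, h2, h2', a, b, ha, hab, hb⟩
  obtain ⟨W1, hW1⟩ : ∃ W1 : Finset V, W1 = W.filter (fun w => ∃ q ∈ Q1, Lz G q w) := ⟨_, rfl⟩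
  have hmem : ∀ w, w ∈ W1 ↔ w ∈ W ∧ ∃ q ∈ Q1, Lz G q w := by
    intro w
    rw [hW1, mem_filter]
  have hsub : W1 ⊆ W := fun w hw => ((hmem w).1 hw).1
  have hne1 : W1.Nonempty := by
    obtain ⟨q, hq⟩ := hne
    obtain ⟨w, hw, hz⟩ := code_near' G hS hW (hQ hq)
    exact ⟨w, (hmem w).2 ⟨hw, q, hq, hz⟩⟩
  have hneW : W1 ≠ W := by
    intro he
    obtain ⟨q2, hq2, hq2'⟩ := Finset.exists_of_ssubset (hQ.ssubset_of_ne hneq)
    obtain ⟨w, hw, hz⟩ := code_near' G hS hW hq2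
    rw [← he, hmem] at hw
    obtain ⟨-, q1, hq1, hz1⟩ := hw
    exact h3 q1 hq1 q2 hq2 hq2' w w hz1 (Or.inl rfl) (lz_symm G hz)
  obtain ⟨a, ha, b, hb, hb1, hab⟩ := hI.2 W1 hsub hne1 hneW
  obtain ⟨-, q1, hq1, hz1⟩ := (hmem a).1 ha
  obtain ⟨q2, hq2, hz2⟩ := code_near G hW hb
  have hq2' : q2 ∉ Q1 := fun h => hb1 ((hmem b).2 ⟨hb, q2, h, hz2⟩)
  exact h3 q1 hq1 q2 hq2 hq2' a b hz1 (Or.inr hab) (lz_symm G hz2)

end Pool.Agent.SKA
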