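import Pool.Agent.SKA.Walk
import Pool.Agent.SKA.CodeConn

set_option autoImplicit false

/-!
# SKA Count (package, 1.2 h): number of indecomposable sets with a short code

Proof. For every vertex `u` the closed neighbourhood `{u' : Lz G u u'}` has at most `Δ + 1` elements, so there is
`nb : V → Fin (Δ+1) → V` with: `Lz G u u' → ∃ c, nb u c = u'` (choose a surjection; `V` is nonempty because of `v`).
Alphabet `Λ = Fin (Δ+1) × Bool × Bool`, `|Λ| = 4(Δ+1)`; words `Fin (6t+1) → Λ`. Decoding of a word `c` from `v`: positions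
`p 0 = v`, `p (j+1) = nb (p j) (c j).1` (`j < 6t+1`), `S(c) = {p (j+1) : (c j).2.1 = true}`, `R0(c) = {p (j+1) : (c j).2.2 = true}`,
`W(c) = symmDiff (NbS G (S(c))) (R0(c))`.
CLAIM: every `W` of the family is `W(c)` for some word `c`. Let `S, R0` be as in the hypothesis, `Q = S ∪ R0`, `1 ≤ |Q| ≤ t`.
By `code_near` there is `q0 ∈ Q` with `Lz G q0 v`, so `Lz G v q0`. By `exists_walk` (with `code_conn`) there is a lazy walk
`P` from `q0` that visits all of `Q` at times `≤ 6(|Q|-1) ≤ 6t - 6`. Take the walk `p 0 = v`, `p (j+1) = P j` for `j < 6t+1`, choose the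
letters accordingly, with the marks `(c j).2.1 = true ↔ P j ∈ S`, `(c j).2.2 = true ↔ P j ∈ R0`. Then `S(c) = S`, `R0(c) = R0`.
So the family has at most `|Λ|^(6t+1)` members.
-/

open Finset

namespace Pool.Agent.SKA

variable {V : Type} [Fintype V] [DecidableEq V] (G : SimpleGraph V)

/-- Positions of a word. -/
def countPos {A : Type} (nb : V → A → V) (v : V) {m : ℕ} (c : Fin m → A × Bool × Bool) : ℕ → V
  | 0 => v
  | j + 1 => if h : j < m then nb (countPos nb v c j) (c ⟨j, h⟩).1 else countPos nb v c j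

open Classical in
theorem count_exists_nb (Δ : ℕ) (hdeg : ∀ u, dg G u ≤ Δ) (u : V) :
    ∃ f : Fin (Δ + 1) → V, ∀ u', Lz G u u' → ∃ c, f c = u' := by
  set N : Finset V := univ.filter (fun u' => Lz G u u') with hN
  have hcard : N.card ≤ Δ + 1 := by
    have hsub : N ⊆ insert u (univ.filter (fun w => G.Adj u w)) := by
      intro x hx
      rw [hN, mem_filter] at hx
      rcases hx.2 with h | h
      · subst h
        exact mem_insert_self _ _
      · exact mem_insert_of_mem (mem_filter.mpr ⟨mem_univ _, h⟩)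
    refine (card_le_card hsub).trans ((card_insert_le _ _).trans ?_)
    have := hdeg u
    unfold dg at this
    omega
  refine ⟨fun c => if h : (c : ℕ) < N.card then (N.equivFin.symm ⟨c, h⟩).1 else u, ?_⟩
  intro u' hu'
  have hmem : u' ∈ N := by
    rw [hN, mem_filter]
    exact ⟨mem_univ _, hu'⟩
  have hlt : ((N.equivFin ⟨u', hmem⟩ : Fin N.card) : ℕ) < N.card := (N.equivFin ⟨u', hmem⟩).2
  refine ⟨⟨(N.equivFin ⟨u', hmem⟩ : Fin N.card), by omega⟩, ?_⟩
  simp

open Classical in
theorem count_indec (Δ : ℕ) (hdeg : ∀ u, dg G u ≤ Δ) (v : V) (t : ℕ) :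
    ((univ : Finset (Finset V)).filter (fun W => Indec G W ∧ v ∈ W ∧
      ∃ S R0 : Finset V, S ⊆ W ∧ W = symmDiff (NbS G S) R0 ∧ (S ∪ R0).Nonempty ∧
        (S ∪ R0).card ≤ t)).card ≤ (4 * (Δ + 1)) ^ (6 * t + 1) := by
  choose nb hnb using count_exists_nb G Δ hdeg
  let dS : (Fin (6 * t + 1) → Fin (Δ + 1) × Bool × Bool) → Finset V := fun c =>
    univ.filter (fun x => ∃ j : Fin (6 * t + 1), countPos nb v c ((j : ℕ) + 1) = x ∧ (c j).2.1 = true)
  let dR : (Fin (6 * t + 1) → Fin (Δ + 1) × Bool × Bool) → Finset V := fun c =>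
    univ.filter (fun x => ∃ j : Fin (6 * t + 1), countPos nb v c ((j : ℕ) + 1) = x ∧ (c j).2.2 = true)
  let dW : (Fin (6 * t + 1) → Fin (Δ + 1) × Bool × Bool) → Finset V := fun c =>
    symmDiff (NbS G (dS c)) (dR c)
  have hcardw : (univ : Finset (Fin (6 * t + 1) → Fin (Δ + 1) × Bool × Bool)).card =
      (4 * (Δ + 1)) ^ (6 * t + 1) := by
    rw [card_univ, Fintype.card_fun, Fintype.card_prod, Fintype.card_prod, Fintype.card_bool,
      Fintype.card_fin, Fintype.card_fin]
    congr 1
    ring
  rw [← hcardw]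
  refine (card_le_card ?_).trans (card_image_le (s := univ) (f := dW))
  intro W hW
  rw [mem_filter] at hW
  obtain ⟨-, hI, hv, S, R0, hSW, hWd, hne, hcard⟩ := hW
  rw [mem_image]
  obtain ⟨q0, hq0, hq0v⟩ := code_near G hWd hv
  obtain ⟨P, hP0, hPl, hPv⟩ := exists_walk G (S ∪ R0) (code_conn G hI hSW hWd) q0 hq0
  -- the walk with the starting point
  let p' : ℕ → V := fun j => match j with
    | 0 => v
    | j + 1 => P j
  have hp' : ∀ j, Lz G (p' j) (p' (j + 1)) := by
    intro j
    cases j with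
    | zero =>
      change Lz G v (P 0)
      rw [hP0]
      rcases hq0v with h | h
      · exact Or.inl h.symm
      · exact Or.inr h.symm
    | succ j => exact hPl j
  have hch : ∀ j, ∃ c : Fin (Δ + 1), nb (p' j) c = p' (j + 1) := fun j => hnb _ _ (hp' j)
  choose cc hcc using hch
  let c : Fin (6 * t + 1) → Fin (Δ + 1) × Bool × Bool := fun j =>
    (cc j, decide (P j ∈ S), decide (P j ∈ R0))
  have hpos : ∀ j, j ≤ 6 * t + 1 → countPos nb v c j = p' j := by
    intro j
    induction j with
    | zero => intro _; rfl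
    | succ j ih =>
      intro hj
      have hj' : j < 6 * t + 1 := by omega
      rw [countPos, dif_pos hj', ih (by omega)]
      exact hcc j
  have hposP : ∀ j : Fin (6 * t + 1), countPos nb v c ((j : ℕ) + 1) = P j := by
    intro j
    rw [hpos _ (by have := j.2; omega)]
  have hvis : ∀ q ∈ S ∪ R0, ∃ j : Fin (6 * t + 1), P j = q := by
    intro q hq
    obtain ⟨j, hj, hjq⟩ := hPv q hq
    exact ⟨⟨j, by omega⟩, hjq⟩
  have hS : dS c = S := by
    ext x
    simp only [dS, mem_filter, mem_univ, true_and]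
    constructor
    · rintro ⟨j, hj, hjt⟩
      rw [hposP] at hj
      have : P j ∈ S := of_decide_eq_true hjt
      rwa [hj] at this
    · intro hx
      obtain ⟨j, hj⟩ := hvis x (mem_union_left _ hx)
      refine ⟨j, by rw [hposP, hj], ?_⟩
      change decide (P j ∈ S) = true
      rw [hj]
      exact decide_eq_true hx
  have hR : dR c = R0 := by
    ext x
    simp only [dR, mem_filter, mem_univ, true_and]
    constructor
    · rintro ⟨j, hj, hjt⟩
      rw [hposP] at hj
      have : P j ∈ R0 := of_decide_eq_true hjt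
      rwa [hj] at this
    · intro hx
      obtain ⟨j, hj⟩ := hvis x (mem_union_right _ hx)
      refine ⟨j, by rw [hposP, hj], ?_⟩
      change decide (P j ∈ R0) = true
      rw [hj]
      exact decide_eq_true hx
  refine ⟨c, mem_univ _, ?_⟩
  change symmDiff (NbS G (dS c)) (dR c) = W
  rw [hS, hR, ← hWd]

end Pool.Agent.SKA
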