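import Pool.Agent.SKA.BdCut

set_option autoImplicit false

/-!
# SKA CutDiff (package, 0.7 h): degree count

Proof. Let `X = W ∩ Lv n k`, `Y = W ∩ Vp n k`, `m0 = |{(A,D) : Lo n k A D, A ∈ W, D ∈ W}|`.
Counting the pairs `(A,D)` with `Lo n k A D`, `A ∈ W`:
`∑_{A ∈ X} dg (LG n k) A = m0 + |cutU n k W|` (for `|A| = k` the neighbours in `LG n k` are the `D`
with `Lo n k A D`), and the left side is `≥ (k+1)|X|` by `dg_low2`.
Counting the pairs with `D ∈ W`: `∑_{D ∈ Y} dg (LG n k) D = m0 + |cutV n k W|`, and it equals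
`(k+1)|Y|` by `dg_up`. (If `Lo n k A D` and `D ∈ W` then `D ∈ Vp n k`.)
Hence `(k+1)|X| + |cutV| ≤ m0 + |cutU| + |cutV| = (k+1)|Y| + |cutU|`.
-/

open Finset

namespace Pool.Agent.SKA

open Classical in
theorem cut_diff {n k : ℕ} (h : 2 * k < n) (W : Finset (Finset (Fin n))) :
    (k + 1) * (W ∩ Lv n k).card + (cutV n k W).card ≤
      (k + 1) * (W ∩ Vp n k).card + (cutU n k W).card := by
  obtain ⟨E1, hE1⟩ : ∃ E1 : Finset (Edg n), E1 =
      univ.filter (fun e : Edg n => Lo n k e.1 e.2 ∧ e.1 ∈ W) := ⟨_, rfl⟩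
  obtain ⟨E2, hE2⟩ : ∃ E2 : Finset (Edg n), E2 =
      univ.filter (fun e : Edg n => Lo n k e.1 e.2 ∧ e.2 ∈ W) := ⟨_, rfl⟩
  have c1 : E1.card = ∑ A ∈ W ∩ Lv n k, dg (LG n k) A := by
    rw [Finset.card_eq_sum_card_fiberwise (f := Prod.fst) (t := W ∩ Lv n k)]
    · refine Finset.sum_congr rfl fun A hA => ?_
      obtain ⟨hAW, hAL⟩ := Finset.mem_inter.1 hA
      have hAk : A.card = k := (Finset.mem_filter.1 hAL).2
      unfold dg
      refine Finset.card_bij (fun e _ => e.2) ?_ ?_ ?_
      · intro e he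
        rw [hE1, Finset.mem_filter, Finset.mem_filter] at he
        obtain ⟨⟨-, h1, h2⟩, h3⟩ := he
        rw [Finset.mem_filter]
        refine ⟨Finset.mem_univ _, Or.inl ?_⟩
        rw [← h3]
        exact h1
      · intro e he e' he' h1
        rw [Finset.mem_filter] at he he'
        exact Prod.ext (he.2.trans he'.2.symm) h1
      · intro D hD
        have hD' := (Finset.mem_filter.1 hD).2
        have hLo : Lo n k A D := by
          rcases hD' with h1 | h1
          · exact h1
          · have h2 := h1.2.1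
            omega
        refine ⟨(A, D), ?_, rfl⟩
        rw [hE1, Finset.mem_filter, Finset.mem_filter]
        exact ⟨⟨Finset.mem_univ _, hLo, hAW⟩, rfl⟩
    · intro e he
      rw [Finset.mem_coe, hE1, Finset.mem_filter] at he
      rw [Finset.mem_coe, Finset.mem_inter]
      exact ⟨he.2.2, Finset.mem_filter.2 ⟨Finset.mem_univ _, he.2.1.1⟩⟩
  have c2 : E2.card = ∑ D ∈ W ∩ Vp n k, dg (LG n k) D := by
    rw [Finset.card_eq_sum_card_fiberwise (f := Prod.snd) (t := W ∩ Vp n k)]
    · refine Finset.sum_congr rfl fun D hD => ?_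
      obtain ⟨hDW, hDV⟩ := Finset.mem_inter.1 hD
      have hDk : D.card = k + 1 :=
        (Finset.mem_filter.1 (Finset.mem_filter.1 hDV).1).2
      unfold dg
      refine Finset.card_bij (fun e _ => e.1) ?_ ?_ ?_
      · intro e he
        rw [hE2, Finset.mem_filter, Finset.mem_filter] at he
        obtain ⟨⟨-, h1, h2⟩, h3⟩ := he
        rw [Finset.mem_filter]
        refine ⟨Finset.mem_univ _, Or.inr ?_⟩
        rw [← h3]
        exact h1
      · intro e he e' he' h1
        rw [Finset.mem_filter] at he he'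
        exact Prod.ext h1 (he.2.trans he'.2.symm)
      · intro A hA
        have hA' := (Finset.mem_filter.1 hA).2
        have hLo : Lo n k A D := by
          rcases hA' with h1 | h1
          · have h2 := h1.1
            omega
          · exact h1
        refine ⟨(A, D), ?_, rfl⟩
        rw [hE2, Finset.mem_filter, Finset.mem_filter]
        exact ⟨⟨Finset.mem_univ _, hLo, hDW⟩, rfl⟩
    · intro e he
      rw [Finset.mem_coe, hE2, Finset.mem_filter] at he
      rw [Finset.mem_coe, Finset.mem_inter]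
      refine ⟨he.2.2, Finset.mem_filter.2 ⟨Finset.mem_filter.2 ⟨Finset.mem_univ _, ?_⟩, ?_⟩⟩
      · exact he.2.1.2.1
      · exact he.2.1.2.2.2
  have d1 : (E1.filter fun e => e.2 ∈ W).card + (cutU n k W).card = E1.card := by
    rw [← Finset.card_filter_add_card_filter_not (s := E1) (fun e => e.2 ∈ W)]
    congr 2
    ext e
    unfold cutU
    rw [hE1, Finset.mem_filter, Finset.mem_filter, Finset.mem_filter]
    tauto
  have d2 : (E2.filter fun e => e.1 ∈ W).card + (cutV n k W).card = E2.card := by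
    rw [← Finset.card_filter_add_card_filter_not (s := E2) (fun e => e.1 ∈ W)]
    congr 2
    ext e
    unfold cutV
    rw [hE2, Finset.mem_filter, Finset.mem_filter, Finset.mem_filter]
    tauto
  have d3 : (E1.filter fun e => e.2 ∈ W) = E2.filter fun e => e.1 ∈ W := by
    ext e
    rw [hE1, hE2, Finset.mem_filter, Finset.mem_filter, Finset.mem_filter, Finset.mem_filter]
    tauto
  have b1 : (k + 1) * (W ∩ Lv n k).card ≤ E1.card := by
    rw [c1, mul_comm, ← smul_eq_mul, ← Finset.sum_const]
    exact Finset.sum_le_sum fun A hA =>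
      dg_low2 h (Finset.mem_filter.1 (Finset.mem_inter.1 hA).2).2
  have b2 : (k + 1) * (W ∩ Vp n k).card = E2.card := by
    rw [c2, Finset.sum_congr rfl fun D hD => dg_up (Finset.mem_inter.1 hD).2, Finset.sum_const,
      smul_eq_mul, mul_comm]
  rw [d3] at d1
  omega

end Pool.Agent.SKA
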