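import Pool.Agent.SKA.Defs

set_option autoImplicit false

/-!
# SKA CutInd (package, 1.2 h): from the indecomposable small sets to all sets

Proof. CLAIM: for every `W` with `Small n k W`: `κ (|cutU W| - |cutV W|) ≤ |cutU W ∩ H|` and `κ (|cutV W| - |cutU W|) ≤ |cutV W ∩ H|`.
Strong induction on `|W|`. `W = ∅`: all cuts are empty. If `W` is indecomposable: for the first inequality: if `|cutU W| ≤ |cutV W|` the left side is `≤ 0`; otherwise
`F = cutU n k W ∈ famCut n k`, so `|F ∩ H| ≥ κ|F| ≥ κ(|cutU W| - |cutV W|)`. The second one is the same with `cutV`.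
If `W` is nonempty and not indecomposable: there is `W1 ⊆ W`, `W1 ≠ ∅`, `W1 ≠ W` without edges of `LG n k` between `W1` and `W2 = W \ W1`. Both are `Small` (subsets of `W`) and smaller.
`cutU W` is the disjoint union of `cutU W1` and `cutU W2`: `(A,D) ∈ cutU W`, say `A ∈ W1`; `D ∉ W` so `D ∉ W1`. Conversely if `(A,D) ∈ cutU W1` then `D ∉ W1` and `D ∉ W2` (no edge
between `W1` and `W2`), so `D ∉ W`. The same for `cutV`. So both sides of both inequalities are additive.
GENERAL `W ⊆ Lv n k ∪ Vp n k`: if `Small n k W`, done. Otherwise `Z = (Lv n k ∪ Vp n k) \ W` is small (`Lv n k` and `Vp n k` are disjoint), and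
`cutU n k W = cutV n k Z`, `cutV n k W = cutU n k Z` (for `Lo n k A D`: `A ∈ Lv n k`, `D ∈ Vp n k`, so `A ∉ Z ↔ A ∈ W` etc.); use the second inequality for `Z`.
-/

open Finset

namespace Pool.Agent.SKA

private theorem ci_mem {n k : ℕ} {A D : Finset (Fin n)} (h : Lo n k A D) :
    A ∈ Lv n k ∧ D ∈ Vp n k := by
  classical
  obtain ⟨h1, h2, h3, h4⟩ := h
  constructor
  · exact Finset.mem_filter.2 ⟨Finset.mem_univ _, h1⟩
  · unfold Vp
    rw [Finset.mem_filter]
    exact ⟨Finset.mem_filter.2 ⟨Finset.mem_univ _, h2⟩, h4⟩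

private theorem ci_memU {n k : ℕ} {W : Finset (Finset (Fin n))} {e : Edg n} :
    e ∈ cutU n k W ↔ Lo n k e.1 e.2 ∧ e.1 ∈ W ∧ e.2 ∉ W := by
  classical
  unfold cutU
  rw [Finset.mem_filter]
  exact ⟨fun h => h.2, fun h => ⟨Finset.mem_univ _, h⟩⟩

private theorem ci_memV {n k : ℕ} {W : Finset (Finset (Fin n))} {e : Edg n} :
    e ∈ cutV n k W ↔ Lo n k e.1 e.2 ∧ e.1 ∉ W ∧ e.2 ∈ W := by
  classical
  unfold cutV
  rw [Finset.mem_filter]
  exact ⟨fun h => h.2, fun h => ⟨Finset.mem_univ _, h⟩⟩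

private theorem ci_card {n : ℕ} {C C1 C2 H : Finset (Edg n)} (h : ∀ e, e ∈ C ↔ e ∈ C1 ∨ e ∈ C2)
    (hd : ∀ e, e ∈ C1 → e ∈ C2 → False) :
    C.card = C1.card + C2.card ∧ (C ∩ H).card = (C1 ∩ H).card + (C2 ∩ H).card := by
  constructor
  · rw [← Finset.card_union_of_disjoint]
    · congr 1
      ext e
      rw [Finset.mem_union, h]
    · exact Finset.disjoint_left.2 fun e h1 h2 => hd e h1 h2
  · rw [← Finset.card_union_of_disjoint]
    · congr 1
      ext e
      rw [Finset.mem_union, Finset.mem_inter, Finset.mem_inter, Finset.mem_inter, h]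
      tauto
    · exact Finset.disjoint_left.2 fun e h1 h2 =>
        hd e (Finset.mem_inter.1 h1).1 (Finset.mem_inter.1 h2).1

private theorem ci_split {n k : ℕ} {W W1 W2 : Finset (Finset (Fin n))}
    (hW : ∀ A, A ∈ W ↔ A ∈ W1 ∨ A ∈ W2) (hd : ∀ A, A ∈ W1 → A ∈ W2 → False)
    (hno : ∀ a ∈ W1, ∀ b ∈ W2, ¬ (LG n k).Adj a b) :
    ((∀ e, e ∈ cutU n k W ↔ e ∈ cutU n k W1 ∨ e ∈ cutU n k W2) ∧
      (∀ e, e ∈ cutU n k W1 → e ∈ cutU n k W2 → False)) ∧
    ((∀ e, e ∈ cutV n k W ↔ e ∈ cutV n k W1 ∨ e ∈ cutV n k W2) ∧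
      (∀ e, e ∈ cutV n k W1 → e ∈ cutV n k W2 → False)) := by
  have hno1 : ∀ a ∈ W1, ∀ b ∈ W2, ¬ Lo n k a b := fun a ha b hb h => hno a ha b hb (Or.inl h)
  have hno2 : ∀ a ∈ W1, ∀ b ∈ W2, ¬ Lo n k b a := fun a ha b hb h => hno a ha b hb (Or.inr h)
  refine ⟨⟨?_, ?_⟩, ⟨?_, ?_⟩⟩
  · intro e
    rw [ci_memU, ci_memU, ci_memU, hW, hW]
    constructor
    · rintro ⟨h1, h2 | h2, h3⟩
      · exact Or.inl ⟨h1, h2, fun h => h3 (Or.inl h)⟩
      · exact Or.inr ⟨h1, h2, fun h => h3 (Or.inr h)⟩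
    · rintro (⟨h1, h2, h3⟩ | ⟨h1, h2, h3⟩)
      · exact ⟨h1, Or.inl h2, fun h => h.elim h3 fun h4 => hno1 _ h2 _ h4 h1⟩
      · exact ⟨h1, Or.inr h2, fun h => h.elim (fun h4 => hno2 _ h4 _ h2 h1) h3⟩
  · intro e h1 h2
    exact hd _ (ci_memU.1 h1).2.1 (ci_memU.1 h2).2.1
  · intro e
    rw [ci_memV, ci_memV, ci_memV, hW, hW]
    constructor
    · rintro ⟨h1, h2, h3 | h3⟩
      · exact Or.inl ⟨h1, fun h => h2 (Or.inl h), h3⟩
      · exact Or.inr ⟨h1, fun h => h2 (Or.inr h), h3⟩
    · rintro (⟨h1, h2, h3⟩ | ⟨h1, h2, h3⟩)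
      · exact ⟨h1, fun h => h.elim h2 fun h4 => hno2 _ h3 _ h4 h1, Or.inl h3⟩
      · exact ⟨h1, fun h => h.elim (fun h4 => hno1 _ h4 _ h3 h1) h2, Or.inr h3⟩
  · intro e h1 h2
    exact hd _ (ci_memV.1 h1).2.2 (ci_memV.1 h2).2.2

private theorem ci_small {n k : ℕ} (H : Finset (Edg n)) (κ : ℝ) (hκ : 0 ≤ κ)
    (hF : ∀ F ∈ famCut n k, κ * F.card ≤ ((F ∩ H).card : ℝ)) (N : ℕ) :
    ∀ W : Finset (Finset (Fin n)), W.card ≤ N → Small n k W →
      κ * (((cutU n k W).card : ℝ) - (cutV n k W).card) ≤ ((cutU n k W ∩ H).card : ℝ) ∧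
      κ * (((cutV n k W).card : ℝ) - (cutU n k W).card) ≤ ((cutV n k W ∩ H).card : ℝ) := by
  classical
  induction N with
  | zero =>
    intro W h0 _
    have hW : W = ∅ := Finset.card_eq_zero.1 (Nat.le_zero.1 h0)
    subst hW
    have e1 : cutU n k (∅ : Finset (Finset (Fin n))) = ∅ := by
      apply Finset.eq_empty_of_forall_notMem
      intro e he
      exact absurd (ci_memU.1 he).2.1 (Finset.notMem_empty _)
    have e2 : cutV n k (∅ : Finset (Finset (Fin n))) = ∅ := by
      apply Finset.eq_empty_of_forall_notMem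
      intro e he
      exact absurd (ci_memV.1 he).2.2 (Finset.notMem_empty _)
    rw [e1, e2]
    simp
  | succ N ih =>
    intro W hN hS
    by_cases hle : W.card ≤ N
    · exact ih W hle hS
    have hne : W.Nonempty := by
      rw [← Finset.card_pos]
      omega
    by_cases hI : Indec (LG n k) W
    · have hU : (cutV n k W).card ≤ (cutU n k W).card →
          κ * ((cutU n k W).card : ℝ) ≤ ((cutU n k W ∩ H).card : ℝ) := by
        intro h
        apply hF
        unfold famCut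
        rw [Finset.mem_filter]
        exact ⟨Finset.mem_univ _, W, hS, hI, Or.inl ⟨rfl, h⟩⟩
      have hV : (cutU n k W).card ≤ (cutV n k W).card →
          κ * ((cutV n k W).card : ℝ) ≤ ((cutV n k W ∩ H).card : ℝ) := by
        intro h
        apply hF
        unfold famCut
        rw [Finset.mem_filter]
        exact ⟨Finset.mem_univ _, W, hS, hI, Or.inr ⟨rfl, h⟩⟩
      constructor
      · by_cases h : (cutV n k W).card ≤ (cutU n k W).card
        · refine le_trans (mul_le_mul_of_nonneg_left ?_ hκ) (hU h)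
          have : (0 : ℝ) ≤ (cutV n k W).card := Nat.cast_nonneg _
          linarith
        · have h' : ((cutU n k W).card : ℝ) ≤ (cutV n k W).card := by
            exact_mod_cast (not_le.1 h).le
          exact le_trans (mul_nonpos_of_nonneg_of_nonpos hκ (by linarith)) (Nat.cast_nonneg _)
      · by_cases h : (cutU n k W).card ≤ (cutV n k W).card
        · refine le_trans (mul_le_mul_of_nonneg_left ?_ hκ) (hV h)
          have : (0 : ℝ) ≤ (cutU n k W).card := Nat.cast_nonneg _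
          linarith
        · have h' : ((cutV n k W).card : ℝ) ≤ (cutU n k W).card := by
            exact_mod_cast (not_le.1 h).le
          exact le_trans (mul_nonpos_of_nonneg_of_nonpos hκ (by linarith)) (Nat.cast_nonneg _)
    · have hI2 : ∃ W1 ⊆ W, W1.Nonempty ∧ W1 ≠ W ∧
          ∀ a ∈ W1, ∀ b ∈ W, b ∉ W1 → ¬ (LG n k).Adj a b := by
        by_contra hcon
        apply hI
        refine ⟨hne, ?_⟩
        intro W1 h1 h2 h3
        by_contra h4
        apply hcon
        refine ⟨W1, h1, h2, h3, ?_⟩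
        intro a ha b hb hb1 hab
        exact h4 ⟨a, ha, b, hb, hb1, hab⟩
      obtain ⟨W1, h1, h2, h3, h4⟩ := hI2
      have hc1 : W1.card < W.card := Finset.card_lt_card (Finset.ssubset_iff_subset_ne.2 ⟨h1, h3⟩)
      have hc2 : (W \ W1).card + W1.card = W.card := Finset.card_sdiff_add_card_eq_card h1
      have hp1 : 0 < W1.card := Finset.card_pos.2 h2
      have hS1 : Small n k W1 := ⟨h1.trans hS.1, by have := hS.2; omega⟩
      have hS2 : Small n k (W \ W1) :=
        ⟨Finset.sdiff_subset.trans hS.1, by have := hS.2; omega⟩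
      obtain ⟨a1, a2⟩ := ih W1 (by omega) hS1
      obtain ⟨b1, b2⟩ := ih (W \ W1) (by omega) hS2
      obtain ⟨⟨u1, u2⟩, ⟨v1, v2⟩⟩ := ci_split (n := n) (k := k) (W := W) (W1 := W1) (W2 := W \ W1)
        (by
          intro A
          rw [Finset.mem_sdiff]
          constructor
          · intro h
            by_cases hA : A ∈ W1
            · exact Or.inl hA
            · exact Or.inr ⟨h, hA⟩
          · rintro (h | h)
            · exact h1 h
            · exact h.1)
        (fun A ha hb => (Finset.mem_sdiff.1 hb).2 ha)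
        (fun a ha b hb => h4 a ha b (Finset.mem_sdiff.1 hb).1 (Finset.mem_sdiff.1 hb).2)
      obtain ⟨c1, c2⟩ := ci_card (H := H) u1 u2
      obtain ⟨d1, d2⟩ := ci_card (H := H) v1 v2
      rw [c1, c2, d1, d2]
      push_cast
      constructor
      · calc κ * (((cutU n k W1).card : ℝ) + (cutU n k (W \ W1)).card -
              ((cutV n k W1).card + (cutV n k (W \ W1)).card))
            = κ * (((cutU n k W1).card : ℝ) - (cutV n k W1).card) +
              κ * (((cutU n k (W \ W1)).card : ℝ) - (cutV n k (W \ W1)).card) := by ring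
          _ ≤ _ := add_le_add a1 b1
      · calc κ * (((cutV n k W1).card : ℝ) + (cutV n k (W \ W1)).card -
              ((cutU n k W1).card + (cutU n k (W \ W1)).card))
            = κ * (((cutV n k W1).card : ℝ) - (cutU n k W1).card) +
              κ * (((cutV n k (W \ W1)).card : ℝ) - (cutU n k (W \ W1)).card) := by ring
          _ ≤ _ := add_le_add a2 b2

open Classical in
theorem cut_all {n k : ℕ} (H : Finset (Edg n)) (κ : ℝ) (hκ : 0 ≤ κ)
    (hF : ∀ F ∈ famCut n k, κ * F.card ≤ ((F ∩ H).card : ℝ))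
    (W : Finset (Finset (Fin n))) (hW : W ⊆ Lv n k ∪ Vp n k) :
    κ * (((cutU n k W).card : ℝ) - (cutV n k W).card) ≤ ((cutU n k W ∩ H).card : ℝ) := by
  have hdisj : Disjoint (Lv n k) (Vp n k) := by
    rw [Finset.disjoint_left]
    intro A h1 h2
    have e1 := (Finset.mem_filter.1 h1).2
    have e2 := (Finset.mem_filter.1 (Finset.mem_filter.1 h2).1).2
    omega
  have hF' : ∀ F ∈ famCut n k, κ * F.card ≤ ((F ∩ H).card : ℝ) := by
    intro F h
    convert hF F h
  by_cases hs : 2 * W.card ≤ (Lv n k).card + (Vp n k).card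
  · have h := (ci_small H κ hκ hF' W.card W le_rfl ⟨hW, hs⟩).1
    convert h
  · have hcu : (Lv n k ∪ Vp n k).card = (Lv n k).card + (Vp n k).card :=
      Finset.card_union_of_disjoint hdisj
    have hcz : ((Lv n k ∪ Vp n k) \ W).card + W.card = (Lv n k ∪ Vp n k).card :=
      Finset.card_sdiff_add_card_eq_card hW
    have hZ : Small n k ((Lv n k ∪ Vp n k) \ W) := ⟨Finset.sdiff_subset, by omega⟩
    have h := (ci_small H κ hκ hF' _ _ le_rfl hZ).2
    have hmem : ∀ e : Edg n, Lo n k e.1 e.2 →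
        (e.1 ∈ Lv n k ∪ Vp n k ∧ e.2 ∈ Lv n k ∪ Vp n k) := by
      intro e he
      exact ⟨Finset.mem_union_left _ (ci_mem he).1, Finset.mem_union_right _ (ci_mem he).2⟩
    have e1 : cutV n k ((Lv n k ∪ Vp n k) \ W) = cutU n k W := by
      ext e
      rw [ci_memU, ci_memV, Finset.mem_sdiff, Finset.mem_sdiff]
      constructor
      · rintro ⟨q1, q2, q3⟩
        refine ⟨q1, ?_, q3.2⟩
        by_contra hc
        exact q2 ⟨(hmem e q1).1, hc⟩
      · rintro ⟨q1, q2, q3⟩
        exact ⟨q1, fun hc => hc.2 q2, (hmem e q1).2, q3⟩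
    have e2 : cutU n k ((Lv n k ∪ Vp n k) \ W) = cutV n k W := by
      ext e
      rw [ci_memU, ci_memV, Finset.mem_sdiff, Finset.mem_sdiff]
      constructor
      · rintro ⟨q1, q2, q3⟩
        refine ⟨q1, q2.2, ?_⟩
        by_contra hc
        exact q3 ⟨(hmem e q1).2, hc⟩
      · rintro ⟨q1, q2, q3⟩
        exact ⟨q1, ⟨(hmem e q1).1, q2⟩, fun hc => hc.2 q3⟩
    rw [e1, e2] at h
    convert h

end Pool.Agent.SKA
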