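import Pool.Agent.SKA.Defs

set_option autoImplicit false

/-!
# SKA DefJ: further definitions (full level graph, distance one pairs, numerical conditions)
-/

open Finset

namespace Pool.Agent.SKA

/-- Ordered pairs of `k`-sets at distance one. -/
def Sw (n k : ℕ) : Finset (Edg n) :=
  (Lv n k ×ˢ Lv n k).filter (fun p => (p.1 \ p.2).card = 1)

open Classical in
/-- Edge boundary of `W` in the full level graph between the levels `k` and `k+1`. -/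
noncomputable def cutF (n k : ℕ) (W : Finset (Finset (Fin n))) : Finset (Edg n) :=
  univ.filter (fun e => e.1.card = k ∧ e.2.card = k + 1 ∧ e.1 ⊆ e.2 ∧ ¬ (e.1 ∈ W ↔ e.2 ∈ W))

/-- Numerical conditions for a lower pair `k, k+1` near the middle. -/
structure LevOk (n k : ℕ) : Prop where
  h0 : 1000 ≤ n
  h1 : 2 * k < n
  h2 : 9 * n ≤ 20 * (k + 1)
  h3 : 9 * n ≤ 20 * (n - k - 1)
  h4 : 100 * (n - k) ≤ 101 * (k + 1)

/-- Numerical conditions on `n` and `r = floor (n^(1/40))`. -/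
structure Nums (n r : ℕ) : Prop where
  hr : 93 ≤ r
  n1 : r ^ 40 ≤ n
  n2 : n ≤ 2 * r ^ 40
  hexp : 30 * (n : ℝ) * Real.exp (-((r : ℝ) / 5)) ≤ 1
  hlog : 4 * ((n : ℝ) + 1) ≤ Real.exp r
  lev : ∀ k, n / 2 - r ^ 22 ≤ k → 2 * k < n → LevOk n k
  win : r ^ 22 + 10 ≤ n / 2
  f0 : 1 ≤ 1 / (8 * (r : ℝ) ^ 36) * ((n : ℝ) / 300)
  small : 2 * Real.exp 2 * n ≤ 1 / (r : ℝ) ^ 2 * ((r : ℝ) ^ 32) ^ 2
  len : 4 * (2 * r ^ 22 + 1) * n ≤ (r ^ 32) ^ 2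
  cost : (r : ℝ) ^ 32 * (4 / (1 / (8 * (r : ℝ) ^ 36))) *
        Real.exp (-(1 / (8 * (r : ℝ) ^ 36) * ((n : ℝ) / 300))) +
      16 * n * (r : ℝ) ^ 32 / (1 / (8 * (r : ℝ) ^ 36)) *
        Real.exp (-(1 / (8 * (r : ℝ) ^ 36) * ((n : ℝ) / 300))) +
      16 * (n : ℝ) ^ 2 / ((r : ℝ) ^ 32) ^ 4 + 4 * n / ((r : ℝ) ^ 32) ^ 3 +
      120 * ((n : ℝ) / ((r : ℝ) ^ 32) ^ 2) ^ 2 ≤ 1 / (8 * (r : ℝ) ^ 36)
  outer : ∀ a, a < n / 2 - r ^ 22 →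
    n ^ 2 * (n * (n / 2 - 2).choose a + n * (n + 2)) ≤ 6 * (n - a).choose (n / 2 - 2 - a)

end Pool.Agent.SKA
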