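import Mathlib

set_option autoImplicit false

/-!
# SKA: asymptotic Shearer-Kleitman (MP_24432d_co), definitions

Project text: /team-store/SK_Proof.md. The cube is `Finset (Fin n)`; colourings `ω : I → Fin M` of the
edges; uniform probability `pr` on colourings; `Ach τ σ G`: the property `G` of colourings can be
enforced in the local lemma with threshold `τ` at cost `σ` per variable.
-/

open Finset

namespace Pool.Agent.SKA

/-! ### Local lemma -/

/-- Uniform probability of a set of colourings. -/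
noncomputable def pr {I : Type} [Fintype I] {M : ℕ} (A : Set (I → Fin M)) : ℝ :=
  (A.ncard : ℝ) / (M : ℝ) ^ Fintype.card I

/-- The event `A` depends only on the variables in `v`. -/
def Supp {I : Type} {M : ℕ} (A : Set (I → Fin M)) (v : Finset I) : Prop :=
  ∀ ω ω' : I → Fin M, (∀ e ∈ v, ω e = ω' e) → (ω ∈ A ↔ ω' ∈ A)

/-- `G` follows from the avoidance of a finite family of events `B j` with supports `vbl j` and
weights `x j`, whose sum at every variable is at most `σ`, admissible for the threshold `τ`. -/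
def Ach {I : Type} [Fintype I] [DecidableEq I] {M : ℕ} (τ σ : ℝ) (G : (I → Fin M) → Prop) : Prop :=
  ∃ (J : Type) (_ : Fintype J) (vbl : J → Finset I) (B : J → Set (I → Fin M)) (x : J → ℝ),
    (∀ j, Supp (B j) (vbl j)) ∧ (∀ j, 0 ≤ x j ∧ x j ≤ 1 / 2) ∧
    (∀ j, pr (B j) ≤ x j * Real.exp (-(2 * (vbl j).card * τ))) ∧
    (∀ e, ∑ j ∈ univ.filter (fun j => e ∈ vbl j), x j ≤ σ) ∧
    (∀ ω, (∀ j, ω ∉ B j) → G ω)

/-! ### Squares -/

/-- A system of squares: two paths `p1, p2` and `q1, q2` of two variables each. -/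
structure SqSys (I : Type) where
  S : Type
  fin : Fintype S
  p1 : S → I
  p2 : S → I
  q1 : S → I
  q2 : S → I

attribute [instance] SqSys.fin

/-- The four variables of a square. -/
def SqSys.vars {I : Type} [DecidableEq I] (Q : SqSys I) (s : Q.S) : Finset I :=
  {Q.p1 s, Q.p2 s, Q.q1 s, Q.q2 s}

/-- Both paths are monochromatic, in different colours. -/
def SqSys.Bad {I : Type} (Q : SqSys I) {M : ℕ} (ω : I → Fin M) (s : Q.S) : Prop :=
  ω (Q.p1 s) = ω (Q.p2 s) ∧ ω (Q.q1 s) = ω (Q.q2 s) ∧ ω (Q.p1 s) ≠ ω (Q.q1 s)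

/-- The axioms of a square system with at most `n` squares through a variable (for each of the two
paths). -/
structure SqSys.Ok {I : Type} [DecidableEq I] (Q : SqSys I) (n : ℕ) : Prop where
  card4 : ∀ s, (Q.vars s).card = 4
  degp : ∀ e, ((univ : Finset Q.S).filter (fun s => e = Q.p1 s ∨ e = Q.p2 s)).card ≤ n
  degq : ∀ e, ((univ : Finset Q.S).filter (fun s => e = Q.q1 s ∨ e = Q.q2 s)).card ≤ n
  share : ∀ s s' e, (e = Q.p1 s ∨ e = Q.p2 s) → (e = Q.p1 s' ∨ e = Q.p2 s') → s ≠ s' →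
    Q.vars s ∩ Q.vars s' = {e}

/-! ### Graphs -/

section Graph

variable {V : Type} [Fintype V] [DecidableEq V] (G : SimpleGraph V)

/-- Lazy step. -/
def Lz (a b : V) : Prop := a = b ∨ G.Adj a b

open Classical in
/-- Neighbourhood of a set. -/
noncomputable def NbS (S : Finset V) : Finset V :=
  univ.filter (fun v => ∃ s ∈ S, G.Adj s v)

open Classical in
/-- Size of the edge boundary. -/
noncomputable def bd (W : Finset V) : ℕ :=
  ((univ : Finset (V × V)).filter (fun e => e.1 ∈ W ∧ e.2 ∉ W ∧ G.Adj e.1 e.2)).card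

open Classical in
/-- Degree. -/
noncomputable def dg (v : V) : ℕ := (univ.filter (fun w => G.Adj v w)).card

/-- Nonempty and not the disjoint union of two nonempty sets without edges between them. -/
def Indec (W : Finset V) : Prop :=
  W.Nonempty ∧ ∀ W1 ⊆ W, W1.Nonempty → W1 ≠ W → ∃ a ∈ W1, ∃ b ∈ W, b ∉ W1 ∧ G.Adj a b

end Graph

/-! ### The cube -/

/-- All `k`-subsets of `Fin n`. -/
def Lv (n k : ℕ) : Finset (Finset (Fin n)) := Finset.univ.filter (fun A => A.card = k)

/-- Cover relation. -/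
def Cov {n : ℕ} (A D : Finset (Fin n)) : Prop := A ⊆ D ∧ D.card = A.card + 1

/-- Variables: pairs of sets (only cover pairs matter). -/
abbrev Edg (n : ℕ) : Type := Finset (Fin n) × Finset (Fin n)

/-- Reserved sets: members of the level `k' = n/2 - 2` whose sum is divisible by `n`. -/
def Rsv (n : ℕ) (B : Finset (Fin n)) : Prop :=
  B.card = n / 2 - 2 ∧ n ∣ ∑ x ∈ B, (x : ℕ)

/-- The edges of the level graph between the levels `k` and `k+1`, without the reserved sets. -/
def Lo (n k : ℕ) (A D : Finset (Fin n)) : Prop :=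
  A.card = k ∧ D.card = k + 1 ∧ A ⊆ D ∧ ¬ Rsv n D

/-- The level graph. -/
def LG (n k : ℕ) : SimpleGraph (Finset (Fin n)) where
  Adj A D := Lo n k A D ∨ Lo n k D A
  symm := ⟨fun _ _ h => h.symm⟩
  loopless := ⟨fun A h => by
    rcases h with h | h
    · have h1 := h.1; have h2 := h.2.1; omega
    · have h1 := h.1; have h2 := h.2.1; omega⟩

open Classical in
/-- Upper part of the level graph: the level `k+1` without the reserved sets. -/
noncomputable def Vp (n k : ℕ) : Finset (Finset (Fin n)) :=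
  (Lv n (k + 1)).filter (fun D => ¬ Rsv n D)

open Classical in
/-- Edges leaving `W` from the lower level. -/
noncomputable def cutU (n k : ℕ) (W : Finset (Finset (Fin n))) : Finset (Edg n) :=
  univ.filter (fun e => Lo n k e.1 e.2 ∧ e.1 ∈ W ∧ e.2 ∉ W)

open Classical in
/-- Edges leaving `W` from the upper level. -/
noncomputable def cutV (n k : ℕ) (W : Finset (Finset (Fin n))) : Finset (Edg n) :=
  univ.filter (fun e => Lo n k e.1 e.2 ∧ e.1 ∉ W ∧ e.2 ∈ W)

/-- Sets of vertices of the level graph containing at most half of the vertices. -/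
def Small (n k : ℕ) (W : Finset (Finset (Fin n))) : Prop :=
  W ⊆ Lv n k ∪ Vp n k ∧ 2 * W.card ≤ (Lv n k).card + (Vp n k).card

/-- Complement of an edge. -/
def sg {n : ℕ} (e : Edg n) : Edg n := (e.2ᶜ, e.1ᶜ)

open Classical in
/-- The cuts of the small indecomposable sets of one level graph. -/
noncomputable def famCut (n k : ℕ) : Finset (Finset (Edg n)) :=
  univ.filter (fun F => ∃ W, Small n k W ∧ Indec (LG n k) W ∧
    ((F = cutU n k W ∧ (cutV n k W).card ≤ (cutU n k W).card) ∨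
      (F = cutV n k W ∧ (cutU n k W).card ≤ (cutV n k W).card)))

open Classical in
/-- All cuts: lower pairs `k ≥ lo` and their images under complementation. -/
noncomputable def Fam (n lo : ℕ) : Finset (Finset (Edg n)) :=
  ((range n).filter (fun k => lo ≤ k ∧ 2 * k < n)).biUnion (famCut n) ∪
    (((range n).filter (fun k => lo ≤ k ∧ 2 * k < n)).biUnion (famCut n)).image (fun F => F.image sg)

open Classical in
/-- The squares of the cube. -/
noncomputable def CSq (n : ℕ) : SqSys (Edg n) where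
  S := {s : Finset (Fin n) × Fin n × Fin n // s.2.1 ∉ s.1 ∧ s.2.2 ∉ s.1 ∧ s.2.1 ≠ s.2.2}
  fin := inferInstance
  p1 := fun s => (s.1.1, insert s.1.2.1 s.1.1)
  p2 := fun s => (insert s.1.2.1 s.1.1, insert s.1.2.2 (insert s.1.2.1 s.1.1))
  q1 := fun s => (s.1.1, insert s.1.2.2 s.1.1)
  q2 := fun s => (insert s.1.2.2 s.1.1, insert s.1.2.1 (insert s.1.2.2 s.1.1))

/-- `e` lies in a bad square. -/
def InBad {n M : ℕ} (ω : Edg n → Fin M) (e : Edg n) : Prop :=
  ∃ s : (CSq n).S, (CSq n).Bad ω s ∧ (e = (CSq n).p1 s ∨ e = (CSq n).p2 s)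

open Classical in
/-- The cleaned colour class. -/
noncomputable def Hc {n M : ℕ} (ω : Edg n → Fin M) (i : Fin M) : Finset (Edg n) :=
  univ.filter (fun e => ω e = i ∧ ¬ InBad ω e)

/-- Two internally disjoint monochromatic chains of length `3 ≤ t ≤ T` with the same ends. -/
def LongPair (n M T : ℕ) (ω : Edg n → Fin M) : Prop :=
  ∃ (t : ℕ) (P Q : ℕ → Finset (Fin n)) (i i' : Fin M), 3 ≤ t ∧ t ≤ T ∧ P 0 = Q 0 ∧ P t = Q t ∧
    (∀ j < t, Cov (P j) (P (j + 1))) ∧ (∀ j < t, Cov (Q j) (Q (j + 1))) ∧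
    (∀ j, 0 < j → j < t → P j ≠ Q j) ∧ (∀ j < t, ω (P j, P (j + 1)) = i) ∧
    (∀ j < t, ω (Q j, Q (j + 1)) = i')

/-- What the local lemma gives. -/
structure GoodCol (n M T lo : ℕ) (ε : ℝ) (ω : Edg n → Fin M) : Prop where
  cut : ∀ F ∈ Fam n lo, ∀ i : Fin M, (1 - ε) * F.card / M < ((F.filter (fun e => ω e = i)).card : ℝ)
  del : ∀ F ∈ Fam n lo, ∀ i : Fin M, ∀ T0 : Finset (CSq n).S, T0.card = ⌈ε * F.card / M⌉₊ →
    (∀ s ∈ T0, (CSq n).p1 s ∈ F ∨ (CSq n).p2 s ∈ F) →
    (∀ s ∈ T0, ∀ s' ∈ T0, s ≠ s' → Disjoint ((CSq n).vars s) ((CSq n).vars s')) →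
    ¬ ∀ s ∈ T0, (CSq n).Bad ω s ∧ ω ((CSq n).p1 s) = i
  sh : ∀ s s' : (CSq n).S, ∀ e, (e = (CSq n).p1 s ∨ e = (CSq n).p2 s) →
    (e = (CSq n).p1 s' ∨ e = (CSq n).p2 s') → (CSq n).Bad ω s → (CSq n).Bad ω s' → s = s'
  mono : ∀ s : (CSq n).S, ¬ (ω ((CSq n).p1 s) = ω ((CSq n).p2 s) ∧
    ω ((CSq n).q1 s) = ω ((CSq n).q2 s) ∧ ω ((CSq n).p1 s) = ω ((CSq n).q1 s))
  long : ¬ LongPair n M T ω

/-! ### Window decompositions -/

/-- Matchings of the window `lo .. n - lo`: `up` for the levels below the middle, `dn` above. -/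
structure Mt (n lo : ℕ) (up dn : Finset (Fin n) → Finset (Fin n)) : Prop where
  up_cov : ∀ A, lo ≤ A.card → 2 * A.card < n → Cov A (up A) ∧ ¬ Rsv n (up A)
  up_inj : ∀ A B, lo ≤ A.card → 2 * A.card < n → A.card = B.card → up A = up B → A = B
  dn_cov : ∀ D, D.card ≤ n - lo → (n + 1) / 2 < D.card → Cov (dn D) D ∧ ¬ Rsv n (dn D)ᶜ
  dn_inj : ∀ D B, D.card ≤ n - lo → (n + 1) / 2 < D.card → D.card = B.card → dn D = dn B → D = B

/-- `(A, D)` is a step of the decomposition. -/
def Stp {n : ℕ} (up dn : Finset (Fin n) → Finset (Fin n)) (lo : ℕ) (A D : Finset (Fin n)) : Prop :=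
  (lo ≤ A.card ∧ 2 * A.card < n ∧ D = up A) ∨ (D.card ≤ n - lo ∧ (n + 1) / 2 < D.card ∧ A = dn D)

end Pool.Agent.SKA
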