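import Mathlib

set_option autoImplicit false

/-!
# SKA DelNum (package, 0.6 h): a binomial estimate

Proof. `h > 0` because `ε f/M > 0`. `C(nf, h) ≤ (nf)^h / h!` (`Nat.choose_le_pow_div`), and `h^h/h! ≤ exp h` (`Real.pow_div_factorial_le_exp`, or the term of the exponential series), so
`C(nf,h) ≤ (nf/h)^h exp h = (e n f/h)^h ≤ (e n M/ε)^h` because `h ≥ ε f/M`, i.e. `f/h ≤ M/ε`. Multiply by `(2/M³)^h`: `≤ (2 e n/(ε M²))^h ≤ (exp (-1))^h` by `hsmall`
(`2 e² n ≤ ε M²`), `= exp (-h) ≤ exp (-(ε f/M))`.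
-/

open Finset

namespace Pool.Agent.SKA

theorem del_num {n f M h : ℕ} {ε : ℝ} (hε : 0 < ε) (hM : 0 < M) (hf : 0 < f)
    (hsmall : 2 * Real.exp 2 * n ≤ ε * (M : ℝ) ^ 2) (hh : h = ⌈ε * f / M⌉₊) :
    ((n * f).choose h : ℝ) * (2 / (M : ℝ) ^ 3) ^ h ≤ Real.exp (-(ε * f / M)) := by
  have hMR : (0 : ℝ) < M := by exact_mod_cast hM
  have hfR : (0 : ℝ) < f := by exact_mod_cast hf
  have hx : 0 < ε * f / M := by positivity
  have hh1 : ε * f / M ≤ h := by
    rw [hh]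
    exact Nat.le_ceil _
  have hhR : (0 : ℝ) < h := lt_of_lt_of_le hx hh1
  have h1 : ((n * f).choose h : ℝ) ≤ ((n * f : ℕ) : ℝ) ^ h / (h.factorial : ℝ) :=
    Nat.choose_le_pow_div h (n * f)
  have h2 : (h : ℝ) ^ h / (h.factorial : ℝ) ≤ Real.exp h :=
    Real.pow_div_factorial_le_exp _ hhR.le h
  have h3 : ((n * f : ℕ) : ℝ) ≤ (n * M / ε) * h := by
    have h4 : (f : ℝ) ≤ M / ε * h := by
      rw [div_mul_eq_mul_div, le_div_iff₀ hε]
      rw [div_le_iff₀ hMR] at hh1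
      linarith
    push_cast
    calc (n : ℝ) * f ≤ n * (M / ε * h) := mul_le_mul_of_nonneg_left h4 (Nat.cast_nonneg n)
      _ = (n * M / ε) * h := by ring
  have h4 : ((n * f).choose h : ℝ) ≤ (n * M / ε) ^ h * Real.exp h := by
    calc ((n * f).choose h : ℝ) ≤ ((n * f : ℕ) : ℝ) ^ h / (h.factorial : ℝ) := h1
      _ ≤ ((n * M / ε) * h) ^ h / (h.factorial : ℝ) :=
          div_le_div_of_nonneg_right (pow_le_pow_left₀ (Nat.cast_nonneg _) h3 h)
            (Nat.cast_nonneg _)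
      _ = (n * M / ε) ^ h * ((h : ℝ) ^ h / (h.factorial : ℝ)) := by
          rw [mul_pow, mul_div_assoc]
      _ ≤ (n * M / ε) ^ h * Real.exp h := mul_le_mul_of_nonneg_left h2 (by positivity)
  have h5 : (n * M / ε) * Real.exp 1 * (2 / (M : ℝ) ^ 3) ≤ Real.exp (-1) := by
    have e1 : Real.exp 1 = Real.exp 2 * Real.exp (-1) := by
      rw [← Real.exp_add]
      norm_num
    have e2 : (n * M / ε) * Real.exp 1 * (2 / (M : ℝ) ^ 3) =
        (2 * Real.exp 2 * n) / (ε * (M : ℝ) ^ 2) * Real.exp (-1) := by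
      rw [e1]
      field_simp
    rw [e2]
    refine mul_le_of_le_one_left (Real.exp_pos _).le ?_
    rw [div_le_one (by positivity)]
    exact hsmall
  have h6 : Real.exp h = Real.exp 1 ^ h := by
    rw [← Real.exp_nat_mul, mul_one]
  calc ((n * f).choose h : ℝ) * (2 / (M : ℝ) ^ 3) ^ h
      ≤ ((n * M / ε) ^ h * Real.exp h) * (2 / (M : ℝ) ^ 3) ^ h :=
        mul_le_mul_of_nonneg_right h4 (by positivity)
    _ = ((n * M / ε) * Real.exp 1 * (2 / (M : ℝ) ^ 3)) ^ h := by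
        rw [h6, ← mul_pow, ← mul_pow]
    _ ≤ Real.exp (-1) ^ h := pow_le_pow_left₀ (by positivity) h5 h
    _ = Real.exp (-h) := by
        rw [← Real.exp_nat_mul]
        congr 1
        ring
    _ ≤ Real.exp (-(ε * f / M)) := Real.exp_le_exp.2 (by linarith)

end Pool.Agent.SKA
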