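import Pool.Agent.SKA.Defs

set_option autoImplicit false

/-!
# SKA Det (package, 0.5 h): probability that the variables of `v0` are determined by the others

Proof. The restriction map `ω ↦ (fun u : {u // u ∉ v0} => ω u)` is injective on `A`: if `ω, ω' ∈ A` agree
outside `v0`, then for `v ∈ v0`: `ω v = g ω v = g ω' v = ω' v`. Hence `|A| ≤ M^(|I| - |v0|)`, and
`M^(|I|-|v0|) / M^|I| = (1/M)^|v0|` (`0 < M`; `|{u // u ∉ v0}| = |I| - |v0|`).
(`Set.ncard_le_ncard_of_injOn` into `Set.univ`, or pass to `Finset.card_le_card_of_injOn`.)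
-/

open Finset

namespace Pool.Agent.SKA

variable {I : Type} [Fintype I] [DecidableEq I] {M : ℕ}

theorem pr_le_of_det (hM : 0 < M) (v0 : Finset I) (g : (I → Fin M) → I → Fin M)
    (hg : ∀ ω ω' : I → Fin M, (∀ u, u ∉ v0 → ω u = ω' u) → ∀ v ∈ v0, g ω v = g ω' v)
    (A : Set (I → Fin M)) (hA : ∀ ω ∈ A, ∀ v ∈ v0, ω v = g ω v) :
    pr A ≤ (1 / (M : ℝ)) ^ v0.card := by
  have h1 : A.ncard ≤ (Set.univ : Set ((v0ᶜ : Finset I) → Fin M)).ncard := by
    refine Set.ncard_le_ncard_of_injOn (fun ω (u : (v0ᶜ : Finset I)) => ω u.1)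
      (fun _ _ => trivial) ?_ (Set.toFinite _)
    intro ω hω ω' hω' h
    have h2 : ∀ u, u ∉ v0 → ω u = ω' u := fun u hu =>
      congrFun h ⟨u, mem_compl.2 hu⟩
    funext v
    by_cases hv : v ∈ v0
    · rw [hA ω hω v hv, hA ω' hω' v hv]
      exact hg ω ω' h2 v hv
    · exact h2 v hv
  rw [Set.ncard_univ, Nat.card_eq_fintype_card, Fintype.card_fun, Fintype.card_fin,
    Fintype.card_coe, card_compl] at h1
  have h2 : (A.ncard : ℝ) ≤ (M : ℝ) ^ (Fintype.card I - v0.card) := by exact_mod_cast h1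
  have hN : (0 : ℝ) < (M : ℝ) := by exact_mod_cast hM
  have h3 : v0.card ≤ Fintype.card I := card_le_univ v0
  unfold pr
  rw [div_le_iff₀ (pow_pos hN _)]
  refine h2.trans (le_of_eq ?_)
  have h4 : (M : ℝ) ^ Fintype.card I = (M : ℝ) ^ v0.card * (M : ℝ) ^ (Fintype.card I - v0.card) := by
    rw [← pow_add, Nat.add_sub_cancel' h3]
  rw [h4, ← mul_assoc, ← mul_pow, one_div, inv_mul_cancel₀ hN.ne', one_pow, one_mul]

end Pool.Agent.SKA
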