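import Pool.Agent.SKA.Chern

set_option autoImplicit false

/-!
# SKA EvCut (package, 1.1 h): the cut events are achievable in the local lemma

Proof. `J = {F // F ∈ 𝓕} × Fin M`, `vbl (F,i) = F`, `B (F,i) = {ω : |{e ∈ F : ω e = i}| ≤ (1-ε)|F|/M}` (support `F`: the set depends only on the values on `F`),
`x (F,i) = exp (-2 a |F|)`. `0 ≤ x`; `a|F| ≥ a f0 ≥ 1`, so `x ≤ exp (-2) ≤ 1/2`. `chernoff`: `pr (B (F,i)) ≤ exp (-ε²|F|/(2M)) = exp (-4a|F|) ≤ exp (-2a|F|) exp (-2|F|τ)`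
as `τ ≤ a`. Sum at a variable `e`: `∑_i ∑_{F ∋ e} exp (-2a|F|) = M ∑_{F ∈ 𝓕, e ∈ F} exp (-2a|F|)`. Group by `f = |F|` (`f ≥ f0`, `f ≤ |I|`):
`∑_F exp (-2a|F|) = ∑_f #{..} exp (-2af) ≤ ∑_{f ≥ f0} 2 exp (-af) ≤ 2 exp (-a f0) / (1 - exp (-a))` (geometric series; finite sum over `f ∈ range (|I|+1)` with `f0 ≤ f`: write
`f = ⌈f0⌉₊ + j`), and `1 - exp (-a) ≥ a/2` for `0 < a ≤ 1` (`a = ε²/(8M) ≤ 1/8`). Total `≤ M (4/a) exp (-a f0)`.
If no event occurs then the strict inequality holds for all `F`, `i`.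
-/

open Finset

namespace Pool.Agent.SKA

variable {I : Type} [Fintype I] [DecidableEq I] {M : ℕ}

/-- tail of a geometric series -/
private theorem cut_tail {a f0 : ℝ} (ha : 0 < a) (ha1 : a ≤ 1) (N : ℕ) :
    ∑ f ∈ range N, (if f0 ≤ (f : ℝ) then 2 * Real.exp (-(a * f)) else 0) ≤
      4 / a * Real.exp (-(a * f0)) := by
  have hr0 : 0 < Real.exp (-a) := Real.exp_pos _
  have hr : a / 2 ≤ 1 - Real.exp (-a) := by
    have h1 := Real.add_one_le_exp a
    have h2 : Real.exp (-a) * (a + 1) ≤ 1 := by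
      calc Real.exp (-a) * (a + 1) ≤ Real.exp (-a) * Real.exp a :=
            mul_le_mul_of_nonneg_left h1 hr0.le
        _ = 1 := by rw [← Real.exp_add, neg_add_cancel, Real.exp_zero]
    nlinarith
  have h1 : ∑ f ∈ range N, (if f0 ≤ (f : ℝ) then 2 * Real.exp (-(a * f)) else 0) =
      ∑ f ∈ Ico ⌈f0⌉₊ N, 2 * Real.exp (-(a * f)) := by
    rw [← Finset.sum_filter]
    refine Finset.sum_congr ?_ fun _ _ => rfl
    ext f
    rw [Finset.mem_filter, Finset.mem_range, Finset.mem_Ico, Nat.ceil_le]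
    exact and_comm
  rw [h1, Finset.sum_Ico_eq_sum_range]
  have h2 : ∀ j ∈ range (N - ⌈f0⌉₊), 2 * Real.exp (-(a * ((⌈f0⌉₊ + j : ℕ) : ℝ))) =
      2 * Real.exp (-(a * ⌈f0⌉₊)) * Real.exp (-a) ^ j := by
    intro j _
    rw [← Real.exp_nat_mul, mul_assoc, ← Real.exp_add]
    congr 2
    push_cast
    ring
  rw [Finset.sum_congr rfl h2, ← Finset.mul_sum]
  have h3 : (∑ j ∈ range (N - ⌈f0⌉₊), Real.exp (-a) ^ j) * (1 - Real.exp (-a)) ≤ 1 := by
    rw [geom_sum_mul_neg]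
    have := pow_pos hr0 (N - ⌈f0⌉₊)
    linarith
  have h4 : 0 ≤ ∑ j ∈ range (N - ⌈f0⌉₊), Real.exp (-a) ^ j :=
    Finset.sum_nonneg fun j _ => (pow_pos hr0 j).le
  have h5 : ∑ j ∈ range (N - ⌈f0⌉₊), Real.exp (-a) ^ j ≤ 2 / a := by
    rw [le_div_iff₀ ha]
    nlinarith
  have h6 : Real.exp (-(a * ⌈f0⌉₊)) ≤ Real.exp (-(a * f0)) := by
    apply Real.exp_le_exp.2
    have := Nat.le_ceil f0
    nlinarith
  calc 2 * Real.exp (-(a * ⌈f0⌉₊)) * ∑ j ∈ range (N - ⌈f0⌉₊), Real.exp (-a) ^ j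
      ≤ 2 * Real.exp (-(a * f0)) * (2 / a) := by
        refine mul_le_mul (by linarith) h5 h4 (by positivity)
    _ = 4 / a * Real.exp (-(a * f0)) := by ring

open Classical in
theorem ach_cut (hM : 0 < M) (𝓕 : Finset (Finset I)) (ε a τ f0 : ℝ) (hε0 : 0 < ε) (hε1 : ε ≤ 1)
    (ha : a = ε ^ 2 / (8 * M)) (hτ : τ ≤ a) (hf0 : 1 ≤ a * f0)
    (hmin : ∀ F ∈ 𝓕, f0 ≤ (F.card : ℝ))
    (hcount : ∀ (e : I) (f : ℕ), ((𝓕.filter (fun F => e ∈ F ∧ F.card = f)).card : ℝ) ≤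
      2 * Real.exp (a * f)) :
    Ach (M := M) τ (M * (4 / a) * Real.exp (-(a * f0)))
      (fun ω => ∀ F ∈ 𝓕, ∀ i : Fin M,
        (1 - ε) * F.card / M < ((F.filter (fun e => ω e = i)).card : ℝ)) := by
  have hMR : (0 : ℝ) < M := by exact_mod_cast hM
  have hM1 : (1 : ℝ) ≤ M := by exact_mod_cast hM
  have ha0 : 0 < a := by
    rw [ha]
    positivity
  have ha1 : a ≤ 1 := by
    rw [ha, div_le_one (by positivity)]
    nlinarith
  have hbig : ∀ F ∈ 𝓕, 1 ≤ a * (F.card : ℝ) := fun F hF =>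
    hf0.trans (mul_le_mul_of_nonneg_left (hmin F hF) ha0.le)
  refine ⟨{F // F ∈ 𝓕} × Fin M, inferInstance, fun j => j.1.1,
    fun j => {ω | ((j.1.1.filter (fun e => ω e = j.2)).card : ℝ) ≤
      (1 - ε) * j.1.1.card / M}, fun j => Real.exp (-(2 * a * j.1.1.card)), ?_, ?_, ?_, ?_, ?_⟩
  · rintro ⟨⟨F, hF⟩, i⟩ ω ω' h
    have h1 : F.filter (fun e => ω e = i) = F.filter (fun e => ω' e = i) :=
      Finset.filter_congr fun e he => by rw [h e he]
    change ((F.filter (fun e => ω e = i)).card : ℝ) ≤ _ ↔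
      ((F.filter (fun e => ω' e = i)).card : ℝ) ≤ _
    rw [h1]
  · rintro ⟨⟨F, hF⟩, i⟩
    refine ⟨(Real.exp_pos _).le, ?_⟩
    change Real.exp (-(2 * a * F.card)) ≤ 1 / 2
    have h1 := hbig F hF
    have h2 := Real.add_one_le_exp (2 * a * (F.card : ℝ))
    rw [Real.exp_neg, one_div]
    refine inv_anti₀ (by norm_num) ?_
    nlinarith
  · rintro ⟨⟨F, hF⟩, i⟩
    refine (chernoff hM F i ε hε0.le hε1).trans ?_
    change Real.exp (-(ε ^ 2 * F.card / (2 * M))) ≤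
      Real.exp (-(2 * a * F.card)) * Real.exp (-(2 * F.card * τ))
    rw [← Real.exp_add]
    apply Real.exp_le_exp.2
    have h1 : ε ^ 2 * (F.card : ℝ) / (2 * M) = 4 * a * F.card := by
      rw [ha]
      field_simp
      ring
    rw [h1]
    have h2 : (F.card : ℝ) * τ ≤ F.card * a := mul_le_mul_of_nonneg_left hτ (Nat.cast_nonneg _)
    nlinarith
  · intro e
    have h1 : ∑ j ∈ univ.filter (fun j : {F // F ∈ 𝓕} × Fin M => e ∈ j.1.1),
        Real.exp (-(2 * a * j.1.1.card)) =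
        M * ∑ F ∈ 𝓕.filter (fun F => e ∈ F), Real.exp (-(2 * a * F.card)) := by
      rw [Finset.sum_filter, Fintype.sum_prod_type, Finset.sum_filter, Finset.mul_sum,
        ← Finset.sum_coe_sort 𝓕]
      refine Finset.sum_congr rfl fun F _ => ?_
      by_cases he : e ∈ F.1 <;> simp [he]
    rw [h1, mul_assoc]
    refine mul_le_mul_of_nonneg_left ?_ hMR.le
    have h2 : ∑ F ∈ 𝓕.filter (fun F => e ∈ F), Real.exp (-(2 * a * F.card)) =
        ∑ f ∈ range (Fintype.card I + 1),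
          ((𝓕.filter (fun F => e ∈ F ∧ F.card = f)).card : ℝ) * Real.exp (-(2 * a * f)) := by
      rw [← Finset.sum_fiberwise_of_maps_to (t := range (Fintype.card I + 1))
        (g := fun F : Finset I => F.card)
        (fun F _ => Finset.mem_range.2 (Nat.lt_succ_of_le (Finset.card_le_univ F)))]
      refine Finset.sum_congr rfl fun f _ => ?_
      rw [Finset.filter_filter, ← nsmul_eq_mul, ← Finset.sum_const]
      refine Finset.sum_congr rfl fun F hF => ?_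
      rw [(Finset.mem_filter.1 hF).2.2]
    rw [h2]
    refine le_trans (Finset.sum_le_sum fun f _ => ?_)
      (cut_tail (f0 := f0) ha0 ha1 (Fintype.card I + 1))
    by_cases hf : f0 ≤ (f : ℝ)
    · rw [if_pos hf]
      calc ((𝓕.filter (fun F => e ∈ F ∧ F.card = f)).card : ℝ) * Real.exp (-(2 * a * f))
          ≤ 2 * Real.exp (a * f) * Real.exp (-(2 * a * f)) :=
            mul_le_mul_of_nonneg_right (hcount e f) (Real.exp_pos _).le
        _ = 2 * Real.exp (-(a * f)) := by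
            rw [mul_assoc, ← Real.exp_add]
            congr 2
            ring
    · rw [if_neg hf]
      have h3 : 𝓕.filter (fun F => e ∈ F ∧ F.card = f) = ∅ := by
        rw [Finset.filter_eq_empty_iff]
        rintro F hF ⟨-, h4⟩
        apply hf
        rw [← h4]
        exact hmin F hF
      rw [h3, Finset.card_empty, Nat.cast_zero, zero_mul]
  · intro ω h F hF i
    exact not_le.1 (h (⟨F, hF⟩, i))

end Pool.Agent.SKA
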