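import Pool.Agent.SKA.Prob

set_option autoImplicit false

/-!
# SKA Indep (package, 0.8 h): events with disjoint supports are independent

Proof. Let `v`, `w` be disjoint supports of `A`, `B`. Split a colouring `ω : I → Fin M` into its
restrictions to `v` and to the complement of `v` (an equivalence `(I → Fin M) ≃ ({e // e ∈ v} → Fin M) ×
({e // e ∉ v} → Fin M)`, e.g. `Equiv.piEquivPiSubtypeProd`). `ω ∈ A` depends only on the first
component, `ω ∈ B` only on the second one (as `w ⊆ vᶜ`). So `A` corresponds to `A' × univ`, `B` to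
`univ × B'`, and `A ∩ B` to `A' × B'`. Hence `|A ∩ B| * M^|I| = (|A'| |B'|) (M^|v| M^|vᶜ|) =
(|A'| M^|vᶜ|)(M^|v| |B'|) = |A| |B|`, and division by `(M^|I|)^2` gives the claim. (If `M = 0` and `I` is
nonempty both sides are 0; to avoid this case `0 < M` is assumed.)

`supp_compl`, `supp_inter`, `supp_mono`, `supp_iInter` are immediate from the definition.
-/

open Finset

namespace Pool.Agent.SKA

variable {I : Type} [Fintype I] [DecidableEq I] {M : ℕ}

theorem supp_compl {A : Set (I → Fin M)} {v : Finset I} (h : Supp A v) : Supp Aᶜ v := by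
  intro ω ω' hω
  exact not_congr (h ω ω' hω)

theorem supp_mono {A : Set (I → Fin M)} {v w : Finset I} (h : Supp A v) (hv : v ⊆ w) : Supp A w := by
  intro ω ω' hω
  exact h ω ω' fun e he => hω e (hv he)

theorem supp_inter {A B : Set (I → Fin M)} {v w : Finset I} (h : Supp A v) (h' : Supp B w) :
    Supp (A ∩ B) (v ∪ w) := by
  intro ω ω' hω
  exact and_congr (h ω ω' fun e he => hω e (mem_union_left _ he))
    (h' ω ω' fun e he => hω e (mem_union_right _ he))

/-- An intersection over a finite set of indices. -/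
theorem supp_biInter {J : Type} (T : Finset J) (B : J → Set (I → Fin M)) (vbl : J → Finset I)
    (h : ∀ j ∈ T, Supp (B j) (vbl j)) : Supp {ω | ∀ j ∈ T, ω ∈ B j} (T.biUnion vbl) := by
  intro ω ω' hω
  have key : ∀ j ∈ T, (ω ∈ B j ↔ ω' ∈ B j) := fun j hj =>
    h j hj ω ω' fun e he => hω e (mem_biUnion.2 ⟨j, hj, he⟩)
  constructor
  · intro h1 j hj
    exact (key j hj).1 (h1 j hj)
  · intro h1 j hj
    exact (key j hj).2 (h1 j hj)

/-- Exchanging the values outside of `v`. -/
private def exch (v : Finset I) (p : (I → Fin M) × (I → Fin M)) :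
    (I → Fin M) × (I → Fin M) :=
  (fun e => if e ∈ v then p.1 e else p.2 e, fun e => if e ∈ v then p.2 e else p.1 e)

private theorem exch_exch (v : Finset I) (p : (I → Fin M) × (I → Fin M)) :
    exch v (exch v p) = p := by
  unfold exch
  refine Prod.ext ?_ ?_
  · funext e
    by_cases he : e ∈ v <;> simp [he]
  · funext e
    by_cases he : e ∈ v <;> simp [he]

theorem pr_inter (hM : 0 < M) {A B : Set (I → Fin M)} {v w : Finset I} (hA : Supp A v)
    (hB : Supp B w) (hd : Disjoint v w) : pr (A ∩ B) = pr A * pr B := by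
  have h1 : exch v '' (A ×ˢ B) = (A ∩ B) ×ˢ (Set.univ : Set (I → Fin M)) := by
    ext p
    constructor
    · rintro ⟨q, ⟨hq1, hq2⟩, rfl⟩
      refine ⟨⟨?_, ?_⟩, trivial⟩
      · refine (hA _ _ ?_).1 hq1
        intro e he
        simp [exch, he]
      · refine (hB _ _ ?_).1 hq2
        intro e he
        have he' : e ∉ v := fun h => (Finset.disjoint_left.1 hd h) he
        simp [exch, he']
    · rintro ⟨⟨hp1, hp2⟩, -⟩
      refine ⟨exch v p, ⟨?_, ?_⟩, exch_exch v p⟩
      · refine (hA _ _ ?_).1 hp1
        intro e he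
        simp [exch, he]
      · refine (hB _ _ ?_).1 hp2
        intro e he
        have he' : e ∉ v := fun h => (Finset.disjoint_left.1 hd h) he
        simp [exch, he']
  have hinj : Function.Injective (exch (M := M) v) := fun p q hpq => by
    have := congrArg (exch v) hpq
    rwa [exch_exch, exch_exch] at this
  have h2 : (A ×ˢ B).ncard = ((A ∩ B) ×ˢ (Set.univ : Set (I → Fin M))).ncard := by
    rw [← h1, Set.ncard_image_of_injective _ hinj]
  rw [Set.ncard_prod, Set.ncard_prod, Set.ncard_univ, Nat.card_eq_fintype_card,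
    Fintype.card_fun, Fintype.card_fin] at h2
  have h3 : (A.ncard : ℝ) * B.ncard = (A ∩ B).ncard * (M : ℝ) ^ Fintype.card I := by
    exact_mod_cast h2
  have hN : (0 : ℝ) < (M : ℝ) ^ Fintype.card I := by positivity
  unfold pr
  rw [div_mul_div_comm, h3, mul_div_mul_right _ _ hN.ne']

end Pool.Agent.SKA
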