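import Pool.Agent.SKA.Det
import Pool.Agent.SKA.Indep
import Pool.Agent.SKA.DelNum

set_option autoImplicit false

/-!
# SKA EvDel (package, 1.5 h): the deletion events are achievable

Proof. `J` = triples `(F, i, T0)` with `F ∈ 𝓕`, `|T0| = h(F) := ⌈ε|F|/M⌉₊`, all `s ∈ T0` with `p1 s ∈ F ∨ p2 s ∈ F`, and pairwise disjoint `vars` (a subtype of `Finset I × Fin M × Finset Q.S`).
`vbl = T0.biUnion Q.vars` (so `|vbl| = 4h`, by `card4` and disjointness), `B = {ω : ∀ s ∈ T0, Bad ω s ∧ ω (p1 s) = i}`, `x = (2/M³)^h`. Since `|F| ≥ f0 > 0` (`a f0 ≥ 1`), `h ≥ 1`, and `M ≥ 2`, so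
`x ≤ 1/4`.
PROBABILITY: `pr_le_of_det` with `v0 = ∪_{s ∈ T0} {p1 s, p2 s, q2 s}` (`3h` elements: the four variables of a square are distinct and different squares of `T0` are disjoint), and
`g ω v = i` if `v = p1 s` or `v = p2 s` for some `s ∈ T0`, `g ω v = ω (q1 s)` if `v = q2 s`, `s ∈ T0` (choose `s`; it is unique); `q1 s ∉ v0`, so `g` depends only on the variables outside `v0`.
On `B`: `ω (p1 s) = ω (p2 s) = i`, `ω (q2 s) = ω (q1 s)`. So `pr B ≤ (1/M)^(3h) = 2^(-h) x ≤ x exp (-8 h τ)`, as `8τ ≤ 1/2 ≤ log 2`.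
SUM at a variable `g`. Fix `i` and `f = |F|`, `h = ⌈ε f/M⌉₊`. Number of `(F, T0)` with `g ∈ vbl`: there is `s ∈ T0` with `g ∈ vars s`: at most `2n` choices of `s` (`degp`, `degq`); `F` contains `p1 s` or
`p2 s`: at most `2 * 2 exp (a f)` choices (`hcount`); `T0 ⊆ {s' : p1 s' ∈ F ∨ p2 s' ∈ F}`, a set of at most `n f` squares (`degp`), `|T0| = h`: at most `(n f).choose h` choices
(`Nat.choose_le_choose` for smaller sets). So the sum over these is at most `8 n exp (a f) (n f).choose h (2/M³)^h ≤ 8 n exp (a f - ε f/M)` (`del_num`) `≤ 8 n exp (-a f)`, because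
`ε/M ≥ 2a` (`a = ε²/(8M)`, `ε ≤ 1`). Sum over `f ≥ f0`: `≤ 8 n (2/a) exp (-a f0)` (as in EvCut: `∑_{f ≥ f0} exp (-a f) ≤ exp (-a f0)/(1 - exp (-a)) ≤ (2/a) exp (-a f0)`), times `M` colours.
(Organise the sum as `∑_i ∑_f ∑_{F, |F| = f} ∑_{T0}`; it may help to bound by the sum over `s` with `g ∈ vars s`, then over `F` with `p1 s ∈ F ∨ p2 s ∈ F`, then over all `T0` of the powerset.)
-/

open Finset

namespace Pool.Agent.SKA

variable {I : Type} [Fintype I] [DecidableEq I] {M : ℕ}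

private theorem one_sub_exp {a : ℝ} (ha0 : 0 < a) (ha1 : a ≤ 1) :
    a / 2 ≤ 1 - Real.exp (-a) := by
  have h1 : 1 + a ≤ Real.exp a := by linarith [Real.add_one_le_exp a]
  have h2 : Real.exp (-a) ≤ 1 / (1 + a) := by
    rw [Real.exp_neg, ← one_div]
    exact one_div_le_one_div_of_le (by linarith) h1
  have h3 : 1 / (1 + a) ≤ 1 - a / 2 := by
    rw [div_le_iff₀ (by linarith)]
    nlinarith
  linarith

private theorem geo {a f0 : ℝ} (ha0 : 0 < a) (ha1 : a ≤ 1) (N : ℕ) :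
    ∑ f ∈ (range N).filter (fun f : ℕ => f0 ≤ (f : ℝ)), Real.exp (-(a * f)) ≤
      2 / a * Real.exp (-(a * f0)) := by
  have h1 := one_sub_exp ha0 ha1
  have key : ∀ N : ℕ, (1 - Real.exp (-a)) *
      ∑ f ∈ (range N).filter (fun f : ℕ => f0 ≤ (f : ℝ)), Real.exp (-(a * f)) ≤
      Real.exp (-(a * f0)) - Real.exp (-(a * max f0 N)) := by
    intro N
    induction N with
    | zero =>
      rw [range_zero, filter_empty, sum_empty, mul_zero, sub_nonneg]
      apply Real.exp_le_exp.2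
      have := le_max_left f0 ((0 : ℕ) : ℝ)
      nlinarith
    | succ N ih =>
      rw [range_add_one, filter_insert]
      split_ifs with h
      · rw [sum_insert (by simp), mul_add]
        rw [max_eq_right h] at ih
        have h2 : max f0 ((N + 1 : ℕ) : ℝ) = (N : ℝ) + 1 := by
          rw [max_eq_right (by push_cast; linarith)]
          push_cast
          ring
        have e : Real.exp (-(a * ((N : ℝ) + 1))) = Real.exp (-(a * N)) * Real.exp (-a) := by
          rw [← Real.exp_add]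
          congr 1
          ring
        rw [h2, e]
        linarith
      · rw [max_eq_left (not_le.1 h).le] at ih
        have h2 : Real.exp (-(a * max f0 ((N + 1 : ℕ) : ℝ))) ≤ Real.exp (-(a * f0)) := by
          apply Real.exp_le_exp.2
          have := le_max_left f0 ((N + 1 : ℕ) : ℝ)
          nlinarith
        linarith
  have h2 := key N
  have h3 := Real.exp_pos (-(a * max f0 N))
  have h4 : 0 ≤ ∑ f ∈ (range N).filter (fun f : ℕ => f0 ≤ (f : ℝ)), Real.exp (-(a * f)) :=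
    sum_nonneg fun f _ => (Real.exp_pos _).le
  have h5 : a / 2 * ∑ f ∈ (range N).filter (fun f : ℕ => f0 ≤ (f : ℝ)), Real.exp (-(a * f)) ≤
      Real.exp (-(a * f0)) := by
    have := mul_le_mul_of_nonneg_right h1 h4
    linarith
  have h6 : 2 / a * (a / 2 * ∑ f ∈ (range N).filter (fun f : ℕ => f0 ≤ (f : ℝ)),
      Real.exp (-(a * f))) ≤ 2 / a * Real.exp (-(a * f0)) :=
    mul_le_mul_of_nonneg_left h5 (by positivity)
  have h7 : 2 / a * (a / 2) = 1 := by
    field_simp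
  rwa [← mul_assoc, h7, one_mul] at h6

omit [Fintype I] in
private theorem vars_ne {Q : SqSys I} (s : Q.S) (h : (Q.vars s).card = 4) :
    Q.p1 s ≠ Q.p2 s ∧ Q.p1 s ≠ Q.q1 s ∧ Q.p1 s ≠ Q.q2 s ∧ Q.p2 s ≠ Q.q1 s ∧
      Q.p2 s ≠ Q.q2 s ∧ Q.q1 s ≠ Q.q2 s := by
  unfold SqSys.vars at h
  rw [card_insert_eq_ite, card_insert_eq_ite, card_insert_eq_ite, card_singleton] at h
  simp only [mem_insert, mem_singleton] at h
  split_ifs at h with h1 h2 h3 <;> first | omega | tauto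

/-- the sum over the sets of the family containing `e` -/
private theorem sum_fam (𝓕 : Finset (Finset I)) {ε a f0 : ℝ} (hε0 : 0 < ε) (hε1 : ε ≤ 1)
    (hM : 2 ≤ M) (ha : a = ε ^ 2 / (8 * M)) (ha0 : 0 < a) (ha1 : a ≤ 1)
    (hmin : ∀ F ∈ 𝓕, f0 ≤ (F.card : ℝ))
    (hcount : ∀ (e : I) (f : ℕ), ((𝓕.filter (fun F => e ∈ F ∧ F.card = f)).card : ℝ) ≤
      2 * Real.exp (a * f)) (e : I) :
    ∑ F ∈ 𝓕.filter (fun F => e ∈ F), Real.exp (-(ε * F.card / M)) ≤
      4 / a * Real.exp (-(a * f0)) := by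
  have hM0 : (0 : ℝ) < M := by
    have : 0 < M := by omega
    exact_mod_cast this
  have h2a : 2 * a ≤ ε / M := by
    rw [ha, ← mul_div_assoc, div_le_div_iff₀ (by positivity) hM0]
    have : ε ^ 2 ≤ ε := by nlinarith
    nlinarith
  rw [← sum_fiberwise_of_maps_to (s := 𝓕.filter (fun F => e ∈ F))
    (t := (range (Fintype.card I + 1)).filter (fun f : ℕ => f0 ≤ (f : ℝ)))
    (g := fun F => F.card) (by
      intro F hF
      rw [mem_filter] at hF
      rw [mem_filter, mem_range]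
      exact ⟨Nat.lt_succ_of_le (card_le_univ F), hmin F hF.1⟩)]
  calc ∑ f ∈ (range (Fintype.card I + 1)).filter (fun f : ℕ => f0 ≤ (f : ℝ)),
        ∑ F ∈ (𝓕.filter (fun F => e ∈ F)).filter (fun F => F.card = f),
          Real.exp (-(ε * F.card / M))
      ≤ ∑ f ∈ (range (Fintype.card I + 1)).filter (fun f : ℕ => f0 ≤ (f : ℝ)),
          2 * Real.exp (-(a * f)) := by
        refine sum_le_sum fun f _ => ?_
        rw [filter_filter]
        have h1 : ∀ F ∈ 𝓕.filter (fun F => e ∈ F ∧ F.card = f),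
            Real.exp (-(ε * F.card / M)) = Real.exp (-(ε * f / M)) := by
          intro F hF
          rw [(mem_filter.1 hF).2.2]
        rw [sum_congr rfl h1, sum_const, nsmul_eq_mul]
        refine (mul_le_mul_of_nonneg_right (hcount e f) (Real.exp_pos _).le).trans ?_
        rw [mul_assoc, ← Real.exp_add]
        refine mul_le_mul_of_nonneg_left (Real.exp_le_exp.2 ?_) (by norm_num)
        have h2 : 2 * a * f ≤ ε / M * f := mul_le_mul_of_nonneg_right h2a (Nat.cast_nonneg f)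
        have h3 : ε * f / M = ε / M * f := by ring
        rw [h3]
        linarith
    _ = 2 * ∑ f ∈ (range (Fintype.card I + 1)).filter (fun f : ℕ => f0 ≤ (f : ℝ)),
          Real.exp (-(a * f)) := by rw [mul_sum]
    _ ≤ 2 * (2 / a * Real.exp (-(a * f0))) :=
        mul_le_mul_of_nonneg_left (geo ha0 ha1 _) (by norm_num)
    _ = 4 / a * Real.exp (-(a * f0)) := by ring

/-- the probability of one event -/
private theorem pr_ev (hM : 2 ≤ M) (Q : SqSys I) {n : ℕ} (hQ : Q.Ok n) {τ : ℝ} (hτ0 : 0 ≤ τ)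
    (hτ : τ ≤ 1 / 16) (i : Fin M) (T0 : Finset Q.S)
    (hd : ∀ s ∈ T0, ∀ s' ∈ T0, s ≠ s' → Disjoint (Q.vars s) (Q.vars s')) :
    pr {ω : I → Fin M | ∀ s ∈ T0, Q.Bad ω s ∧ ω (Q.p1 s) = i} ≤
      (2 / (M : ℝ) ^ 3) ^ T0.card * Real.exp (-(2 * (T0.biUnion Q.vars).card * τ)) := by
  classical
  have hM1 : 0 < M := by omega
  have hM0 : (0 : ℝ) < M := by exact_mod_cast hM1
  have sub3 : ∀ s, ({Q.p1 s, Q.p2 s, Q.q2 s} : Finset I) ⊆ Q.vars s := by
    intro s v hv
    unfold SqSys.vars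
    simp only [mem_insert, mem_singleton] at hv ⊢
    tauto
  have hc3 : (T0.biUnion fun s => ({Q.p1 s, Q.p2 s, Q.q2 s} : Finset I)).card =
      3 * T0.card := by
    rw [card_biUnion]
    · have h1 : ∀ s ∈ T0, ({Q.p1 s, Q.p2 s, Q.q2 s} : Finset I).card = 3 := by
        intro s _
        obtain ⟨h1, -, h2, -, h3, -⟩ := vars_ne s (hQ.card4 s)
        exact card_eq_three.2 ⟨_, _, _, h1, h2, h3, rfl⟩
      rw [sum_congr rfl h1, sum_const, smul_eq_mul, mul_comm]
    · intro s hs s' hs' hne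
      exact (hd s hs s' hs' hne).mono (sub3 s) (sub3 s')
  have hdet := pr_le_of_det hM1 (T0.biUnion fun s => ({Q.p1 s, Q.p2 s, Q.q2 s} : Finset I))
    (fun ω v => if ∃ s ∈ T0, v = Q.p1 s ∨ v = Q.p2 s then i
      else if h : ∃ s ∈ T0, v = Q.q2 s then ω (Q.q1 h.choose) else i) ?_
    {ω : I → Fin M | ∀ s ∈ T0, Q.Bad ω s ∧ ω (Q.p1 s) = i} ?_
  · refine hdet.trans ?_
    rw [hc3, pow_mul]
    have h1 : ((T0.biUnion Q.vars).card : ℝ) ≤ 4 * T0.card := by
      have h2 : (T0.biUnion Q.vars).card ≤ T0.card * 4 :=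
        card_biUnion_le_card_mul _ _ _ fun s _ => (hQ.card4 s).le
      have h3 : ((T0.biUnion Q.vars).card : ℝ) ≤ T0.card * 4 := by exact_mod_cast h2
      linarith
    have h2 : Real.exp (-(1 / 2)) ^ T0.card ≤
        Real.exp (-(2 * (T0.biUnion Q.vars).card * τ)) := by
      rw [← Real.exp_nat_mul]
      apply Real.exp_le_exp.2
      have h3 : ((T0.biUnion Q.vars).card : ℝ) * τ ≤ 4 * T0.card * (1 / 16) := by
        have h4 : (0 : ℝ) ≤ 4 * T0.card := by positivity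
        exact mul_le_mul h1 hτ hτ0 h4
      linarith
    have h3 : (1 / (M : ℝ)) ^ 3 ≤ 2 / (M : ℝ) ^ 3 * Real.exp (-(1 / 2)) := by
      have h4 : (1 : ℝ) / 2 ≤ Real.exp (-(1 / 2)) := by
        have := Real.add_one_le_exp (-(1 / 2 : ℝ))
        linarith
      rw [div_pow, one_pow]
      calc 1 / (M : ℝ) ^ 3 = 2 / (M : ℝ) ^ 3 * (1 / 2) := by ring
        _ ≤ 2 / (M : ℝ) ^ 3 * Real.exp (-(1 / 2)) :=
          mul_le_mul_of_nonneg_left h4 (by positivity)
    calc ((1 / (M : ℝ)) ^ 3) ^ T0.card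
        ≤ (2 / (M : ℝ) ^ 3 * Real.exp (-(1 / 2))) ^ T0.card :=
          pow_le_pow_left₀ (by positivity) h3 _
      _ = (2 / (M : ℝ) ^ 3) ^ T0.card * Real.exp (-(1 / 2)) ^ T0.card := by rw [mul_pow]
      _ ≤ _ := mul_le_mul_of_nonneg_left h2 (by positivity)
  · intro ω ω' hω v _
    by_cases h1 : ∃ s ∈ T0, v = Q.p1 s ∨ v = Q.p2 s
    · simp only [if_pos h1]
    · by_cases h2 : ∃ s ∈ T0, v = Q.q2 s
      · simp only [if_neg h1, dif_pos h2]
        apply hω
        rw [mem_biUnion]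
        rintro ⟨s', hs', hm⟩
        obtain ⟨hs, -⟩ := h2.choose_spec
        have hin : Q.q1 h2.choose ∈ Q.vars h2.choose := by
          unfold SqSys.vars
          simp
        by_cases he : h2.choose = s'
        · rw [he] at hm
          simp only [mem_insert, mem_singleton] at hm
          obtain ⟨-, n2, -, n4, -, n6⟩ := vars_ne s' (hQ.card4 s')
          rcases hm with hm | hm | hm
          · exact n2 hm.symm
          · exact n4 hm.symm
          · exact n6 hm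
        · exact Finset.disjoint_left.1 (hd _ hs _ hs' he) hin (sub3 s' hm)
      · simp only [if_neg h1, dif_neg h2]
  · intro ω hω v hv
    by_cases h1 : ∃ s ∈ T0, v = Q.p1 s ∨ v = Q.p2 s
    · simp only [if_pos h1]
      obtain ⟨s, hs, rfl | rfl⟩ := h1
      · exact (hω s hs).2
      · rw [← (hω s hs).1.1]
        exact (hω s hs).2
    · have h2 : ∃ s ∈ T0, v = Q.q2 s := by
        obtain ⟨s, hs, hm⟩ := mem_biUnion.1 hv
        simp only [mem_insert, mem_singleton] at hm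
        rcases hm with hm | hm | hm
        · exact absurd ⟨s, hs, Or.inl hm⟩ h1
        · exact absurd ⟨s, hs, Or.inr hm⟩ h1
        · exact ⟨s, hs, hm⟩
      simp only [if_neg h1, dif_pos h2]
      obtain ⟨hs, hv2⟩ := h2.choose_spec
      have h3 := (hω _ hs).1.2.1
      rw [h3, ← hv2]

theorem ach_del (hM : 2 ≤ M) (Q : SqSys I) {n : ℕ} (hn : 0 < n) (hQ : Q.Ok n)
    (𝓕 : Finset (Finset I)) (ε a τ f0 : ℝ) (hε0 : 0 < ε) (hε1 : ε ≤ 1)
    (ha : a = ε ^ 2 / (8 * M)) (hτ0 : 0 ≤ τ) (hτ : τ ≤ 1 / 16) (hf0 : 1 ≤ a * f0)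
    (hmin : ∀ F ∈ 𝓕, f0 ≤ (F.card : ℝ))
    (hcount : ∀ (e : I) (f : ℕ), ((𝓕.filter (fun F => e ∈ F ∧ F.card = f)).card : ℝ) ≤
      2 * Real.exp (a * f))
    (hsmall : 2 * Real.exp 2 * n ≤ ε * (M : ℝ) ^ 2) :
    Ach (M := M) τ (16 * n * M / a * Real.exp (-(a * f0)))
      (fun ω => ∀ F ∈ 𝓕, ∀ i : Fin M, ∀ T0 : Finset Q.S, T0.card = ⌈ε * F.card / M⌉₊ →
        (∀ s ∈ T0, Q.p1 s ∈ F ∨ Q.p2 s ∈ F) →
        (∀ s ∈ T0, ∀ s' ∈ T0, s ≠ s' → Disjoint (Q.vars s) (Q.vars s')) →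
        ¬ ∀ s ∈ T0, Q.Bad ω s ∧ ω (Q.p1 s) = i) := by
  have hM1 : 0 < M := by omega
  have hM0 : (0 : ℝ) < M := by exact_mod_cast hM1
  have hM2 : (2 : ℝ) ≤ M := by exact_mod_cast hM
  have ha0 : 0 < a := by
    rw [ha]
    positivity
  have ha1 : a ≤ 1 := by
    rw [ha, div_le_one (by positivity)]
    nlinarith
  have hf00 : 0 < f0 := by
    by_contra h
    push Not at h
    nlinarith
  set y : ℝ := 2 / (M : ℝ) ^ 3 with hy
  have hy0 : 0 < y := by positivity
  have hy1 : y ≤ 1 / 4 := by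
    rw [hy, div_le_div_iff₀ (by positivity) (by norm_num)]
    have : (8 : ℝ) ≤ (M : ℝ) ^ 3 := by
      calc (8 : ℝ) = 2 ^ 3 := by norm_num
        _ ≤ (M : ℝ) ^ 3 := pow_le_pow_left₀ (by norm_num) hM2 3
    linarith
  let J : Type := {p : Finset I × Fin M × Finset Q.S // p.1 ∈ 𝓕 ∧
    p.2.2.card = ⌈ε * p.1.card / M⌉₊ ∧ (∀ s ∈ p.2.2, Q.p1 s ∈ p.1 ∨ Q.p2 s ∈ p.1) ∧
    (∀ s ∈ p.2.2, ∀ s' ∈ p.2.2, s ≠ s' → Disjoint (Q.vars s) (Q.vars s'))}
  have hpos : ∀ j : J, 0 < j.1.2.2.card := by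
    intro j
    rw [j.2.2.1, Nat.ceil_pos]
    have := hmin j.1.1 j.2.1
    have h2 : (0 : ℝ) < (j.1.1.card : ℝ) := lt_of_lt_of_le hf00 this
    positivity
  refine ⟨J, Fintype.ofFinite J, fun j => j.1.2.2.biUnion Q.vars,
    fun j => {ω : I → Fin M | ∀ s ∈ j.1.2.2, Q.Bad ω s ∧ ω (Q.p1 s) = j.1.2.1},
    fun j => y ^ j.1.2.2.card, ?_, ?_, ?_, ?_, ?_⟩
  · intro j ω ω' hω
    have key : ∀ s ∈ j.1.2.2, (Q.Bad ω s ∧ ω (Q.p1 s) = j.1.2.1 ↔
        Q.Bad ω' s ∧ ω' (Q.p1 s) = j.1.2.1) := by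
      intro s hs
      have hv : ∀ v ∈ Q.vars s, ω v = ω' v := fun v hv =>
        hω v (mem_biUnion.2 ⟨s, hs, hv⟩)
      unfold SqSys.Bad
      rw [hv (Q.p1 s) (by simp [SqSys.vars]), hv (Q.p2 s) (by simp [SqSys.vars]),
        hv (Q.q1 s) (by simp [SqSys.vars]), hv (Q.q2 s) (by simp [SqSys.vars])]
    constructor
    · intro h s hs
      exact (key s hs).1 (h s hs)
    · intro h s hs
      exact (key s hs).2 (h s hs)
  · intro j
    refine ⟨by positivity, ?_⟩
    calc y ^ j.1.2.2.card ≤ y ^ 1 :=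
          pow_le_pow_of_le_one hy0.le (by linarith) (hpos j)
      _ = y := pow_one y
      _ ≤ 1 / 2 := by linarith
  · intro j
    exact pr_ev hM Q hQ hτ0 hτ j.1.2.1 j.1.2.2 j.2.2.2.2
  · intro e
    classical
    have hs : ∀ j : J, e ∈ j.1.2.2.biUnion Q.vars → ∃ s, s ∈ j.1.2.2 ∧ e ∈ Q.vars s := by
      intro j hj
      obtain ⟨s, h1, h2⟩ := mem_biUnion.1 hj
      exact ⟨s, h1, h2⟩
    let SF : Finset I → Finset Q.S := fun F => univ.filter (fun s => Q.p1 s ∈ F ∨ Q.p2 s ∈ F)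
    let K : Finset (Σ (_ : Fin M), Σ (_ : Q.S), Σ (_ : Finset I), Finset Q.S) :=
      (univ : Finset (Fin M)).sigma fun _ =>
        ((univ : Finset Q.S).filter (fun s => e ∈ Q.vars s)).sigma fun s =>
          (𝓕.filter (fun F => Q.p1 s ∈ F ∨ Q.p2 s ∈ F)).sigma fun F =>
            powersetCard ⌈ε * F.card / M⌉₊ (SF F)
    let _ : Fintype J := Fintype.ofFinite J
    have step1 : ∑ j ∈ univ.filter (fun j : J => e ∈ j.1.2.2.biUnion Q.vars),
        y ^ j.1.2.2.card ≤ ∑ k ∈ K, y ^ k.2.2.2.card := by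
      rw [← sum_attach]
      let g : {j : J // j ∈ univ.filter (fun j : J => e ∈ j.1.2.2.biUnion Q.vars)} →
          (Σ (_ : Fin M), Σ (_ : Q.S), Σ (_ : Finset I), Finset Q.S) := fun j =>
        ⟨j.1.1.2.1, (hs j.1 (mem_filter.1 j.2).2).choose, j.1.1.1, j.1.1.2.2⟩
      have hg : Function.Injective g := by
        intro j j' hjj
        have e1 : j.1.1.2.1 = j'.1.1.2.1 := congrArg (fun k => k.1) hjj
        have e2 : j.1.1.1 = j'.1.1.1 := congrArg (fun k => k.2.2.1) hjj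
        have e3 : j.1.1.2.2 = j'.1.1.2.2 := congrArg (fun k => k.2.2.2) hjj
        exact Subtype.ext (Subtype.ext (Prod.ext e2 (Prod.ext e1 e3)))
      have h1 : ∑ j ∈ (univ.filter (fun j : J => e ∈ j.1.2.2.biUnion Q.vars)).attach,
          y ^ j.1.1.2.2.card = ∑ k ∈ ((univ.filter
            (fun j : J => e ∈ j.1.2.2.biUnion Q.vars)).attach).image g, y ^ k.2.2.2.card :=
        (sum_image (f := fun k : (Σ (_ : Fin M), Σ (_ : Q.S), Σ (_ : Finset I), Finset Q.S) =>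
          y ^ k.2.2.2.card) fun _ _ _ _ h => hg h).symm
      rw [h1]
      refine sum_le_sum_of_subset_of_nonneg ?_ fun k _ _ => by positivity
      intro k hk
      obtain ⟨j, -, rfl⟩ := mem_image.1 hk
      have hsp := (hs j.1 (mem_filter.1 j.2).2).choose_spec
      refine mem_sigma.2 ⟨mem_univ _, mem_sigma.2 ⟨mem_filter.2 ⟨mem_univ _, hsp.2⟩,
        mem_sigma.2 ⟨mem_filter.2 ⟨j.1.2.1, j.1.2.2.2.1 _ hsp.1⟩, mem_powersetCard.2
          ⟨fun s' hs' => mem_filter.2 ⟨mem_univ _, j.1.2.2.2.1 s' hs'⟩, j.1.2.2.1⟩⟩⟩⟩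
    have inner : ∀ F ∈ 𝓕, ∑ T0 ∈ powersetCard ⌈ε * F.card / M⌉₊ (SF F), y ^ T0.card ≤
        Real.exp (-(ε * F.card / M)) := by
      intro F hF
      have h1 : ∀ T0 ∈ powersetCard ⌈ε * F.card / M⌉₊ (SF F),
          y ^ T0.card = y ^ ⌈ε * F.card / M⌉₊ := by
        intro T0 hT
        rw [(mem_powersetCard.1 hT).2]
      rw [sum_congr rfl h1, sum_const, card_powersetCard, nsmul_eq_mul]
      have h2 : (SF F).card ≤ n * F.card := by
        have h3 : SF F ⊆ F.biUnion (fun e => univ.filter (fun s => e = Q.p1 s ∨ e = Q.p2 s)) := by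
          intro s hs
          rw [mem_biUnion]
          rcases (mem_filter.1 hs).2 with h | h
          · exact ⟨_, h, mem_filter.2 ⟨mem_univ _, Or.inl rfl⟩⟩
          · exact ⟨_, h, mem_filter.2 ⟨mem_univ _, Or.inr rfl⟩⟩
        refine (card_le_card h3).trans ?_
        rw [mul_comm]
        exact card_biUnion_le_card_mul _ _ _ fun e _ => hQ.degp e
      have h3 : 0 < F.card := by
        have := hmin F hF
        have h4 : (0 : ℝ) < (F.card : ℝ) := lt_of_lt_of_le hf00 this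
        exact_mod_cast h4
      refine le_trans (mul_le_mul_of_nonneg_right ?_ (by positivity))
        (del_num hε0 hM1 h3 hsmall rfl)
      exact_mod_cast Nat.choose_le_choose _ h2
    have mid : ∀ s : Q.S, ∑ F ∈ 𝓕.filter (fun F => Q.p1 s ∈ F ∨ Q.p2 s ∈ F),
        ∑ T0 ∈ powersetCard ⌈ε * F.card / M⌉₊ (SF F), y ^ T0.card ≤
          8 / a * Real.exp (-(a * f0)) := by
      intro s
      have h1 : ∑ F ∈ 𝓕.filter (fun F => Q.p1 s ∈ F ∨ Q.p2 s ∈ F),
          ∑ T0 ∈ powersetCard ⌈ε * F.card / M⌉₊ (SF F), y ^ T0.card ≤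
          ∑ F ∈ 𝓕.filter (fun F => Q.p1 s ∈ F ∨ Q.p2 s ∈ F),
            Real.exp (-(ε * F.card / M)) :=
        sum_le_sum fun F hF => inner F (mem_filter.1 hF).1
      have h2 := sum_union_inter (s₁ := 𝓕.filter (fun F => Q.p1 s ∈ F))
        (s₂ := 𝓕.filter (fun F => Q.p2 s ∈ F))
        (f := fun F => Real.exp (-(ε * F.card / M)))
      rw [← filter_or] at h2
      have h3 : 0 ≤ ∑ F ∈ 𝓕.filter (fun F => Q.p1 s ∈ F) ∩ 𝓕.filter (fun F => Q.p2 s ∈ F),
          Real.exp (-(ε * F.card / M)) := sum_nonneg fun F _ => (Real.exp_pos _).le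
      have h4 := sum_fam 𝓕 hε0 hε1 hM ha ha0 ha1 hmin hcount (Q.p1 s)
      have h5 := sum_fam 𝓕 hε0 hε1 hM ha ha0 ha1 hmin hcount (Q.p2 s)
      have h6 : 8 / a * Real.exp (-(a * f0)) = 4 / a * Real.exp (-(a * f0)) +
          4 / a * Real.exp (-(a * f0)) := by ring
      rw [h6]
      linarith
    have cSe : (((univ : Finset Q.S).filter (fun s => e ∈ Q.vars s)).card : ℝ) ≤ 2 * n := by
      have h1 : (univ : Finset Q.S).filter (fun s => e ∈ Q.vars s) ⊆
          univ.filter (fun s => e = Q.p1 s ∨ e = Q.p2 s) ∪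
            univ.filter (fun s => e = Q.q1 s ∨ e = Q.q2 s) := by
        intro s hs
        have h2 := (mem_filter.1 hs).2
        unfold SqSys.vars at h2
        simp only [mem_insert, mem_singleton] at h2
        rw [mem_union, mem_filter, mem_filter]
        rcases h2 with h2 | h2 | h2 | h2
        · exact Or.inl ⟨mem_univ _, Or.inl h2⟩
        · exact Or.inl ⟨mem_univ _, Or.inr h2⟩
        · exact Or.inr ⟨mem_univ _, Or.inl h2⟩
        · exact Or.inr ⟨mem_univ _, Or.inr h2⟩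
      have h2 := (card_le_card h1).trans (card_union_le _ _)
      have h3 := hQ.degp e
      have h4 := hQ.degq e
      have h5 : ((univ : Finset Q.S).filter (fun s => e ∈ Q.vars s)).card ≤ 2 * n := by omega
      exact_mod_cast h5
    have hC : 0 ≤ 8 / a * Real.exp (-(a * f0)) := by positivity
    refine step1.trans ?_
    calc ∑ k ∈ K, y ^ k.2.2.2.card = ∑ i : Fin M,
          ∑ s ∈ (univ : Finset Q.S).filter (fun s => e ∈ Q.vars s),
            ∑ F ∈ 𝓕.filter (fun F => Q.p1 s ∈ F ∨ Q.p2 s ∈ F),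
              ∑ T0 ∈ powersetCard ⌈ε * F.card / M⌉₊ (SF F), y ^ T0.card := by
          rw [sum_sigma]
          refine sum_congr rfl fun i _ => ?_
          rw [sum_sigma]
          refine sum_congr rfl fun s _ => ?_
          rw [sum_sigma]
      _ ≤ ∑ i : Fin M, ∑ s ∈ (univ : Finset Q.S).filter (fun s => e ∈ Q.vars s),
            8 / a * Real.exp (-(a * f0)) :=
          sum_le_sum fun i _ => sum_le_sum fun s _ => mid s
      _ = M * (((univ : Finset Q.S).filter (fun s => e ∈ Q.vars s)).card *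
            (8 / a * Real.exp (-(a * f0)))) := by
          rw [sum_const, sum_const, nsmul_eq_mul, nsmul_eq_mul, card_univ, Fintype.card_fin]
      _ ≤ M * (2 * n * (8 / a * Real.exp (-(a * f0)))) :=
          mul_le_mul_of_nonneg_left (mul_le_mul_of_nonneg_right cSe hC) hM0.le
      _ = 16 * n * M / a * Real.exp (-(a * f0)) := by ring
  · intro ω h F hF i T0 h1 h2 h3 h4
    exact h ⟨(F, i, T0), hF, h1, h2, h3⟩ h4

end Pool.Agent.SKA
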