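import Pool.Agent.SKA.Defs

set_option autoImplicit false

/-!
# SKA LongCount (package, 1.0 h): number of saturated chains

`chains_through`: a chain `P : Fin (t+1) → Finset (Fin n)` (consecutive members cover each other) is determined by `P j = X`, `P (j+1) = Y` and the `t - 1` elements `x_i` with `P (i+1) = insert x_i (P i)`, `i ≠ j`
(go up from `Y` and down from `X`; going down: `P i = (P (i+1)).erase x_i`). So there are at most `n^(t-1)` of them (injective map into the functions `{i : Fin t // i ≠ j} → Fin n`).
`chains_between`: induction on `t`: for `t = 0` at most one. `t+1`: `P 1 = insert x (P 0)` with `x ∈ D \ B`, and `|D \ B| = t+1` (if a chain exists), then the chain from `P 1` to `D` has length `t`: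
at most `(t+1) t!`. (Or: the map to the ordering `i ↦ x_i`, an injective function `Fin t → D \ B`, i.e. at most `t!` of them: `Fintype.card_embedding_eq`.)
-/

open Finset

namespace Pool.Agent.SKA

/-- Saturated chains of length `t`. -/
def IsCh {n t : ℕ} (P : Fin (t + 1) → Finset (Fin n)) : Prop :=
  ∀ j : Fin t, Cov (P j.castSucc) (P j.succ)

private theorem cov_ex {n : ℕ} {A D : Finset (Fin n)} (h : Cov A D) :
    ∃ x, x ∉ A ∧ D = insert x A := by
  obtain ⟨h1, h2⟩ := h
  have h3 : (D \ A).card = 1 := by
    rw [Finset.card_sdiff_of_subset h1]; omega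
  obtain ⟨x, hx⟩ := Finset.card_eq_one.1 h3
  have hxm : x ∈ D \ A := by rw [hx]; exact mem_singleton_self x
  refine ⟨x, (mem_sdiff.1 hxm).2, ?_⟩
  rw [← Finset.sdiff_union_of_subset h1, hx, Finset.insert_eq]

open Classical in
private noncomputable def gx {n : ℕ} (d : Fin n) (A D : Finset (Fin n)) : Fin n :=
  if h : ∃ x, x ∉ A ∧ D = insert x A then h.choose else d

private theorem gx_spec {n : ℕ} (d : Fin n) {A D : Finset (Fin n)} (h : Cov A D) :
    gx d A D ∉ A ∧ D = insert (gx d A D) A := by
  have h' := cov_ex h
  unfold gx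
  rw [dif_pos h']
  exact h'.choose_spec

private theorem gx_erase {n : ℕ} (d : Fin n) {A D : Finset (Fin n)} (h : Cov A D) :
    A = D.erase (gx d A D) := by
  obtain ⟨h1, h2⟩ := gx_spec d h
  generalize gx d A D = x at h1 h2
  subst h2
  exact (Finset.erase_insert h1).symm

open Classical in
theorem chains_through {n t : ℕ} (j : Fin t) (e : Edg n) :
    ((univ : Finset (Fin (t + 1) → Finset (Fin n))).filter
      (fun P => IsCh P ∧ (P j.castSucc, P j.succ) = e)).card ≤ n ^ (t - 1) := by
  rcases Nat.eq_zero_or_pos n with hn | hn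
  · subst hn
    rw [Finset.filter_false_of_mem, Finset.card_empty]
    · exact Nat.zero_le _
    · rintro P - ⟨hP, -⟩
      obtain ⟨x, -⟩ := cov_ex (hP j)
      exact x.elim0
  · let d : Fin n := ⟨0, hn⟩
    have hc : Fintype.card ({i : Fin t // i ≠ j} → Fin n) = n ^ (t - 1) := by
      rw [Fintype.card_fun, Fintype.card_fin, Fintype.card_subtype_compl, Fintype.card_fin,
        Fintype.card_subtype_eq]
    rw [← hc, ← Finset.card_univ]
    refine Finset.card_le_card_of_injOn
      (fun P (i : {i : Fin t // i ≠ j}) => gx d (P i.1.castSucc) (P i.1.succ))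
      (fun _ _ => mem_univ _) ?_
    intro P hP P' hP' heq
    rw [mem_coe, mem_filter] at hP hP'
    obtain ⟨-, hP, hPe⟩ := hP
    obtain ⟨-, hP', hPe'⟩ := hP'
    have he := hPe.trans hPe'.symm
    have he1 : P j.castSucc = P' j.castSucc := congrArg Prod.fst he
    have he2 : P j.succ = P' j.succ := congrArg Prod.snd he
    have hx : ∀ i : Fin t, i ≠ j →
        gx d (P i.castSucc) (P i.succ) = gx d (P' i.castSucc) (P' i.succ) :=
      fun i hi => congrFun heq ⟨i, hi⟩
    have hup : ∀ i : Fin t, i ≠ j → P i.castSucc = P' i.castSucc → P i.succ = P' i.succ := by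
      intro i hi h
      have h1 := (gx_spec d (hP i)).2
      have h2 := (gx_spec d (hP' i)).2
      rw [← hx i hi, ← h] at h2
      exact h1.trans h2.symm
    have hdn : ∀ i : Fin t, i ≠ j → P i.succ = P' i.succ → P i.castSucc = P' i.castSucc := by
      intro i hi h
      rw [gx_erase d (hP i), gx_erase d (hP' i), hx i hi, h]
    have up : ∀ k : ℕ, ∀ hk : j.1 + 1 + k < t + 1,
        P ⟨j.1 + 1 + k, hk⟩ = P' ⟨j.1 + 1 + k, hk⟩ := by
      intro k
      induction k with
      | zero => intro hk; exact he2
      | succ k ih =>
        intro hk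
        have h1 := ih (by omega)
        have h2 := hup ⟨j.1 + 1 + k, by omega⟩ (by
          intro h
          have := congrArg Fin.val h
          simp only at this
          omega) h1
        exact h2
    have dn : ∀ k : ℕ, k ≤ j.1 → ∀ hk : j.1 - k < t + 1,
        P ⟨j.1 - k, hk⟩ = P' ⟨j.1 - k, hk⟩ := by
      intro k
      induction k with
      | zero => intro _ hk; exact he1
      | succ k ih =>
        intro hkj hk
        have h1 := ih (by omega) (by omega)
        have hi : j.1 - (k + 1) < t := by have := j.2; omega
        have h0 : (⟨j.1 - k, by have := j.2; omega⟩ : Fin (t + 1)) =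
            (⟨j.1 - (k + 1), hi⟩ : Fin t).succ := by
          apply Fin.ext
          simp only [Fin.val_succ]
          omega
        rw [h0] at h1
        exact hdn ⟨j.1 - (k + 1), hi⟩ (by
          intro h
          have := congrArg Fin.val h
          simp only at this
          omega) h1
    funext i
    rcases le_or_gt i.1 j.1 with hij | hij
    · have h1 := dn (j.1 - i.1) (by omega) (by have := i.2; omega)
      have h2 : (⟨j.1 - (j.1 - i.1), by have := i.2; omega⟩ : Fin (t + 1)) = i :=
        Fin.ext (by simp only; omega)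
      rw [h2] at h1
      exact h1
    · have h1 := up (i.1 - (j.1 + 1)) (by have := i.2; omega)
      have h2 : (⟨j.1 + 1 + (i.1 - (j.1 + 1)), by have := i.2; omega⟩ : Fin (t + 1)) = i :=
        Fin.ext (by simp only; omega)
      rw [h2] at h1
      exact h1

private theorem ch_card {n t : ℕ} (P : Fin (t + 1) → Finset (Fin n)) (h : IsCh P) (i : ℕ)
    (hi : i < t + 1) : (P ⟨i, hi⟩).card = (P 0).card + i ∧ P 0 ⊆ P ⟨i, hi⟩ := by
  induction i with
  | zero => exact ⟨rfl, Finset.Subset.refl _⟩
  | succ i ih =>
    obtain ⟨h1, h2⟩ := ih (by omega)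
    have h3 := h ⟨i, by omega⟩
    have h4 : (P ⟨i, by omega⟩) ⊆ P ⟨i + 1, hi⟩ := h3.1
    have h5 : (P ⟨i + 1, hi⟩).card = (P ⟨i, by omega⟩).card + 1 := h3.2
    exact ⟨by omega, h2.trans h4⟩

open Classical in
theorem chains_between {n t : ℕ} (B D : Finset (Fin n)) :
    ((univ : Finset (Fin (t + 1) → Finset (Fin n))).filter
      (fun P => IsCh P ∧ P 0 = B ∧ P (Fin.last t) = D)).card ≤ t.factorial := by
  induction t generalizing B with
  | zero =>
    rw [Nat.factorial_zero, Finset.card_le_one]
    intro P hP P' hP'
    rw [mem_filter] at hP hP'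
    funext i
    have hi : i = 0 := Fin.ext (by have := i.2; simp only [Fin.val_zero]; omega)
    rw [hi, hP.2.2.1, hP'.2.2.1]
  | succ t ih =>
    rcases Finset.eq_empty_or_nonempty ((univ : Finset (Fin (t + 1 + 1) → Finset (Fin n))).filter
      (fun P => IsCh P ∧ P 0 = B ∧ P (Fin.last (t + 1)) = D)) with h0 | ⟨P0, hP0⟩
    · rw [h0, Finset.card_empty]
      exact Nat.zero_le _
    · rw [mem_filter] at hP0
      obtain ⟨-, hc0, hB0, hD0⟩ := hP0
      have hcard : (D \ B).card = t + 1 := by
        have h1 := ch_card P0 hc0 (t + 1) (by omega)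
        have h2 : (⟨t + 1, by omega⟩ : Fin (t + 1 + 1)) = Fin.last (t + 1) := rfl
        rw [h2, hB0, hD0] at h1
        rw [Finset.card_sdiff_of_subset h1.2]
        omega
      obtain ⟨d, -⟩ := cov_ex (hc0 0)
      have hle : ((univ : Finset (Fin (t + 1 + 1) → Finset (Fin n))).filter
          (fun P => IsCh P ∧ P 0 = B ∧ P (Fin.last (t + 1)) = D)).card ≤
          ((D \ B).sigma (fun x => (univ : Finset (Fin (t + 1) → Finset (Fin n))).filter
            (fun P => IsCh P ∧ P 0 = insert x B ∧ P (Fin.last t) = D))).card := by
        refine Finset.card_le_card_of_injOn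
          (fun P => (⟨gx d (P 0) (P 1), fun i => P i.succ⟩ :
            (_ : Fin n) × (Fin (t + 1) → Finset (Fin n)))) ?_ ?_
        · intro P hP
          rw [mem_coe, mem_filter] at hP
          obtain ⟨-, hc, hB, hD⟩ := hP
          have h1 : Cov (P 0) (P 1) := hc 0
          have h2 := gx_spec d h1
          have h3 := ch_card P hc (t + 1) (by omega)
          have hsub : P 1 ⊆ D := by
            have h4 := ch_card (fun i : Fin (t + 1) => P i.succ) (fun i => hc i.succ) t (by omega)
            have h5 : P (Fin.succ (⟨t, by omega⟩ : Fin (t + 1))) = D := hD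
            have h6 : P 1 ⊆ P (Fin.succ (⟨t, by omega⟩ : Fin (t + 1))) := h4.2
            rw [h5] at h6
            exact h6
          rw [mem_coe, mem_sigma]
          refine ⟨?_, ?_⟩
          · rw [mem_sdiff]
            refine ⟨hsub ?_, ?_⟩
            · have : gx d (P 0) (P 1) ∈ insert (gx d (P 0) (P 1)) (P 0) := mem_insert_self _ _
              rw [← h2.2] at this
              exact this
            · rw [← hB]; exact h2.1
          · rw [mem_filter]
            refine ⟨mem_univ _, fun i => hc i.succ, ?_, hD⟩
            change P 1 = insert (gx d (P 0) (P 1)) B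
            rw [← hB]
            exact h2.2
        · intro P hP P' hP' heq
          rw [mem_coe, mem_filter] at hP hP'
          have h1 : (fun i : Fin (t + 1) => P i.succ) = fun i : Fin (t + 1) => P' i.succ := by
            have := congrArg Sigma.snd heq
            exact this
          funext i
          refine Fin.cases ?_ (fun i => ?_) i
          · rw [hP.2.2.1, hP'.2.2.1]
          · exact congrFun h1 i
      refine hle.trans ?_
      rw [Finset.card_sigma, Nat.factorial_succ]
      calc _ ≤ ∑ _x ∈ D \ B, t.factorial := Finset.sum_le_sum fun x _ => ih (insert x B)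
        _ = _ := by rw [Finset.sum_const, hcard, smul_eq_mul]

end Pool.Agent.SKA
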