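import Mathlib

set_option autoImplicit false

/-!
# SKA LongNum (package, 0.5 h): the sum of the costs of the long pairs

Proof. `ρ = n/M²`, `Tρ ≤ 1/4` (`hT`). For `3 ≤ t ≤ T`: `t! ≤ 6 T^(t-3)` (`t! = 6 · 4 · 5 ⋯ t`). So the term is `≤ 24 t T^(t-3) ρ^(t-1) = 24 ρ² t (Tρ)^(t-3) ≤ 24 ρ² t (1/4)^(t-3)`, and
`∑_{t ≥ 3} t (1/4)^(t-3) = 3 · 4/3 + 4/9 = 40/9 ≤ 5` (or a simpler bound: `t (1/4)^(t-3) ≤ 3 (1/2)^(t-3)` as `t ≤ 3 · 2^(t-3)`; the sum would be `≤ 6`, giving `144 ρ²`, too large; use e.g.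
`t (1/4)^(t-3) ≤ 3 (1/3)^(t-3)` as `t ≤ 3 (4/3)^(t-3)` for `t ≥ 3`, sum `≤ 9/2`, total `≤ 108 ρ²`).
-/

open Finset

namespace Pool.Agent.SKA

private theorem fact_le {T : ℕ} (s : ℕ) (h : s + 3 ≤ T) :
    ((s + 3).factorial : ℝ) ≤ 6 * (T : ℝ) ^ s := by
  induction s with
  | zero => norm_num [Nat.factorial]
  | succ s ih =>
    have h1 := ih (by omega)
    have h2 : ((s + 3 + 1 : ℕ) : ℝ) ≤ T := by exact_mod_cast (by omega : s + 3 + 1 ≤ T)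
    rw [show s + 1 + 3 = (s + 3) + 1 by ring, Nat.factorial_succ, Nat.cast_mul, pow_succ]
    have h3 : (0 : ℝ) ≤ ((s + 3 + 1 : ℕ) : ℝ) := Nat.cast_nonneg _
    have h4 : (0 : ℝ) ≤ 6 * (T : ℝ) ^ s := by positivity
    calc ((s + 3 + 1 : ℕ) : ℝ) * ((s + 3).factorial : ℝ)
        ≤ (T : ℝ) * (6 * (T : ℝ) ^ s) := mul_le_mul h2 h1 (Nat.cast_nonneg _) (Nat.cast_nonneg _)
      _ = 6 * ((T : ℝ) ^ s * T) := by ring

private theorem lin_le (s : ℕ) : ((s + 3 : ℕ) : ℝ) ≤ 3 * (4 / 3 : ℝ) ^ s := by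
  induction s with
  | zero => norm_num
  | succ s ih =>
    rw [pow_succ]
    push_cast at ih ⊢
    have h1 : (0 : ℝ) ≤ s := Nat.cast_nonneg s
    linarith

private theorem geo (m : ℕ) : ∑ i ∈ Finset.range m, (1 / 3 : ℝ) ^ i ≤ 3 / 2 := by
  have h : ∀ m : ℕ, ∑ i ∈ Finset.range m, (1 / 3 : ℝ) ^ i = 3 / 2 - 3 / 2 * (1 / 3) ^ m := by
    intro m
    induction m with
    | zero => norm_num
    | succ m ih =>
      rw [Finset.sum_range_succ, ih, pow_succ]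
      ring
  rw [h]
  have h1 : (0 : ℝ) ≤ (1 / 3) ^ m := by positivity
  linarith

theorem long_num {n M T : ℕ} (hM : 0 < M) (hT : 4 * T * n ≤ M ^ 2) :
    ∑ t ∈ Finset.Icc 3 T, 4 * (t : ℝ) * t.factorial * ((n : ℝ) / (M : ℝ) ^ 2) ^ (t - 1) ≤
      120 * ((n : ℝ) / (M : ℝ) ^ 2) ^ 2 := by
  have hMR : (0 : ℝ) < M := by exact_mod_cast hM
  obtain ⟨r, hr⟩ : ∃ r : ℝ, r = (n : ℝ) / (M : ℝ) ^ 2 := ⟨_, rfl⟩
  have hr0 : 0 ≤ r := by
    rw [hr]
    positivity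
  have hTr : (T : ℝ) * r ≤ 1 / 4 := by
    have h1 : 4 * (T : ℝ) * n ≤ (M : ℝ) ^ 2 := by exact_mod_cast hT
    rw [hr, ← mul_div_assoc, div_le_iff₀ (by positivity)]
    linarith
  rw [← hr]
  have hI : Finset.Icc 3 T = Finset.Ico 3 (T + 1) := by
    ext i
    rw [Finset.mem_Icc, Finset.mem_Ico]
    omega
  rw [hI, Finset.sum_Ico_eq_sum_range]
  calc ∑ s ∈ Finset.range (T + 1 - 3), 4 * ((3 + s : ℕ) : ℝ) * (3 + s).factorial *
        r ^ (3 + s - 1)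
      ≤ ∑ s ∈ Finset.range (T + 1 - 3), 72 * r ^ 2 * (1 / 3 : ℝ) ^ s := by
        refine Finset.sum_le_sum fun s hs => ?_
        have hs' : s + 3 ≤ T := by
          have := Finset.mem_range.1 hs
          omega
        have h1 := fact_le s hs'
        have h2 := lin_le s
        rw [show 3 + s - 1 = s + 2 by omega, add_comm 3 s]
        have h3 : (0 : ℝ) ≤ T := Nat.cast_nonneg T
        calc 4 * ((s + 3 : ℕ) : ℝ) * ((s + 3).factorial : ℝ) * r ^ (s + 2)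
            ≤ 4 * (3 * (4 / 3 : ℝ) ^ s) * (6 * (T : ℝ) ^ s) * r ^ (s + 2) := by
              gcongr
          _ = 72 * r ^ 2 * ((4 / 3) * ((T : ℝ) * r)) ^ s := by
              rw [mul_pow, mul_pow]
              ring
          _ ≤ 72 * r ^ 2 * (1 / 3 : ℝ) ^ s := by
              have h4 : (4 / 3 : ℝ) * ((T : ℝ) * r) ≤ 1 / 3 := by linarith
              exact mul_le_mul_of_nonneg_left (pow_le_pow_left₀ (by positivity) h4 s)
                (by positivity)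
    _ = 72 * r ^ 2 * ∑ s ∈ Finset.range (T + 1 - 3), (1 / 3 : ℝ) ^ s := by
        rw [Finset.mul_sum]
    _ ≤ 72 * r ^ 2 * (3 / 2) := mul_le_mul_of_nonneg_left (geo _) (by positivity)
    _ ≤ 120 * r ^ 2 := by
        have : 0 ≤ r ^ 2 := by positivity
        linarith

end Pool.Agent.SKA
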