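import Pool.Agent.SKA.AchOps
import Pool.Agent.SKA.Det
import Pool.Agent.SKA.LongCount
import Pool.Agent.SKA.LongNum

set_option autoImplicit false

/-!
# SKA EvLong (package, 1.4 h): no two long monochromatic internally disjoint chains with the same ends

Proof. By `ach_forall` (over `t ∈ Finset.Icc 3 T`), `ach_mono` and `long_num` it suffices: for `3 ≤ t ≤ T`,
`Ach τ (4 t t! (n/M²)^(t-1)) (fun ω => no pair of length t)`.
`J` = pairs `(P, Q)` of chains (`IsCh`, functions `Fin (t+1) → Finset (Fin n)`), `P 0 = Q 0`, `P (last) = Q (last)`, `P j ≠ Q j` for `0 < j < t`. `vbl` = the set of the `2t` edges `(P j, P (j+1))`,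
`(Q j, Q (j+1))`, `j < t`; they are distinct: edges at different `j` have different levels; `(P j, P (j+1)) = (Q j, Q (j+1))` would need `P j = Q j` and `P (j+1) = Q (j+1)`, so `j = 0` and `j + 1 = t`, but `t ≥ 3`
(only `|vbl| ≤ 2t` is needed for the support, but the distinctness is needed below).
`B` = all edges of `P` have the same colour and all edges of `Q` have the same colour. `pr_le_of_det` with `v0` = the edges with `1 ≤ j < t` of both chains (`2(t-1)` distinct elements), `g ω v = ω (P 0, P 1)` for the edges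
of `P`, `ω (Q 0, Q 1)` for those of `Q` (these two edges are not in `v0`): `pr B ≤ (1/M)^(2(t-1))`. `x = 2 (1/M)^(2(t-1)) ≤ 2/16 ≤ 1/2`; `exp (-2 · 2t τ) ≥ 1/2` since `4 t τ ≤ 4Tτ ≤ 1/2 ≤ log 2`.
Sum at `e`: pairs with `e` in `P`: `t` choices of `j`, at most `n^(t-1)` chains `P` (`chains_through`), at most `t!` chains `Q` (`chains_between`); the same for `e` in `Q`: together `≤ 2 t n^(t-1) t!`, times `x`:
`4 t t! n^(t-1)/M^(2(t-1)) = 4 t t! (n/M²)^(t-1)`.
A `LongPair` given by functions `ℕ → Finset (Fin n)` and `t` restricts to a member of `J` (`P j` for `j : Fin (t+1)`).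
-/

open Finset

namespace Pool.Agent.SKA

private def LC {n t : ℕ} (P Q : Fin (t + 1) → Finset (Fin n)) : Prop :=
  IsCh P ∧ IsCh Q ∧ P 0 = Q 0 ∧ P (Fin.last t) = Q (Fin.last t) ∧
    ∀ j : Fin t, 0 < j.val → P j.castSucc ≠ Q j.castSucc

private def ed {n t : ℕ} (P : Fin (t + 1) → Finset (Fin n)) (j : Fin t) : Edg n :=
  (P j.castSucc, P j.succ)

private def Mo {n t M : ℕ} (P : Fin (t + 1) → Finset (Fin n)) (ω : Edg n → Fin M) : Prop :=
  ∀ j k : Fin t, ω (ed P j) = ω (ed P k)

private theorem lc_symm {n t : ℕ} {P Q : Fin (t + 1) → Finset (Fin n)} (h : LC P Q) : LC Q P :=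
  ⟨h.2.1, h.1, h.2.2.1.symm, h.2.2.2.1.symm, fun j hj => (h.2.2.2.2 j hj).symm⟩

private theorem ch_card {n t : ℕ} {P : Fin (t + 1) → Finset (Fin n)} (h : IsCh P)
    (j : Fin (t + 1)) : (P j).card = (P 0).card + j.val := by
  induction j using Fin.induction with
  | zero => simp
  | succ j ih =>
    have h1 := (h j).2
    rw [h1, ih, Fin.val_castSucc, Fin.val_succ]
    omega

private theorem pr_long {n t M : ℕ} (hM : 0 < M) (ht : 1 ≤ t)
    {P Q : Fin (t + 1) → Finset (Fin n)} (h : LC P Q) :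
    pr {ω : Edg n → Fin M | Mo P ω ∧ Mo Q ω} ≤ (1 / (M : ℝ)) ^ (2 * (t - 1)) := by
  classical
  obtain ⟨hP, hQ, h0, -, hne⟩ := h
  have cP := ch_card hP
  have cQ := ch_card hQ
  have hc0 : (P 0).card = (Q 0).card := by rw [h0]
  have cross : ∀ R S : Fin (t + 1) → Finset (Fin n), IsCh R → IsCh S →
      (R 0).card = (S 0).card → ∀ j k : Fin t, ed R j = ed S k → j = k := by
    intro R S hR hS h1 j k hjk
    have h2 : (R j.castSucc).card = (S k.castSucc).card := by
      have h3 := congrArg (fun e : Edg n => e.1.card) hjk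
      exact h3
    rw [ch_card hR, ch_card hS, h1, Fin.val_castSucc, Fin.val_castSucc] at h2
    exact Fin.ext (by omega)
  obtain ⟨z, hz⟩ : ∃ z : Fin t, z.val = 0 := ⟨⟨0, ht⟩, rfl⟩
  set U : Finset (Fin t) := univ.erase z with hU
  have hUc : U.card = t - 1 := by
    rw [hU, card_erase_of_mem (mem_univ z), card_univ, Fintype.card_fin]
  have hU0 : ∀ j ∈ U, j ≠ z := fun j hj => (mem_erase.1 hj).1
  have hU1 : ∀ j ∈ U, 0 < j.val := by
    intro j hj
    have h1 := hU0 j hj
    by_contra h2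
    exact h1 (Fin.ext (by omega))
  set v0 : Finset (Edg n) := U.image (ed P) ∪ U.image (ed Q) with hv0
  have hdis : Disjoint (U.image (ed P)) (U.image (ed Q)) := by
    rw [disjoint_left]
    intro v hv hv'
    obtain ⟨j, hj, rfl⟩ := mem_image.1 hv
    obtain ⟨k, hk, hkj⟩ := mem_image.1 hv'
    have h1 := cross Q P hQ hP hc0.symm k j hkj
    subst h1
    have h2 : Q k.castSucc = P k.castSucc := congrArg Prod.fst hkj
    exact hne k (hU1 k hk) h2.symm
  have hcard : v0.card = 2 * (t - 1) := by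
    rw [hv0, card_union_of_disjoint hdis,
      card_image_of_injective _ (fun j k => cross P P hP hP rfl j k),
      card_image_of_injective _ (fun j k => cross Q Q hQ hQ rfl j k), hUc]
    omega
  have hzP : ed P z ∉ v0 := by
    intro hv
    rcases mem_union.1 hv with hv | hv
    · obtain ⟨k, hk, hkj⟩ := mem_image.1 hv
      exact hU0 k hk (cross P P hP hP rfl k z hkj)
    · obtain ⟨k, hk, hkj⟩ := mem_image.1 hv
      exact hU0 k hk (cross Q P hQ hP hc0.symm k z hkj)
  have hzQ : ed Q z ∉ v0 := by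
    intro hv
    rcases mem_union.1 hv with hv | hv
    · obtain ⟨k, hk, hkj⟩ := mem_image.1 hv
      exact hU0 k hk (cross P Q hP hQ hc0 k z hkj)
    · obtain ⟨k, hk, hkj⟩ := mem_image.1 hv
      exact hU0 k hk (cross Q Q hQ hQ rfl k z hkj)
  have h1 := pr_le_of_det hM v0
    (fun (ω : Edg n → Fin M) v => if v ∈ U.image (ed P) then ω (ed P z) else ω (ed Q z))
    (by
      intro ω ω' hω v hv
      show (if v ∈ U.image (ed P) then ω (ed P z) else ω (ed Q z)) =
        (if v ∈ U.image (ed P) then ω' (ed P z) else ω' (ed Q z))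
      rw [hω _ hzP, hω _ hzQ])
    {ω : Edg n → Fin M | Mo P ω ∧ Mo Q ω}
    (by
      intro ω hω v hv
      obtain ⟨m1, m2⟩ := hω
      show ω v = (if v ∈ U.image (ed P) then ω (ed P z) else ω (ed Q z))
      split_ifs with hv'
      · obtain ⟨k, -, rfl⟩ := mem_image.1 hv'
        exact m1 k z
      · rcases mem_union.1 hv with hv | hv
        · exact absurd hv hv'
        · obtain ⟨k, -, rfl⟩ := mem_image.1 hv
          exact m2 k z)
  rwa [hcard] at h1

open Classical in
private theorem count_one {n t : ℕ} (i : Fin t) (e : Edg n) :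
    ((univ : Finset ((Fin (t + 1) → Finset (Fin n)) × (Fin (t + 1) → Finset (Fin n)))).filter
      (fun PQ => LC PQ.1 PQ.2 ∧ ed PQ.1 i = e)).card ≤ t.factorial * n ^ (t - 1) := by
  refine (card_le_mul_card_image_of_maps_to (f := Prod.fst)
    (t := (univ : Finset (Fin (t + 1) → Finset (Fin n))).filter
      (fun P => IsCh P ∧ (P i.castSucc, P i.succ) = e)) ?_ t.factorial ?_).trans
      (Nat.mul_le_mul_left _ (chains_through i e))
  · intro PQ hPQ
    rw [mem_filter] at hPQ ⊢
    exact ⟨mem_univ _, hPQ.2.1.1, hPQ.2.2⟩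
  · intro P hP
    refine (card_le_card_of_injOn Prod.snd
      (t := (univ : Finset (Fin (t + 1) → Finset (Fin n))).filter
        (fun Q => IsCh Q ∧ Q 0 = P 0 ∧ Q (Fin.last t) = P (Fin.last t))) ?_ ?_).trans
        (chains_between (P 0) (P (Fin.last t)))
    · rintro ⟨P', Q⟩ h
      have h1 := mem_filter.1 h
      have h2 := (mem_filter.1 h1.1).2.1
      have h3 : P' = P := h1.2
      subst h3
      exact mem_coe.2 (mem_filter.2 ⟨mem_univ _, h2.2.1, h2.2.2.1.symm, h2.2.2.2.1.symm⟩)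
    · rintro ⟨P', Q⟩ h ⟨P'', Q'⟩ h' heq
      have h1 : P' = P := (mem_filter.1 h).2
      have h2 : P'' = P := (mem_filter.1 h').2
      have h3 : Q = Q' := heq
      rw [h1, h2, h3]

open Classical in
private theorem count_two {n t : ℕ} (i : Fin t) (e : Edg n) :
    ((univ : Finset ((Fin (t + 1) → Finset (Fin n)) × (Fin (t + 1) → Finset (Fin n)))).filter
      (fun PQ => LC PQ.1 PQ.2 ∧ ed PQ.2 i = e)).card ≤ t.factorial * n ^ (t - 1) := by
  refine (card_le_card_of_injOn Prod.swap ?_ ?_).trans (count_one i e)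
  · intro PQ hPQ
    have h := (mem_filter.1 hPQ).2
    exact mem_coe.2 (mem_filter.2 ⟨mem_univ _, lc_symm h.1, h.2⟩)
  · exact Prod.swap_injective.injOn

private theorem ach_t {n M t : ℕ} (hM : 2 ≤ M) (τ : ℝ) (hτ0 : 0 ≤ τ) (ht : 3 ≤ t)
    (hτ : t * τ ≤ 1 / 8) :
    Ach (I := Edg n) (M := M) τ (4 * (t : ℝ) * t.factorial * ((n : ℝ) / (M : ℝ) ^ 2) ^ (t - 1))
      (fun ω => ∀ P Q : Fin (t + 1) → Finset (Fin n), LC P Q → ¬ (Mo P ω ∧ Mo Q ω)) := by
  classical
  have hM0 : 0 < M := by omega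
  have hMr : (2 : ℝ) ≤ M := by exact_mod_cast hM
  have hMp : (0 : ℝ) < M := by linarith
  have hy0 : 0 ≤ (1 / (M : ℝ)) ^ (2 * (t - 1)) := by positivity
  have hy1 : (1 / (M : ℝ)) ^ (2 * (t - 1)) ≤ 1 / 4 := by
    have h1 : 1 / (M : ℝ) ≤ 1 / 2 := one_div_le_one_div_of_le (by norm_num) hMr
    have h2 : (1 / (M : ℝ)) ^ (2 * (t - 1)) ≤ (1 / 2) ^ (2 * (t - 1)) :=
      pow_le_pow_left₀ (by positivity) h1 _
    have h3 : ((1 : ℝ) / 2) ^ (2 * (t - 1)) ≤ (1 / 2) ^ 2 :=
      pow_le_pow_of_le_one (by norm_num) (by norm_num) (by omega)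
    calc (1 / (M : ℝ)) ^ (2 * (t - 1)) ≤ (1 / 2) ^ 2 := h2.trans h3
      _ = 1 / 4 := by norm_num
  refine ⟨(Fin (t + 1) → Finset (Fin n)) × (Fin (t + 1) → Finset (Fin n)), inferInstance,
    fun PQ => if LC PQ.1 PQ.2 then univ.image (ed PQ.1) ∪ univ.image (ed PQ.2) else ∅,
    fun PQ => {ω | LC PQ.1 PQ.2 ∧ Mo PQ.1 ω ∧ Mo PQ.2 ω},
    fun _ => 2 * (1 / (M : ℝ)) ^ (2 * (t - 1)), ?_, ?_, ?_, ?_, ?_⟩
  · rintro ⟨P, Q⟩ ω ω' hω
    have key : LC P Q → (∀ j, ω (ed P j) = ω' (ed P j)) ∧ (∀ j, ω (ed Q j) = ω' (ed Q j)) := by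
      intro h
      have h1 : ∀ e ∈ univ.image (ed P) ∪ univ.image (ed Q), ω e = ω' e := by
        intro e he
        exact hω e (by
          show e ∈ (if LC P Q then univ.image (ed P) ∪ univ.image (ed Q) else ∅)
          rw [if_pos h]
          exact he)
      exact ⟨fun j => h1 _ (mem_union_left _ (mem_image_of_mem _ (mem_univ j))),
        fun j => h1 _ (mem_union_right _ (mem_image_of_mem _ (mem_univ j)))⟩
    constructor
    · rintro ⟨h, m1, m2⟩
      obtain ⟨k1, k2⟩ := key h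
      exact ⟨h, fun j k => by rw [← k1, ← k1]; exact m1 j k,
        fun j k => by rw [← k2, ← k2]; exact m2 j k⟩
    · rintro ⟨h, m1, m2⟩
      obtain ⟨k1, k2⟩ := key h
      exact ⟨h, fun j k => by rw [k1, k1]; exact m1 j k, fun j k => by rw [k2, k2]; exact m2 j k⟩
  · intro _
    exact ⟨by positivity, by linarith⟩
  · rintro ⟨P, Q⟩
    by_cases h : LC P Q
    · have h1 : pr {ω : Edg n → Fin M | LC P Q ∧ Mo P ω ∧ Mo Q ω} ≤
          (1 / (M : ℝ)) ^ (2 * (t - 1)) := by
        refine le_trans (le_of_eq ?_) (pr_long hM0 (by omega) h)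
        congr 1
        ext ω
        exact ⟨fun h => h.2, fun h' => ⟨h, h'⟩⟩
      refine h1.trans ?_
      show (1 / (M : ℝ)) ^ (2 * (t - 1)) ≤ 2 * (1 / (M : ℝ)) ^ (2 * (t - 1)) *
        Real.exp (-(2 * ((if LC P Q then univ.image (ed P) ∪ univ.image (ed Q) else ∅ :
          Finset (Edg n)).card : ℝ) * τ))
      rw [if_pos h]
      have h2 : ((univ.image (ed P) ∪ univ.image (ed Q)).card : ℝ) ≤ 2 * t := by
        have h3 : (univ.image (ed P) ∪ univ.image (ed Q)).card ≤ t + t := by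
          refine (card_union_le _ _).trans (Nat.add_le_add ?_ ?_)
          · refine card_image_le.trans ?_
            rw [card_univ, Fintype.card_fin]
          · refine card_image_le.trans ?_
            rw [card_univ, Fintype.card_fin]
        have h4 : ((univ.image (ed P) ∪ univ.image (ed Q)).card : ℝ) ≤ ((t + t : ℕ) : ℝ) := by
          exact_mod_cast h3
        push_cast at h4
        linarith
      have h5 : ((univ.image (ed P) ∪ univ.image (ed Q)).card : ℝ) * τ ≤ 2 * t * τ :=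
        mul_le_mul_of_nonneg_right h2 hτ0
      have h6 : (1 : ℝ) / 2 ≤
          Real.exp (-(2 * ((univ.image (ed P) ∪ univ.image (ed Q)).card : ℝ) * τ)) := by
        have h7 := Real.add_one_le_exp
          (-(2 * ((univ.image (ed P) ∪ univ.image (ed Q)).card : ℝ) * τ))
        linarith
      nlinarith
    · have h1 : {ω : Edg n → Fin M | LC P Q ∧ Mo P ω ∧ Mo Q ω} = ∅ := by
        ext ω
        exact ⟨fun h' => absurd h'.1 h, fun h' => h'.elim⟩
      show pr {ω : Edg n → Fin M | LC P Q ∧ Mo P ω ∧ Mo Q ω} ≤ _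
      rw [h1]
      have h2 : pr (∅ : Set (Edg n → Fin M)) = 0 := by
        unfold pr
        rw [Set.ncard_empty, Nat.cast_zero, zero_div]
      rw [h2]
      positivity
  · intro e
    rw [sum_const, nsmul_eq_mul]
    have h1 : ((univ : Finset ((Fin (t + 1) → Finset (Fin n)) ×
        (Fin (t + 1) → Finset (Fin n)))).filter (fun PQ =>
          e ∈ (if LC PQ.1 PQ.2 then univ.image (ed PQ.1) ∪ univ.image (ed PQ.2) else ∅))).card ≤
        2 * t * (t.factorial * n ^ (t - 1)) := by
      have h2 : ((univ : Finset ((Fin (t + 1) → Finset (Fin n)) ×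
          (Fin (t + 1) → Finset (Fin n)))).filter (fun PQ =>
            e ∈ (if LC PQ.1 PQ.2 then univ.image (ed PQ.1) ∪ univ.image (ed PQ.2) else ∅))) ⊆
          ((univ : Finset (Fin t)).biUnion (fun i => univ.filter (fun PQ :
            (Fin (t + 1) → Finset (Fin n)) × (Fin (t + 1) → Finset (Fin n)) =>
              LC PQ.1 PQ.2 ∧ ed PQ.1 i = e))) ∪
          ((univ : Finset (Fin t)).biUnion (fun i => univ.filter (fun PQ :
            (Fin (t + 1) → Finset (Fin n)) × (Fin (t + 1) → Finset (Fin n)) =>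
              LC PQ.1 PQ.2 ∧ ed PQ.2 i = e))) := by
        rintro ⟨P, Q⟩ hPQ
        have h3 := (mem_filter.1 hPQ).2
        have h4 : e ∈ (if LC P Q then univ.image (ed P) ∪ univ.image (ed Q) else ∅) := h3
        by_cases h : LC P Q
        · rw [if_pos h] at h4
          rcases mem_union.1 h4 with h4 | h4
          · obtain ⟨i, -, hi⟩ := mem_image.1 h4
            exact mem_union_left _ (mem_biUnion.2 ⟨i, mem_univ _, mem_filter.2
              ⟨mem_univ _, h, hi⟩⟩)
          · obtain ⟨i, -, hi⟩ := mem_image.1 h4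
            exact mem_union_right _ (mem_biUnion.2 ⟨i, mem_univ _, mem_filter.2
              ⟨mem_univ _, h, hi⟩⟩)
        · rw [if_neg h] at h4
          exact absurd h4 (notMem_empty _)
      have h5 : (((univ : Finset (Fin t)).biUnion (fun i => univ.filter (fun PQ :
            (Fin (t + 1) → Finset (Fin n)) × (Fin (t + 1) → Finset (Fin n)) =>
              LC PQ.1 PQ.2 ∧ ed PQ.1 i = e)))).card ≤ t * (t.factorial * n ^ (t - 1)) := by
        have h6 := card_biUnion_le_card_mul (univ : Finset (Fin t)) (fun i => univ.filter (fun PQ :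
            (Fin (t + 1) → Finset (Fin n)) × (Fin (t + 1) → Finset (Fin n)) =>
              LC PQ.1 PQ.2 ∧ ed PQ.1 i = e)) (t.factorial * n ^ (t - 1))
              (fun i _ => count_one i e)
        rwa [card_univ, Fintype.card_fin] at h6
      have h7 : (((univ : Finset (Fin t)).biUnion (fun i => univ.filter (fun PQ :
            (Fin (t + 1) → Finset (Fin n)) × (Fin (t + 1) → Finset (Fin n)) =>
              LC PQ.1 PQ.2 ∧ ed PQ.2 i = e)))).card ≤ t * (t.factorial * n ^ (t - 1)) := by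
        have h6 := card_biUnion_le_card_mul (univ : Finset (Fin t)) (fun i => univ.filter (fun PQ :
            (Fin (t + 1) → Finset (Fin n)) × (Fin (t + 1) → Finset (Fin n)) =>
              LC PQ.1 PQ.2 ∧ ed PQ.2 i = e)) (t.factorial * n ^ (t - 1))
              (fun i _ => count_two i e)
        rwa [card_univ, Fintype.card_fin] at h6
      refine (card_le_card h2).trans ((card_union_le _ _).trans ((Nat.add_le_add h5 h7).trans
        (le_of_eq (by ring))))
    have h8 : (((univ : Finset ((Fin (t + 1) → Finset (Fin n)) ×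
        (Fin (t + 1) → Finset (Fin n)))).filter (fun PQ =>
          e ∈ (if LC PQ.1 PQ.2 then univ.image (ed PQ.1) ∪ univ.image (ed PQ.2) else ∅))).card : ℝ)
        ≤ 2 * t * (t.factorial * n ^ (t - 1)) := by
      exact_mod_cast h1
    have h9 : ((n : ℝ) / (M : ℝ) ^ 2) ^ (t - 1) = n ^ (t - 1) * (1 / (M : ℝ)) ^ (2 * (t - 1)) := by
      rw [div_pow, pow_mul, div_pow, one_pow, div_pow, one_pow, mul_one_div]
    rw [h9]
    calc _ ≤ 2 * t * (t.factorial * n ^ (t - 1)) * (2 * (1 / (M : ℝ)) ^ (2 * (t - 1))) :=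
          mul_le_mul_of_nonneg_right h8 (by positivity)
      _ = _ := by ring
  · intro ω hω P Q h hm
    exact hω (P, Q) ⟨h, hm⟩

theorem ach_long {n M T : ℕ} (hM : 2 ≤ M) (τ : ℝ) (hτ0 : 0 ≤ τ) (hτ : T * τ ≤ 1 / 8)
    (hT : 4 * T * n ≤ M ^ 2) :
    Ach (I := Edg n) (M := M) τ (120 * ((n : ℝ) / (M : ℝ) ^ 2) ^ 2)
      (fun ω => ¬ LongPair n M T ω) := by
  have hall := ach_forall (I := Edg n) (M := M) (Finset.Icc 3 T) (τ := τ)
    (fun t : ℕ => 4 * (t : ℝ) * t.factorial * ((n : ℝ) / (M : ℝ) ^ 2) ^ (t - 1))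
    (fun t ω => ∀ P Q : Fin (t + 1) → Finset (Fin n), LC P Q → ¬ (Mo P ω ∧ Mo Q ω))
    (fun t ht => by
      obtain ⟨h1, h2⟩ := Finset.mem_Icc.1 ht
      refine ach_t hM τ hτ0 h1 (le_trans (mul_le_mul_of_nonneg_right ?_ hτ0) hτ)
      exact_mod_cast h2)
  refine ach_mono hall (long_num (by omega) hT) ?_
  rintro ω hω ⟨t, P, Q, i, i', ht3, htT, h0, hl, hP, hQ, hne, hi, hi'⟩
  refine hω t (Finset.mem_Icc.2 ⟨ht3, htT⟩) (fun j => P j.val) (fun j => Q j.val) ?_ ?_
  · refine ⟨fun j => ?_, fun j => ?_, h0, ?_, fun j hj => ?_⟩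
    · exact hP j.val j.isLt
    · exact hQ j.val j.isLt
    · exact hl
    · exact hne j.val hj j.isLt
  · constructor
    · intro j k
      exact (hi j.val j.isLt).trans (hi k.val k.isLt).symm
    · intro j k
      exact (hi' j.val j.isLt).trans (hi' k.val k.isLt).symm

end Pool.Agent.SKA
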