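import Pool.Agent.SKA.Det

set_option autoImplicit false

/-!
# SKA EvSh (package, 1.0 h): bad squares sharing an edge; monochromatic squares

`ach_sh`. `J` = pairs `(s, s')`, `s ≠ s'`, with a common path-`p` variable `e` (`(e = p1 s ∨ e = p2 s) ∧ (e = p1 s' ∨ e = p2 s')`). `vbl = vars s ∪ vars s'` (at most 8 elements), `B = {ω : Bad ω s ∧ Bad ω s'}`,
`x = 2/M⁴ ≤ 1/8`. Probability: by `share`, `vars s ∩ vars s' = {e}`. Let `e'` be the other one of `p1 s, p2 s`, and `e''` the other one of `p1 s', p2 s'`. `pr_le_of_det` with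
`v0 = {e', e'', q2 s, q2 s'}` (four distinct variables, since `vars s`, `vars s'` have four elements each and meet only in `e`), `g ω v = ω e` for `v = e', e''`, `= ω (q1 s)` for `v = q2 s`, `= ω (q1 s')` for
`v = q2 s'`; `e, q1 s, q1 s' ∉ v0`. So `pr B ≤ (1/M)^4 = x/2 ≤ x exp (-16 τ)` as `16 τ ≤ 1/2 ≤ log 2`. Sum at `g`: pairs with `g ∈ vars s`: at most `2n` choices of `s`, `2` choices of `e`, `n` choices of `s'`:
`4n²`; the same for `g ∈ vars s'`. Total `8 n² * 2/M⁴`.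
`ach_mono_sq`. `J = Q.S`, `vbl = vars s`, `B` = the four colours are equal, `x = 2/M³ ≤ 1/4`; `v0 = {p2 s, q1 s, q2 s}`, `g ω v = ω (p1 s)`: `pr B ≤ 1/M³ = x/2 ≤ x exp (-8τ)`. Sum at `g`: at most `2n` squares.
-/

open Finset

namespace Pool.Agent.SKA

variable {I : Type} [Fintype I] [DecidableEq I] {M : ℕ}

private theorem ne4 {a b c d : I} (h : ({a, b, c, d} : Finset I).card = 4) :
    a ≠ b ∧ a ≠ c ∧ a ≠ d ∧ b ≠ c ∧ b ≠ d ∧ c ≠ d := by
  have h1 : ({a, b, c, d} : Multiset I).toFinset.card = Multiset.card ({a, b, c, d} : Multiset I) := by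
    have h2 : ({a, b, c, d} : Multiset I).toFinset = {a, b, c, d} := by
      ext x
      simp
    rw [h2, h]
    rfl
  rw [Multiset.toFinset_card_eq_card_iff_nodup] at h1
  have h3 : ([a, b, c, d] : List I).Nodup := h1
  simp only [List.nodup_cons, List.mem_cons, List.not_mem_nil, or_false, not_or,
    List.nodup_nil, and_true, not_false_eq_true] at h3
  obtain ⟨⟨h4, h5, h6⟩, ⟨h7, h8⟩, h9⟩ := h3
  exact ⟨h4, h5, h6, h7, h8, h9⟩

/-- the pair `e, e'` is the pair `p1 s, p2 s` in some order -/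
private def Pr2 (Q : SqSys I) (s : Q.S) (e e' : I) : Prop :=
  (e = Q.p1 s ∧ e' = Q.p2 s) ∨ (e = Q.p2 s ∧ e' = Q.p1 s)

private theorem exists_pr2 (Q : SqSys I) (s : Q.S) {e : I} (h : e = Q.p1 s ∨ e = Q.p2 s) :
    ∃ e', Pr2 Q s e e' := by
  rcases h with h | h
  · exact ⟨Q.p2 s, Or.inl ⟨h, rfl⟩⟩
  · exact ⟨Q.p1 s, Or.inr ⟨h, rfl⟩⟩

private theorem pr2_ne {Q : SqSys I} {n : ℕ} (hQ : Q.Ok n) {s : Q.S} {e e' : I}
    (h : Pr2 Q s e e') : e ≠ e' ∧ e ≠ Q.q1 s ∧ e ≠ Q.q2 s ∧ e' ≠ Q.q1 s ∧ e' ≠ Q.q2 s ∧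
      Q.q1 s ≠ Q.q2 s := by
  obtain ⟨h1, h2, h3, h4, h5, h6⟩ := ne4 (hQ.card4 s)
  rcases h with ⟨rfl, rfl⟩ | ⟨rfl, rfl⟩
  · exact ⟨h1, h2, h3, h4, h5, h6⟩
  · exact ⟨h1.symm, h4, h5, h2, h3, h6⟩

private theorem pr2_mem {Q : SqSys I} {s : Q.S} {e e' : I} (h : Pr2 Q s e e') :
    e' ∈ Q.vars s := by
  unfold SqSys.vars
  rcases h with ⟨rfl, rfl⟩ | ⟨rfl, rfl⟩
  · simp
  · simp

private theorem pr2_bad {Q : SqSys I} {s : Q.S} {e e' : I} (h : Pr2 Q s e e') {ω : I → Fin M}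
    (hb : Q.Bad ω s) : ω e' = ω e := by
  rcases h with ⟨rfl, rfl⟩ | ⟨rfl, rfl⟩
  · exact hb.1.symm
  · exact hb.1

private theorem q1_mem (Q : SqSys I) (s : Q.S) : Q.q1 s ∈ Q.vars s := by
  unfold SqSys.vars
  simp

private theorem q2_mem (Q : SqSys I) (s : Q.S) : Q.q2 s ∈ Q.vars s := by
  unfold SqSys.vars
  simp

private theorem bad_congr (Q : SqSys I) (s : Q.S) {ω ω' : I → Fin M}
    (h : ∀ e ∈ Q.vars s, ω e = ω' e) : Q.Bad ω s ↔ Q.Bad ω' s := by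
  have h1 : ω (Q.p1 s) = ω' (Q.p1 s) := h _ (by unfold SqSys.vars; simp)
  have h2 : ω (Q.p2 s) = ω' (Q.p2 s) := h _ (by unfold SqSys.vars; simp)
  have h3 : ω (Q.q1 s) = ω' (Q.q1 s) := h _ (q1_mem Q s)
  have h4 : ω (Q.q2 s) = ω' (Q.q2 s) := h _ (q2_mem Q s)
  unfold SqSys.Bad
  rw [h1, h2, h3, h4]

private theorem pr_pair (hM : 2 ≤ M) {Q : SqSys I} {n : ℕ} (hQ : Q.Ok n) {s s' : Q.S}
    (hss : s ≠ s') {e : I} (he : e = Q.p1 s ∨ e = Q.p2 s) (he' : e = Q.p1 s' ∨ e = Q.p2 s') :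
    pr {ω : I → Fin M | Q.Bad ω s ∧ Q.Bad ω s'} ≤ (1 / (M : ℝ)) ^ 4 := by
  obtain ⟨a, ha⟩ := exists_pr2 Q s he
  obtain ⟨b, hb⟩ := exists_pr2 Q s' he'
  obtain ⟨n1, n2, n3, n4, n5, n6⟩ := pr2_ne hQ ha
  obtain ⟨m1, m2, m3, m4, m5, m6⟩ := pr2_ne hQ hb
  have hsh := hQ.share s s' e he he' hss
  have key : ∀ u ∈ Q.vars s, ∀ v ∈ Q.vars s', e ≠ u → u ≠ v := by
    rintro u hu v hv h rfl
    have h1 : u ∈ Q.vars s ∩ Q.vars s' := mem_inter.2 ⟨hu, hv⟩
    rw [hsh, mem_singleton] at h1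
    exact h h1.symm
  have k1 := key a (pr2_mem ha) b (pr2_mem hb) n1
  have k2 := key a (pr2_mem ha) _ (q2_mem Q s') n1
  have k3 := key _ (q2_mem Q s) b (pr2_mem hb) n3
  have k4 := key _ (q2_mem Q s) _ (q2_mem Q s') n3
  have k5 := key _ (q1_mem Q s) b (pr2_mem hb) n2
  have k6 := key _ (q1_mem Q s) _ (q2_mem Q s') n2
  have k7 := key a (pr2_mem ha) _ (q1_mem Q s') n1
  have k8 := key _ (q2_mem Q s) _ (q1_mem Q s') n3
  have hc : ({a, b, Q.q2 s, Q.q2 s'} : Finset I).card = 4 := by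
    rw [card_insert_of_notMem, card_insert_of_notMem, card_insert_of_notMem, card_singleton]
    · simp only [mem_singleton]
      exact k4
    · simp only [mem_insert, mem_singleton, not_or]
      exact ⟨k3.symm, m5⟩
    · simp only [mem_insert, mem_singleton, not_or]
      exact ⟨k1, n5, k2⟩
  have h1 := pr_le_of_det (M := M) (by omega) ({a, b, Q.q2 s, Q.q2 s'} : Finset I)
    (fun ω v => if v = Q.q2 s then ω (Q.q1 s) else if v = Q.q2 s' then ω (Q.q1 s') else ω e)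
    ?_ {ω : I → Fin M | Q.Bad ω s ∧ Q.Bad ω s'} ?_
  · rwa [hc] at h1
  · intro ω ω' h v _
    have g1 : ω (Q.q1 s) = ω' (Q.q1 s) := h _ (by
      simp only [mem_insert, mem_singleton, not_or]
      exact ⟨n4.symm, k5, n6, k6⟩)
    have g2 : ω (Q.q1 s') = ω' (Q.q1 s') := h _ (by
      simp only [mem_insert, mem_singleton, not_or]
      exact ⟨k7.symm, m4.symm, k8.symm, m6⟩)
    have g3 : ω e = ω' e := h _ (by
      simp only [mem_insert, mem_singleton, not_or]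
      exact ⟨n1, m1, n3, m3⟩)
    simp only [g1, g2, g3]
  · rintro ω ⟨b1, b2⟩ v hv
    simp only [mem_insert, mem_singleton] at hv
    by_cases c1 : v = Q.q2 s
    · simp only [c1, if_true]
      exact b1.2.1.symm
    by_cases c2 : v = Q.q2 s'
    · simp only [c1, c2, if_true, if_false, k4.symm]
      exact b2.2.1.symm
    simp only [c1, c2, if_false]
    rcases hv with rfl | rfl | h | h
    · exact pr2_bad ha b1
    · exact pr2_bad hb b2
    · exact absurd h c1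
    · exact absurd h c2

private theorem card_T {Q : SqSys I} {n : ℕ} (hQ : Q.Ok n) (e : I) :
    ((univ : Finset Q.S).filter (fun s => e ∈ Q.vars s)).card ≤ 2 * n := by
  classical
  have h1 : (univ : Finset Q.S).filter (fun s => e ∈ Q.vars s) ⊆
      (univ : Finset Q.S).filter (fun s => e = Q.p1 s ∨ e = Q.p2 s) ∪
        (univ : Finset Q.S).filter (fun s => e = Q.q1 s ∨ e = Q.q2 s) := by
    intro s hs
    rw [mem_filter] at hs
    have h2 := hs.2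
    unfold SqSys.vars at h2
    simp only [mem_insert, mem_singleton] at h2
    simp only [mem_union, mem_filter, mem_univ, true_and]
    rcases h2 with h2 | h2 | h2 | h2
    · exact Or.inl (Or.inl h2)
    · exact Or.inl (Or.inr h2)
    · exact Or.inr (Or.inl h2)
    · exact Or.inr (Or.inr h2)
  refine (card_le_card h1).trans ((card_union_le _ _).trans ?_)
  have h3 := hQ.degp e
  have h4 := hQ.degq e
  omega

private theorem half_exp {y : ℝ} (h : y ≤ 1 / 2) : 1 / 2 ≤ Real.exp (-y) := by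
  have := Real.add_one_le_exp (-y)
  linarith

theorem ach_sh (hM : 2 ≤ M) (Q : SqSys I) {n : ℕ} (hQ : Q.Ok n) (τ : ℝ) (hτ0 : 0 ≤ τ)
    (hτ : τ ≤ 1 / 32) :
    Ach (M := M) τ (16 * (n : ℝ) ^ 2 / (M : ℝ) ^ 4)
      (fun ω => ∀ s s' : Q.S, ∀ e, (e = Q.p1 s ∨ e = Q.p2 s) → (e = Q.p1 s' ∨ e = Q.p2 s') →
        Q.Bad ω s → Q.Bad ω s' → s = s') := by
  classical
  have hMr : (2 : ℝ) ≤ (M : ℝ) := by exact_mod_cast hM
  have hM4 : (16 : ℝ) ≤ (M : ℝ) ^ 4 := by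
    calc (16 : ℝ) = 2 ^ 4 := by norm_num
      _ ≤ (M : ℝ) ^ 4 := pow_le_pow_left₀ (by norm_num) hMr 4
  have hM4' : (0 : ℝ) < (M : ℝ) ^ 4 := by linarith
  refine ⟨{j : Q.S × Q.S // j.1 ≠ j.2 ∧ ∃ e, (e = Q.p1 j.1 ∨ e = Q.p2 j.1) ∧
    (e = Q.p1 j.2 ∨ e = Q.p2 j.2)}, inferInstance, fun j => Q.vars j.1.1 ∪ Q.vars j.1.2,
    fun j => {ω | Q.Bad ω j.1.1 ∧ Q.Bad ω j.1.2}, fun _ => 2 / (M : ℝ) ^ 4, ?_, ?_, ?_, ?_, ?_⟩
  · intro j ω ω' h
    exact and_congr (bad_congr Q _ fun e he => h e (mem_union_left _ he))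
      (bad_congr Q _ fun e he => h e (mem_union_right _ he))
  · intro j
    refine ⟨by positivity, ?_⟩
    rw [div_le_iff₀ hM4']
    linarith
  · rintro ⟨⟨s, s'⟩, hss, e, he, he'⟩
    have h1 : pr {ω : I → Fin M | Q.Bad ω s ∧ Q.Bad ω s'} ≤ (1 / (M : ℝ)) ^ 4 :=
      pr_pair hM hQ hss he he'
    refine h1.trans ?_
    have h2 : ((Q.vars s ∪ Q.vars s').card : ℝ) ≤ 8 := by
      have h3 := card_union_le (Q.vars s) (Q.vars s')
      rw [hQ.card4, hQ.card4] at h3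
      exact_mod_cast h3
    have h4 : 2 * ((Q.vars s ∪ Q.vars s').card : ℝ) * τ ≤ 1 / 2 := by nlinarith
    have h5 := half_exp h4
    have h6 : (1 / (M : ℝ)) ^ 4 = 2 / (M : ℝ) ^ 4 * (1 / 2) := by
      rw [one_div_pow]
      ring
    rw [h6]
    exact mul_le_mul_of_nonneg_left h5 (by positivity)
  · intro e
    rw [sum_const, nsmul_eq_mul]
    let sh : Q.S → Finset Q.S := fun s =>
      univ.filter (fun s' => Q.p1 s = Q.p1 s' ∨ Q.p1 s = Q.p2 s') ∪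
        univ.filter (fun s' => Q.p2 s = Q.p1 s' ∨ Q.p2 s = Q.p2 s')
    have hsh : ∀ s, (sh s).card ≤ 2 * n := by
      intro s
      refine (card_union_le _ _).trans ?_
      have h3 := hQ.degp (Q.p1 s)
      have h4 := hQ.degp (Q.p2 s)
      have h5 : ((univ : Finset Q.S).filter
        (fun s' => Q.p1 s = Q.p1 s' ∨ Q.p1 s = Q.p2 s')).card ≤ n := by convert h3
      have h6 : ((univ : Finset Q.S).filter
        (fun s' => Q.p2 s = Q.p1 s' ∨ Q.p2 s = Q.p2 s')).card ≤ n := by convert h4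
      omega
    have hmem : ∀ s s' e', (e' = Q.p1 s ∨ e' = Q.p2 s) → (e' = Q.p1 s' ∨ e' = Q.p2 s') →
        s' ∈ sh s := by
      rintro s s' e' (rfl | rfl) h
      · exact mem_union_left _ (mem_filter.2 ⟨mem_univ _, h⟩)
      · exact mem_union_right _ (mem_filter.2 ⟨mem_univ _, h⟩)
    let T : Finset Q.S := univ.filter (fun s => e ∈ Q.vars s)
    have hT : T.card ≤ 2 * n := card_T hQ e
    let A : Finset (Q.S × Q.S) := T.biUnion fun s => (sh s).image fun s' => (s, s')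
    let A' : Finset (Q.S × Q.S) := T.biUnion fun s' => (sh s').image fun s => (s, s')
    have hA : A.card ≤ 2 * n * (2 * n) :=
      (card_biUnion_le_card_mul _ _ (2 * n) fun s _ => card_image_le.trans (hsh s)).trans
        (Nat.mul_le_mul_right _ hT)
    have hA' : A'.card ≤ 2 * n * (2 * n) :=
      (card_biUnion_le_card_mul _ _ (2 * n) fun s _ => card_image_le.trans (hsh s)).trans
        (Nat.mul_le_mul_right _ hT)
    have hle : (univ.filter (fun j : {j : Q.S × Q.S // j.1 ≠ j.2 ∧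
        ∃ e, (e = Q.p1 j.1 ∨ e = Q.p2 j.1) ∧ (e = Q.p1 j.2 ∨ e = Q.p2 j.2)} =>
        e ∈ Q.vars j.1.1 ∪ Q.vars j.1.2)).card ≤ (A ∪ A').card := by
      refine card_le_card_of_injOn Subtype.val ?_ Subtype.val_injective.injOn
      rintro ⟨⟨s, s'⟩, hss, e', he, he'⟩ hj
      rw [mem_coe, mem_filter] at hj
      rcases mem_union.1 hj.2 with h | h
      · exact mem_coe.2 (mem_union_left _ (mem_biUnion.2 ⟨s, mem_filter.2 ⟨mem_univ _, h⟩,
          mem_image.2 ⟨s', hmem s s' e' he he', rfl⟩⟩))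
      · exact mem_coe.2 (mem_union_right _ (mem_biUnion.2 ⟨s', mem_filter.2 ⟨mem_univ _, h⟩,
          mem_image.2 ⟨s, hmem s' s e' he' he, rfl⟩⟩))
    have hfin := hle.trans (card_union_le _ _)
    have hfin2 : (univ.filter (fun j : {j : Q.S × Q.S // j.1 ≠ j.2 ∧
        ∃ e, (e = Q.p1 j.1 ∨ e = Q.p2 j.1) ∧ (e = Q.p1 j.2 ∨ e = Q.p2 j.2)} =>
        e ∈ Q.vars j.1.1 ∪ Q.vars j.1.2)).card ≤ 8 * n ^ 2 := by
      refine hfin.trans ((add_le_add hA hA').trans (le_of_eq ?_))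
      ring
    have h7 : ((univ.filter (fun j : {j : Q.S × Q.S // j.1 ≠ j.2 ∧
        ∃ e, (e = Q.p1 j.1 ∨ e = Q.p2 j.1) ∧ (e = Q.p1 j.2 ∨ e = Q.p2 j.2)} =>
        e ∈ Q.vars j.1.1 ∪ Q.vars j.1.2)).card : ℝ) ≤ 8 * (n : ℝ) ^ 2 := by
      exact_mod_cast hfin2
    have h8 : (0 : ℝ) ≤ 2 / (M : ℝ) ^ 4 := by positivity
    refine (mul_le_mul_of_nonneg_right h7 h8).trans (le_of_eq ?_)
    ring
  · intro ω h s s' e he he' b1 b2
    by_contra hne
    exact h ⟨(s, s'), hne, e, he, he'⟩ ⟨b1, b2⟩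

theorem ach_mono_sq (hM : 2 ≤ M) (Q : SqSys I) {n : ℕ} (hQ : Q.Ok n) (τ : ℝ) (hτ0 : 0 ≤ τ)
    (hτ : τ ≤ 1 / 32) :
    Ach (M := M) τ (4 * (n : ℝ) / (M : ℝ) ^ 3)
      (fun ω => ∀ s : Q.S, ¬ (ω (Q.p1 s) = ω (Q.p2 s) ∧ ω (Q.q1 s) = ω (Q.q2 s) ∧
        ω (Q.p1 s) = ω (Q.q1 s))) := by
  classical
  have hMr : (2 : ℝ) ≤ (M : ℝ) := by exact_mod_cast hM
  have hM3 : (8 : ℝ) ≤ (M : ℝ) ^ 3 := by
    calc (8 : ℝ) = 2 ^ 3 := by norm_num
      _ ≤ (M : ℝ) ^ 3 := pow_le_pow_left₀ (by norm_num) hMr 3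
  have hM3' : (0 : ℝ) < (M : ℝ) ^ 3 := by linarith
  refine ⟨Q.S, inferInstance, Q.vars, fun s => {ω | ω (Q.p1 s) = ω (Q.p2 s) ∧
    ω (Q.q1 s) = ω (Q.q2 s) ∧ ω (Q.p1 s) = ω (Q.q1 s)}, fun _ => 2 / (M : ℝ) ^ 3,
    ?_, ?_, ?_, ?_, fun ω h s => h s⟩
  · intro s ω ω' h
    have h1 : ω (Q.p1 s) = ω' (Q.p1 s) := h _ (by unfold SqSys.vars; simp)
    have h2 : ω (Q.p2 s) = ω' (Q.p2 s) := h _ (by unfold SqSys.vars; simp)
    have h3 : ω (Q.q1 s) = ω' (Q.q1 s) := h _ (q1_mem Q s)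
    have h4 : ω (Q.q2 s) = ω' (Q.q2 s) := h _ (q2_mem Q s)
    change (_ ∧ _ ∧ _) ↔ (_ ∧ _ ∧ _)
    rw [h1, h2, h3, h4]
  · intro j
    refine ⟨by positivity, ?_⟩
    rw [div_le_iff₀ hM3']
    linarith
  · intro s
    obtain ⟨h1, h2, h3, h4, h5, h6⟩ := ne4 (hQ.card4 s)
    have hc : ({Q.p2 s, Q.q1 s, Q.q2 s} : Finset I).card = 3 := by
      rw [card_insert_of_notMem, card_insert_of_notMem, card_singleton]
      · simp only [mem_singleton]
        exact h6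
      · simp only [mem_insert, mem_singleton, not_or]
        exact ⟨h4, h5⟩
    have k1 := pr_le_of_det (M := M) (by omega) ({Q.p2 s, Q.q1 s, Q.q2 s} : Finset I)
      (fun ω _ => ω (Q.p1 s)) ?_ {ω | ω (Q.p1 s) = ω (Q.p2 s) ∧
      ω (Q.q1 s) = ω (Q.q2 s) ∧ ω (Q.p1 s) = ω (Q.q1 s)} ?_
    · rw [hc] at k1
      refine k1.trans ?_
      have h7 : 2 * ((Q.vars s).card : ℝ) * τ ≤ 1 / 2 := by
        rw [hQ.card4]
        push_cast
        linarith
      have h8 := half_exp h7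
      have h9 : (1 / (M : ℝ)) ^ 3 = 2 / (M : ℝ) ^ 3 * (1 / 2) := by
        rw [one_div_pow]
        ring
      rw [h9]
      exact mul_le_mul_of_nonneg_left h8 (by positivity)
    · intro ω ω' h v _
      refine h _ ?_
      simp only [mem_insert, mem_singleton, not_or]
      exact ⟨h1, h2, h3⟩
    · rintro ω ⟨b1, b2, b3⟩ v hv
      simp only [mem_insert, mem_singleton] at hv
      rcases hv with rfl | rfl | rfl
      · exact b1.symm
      · exact b3.symm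
      · exact b2.symm.trans b3.symm
  · intro e
    rw [sum_const, nsmul_eq_mul]
    have h1 : ((univ.filter (fun s => e ∈ Q.vars s)).card : ℝ) ≤ 2 * (n : ℝ) := by
      exact_mod_cast card_T hQ e
    have h8 : (0 : ℝ) ≤ 2 / (M : ℝ) ^ 3 := by positivity
    refine (mul_le_mul_of_nonneg_right h1 h8).trans (le_of_eq ?_)
    ring

end Pool.Agent.SKA
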