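import Pool.Agent.SKA.Tuple

set_option autoImplicit false

/-!
# SKA Sample (package, 1.3 h): every set with good isoperimetry has a short code

Write `b = bd G W`, `N = |W| ≥ 1`; for `v ∈ W` let `d_W(v)`, `d'_W(v)` be the numbers of neighbours in / outside `W`, so
`d_W(v)+d'_W(v) = dg G v ∈ [2n/5, n]` and `∑_{v ∈ W} d'_W(v) = b`.
(bd) If `5N ≤ n`: every `v ∈ W` has `d'_W(v) ≥ 2n/5 - N ≥ n/5`, so `b ≥ N n/5` (`bd_small`); in particular `b ≥ n/5`. If `5N > n`:
`30 b ≥ N > n/5`. So always `n ≤ 150 b` (`bd_ge`).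
SAMPLING. Case `5N ≤ n`: `S = ∅`, `R0 = W`, `|R0| = N ≤ 5b/n ≤ 40 r b/n`.
Case `5N > n`: `T = {z ∈ W : 5 d_W(z) < n}`: for `z ∈ T`: `d'_W(z) ≥ n/5`, so `|T| ≤ 5b/n`. `Z = W \ T`, `δ = n/5`,
`c w = d'_W(w)`, `s = ⌈r N/n⌉₊`; `tuple_avg` gives `φ` with values in `W`; let `S` be its range. Then `S ⊆ W`, nonempty (`s ≥ 1`), `|S| ≤ s ≤ rN/n + 1`,
`|{z ∈ Z : z ∉ N(S)}| + |N(S) \ W| ≤ N exp (-(n/5)s/N) + s b/N ≤ N exp (-r/5) + (rN/n+1) b/N ≤ b/n + (r+5) b/n`, using `s ≥ rN/n`,
`N exp (-r/5) ≤ 30 b exp (-r/5) ≤ b/n` and `b/N ≤ 5b/n`; (`N(S) \ W` is covered by the neighbours outside `W` of the `φ j`).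
`R0 = symmDiff (N(S)) W`; then `W = symmDiff (N(S)) R0`, and `R0 ⊆ T ∪ {z ∈ Z : z ∉ N(S)} ∪ (N(S) \ W)`, so
`|R0| ≤ (5 + r + 6) b/n`. `|S| ≤ rN/n+1 ≤ 30 r b/n + 150 b/n` (`N ≤ 30b`, `n ≤ 150 b`). Sum `≤ (31 r + 161) b/n ≤ 40 r b/n` as `r ≥ 18`.
-/

open Finset

namespace Pool.Agent.SKA

variable {V : Type} [Fintype V] [DecidableEq V] (G : SimpleGraph V)

open Classical in
/-- Number of neighbours outside `W`. -/
noncomputable def sampleOut (W : Finset V) (v : V) : ℕ :=
  ((univ : Finset V).filter (fun w => w ∉ W ∧ G.Adj v w)).card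

open Classical in
/-- Number of neighbours in `W`. -/
noncomputable def sampleIn (W : Finset V) (v : V) : ℕ := (W.filter (fun w => G.Adj w v)).card

theorem sample_dg_eq (W : Finset V) (v : V) : dg G v = sampleIn G W v + sampleOut G W v := by
  classical
  unfold dg sampleIn sampleOut
  rw [← card_union_of_disjoint]
  · congr 1
    ext x
    simp only [mem_filter, mem_univ, true_and, mem_union]
    constructor
    · intro h
      by_cases hx : x ∈ W
      · exact Or.inl ⟨hx, h.symm⟩
      · exact Or.inr ⟨hx, h⟩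
    · rintro (h | h)
      · exact h.2.symm
      · exact h.2
  · rw [disjoint_left]
    intro x hx hx'
    rw [mem_filter] at hx hx'
    exact hx'.2.1 hx.1

theorem sample_bd_eq (W : Finset V) : bd G W = ∑ v ∈ W, sampleOut G W v := by
  classical
  unfold bd
  rw [card_eq_sum_card_fiberwise (f := Prod.fst) (t := W)]
  · refine sum_congr rfl ?_
    intro v hv
    unfold sampleOut
    refine card_bij (fun e _ => e.2) ?_ ?_ ?_
    · intro e he
      simp only [mem_filter, mem_univ, true_and] at he ⊢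
      obtain ⟨⟨-, h2, h3⟩, h4⟩ := he
      rw [h4] at h3
      exact ⟨h2, h3⟩
    · intro e he e' he' h
      simp only [mem_filter, mem_univ, true_and] at he he'
      exact Prod.ext (he.2.trans he'.2.symm) h
    · intro w hw
      simp only [mem_filter, mem_univ, true_and] at hw
      refine ⟨(v, w), ?_, rfl⟩
      simp only [mem_filter, mem_univ, true_and]
      exact ⟨⟨hv, hw⟩, trivial⟩
  · intro e he
    exact (mem_filter.mp (mem_coe.mp he)).2.1

omit [Fintype V] [DecidableEq V] in
theorem sample_dIn_le (W : Finset V) (v : V) : sampleIn G W v ≤ W.card := by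
  classical
  unfold sampleIn
  exact card_filter_le _ _

theorem bd_small (n : ℕ) (W : Finset V) (hd : ∀ v ∈ W, 2 * n ≤ 5 * dg G v) (h : 5 * W.card ≤ n) :
    W.card * n ≤ 5 * bd G W := by
  rw [sample_bd_eq, mul_sum, ← smul_eq_mul, ← sum_const]
  refine sum_le_sum ?_
  intro v hv
  have h1 := hd v hv
  have h2 := sample_dg_eq G W v
  have h3 := sample_dIn_le G W v
  omega

theorem bd_ge (n : ℕ) (W : Finset V) (hW : W.Nonempty) (hd : ∀ v ∈ W, 2 * n ≤ 5 * dg G v)
    (hiso : W.card ≤ 30 * bd G W) : n ≤ 150 * bd G W := by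
  by_cases h : 5 * W.card ≤ n
  · have h1 := bd_small G n W hd h
    have h2 : 1 ≤ W.card := hW.card_pos
    have h3 : 1 * n ≤ W.card * n := Nat.mul_le_mul_right n h2
    omega
  · omega

theorem sampling (n r : ℕ) (W : Finset V) (hn : 0 < n) (hr : 18 ≤ r)
    (hexp : 30 * (n : ℝ) * Real.exp (-((r : ℝ) / 5)) ≤ 1) (hW : W.Nonempty)
    (hd1 : ∀ v ∈ W, dg G v ≤ n) (hd2 : ∀ v ∈ W, 2 * n ≤ 5 * dg G v)
    (hiso : W.card ≤ 30 * bd G W) :
    ∃ S R0 : Finset V, S ⊆ W ∧ W = symmDiff (NbS G S) R0 ∧ (S ∪ R0).Nonempty ∧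
      ((S ∪ R0).card : ℝ) ≤ 40 * r * bd G W / n := by
  classical
  have hnR : (0 : ℝ) < n := Nat.cast_pos.mpr hn
  have hrR : (18 : ℝ) ≤ r := by exact_mod_cast hr
  set u : ℝ := (bd G W : ℝ) / n with hu
  have hu0 : 0 ≤ u := by positivity
  have hbu : (bd G W : ℝ) = u * n := by
    rw [hu, div_mul_cancel₀ _ hnR.ne']
  have hgoal : 40 * (r : ℝ) * bd G W / n = 40 * r * u := by
    rw [hu]
    ring
  rw [hgoal]
  have hN1 : 1 ≤ W.card := hW.card_pos
  have hNR : (1 : ℝ) ≤ (W.card : ℝ) := by exact_mod_cast hN1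
  have hge : (n : ℝ) ≤ 150 * bd G W := by exact_mod_cast bd_ge G n W hW hd2 hiso
  have hu1 : 1 ≤ 150 * u := by
    rw [hbu] at hge
    have : (1 : ℝ) * n ≤ (150 * u) * n := by linarith
    exact le_of_mul_le_mul_right this hnR
  have hisoR : (W.card : ℝ) ≤ 30 * (u * n) := by
    rw [← hbu]
    exact_mod_cast hiso
  by_cases hcase : 5 * W.card ≤ n
  · refine ⟨∅, W, empty_subset _, ?_, ?_, ?_⟩
    · have : NbS G (∅ : Finset V) = ∅ := by
        unfold NbS
        ext x
        simp
      rw [this]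
      exact (bot_symmDiff (a := W)).symm
    · rw [empty_union]
      exact hW
    · rw [empty_union]
      have h1 : (W.card : ℝ) * n ≤ 5 * bd G W := by exact_mod_cast bd_small G n W hd2 hcase
      rw [hbu] at h1
      have h2 : (W.card : ℝ) ≤ 5 * u := by
        have : (W.card : ℝ) * n ≤ (5 * u) * n := by linarith
        exact le_of_mul_le_mul_right this hnR
      nlinarith [mul_nonneg (show (0 : ℝ) ≤ r - 18 by linarith) hu0]
  · have hcase' : n < 5 * W.card := by omega
    have hcR : (n : ℝ) < 5 * (W.card : ℝ) := by exact_mod_cast hcase'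
    have hNpos : (0 : ℝ) < (W.card : ℝ) := by linarith
    set T : Finset V := W.filter (fun z => 5 * sampleIn G W z < n) with hT
    set Z : Finset V := W.filter (fun z => ¬ 5 * sampleIn G W z < n) with hZ
    -- size of T
    have hTc : (T.card : ℝ) ≤ 5 * u := by
      have h1 : T.card * n ≤ 5 * bd G W := by
        rw [sample_bd_eq, mul_sum]
        refine le_trans ?_ (sum_le_sum_of_subset (s := T) (filter_subset _ _))
        rw [← smul_eq_mul, ← sum_const]
        refine sum_le_sum ?_
        intro v hv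
        rw [hT, mem_filter] at hv
        have h1 := hd2 v hv.1
        have h2 := sample_dg_eq G W v
        have h3 := hv.2
        omega
      have h2 : (T.card : ℝ) * n ≤ 5 * bd G W := by exact_mod_cast h1
      rw [hbu] at h2
      have : (T.card : ℝ) * n ≤ (5 * u) * n := by linarith
      exact le_of_mul_le_mul_right this hnR
    set s : ℕ := ⌈(r : ℝ) * W.card / n⌉₊ with hs
    have hs1 : (r : ℝ) * W.card / n ≤ s := Nat.le_ceil _
    have hq0 : (0 : ℝ) < (r : ℝ) * W.card / n := by
      have : (0 : ℝ) < r := by linarith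
      exact div_pos (mul_pos this hNpos) hnR
    have hs2 : (s : ℝ) < (r : ℝ) * W.card / n + 1 := Nat.ceil_lt_add_one hq0.le
    have hs0 : 0 < s := Nat.ceil_pos.mpr hq0
    obtain ⟨φ, hφW, hφ⟩ := tuple_avg G.Adj W Z hW ((n : ℝ) / 5) (bd G W) (by
      intro z hz
      rw [hZ, mem_filter, not_lt] at hz
      have h1 : (n : ℝ) ≤ 5 * (sampleIn G W z : ℝ) := by exact_mod_cast hz.2
      have h2 : (n : ℝ) / 5 ≤ (sampleIn G W z : ℝ) := by linarith
      refine h2.trans (le_of_eq ?_)
      unfold sampleIn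
      rfl) (sampleOut G W) (by
      rw [sample_bd_eq]
      push_cast
      exact le_refl _) s
    set S : Finset V := (univ : Finset (Fin s)).image φ with hS
    have hSW : S ⊆ W := by
      intro x hx
      rw [hS, mem_image] at hx
      obtain ⟨j, -, rfl⟩ := hx
      exact hφW j
    have hSne : S.Nonempty := ⟨φ ⟨0, hs0⟩, mem_image_of_mem _ (mem_univ _)⟩
    have hSc : (S.card : ℝ) ≤ (r : ℝ) * W.card / n + 1 := by
      have : S.card ≤ s := by
        refine card_image_le.trans ?_
        simp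
      have h2 : (S.card : ℝ) ≤ s := by exact_mod_cast this
      linarith
    set R0 : Finset V := symmDiff (NbS G S) W with hR0
    have hWd : W = symmDiff (NbS G S) R0 := by
      rw [hR0, symmDiff_symmDiff_cancel_left]
    have hRsub : R0 ⊆ T ∪ (Z.filter (fun z => ∀ j, ¬ G.Adj (φ j) z)) ∪
        (univ : Finset (Fin s)).biUnion
          (fun j => (univ : Finset V).filter (fun w => w ∉ W ∧ G.Adj (φ j) w)) := by
      intro x hx
      rw [hR0, mem_symmDiff] at hx
      rcases hx with ⟨h1, h2⟩ | ⟨h1, h2⟩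
      · refine mem_union_right _ ?_
        unfold NbS at h1
        rw [mem_filter] at h1
        obtain ⟨-, s', hs', hadj⟩ := h1
        rw [hS, mem_image] at hs'
        obtain ⟨j, -, rfl⟩ := hs'
        exact mem_biUnion.mpr ⟨j, mem_univ _, mem_filter.mpr ⟨mem_univ _, h2, hadj⟩⟩
      · refine mem_union_left _ ?_
        by_cases hxT : 5 * sampleIn G W x < n
        · exact mem_union_left _ (mem_filter.mpr ⟨h1, hxT⟩)
        · refine mem_union_right _ (mem_filter.mpr ⟨mem_filter.mpr ⟨h1, hxT⟩, ?_⟩)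
          intro j hj
          apply h2
          unfold NbS
          exact mem_filter.mpr ⟨mem_univ _, φ j, mem_image_of_mem _ (mem_univ _), hj⟩
    have hRc : (R0.card : ℝ) ≤ T.card + (((Z.filter (fun z => ∀ j, ¬ G.Adj (φ j) z)).card : ℝ) +
        ∑ j, (sampleOut G W (φ j) : ℝ)) := by
      have h1 : R0.card ≤ T.card + ((Z.filter (fun z => ∀ j, ¬ G.Adj (φ j) z)).card +
          ∑ j, sampleOut G W (φ j)) := by
        refine (card_le_card hRsub).trans ((card_union_le _ _).trans ?_)
        have h2 := card_union_le T (Z.filter (fun z => ∀ j, ¬ G.Adj (φ j) z))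
        have h3 : ((univ : Finset (Fin s)).biUnion
          (fun j => (univ : Finset V).filter (fun w => w ∉ W ∧ G.Adj (φ j) w))).card ≤
            ∑ j, sampleOut G W (φ j) := by
          refine card_biUnion_le.trans (le_of_eq ?_)
          rfl
        omega
      exact_mod_cast h1
    -- analytic bounds
    have hexp1 : Real.exp (-((n : ℝ) / 5 * s / W.card)) ≤ Real.exp (-((r : ℝ) / 5)) := by
      rw [Real.exp_le_exp]
      have h1 : (r : ℝ) ≤ n * s / W.card := by
        rw [le_div_iff₀ hNpos]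
        rw [div_le_iff₀ hnR] at hs1
        linarith
      have h2 : (n : ℝ) / 5 * s / W.card = (n * s / W.card) / 5 := by ring
      rw [h2]
      linarith
    have hexp2 : (W.card : ℝ) * Real.exp (-((r : ℝ) / 5)) ≤ u := by
      have h0 : 0 < Real.exp (-((r : ℝ) / 5)) := Real.exp_pos _
      have h1 : (W.card : ℝ) * Real.exp (-((r : ℝ) / 5)) ≤
          30 * (u * n) * Real.exp (-((r : ℝ) / 5)) := mul_le_mul_of_nonneg_right hisoR h0.le
      have h2 : 30 * (u * n) * Real.exp (-((r : ℝ) / 5)) =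
          u * (30 * (n : ℝ) * Real.exp (-((r : ℝ) / 5))) := by ring
      rw [h2] at h1
      have h3 := mul_le_mul_of_nonneg_left hexp hu0
      linarith
    have hZc : (Z.card : ℝ) ≤ W.card := by exact_mod_cast card_filter_le _ _
    have hA : (Z.card : ℝ) * Real.exp (-((n : ℝ) / 5 * s / W.card)) ≤ u := by
      refine le_trans ?_ hexp2
      exact mul_le_mul hZc hexp1 (Real.exp_pos _).le hNpos.le
    have hB : (s : ℝ) * bd G W / W.card ≤ r * u + 5 * u := by
      have h1 : (s : ℝ) * bd G W / W.card ≤ ((r : ℝ) * W.card / n + 1) * bd G W / W.card := by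
        have : (0 : ℝ) ≤ bd G W := Nat.cast_nonneg _
        exact div_le_div_of_nonneg_right (mul_le_mul_of_nonneg_right hs2.le this) hNpos.le
      have h2 : ((r : ℝ) * W.card / n + 1) * bd G W / W.card = r * u + bd G W / W.card := by
        have h4 : ((r : ℝ) * W.card / n + 1) * bd G W / W.card =
            r * ((bd G W : ℝ) / n) * ((W.card : ℝ) / W.card) + bd G W / W.card := by ring
        rw [h4, div_self hNpos.ne', mul_one]
      have h3 : (bd G W : ℝ) / W.card ≤ 5 * u := by
        rw [div_le_iff₀ hNpos, hbu]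
        have := mul_le_mul_of_nonneg_left hcR.le hu0
        linarith
      linarith
    have hC : (r : ℝ) * W.card / n ≤ 30 * r * u := by
      rw [div_le_iff₀ hnR]
      have := mul_le_mul_of_nonneg_left hisoR (show (0 : ℝ) ≤ r by linarith)
      linarith
    refine ⟨S, R0, hSW, hWd, hSne.mono subset_union_left, ?_⟩
    have hun : ((S ∪ R0).card : ℝ) ≤ S.card + R0.card := by exact_mod_cast card_union_le _ _
    have hfin : 161 * u ≤ 9 * (r : ℝ) * u := by
      have := mul_le_mul_of_nonneg_right (show (161 : ℝ) ≤ 9 * (r : ℝ) by linarith) hu0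
      linarith
    linarith

end Pool.Agent.SKA
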