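import Pool.Agent.SKA.IsoR
import Pool.Agent.SKA.BdCut
import Pool.Agent.SKA.Count
import Pool.Agent.SKA.Sample

set_option autoImplicit false

/-!
# SKA FamCount (package, 1.4 h): size and number of the cuts of one level graph

Let `F ∈ famCut n k` come from `W` (`Small`, `Indec`), `b = |cutU W| + |cutV W| = bd (LG n k) W` (`bd_eq`), so `b ≤ 2|F|`. For `v ∈ W`: `2n ≤ 5 dg v ≤ 5n`: `dg_le`, and `dg_low` with `h3`
for `|v| = k`, `dg_up` with `h2` for `v ∈ Vp n k`. `|W| ≤ 30 b` by `isoR`.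
`fam_min`: `bd_ge` gives `n ≤ 150 b ≤ 300 |F|`.
`fam_count`: `n > 0`. Let `|F| = f`, `e ∈ F`. If `F = cutU W` then `e.1 ∈ W`, if `F = cutV W` then `e.2 ∈ W`. `sampling` gives `S, R0` with `|S ∪ R0| ≤ 40 r b/n ≤ 80 r f/n`, so
`|S ∪ R0| ≤ t := ⌊80 r f/n⌋₊`. So `F` is `cutU W` or `cutV W` of one of the sets `W` counted in `count_indec` for `v = e.1` resp. `v = e.2`, `Δ = n`: at most
`2 (4(n+1))^(6t+1)` sets `F`. (The family is contained in `(family of e.1).image cutU ∪ (family of e.2).image cutV`.)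
Numbers: if `f = 0` the left side is `0` (`e ∈ F`); also if the family is empty. Otherwise `n ≤ 300 f`. `2 ≤ exp r` and `4(n+1) ≤ exp r`, so
`2 (4(n+1))^(6t+1) ≤ exp (r (6t+2))`, `6t + 2 ≤ 480 r f/n + 600 f/n`, so the exponent is `≤ (480 r^2 + 600 r) f/n ≤ 1080 r^2 f/n ≤ 1080 r^2 f/r^40 ≤ f/(8 r^36)`, because
`8640 r^38 ≤ r^40` (`r ≥ 93`, `93^2 = 8649`).
-/

open Finset

namespace Pool.Agent.SKA

theorem famCount_deg {n k : ℕ} (h : LevOk n k) {W : Finset (Finset (Fin n))} (hW : Small n k W) :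
    ∀ v ∈ W, 2 * n ≤ 5 * dg (LG n k) v := by
  intro v hv
  obtain ⟨h0, h1, h2, h3, h4⟩ := h
  have hv' := hW.1 hv
  rw [mem_union] at hv'
  rcases hv' with hv' | hv'
  · rw [Lv, mem_filter] at hv'
    have := dg_low hv'.2
    omega
  · have := dg_up hv'
    omega

theorem famCount_data {n k : ℕ} {F : Finset (Edg n)} (hF : F ∈ famCut n k) :
    ∃ W, Small n k W ∧ Indec (LG n k) W ∧ bd (LG n k) W ≤ 2 * F.card ∧
      (F = cutU n k W ∨ F = cutV n k W) := by
  classical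
  unfold famCut at hF
  rw [mem_filter] at hF
  obtain ⟨-, W, h1, h2, h3⟩ := hF
  refine ⟨W, h1, h2, ?_, ?_⟩
  · rw [bd_eq]
    rcases h3 with ⟨h3, h4⟩ | ⟨h3, h4⟩
    · rw [h3]
      omega
    · rw [h3]
      omega
  · rcases h3 with ⟨h3, h4⟩ | ⟨h3, h4⟩
    · exact Or.inl h3
    · exact Or.inr h3

theorem fam_min {n k : ℕ} (h : LevOk n k) {F : Finset (Edg n)} (hF : F ∈ famCut n k) :
    n ≤ 300 * F.card := by
  obtain ⟨W, h1, h2, h3, -⟩ := famCount_data hF
  have hiso : W.card ≤ 30 * bd (LG n k) W := by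
    rw [bd_eq]
    exact isoR h W h1
  have := bd_ge (LG n k) n W h2.1 (famCount_deg h h1) hiso
  omega

theorem famCount_num (n r f t : ℕ) (hr : 93 ≤ r) (hn : r ^ 40 ≤ n) (hf : n ≤ 300 * f)
    (ht : (t : ℝ) ≤ 80 * r * f / n) (hlog : 4 * ((n : ℝ) + 1) ≤ Real.exp r) :
    2 * (4 * ((n : ℝ) + 1)) ^ (6 * t + 1) ≤ Real.exp (1 / (8 * (r : ℝ) ^ 36) * f) := by
  have hrR : (93 : ℝ) ≤ r := by exact_mod_cast hr
  have hr0 : (0 : ℝ) < r := by linarith
  have hnR : (r : ℝ) ^ 40 ≤ n := by exact_mod_cast hn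
  have hr40 : (0 : ℝ) < (r : ℝ) ^ 40 := by positivity
  have hn0 : (0 : ℝ) < n := by linarith
  have hfR : (n : ℝ) ≤ 300 * f := by exact_mod_cast hf
  have h2 : (2 : ℝ) ≤ Real.exp r := by
    have := Real.add_one_le_exp (r : ℝ)
    linarith
  have h3 : 2 * (4 * ((n : ℝ) + 1)) ^ (6 * t + 1) ≤ Real.exp r * (Real.exp r) ^ (6 * t + 1) := by
    refine mul_le_mul h2 ?_ (by positivity) (Real.exp_pos _).le
    exact pow_le_pow_left₀ (by positivity) hlog _
  refine h3.trans ?_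
  rw [← pow_succ', ← Real.exp_nat_mul, Real.exp_le_exp]
  set y : ℝ := (f : ℝ) / n with hy
  have hy0 : 0 ≤ y := by positivity
  have hy1 : 1 ≤ 300 * y := by
    rw [hy, mul_div_assoc', le_div_iff₀ hn0]
    linarith
  have ht' : (t : ℝ) ≤ 80 * r * y := by
    rw [hy]
    refine ht.trans (le_of_eq ?_)
    ring
  have h4 : ((6 * t + 1 + 1 : ℕ) : ℝ) ≤ 480 * r * y + 600 * y := by
    push_cast
    linarith
  have h5 : ((6 * t + 1 + 1 : ℕ) : ℝ) * r ≤ 1080 * (r : ℝ) ^ 2 * y := by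
    have h6 := mul_le_mul_of_nonneg_right h4 hr0.le
    have h7 : 600 * (r * y) ≤ 600 * (r * (r * y)) := by
      have h8 : 0 ≤ r * y := by positivity
      have : 1 * (r * y) ≤ r * (r * y) := mul_le_mul_of_nonneg_right (by linarith) h8
      linarith
    nlinarith
  refine h5.trans ?_
  have h6 : y ≤ (f : ℝ) / (r : ℝ) ^ 40 := by
    rw [hy]
    exact div_le_div_of_nonneg_left (Nat.cast_nonneg _) hr40 hnR
  have h7 : 1080 * (r : ℝ) ^ 2 * y ≤ 1080 * (r : ℝ) ^ 2 * ((f : ℝ) / (r : ℝ) ^ 40) :=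
    mul_le_mul_of_nonneg_left h6 (by positivity)
  refine h7.trans ?_
  have h8 : 1080 * (r : ℝ) ^ 2 / (r : ℝ) ^ 40 ≤ 1 / (8 * (r : ℝ) ^ 36) := by
    rw [div_le_div_iff₀ hr40 (by positivity)]
    have h9 : (8640 : ℝ) ≤ (r : ℝ) ^ 2 := by nlinarith
    have h10 : (r : ℝ) ^ 38 * 8640 ≤ (r : ℝ) ^ 38 * (r : ℝ) ^ 2 :=
      mul_le_mul_of_nonneg_left h9 (by positivity)
    calc 1080 * (r : ℝ) ^ 2 * (8 * (r : ℝ) ^ 36) = (r : ℝ) ^ 38 * 8640 := by ring
      _ ≤ (r : ℝ) ^ 38 * (r : ℝ) ^ 2 := h10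
      _ = 1 * (r : ℝ) ^ 40 := by ring
  have h11 : 1080 * (r : ℝ) ^ 2 * ((f : ℝ) / (r : ℝ) ^ 40) =
      1080 * (r : ℝ) ^ 2 / (r : ℝ) ^ 40 * f := by ring
  rw [h11]
  exact mul_le_mul_of_nonneg_right h8 (Nat.cast_nonneg _)

theorem fam_count {n k : ℕ} (h : LevOk n k) (r : ℕ) (hr : 93 ≤ r) (hn : r ^ 40 ≤ n)
    (hexp : 30 * (n : ℝ) * Real.exp (-((r : ℝ) / 5)) ≤ 1) (hlog : 4 * ((n : ℝ) + 1) ≤ Real.exp r)
    (e : Edg n) (f : ℕ) :
    (((famCut n k).filter (fun F => e ∈ F ∧ F.card = f)).card : ℝ) ≤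
      Real.exp (1 / (8 * (r : ℝ) ^ 36) * f) := by
  classical
  rcases ((famCut n k).filter (fun F => e ∈ F ∧ F.card = f)).eq_empty_or_nonempty with he | he
  · rw [he, card_empty, Nat.cast_zero]
    exact (Real.exp_pos _).le
  have hf : n ≤ 300 * f := by
    obtain ⟨F, hF⟩ := he
    rw [mem_filter] at hF
    have := fam_min h hF.1
    rw [hF.2.2] at this
    exact this
  have hnpos : 0 < n := by
    have := h.h0
    omega
  have hn0 : (0 : ℝ) < n := Nat.cast_pos.mpr hnpos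
  set t : ℕ := ⌊80 * (r : ℝ) * f / n⌋₊ with ht
  have htR : (t : ℝ) ≤ 80 * r * f / n := Nat.floor_le (by positivity)
  let A : Finset (Fin n) → Finset (Finset (Finset (Fin n))) := fun v =>
    (univ : Finset (Finset (Finset (Fin n)))).filter (fun W => Indec (LG n k) W ∧ v ∈ W ∧
      ∃ S R0 : Finset (Finset (Fin n)), S ⊆ W ∧ W = symmDiff (NbS (LG n k) S) R0 ∧
        (S ∪ R0).Nonempty ∧ (S ∪ R0).card ≤ t)
  have hA : ∀ v, (A v).card ≤ (4 * (n + 1)) ^ (6 * t + 1) := fun v =>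
    count_indec (LG n k) n (dg_le n k) v t
  have hsub : (famCut n k).filter (fun F => e ∈ F ∧ F.card = f) ⊆
      (A e.1).image (cutU n k) ∪ (A e.2).image (cutV n k) := by
    intro F hF
    rw [mem_filter] at hF
    obtain ⟨hF, heF, hFf⟩ := hF
    obtain ⟨W, h1, h2, h3, h4⟩ := famCount_data hF
    have hiso : W.card ≤ 30 * bd (LG n k) W := by
      rw [bd_eq]
      exact isoR h W h1
    obtain ⟨S, R0, hS1, hS2, hS3, hS4⟩ := sampling (LG n k) n r W hnpos (by omega) hexp h2.1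
      (fun v _ => dg_le n k v) (famCount_deg h h1) hiso
    have hcard : (S ∪ R0).card ≤ t := by
      refine Nat.le_floor (hS4.trans ?_)
      have h5 : (bd (LG n k) W : ℝ) ≤ 2 * f := by
        rw [← hFf]
        exact_mod_cast h3
      have h6 : 40 * (r : ℝ) * bd (LG n k) W ≤ 40 * (r : ℝ) * (2 * f) :=
        mul_le_mul_of_nonneg_left h5 (by positivity)
      have h7 : 40 * (r : ℝ) * (2 * f) = 80 * r * f := by ring
      rw [h7] at h6
      exact div_le_div_of_nonneg_right h6 hn0.le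
    rw [mem_union, mem_image, mem_image]
    rcases h4 with h4 | h4
    · left
      refine ⟨W, ?_, h4.symm⟩
      rw [mem_filter]
      refine ⟨mem_univ _, h2, ?_, S, R0, hS1, hS2, hS3, hcard⟩
      rw [h4, cutU, mem_filter] at heF
      exact heF.2.2.1
    · right
      refine ⟨W, ?_, h4.symm⟩
      rw [mem_filter]
      refine ⟨mem_univ _, h2, ?_, S, R0, hS1, hS2, hS3, hcard⟩
      rw [h4, cutV, mem_filter] at heF
      exact heF.2.2.2
  have hcount : ((famCut n k).filter (fun F => e ∈ F ∧ F.card = f)).card ≤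
      2 * (4 * (n + 1)) ^ (6 * t + 1) := by
    refine (card_le_card hsub).trans ((card_union_le _ _).trans ?_)
    have h1 := (card_image_le (s := A e.1) (f := cutU n k)).trans (hA e.1)
    have h2 := (card_image_le (s := A e.2) (f := cutV n k)).trans (hA e.2)
    omega
  have hcountR : (((famCut n k).filter (fun F => e ∈ F ∧ F.card = f)).card : ℝ) ≤
      2 * (4 * ((n : ℝ) + 1)) ^ (6 * t + 1) := by exact_mod_cast hcount
  exact hcountR.trans (famCount_num n r f t hr hn hf htR hlog)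

end Pool.Agent.SKA
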