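import Pool.Agent.SKA.Defs

set_option autoImplicit false

/-!
# SKA SqCube (package, 1.0 h): the squares of the cube

`CSq n`: `s = (B, x, y)`, `x, y ∉ B`, `x ≠ y`; `p1 = (B, B+x)`, `p2 = (B+x, B+x+y)`, `q1 = (B, B+y)`, `q2 = (B+y, B+y+x)`.
`card4`: the four pairs are distinct (`B+x ≠ B+y`, `B ≠ B+x`).
`degp`: let `e = (X, Y)`. `e = p1 s`: `B = X`, `insert x X = Y` determines `x` (`x ∉ X`), and `y ∉ Y` (so at most `n - |Y|` choices). `e = p2 s`: `x ∈ X` is free, `B = X.erase x`, `y` is determined: at most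
`|X|` choices. If there is any such `s` then `|Y| = |X|+1`, so the total is at most `n - |X| - 1 + |X| ≤ n`. `degq`: by the symmetry `x ↔ y` (`csq_swap` gives a bijection).
`share`: for two distinct edges `(A1,D1) ≠ (A2,D2)` of a square `(B,x,y)`: `A1 ∩ A2 = B` and `D1 ∪ D2 = B+x+y` (six cases). So if `vars s ∩ vars s'` contained an element different from `e`, the
squares would have the same `B` and the same `B + x + y`, so `s' = s` or `s' = (B,y,x)`. The second is impossible, since `e` is a path-`p` edge of both (a path-`p` edge of `(B,y,x)` is a path-`q` edge of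
`(B,x,y)`, and the paths are disjoint by `card4`). Hence `vars s ∩ vars s' = {e}`.
`csq_swap`: `s' = (B, y, x)`; `insert y (insert x B) = insert x (insert y B)` (`Finset.insert_comm`).
-/

open Finset

namespace Pool.Agent.SKA

private def swS {n : ℕ} (s : (CSq n).S) : (CSq n).S :=
  ⟨(s.1.1, s.1.2.2, s.1.2.1), s.2.2.1, s.2.1, fun h => s.2.2.2 h.symm⟩

private theorem swS_p1 {n : ℕ} (s : (CSq n).S) : (CSq n).p1 (swS s) = (CSq n).q1 s := rfl

private theorem swS_p2 {n : ℕ} (s : (CSq n).S) : (CSq n).p2 (swS s) = (CSq n).q2 s := rfl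

private theorem swS_q1 {n : ℕ} (s : (CSq n).S) : (CSq n).q1 (swS s) = (CSq n).p1 s := rfl

private theorem swS_q2 {n : ℕ} (s : (CSq n).S) : (CSq n).q2 (swS s) = (CSq n).p2 s := rfl

private theorem swS_swS {n : ℕ} (s : (CSq n).S) : swS (swS s) = s := rfl

private theorem sq_ext {n : ℕ} {s s' : (CSq n).S} (h1 : s.1.1 = s'.1.1) (h2 : s.1.2.1 = s'.1.2.1)
    (h3 : s.1.2.2 = s'.1.2.2) : s = s' :=
  Subtype.ext (Prod.ext h1 (Prod.ext h2 h3))

private theorem ins_inj {n : ℕ} {X : Finset (Fin n)} {x y : Fin n} (hx : x ∉ X)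
    (h : insert x X = insert y X) : x = y := by
  have h1 : x ∈ insert y X := h ▸ mem_insert_self x X
  rcases mem_insert.1 h1 with h2 | h2
  · exact h2
  · exact absurd h2 hx

private theorem p1_iff {n : ℕ} {s : (CSq n).S} {e : Edg n} :
    e = (CSq n).p1 s ↔ e.1 = s.1.1 ∧ e.2 = insert s.1.2.1 s.1.1 := Prod.ext_iff

private theorem p2_iff {n : ℕ} {s : (CSq n).S} {e : Edg n} :
    e = (CSq n).p2 s ↔ e.1 = insert s.1.2.1 s.1.1 ∧
      e.2 = insert s.1.2.2 (insert s.1.2.1 s.1.1) := Prod.ext_iff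

private theorem q1_iff {n : ℕ} {s : (CSq n).S} {e : Edg n} :
    e = (CSq n).q1 s ↔ e.1 = s.1.1 ∧ e.2 = insert s.1.2.2 s.1.1 := Prod.ext_iff

private theorem q2_iff {n : ℕ} {s : (CSq n).S} {e : Edg n} :
    e = (CSq n).q2 s ↔ e.1 = insert s.1.2.2 s.1.1 ∧
      e.2 = insert s.1.2.1 (insert s.1.2.2 s.1.1) := Prod.ext_iff

private theorem lev1 {n : ℕ} (s : (CSq n).S) :
    (insert s.1.2.1 s.1.1).card = s.1.1.card + 1 := card_insert_of_notMem s.2.1

private theorem lev2 {n : ℕ} (s : (CSq n).S) :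
    (insert s.1.2.2 s.1.1).card = s.1.1.card + 1 := card_insert_of_notMem s.2.2.1

private theorem y_notMem {n : ℕ} (s : (CSq n).S) : s.1.2.2 ∉ insert s.1.2.1 s.1.1 := by
  intro h
  rcases mem_insert.1 h with h | h
  · exact s.2.2.2 h.symm
  · exact s.2.2.1 h

private theorem x_notMem {n : ℕ} (s : (CSq n).S) : s.1.2.1 ∉ insert s.1.2.2 s.1.1 := by
  intro h
  rcases mem_insert.1 h with h | h
  · exact s.2.2.2 h
  · exact s.2.1 h

private theorem bne {n : ℕ} (s : (CSq n).S) : s.1.1 ≠ insert s.1.2.1 s.1.1 := fun h =>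
  s.2.1 (h ▸ mem_insert_self _ _)

private theorem bne' {n : ℕ} (s : (CSq n).S) : s.1.1 ≠ insert s.1.2.2 s.1.1 := fun h =>
  s.2.2.1 (h ▸ mem_insert_self _ _)

private theorem xne {n : ℕ} (s : (CSq n).S) : insert s.1.2.1 s.1.1 ≠ insert s.1.2.2 s.1.1 :=
  fun h => x_notMem s (h ▸ mem_insert_self _ _)

private theorem p1_ne_p2 {n : ℕ} (s : (CSq n).S) : (CSq n).p1 s ≠ (CSq n).p2 s := fun h =>
  bne s (congrArg Prod.fst h)

private theorem p1_ne_q1 {n : ℕ} (s : (CSq n).S) : (CSq n).p1 s ≠ (CSq n).q1 s := fun h =>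
  xne s (congrArg Prod.snd h)

private theorem p1_ne_q2 {n : ℕ} (s : (CSq n).S) : (CSq n).p1 s ≠ (CSq n).q2 s := fun h =>
  bne' s (congrArg Prod.fst h)

private theorem p2_ne_q1 {n : ℕ} (s : (CSq n).S) : (CSq n).p2 s ≠ (CSq n).q1 s := fun h =>
  bne s (congrArg Prod.fst h).symm

private theorem p2_ne_q2 {n : ℕ} (s : (CSq n).S) : (CSq n).p2 s ≠ (CSq n).q2 s := fun h =>
  xne s (congrArg Prod.fst h)

private theorem q1_ne_q2 {n : ℕ} (s : (CSq n).S) : (CSq n).q1 s ≠ (CSq n).q2 s := fun h =>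
  bne' s (congrArg Prod.fst h)

private theorem degp_aux {n : ℕ} (e : Edg n) :
    ((univ : Finset (CSq n).S).filter
      (fun s => e = (CSq n).p1 s ∨ e = (CSq n).p2 s)).card ≤ n := by
  classical
  have h := Finset.card_le_card_of_injOn (s := (univ : Finset (CSq n).S).filter
    (fun s => e = (CSq n).p1 s ∨ e = (CSq n).p2 s)) (t := (univ : Finset (Fin n)))
    (fun s => if s.1.1 = e.1 then s.1.2.2 else s.1.2.1) (fun _ _ => mem_coe.2 (mem_univ _)) ?_
  · rwa [card_univ, Fintype.card_fin] at h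
  · have key : ∀ s : (CSq n).S, (e = (CSq n).p1 s ∨ e = (CSq n).p2 s) →
        (s.1.1 = e.1 ∧ e = (CSq n).p1 s) ∨ (s.1.1 ≠ e.1 ∧ e = (CSq n).p2 s) := by
      rintro s (h | h)
      · exact Or.inl ⟨(p1_iff.1 h).1.symm, h⟩
      · exact Or.inr ⟨fun h' => bne s (h'.trans (p2_iff.1 h).1), h⟩
    intro s hs s' hs' hf
    have hs1 := key s (mem_filter.1 (mem_coe.1 hs)).2
    have hs2 := key s' (mem_filter.1 (mem_coe.1 hs')).2
    simp only at hf
    rcases hs1 with ⟨a, b⟩ | ⟨a, b⟩ <;> rcases hs2 with ⟨a', b'⟩ | ⟨a', b'⟩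
    · rw [if_pos a, if_pos a'] at hf
      rw [p1_iff] at b b'
      refine sq_ext (a.trans a'.symm) ?_ hf
      refine ins_inj s.2.1 (X := s.1.1) ?_
      rw [← b.2, b'.2, a, a']
    · rw [if_pos a, if_neg a'] at hf
      rw [p1_iff] at b
      rw [p2_iff] at b'
      have h1 : s'.1.2.1 ∈ e.1 := b'.1 ▸ mem_insert_self _ _
      rw [← hf, ← a] at h1
      exact absurd h1 s.2.2.1
    · rw [if_neg a, if_pos a'] at hf
      rw [p2_iff] at b
      rw [p1_iff] at b'
      have h1 : s.1.2.1 ∈ e.1 := b.1 ▸ mem_insert_self _ _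
      rw [hf, ← a'] at h1
      exact absurd h1 s'.2.2.1
    · rw [if_neg a, if_neg a'] at hf
      rw [p2_iff] at b b'
      have h1 : s.1.1 = s'.1.1 := by
        have e1 : s.1.1 = e.1.erase s.1.2.1 := by rw [b.1, erase_insert s.2.1]
        have e2 : s'.1.1 = e.1.erase s'.1.2.1 := by rw [b'.1, erase_insert s'.2.1]
        rw [e1, e2, hf]
      refine sq_ext h1 hf ?_
      refine ins_inj (y_notMem s) ?_
      rw [← b.2, b'.2, h1, hf]

private theorem vars_iff {n : ℕ} {s : (CSq n).S} {e : Edg n} : e ∈ (CSq n).vars s ↔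
    e = (CSq n).p1 s ∨ e = (CSq n).p2 s ∨ e = (CSq n).q1 s ∨ e = (CSq n).q2 s := by
  simp [SqSys.vars]

/-- Two different edges of a square determine the bottom and the top. -/
private theorem bot_top {n : ℕ} {s : (CSq n).S} {e f : Edg n} (he : e ∈ (CSq n).vars s)
    (hf : f ∈ (CSq n).vars s) (hne : e ≠ f) : e.1 ∩ f.1 = s.1.1 ∧
    e.2 ∪ f.2 = insert s.1.2.1 (insert s.1.2.2 s.1.1) := by
  rw [vars_iff] at he hf
  obtain ⟨⟨B, x, y⟩, hx, hy, hxy⟩ := s
  simp only at hx hy hxy
  have hxy' : ¬ y = x := fun h => hxy h.symm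
  constructor
  · rcases he with rfl | rfl | rfl | rfl <;> rcases hf with rfl | rfl | rfl | rfl <;>
      first
      | exact absurd rfl hne
      | (ext z
         simp only [CSq, mem_inter, mem_insert]
         by_cases h1 : z = x
         · subst h1
           simp [hxy, hx]
         · by_cases h2 : z = y
           · subst h2
             simp [hxy', hy]
           · simp [h1, h2])
  · rcases he with rfl | rfl | rfl | rfl <;> rcases hf with rfl | rfl | rfl | rfl <;>
      first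
      | exact absurd rfl hne
      | (ext z
         simp only [CSq, mem_union, mem_insert]
         tauto)

private theorem sq_or {n : ℕ} {s s' : (CSq n).S} (h1 : s.1.1 = s'.1.1)
    (h2 : insert s.1.2.1 (insert s.1.2.2 s.1.1) = insert s'.1.2.1 (insert s'.1.2.2 s'.1.1)) :
    s' = s ∨ s' = swS s := by
  have hx : s'.1.2.1 = s.1.2.1 ∨ s'.1.2.1 = s.1.2.2 := by
    have : s'.1.2.1 ∈ insert s.1.2.1 (insert s.1.2.2 s.1.1) := h2 ▸ mem_insert_self _ _
    rw [mem_insert, mem_insert] at this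
    rcases this with h | h | h
    · exact Or.inl h
    · exact Or.inr h
    · exact absurd (h1 ▸ h) s'.2.1
  have hy : s'.1.2.2 = s.1.2.1 ∨ s'.1.2.2 = s.1.2.2 := by
    have : s'.1.2.2 ∈ insert s.1.2.1 (insert s.1.2.2 s.1.1) :=
      h2 ▸ mem_insert_of_mem (mem_insert_self _ _)
    rw [mem_insert, mem_insert] at this
    rcases this with h | h | h
    · exact Or.inl h
    · exact Or.inr h
    · exact absurd (h1 ▸ h) s'.2.2.1
  rcases hx with hx | hx <;> rcases hy with hy | hy
  · exact absurd (hx.trans hy.symm) s'.2.2.2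
  · exact Or.inl (sq_ext h1.symm hx hy)
  · exact Or.inr (sq_ext h1.symm hx hy)
  · exact absurd (hx.trans hy.symm) s'.2.2.2

theorem csq_ok (n : ℕ) : (CSq n).Ok n := by
  refine ⟨fun s => ?_, degp_aux, fun e => ?_, fun s s' e he he' hne => ?_⟩
  · unfold SqSys.vars
    rw [card_insert_of_notMem, card_insert_of_notMem, card_insert_of_notMem, card_singleton]
    · exact fun h => q1_ne_q2 s (mem_singleton.1 h)
    · intro h
      rcases mem_insert.1 h with h | h
      · exact p2_ne_q1 s h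
      · exact p2_ne_q2 s (mem_singleton.1 h)
    · intro h
      rcases mem_insert.1 h with h | h
      · exact p1_ne_p2 s h
      · rcases mem_insert.1 h with h | h
        · exact p1_ne_q1 s h
        · exact p1_ne_q2 s (mem_singleton.1 h)
  · refine le_trans (Finset.card_le_card_of_injOn swS ?_ ?_) (degp_aux e)
    · intro s hs
      exact mem_coe.2 (mem_filter.2 ⟨mem_univ _, (mem_filter.1 (mem_coe.1 hs)).2⟩)
    · intro s _ s' _ h
      have := congrArg swS h
      rwa [swS_swS, swS_swS] at this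
  · have hes : e ∈ (CSq n).vars s := vars_iff.2 (by tauto)
    have hes' : e ∈ (CSq n).vars s' := vars_iff.2 (by tauto)
    refine Finset.Subset.antisymm (fun f hf => ?_) (fun f hf => ?_)
    · rw [mem_inter] at hf
      by_contra hc
      have hef : e ≠ f := fun h => hc (mem_singleton.2 h.symm)
      obtain ⟨a1, a2⟩ := bot_top hes hf.1 hef
      obtain ⟨b1, b2⟩ := bot_top hes' hf.2 hef
      rcases sq_or (a1.symm.trans b1) (a2.symm.trans b2) with h | h
      · exact hne h.symm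
      · subst h
        rw [swS_p1, swS_p2] at he'
        rcases he with rfl | rfl <;> rcases he' with h | h
        · exact p1_ne_q1 s h
        · exact p1_ne_q2 s h
        · exact p2_ne_q1 s h
        · exact p2_ne_q2 s h
    · rw [mem_singleton.1 hf]
      exact mem_inter.2 ⟨hes, hes'⟩

theorem csq_swap {n : ℕ} (s : (CSq n).S) : ∃ s' : (CSq n).S, (CSq n).p1 s' = (CSq n).q1 s ∧
    (CSq n).p2 s' = (CSq n).q2 s ∧ (CSq n).q1 s' = (CSq n).p1 s ∧ (CSq n).q2 s' = (CSq n).p2 s :=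
  ⟨swS s, rfl, rfl, rfl, rfl⟩

/-- The levels of the edges of a square. -/
theorem csq_lev {n : ℕ} (s : (CSq n).S) : ((CSq n).p2 s).1.card = ((CSq n).p1 s).1.card + 1 ∧
    ((CSq n).q1 s).1.card = ((CSq n).p1 s).1.card ∧
    ((CSq n).q2 s).1.card = ((CSq n).p1 s).1.card + 1 :=
  ⟨lev1 s, rfl, lev2 s⟩

/-- Two different chains of length two with the same ends form a square. -/
theorem csq_of_paths {n : ℕ} {B X X' D : Finset (Fin n)} (h1 : Cov B X) (h2 : Cov X D)
    (h3 : Cov B X') (h4 : Cov X' D) (hne : X ≠ X') : ∃ s : (CSq n).S, (CSq n).p1 s = (B, X) ∧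
    (CSq n).p2 s = (X, D) ∧ (CSq n).q1 s = (B, X') ∧ (CSq n).q2 s = (X', D) := by
  obtain ⟨x, hx, rfl⟩ := Finset.exists_eq_insert_iff.2 ⟨h1.1, h1.2.symm⟩
  obtain ⟨y, hy, rfl⟩ := Finset.exists_eq_insert_iff.2 ⟨h3.1, h3.2.symm⟩
  have hxy : x ≠ y := fun h => hne (by rw [h])
  have hyx : y ∉ insert x B := fun h => by
    rcases mem_insert.1 h with h | h
    · exact hxy h.symm
    · exact hy h
  have hD : insert y (insert x B) = D := by
    refine Finset.eq_of_subset_of_card_le ?_ ?_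
    · intro z hz
      rcases mem_insert.1 hz with h | h
      · exact h4.1 (h ▸ mem_insert_self _ _)
      · exact h2.1 h
    · rw [h2.2, card_insert_of_notMem hyx]
  refine ⟨⟨(B, x, y), hx, hy, hxy⟩, rfl, Prod.ext rfl hD, rfl, Prod.ext rfl ?_⟩
  exact (insert_comm x y B).trans hD

end Pool.Agent.SKA
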