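import Pool.Agent.SKA.AchEx
import Pool.Agent.SKA.AchOps
import Pool.Agent.SKA.EvCut
import Pool.Agent.SKA.EvDel
import Pool.Agent.SKA.EvSh
import Pool.Agent.SKA.SqCube
import Pool.Agent.SKA.EvLong
import Pool.Agent.SKA.FamAll

set_option autoImplicit false

/-!
# SKA GoodEx (package, 0.8 h): existence of a good colouring

Proof. `M = r^32`, `ε = 1/r²`, `a = τ = ε²/(8M) = 1/(8 r^36)`, `f0 = n/300`, `𝓕 = Fam n (n/2 - r^22)`, `T = 2 r^22 + 1`. Combine with `ach_and`: `ach_cut` (`famall_min`: `n/300 ≤ |F|`; `famall_count`; `Nums.f0`),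
`ach_del` for `Q = CSq n` (`csq_ok`, `Nums.small`), `ach_sh`, `ach_mono_sq`, `ach_long` (`Nums.len`; `Tτ = (2r^22+1)/(8r^36) ≤ 1/8`). The total cost is the left side of `Nums.cost`, so `≤ τ`, and `ach_exists` gives the
colouring. (`τ ≤ 1/32` as `r ≥ 93`; casts: `((r^32 : ℕ) : ℝ) = (r:ℝ)^32`.)
-/

open Finset

namespace Pool.Agent.SKA

theorem exists_good {n r : ℕ} (h : Nums n r) :
    ∃ ω : Edg n → Fin (r ^ 32), GoodCol n (r ^ 32) (2 * r ^ 22 + 1) (n / 2 - r ^ 22)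
      (1 / (r : ℝ) ^ 2) ω := by
  have hr := h.hr
  have hR : (93 : ℝ) ≤ (r : ℝ) := by exact_mod_cast hr
  have hR0 : (0 : ℝ) < (r : ℝ) := by linarith
  have hcast : ((r ^ 32 : ℕ) : ℝ) = (r : ℝ) ^ 32 := by push_cast; ring
  have hM2 : 2 ≤ r ^ 32 := by
    calc 2 ≤ r := by omega
      _ = r ^ 1 := (pow_one r).symm
      _ ≤ r ^ 32 := Nat.pow_le_pow_right (by omega) (by norm_num)
  have hM0 : 0 < r ^ 32 := by omega
  have hn : 0 < n := lt_of_lt_of_le (pow_pos (by omega) 40) h.n1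
  have hε0 : (0 : ℝ) < 1 / (r : ℝ) ^ 2 := by positivity
  have h1r : (1 : ℝ) ≤ (r : ℝ) := by linarith
  have hε1 : 1 / (r : ℝ) ^ 2 ≤ 1 := by
    rw [div_le_one (by positivity)]
    exact one_le_pow₀ h1r
  have ha : 1 / (8 * (r : ℝ) ^ 36) = (1 / (r : ℝ) ^ 2) ^ 2 / (8 * ((r ^ 32 : ℕ) : ℝ)) := by
    rw [hcast]
    field_simp
  have hτ0 : (0 : ℝ) ≤ 1 / (8 * (r : ℝ) ^ 36) := by positivity
  have hτ32 : 1 / (8 * (r : ℝ) ^ 36) ≤ 1 / 32 := by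
    apply one_div_le_one_div_of_le (by norm_num)
    have h2 : (r : ℝ) ≤ (r : ℝ) ^ 36 := le_self_pow₀ h1r (by norm_num)
    linarith
  have hτ16 : 1 / (8 * (r : ℝ) ^ 36) ≤ 1 / 16 := hτ32.trans (by norm_num)
  have hmin : ∀ F ∈ Fam n (n / 2 - r ^ 22), (n : ℝ) / 300 ≤ (F.card : ℝ) := by
    intro F hF
    have h2 := famall_min h hF
    have h3 : (n : ℝ) ≤ 300 * (F.card : ℝ) := by exact_mod_cast h2
    linarith
  have hT : ((2 * r ^ 22 + 1 : ℕ) : ℝ) * (1 / (8 * (r : ℝ) ^ 36)) ≤ 1 / 8 := by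
    push_cast
    rw [mul_one_div, div_le_div_iff₀ (by positivity) (by norm_num)]
    have h2 : (1 : ℝ) ≤ (r : ℝ) ^ 22 := one_le_pow₀ h1r
    have h3 : (3 : ℝ) ≤ (r : ℝ) ^ 14 := by
      have : (r : ℝ) ≤ (r : ℝ) ^ 14 := le_self_pow₀ h1r (by norm_num)
      linarith
    have h4 : (r : ℝ) ^ 36 = (r : ℝ) ^ 22 * (r : ℝ) ^ 14 := by ring
    rw [h4]
    nlinarith
  have e1 := ach_cut (I := Edg n) hM0 (Fam n (n / 2 - r ^ 22)) (1 / (r : ℝ) ^ 2)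
    (1 / (8 * (r : ℝ) ^ 36)) (1 / (8 * (r : ℝ) ^ 36)) ((n : ℝ) / 300) hε0 hε1 ha le_rfl h.f0 hmin
    (fun e f => by convert famall_count h e f)
  have e2 := ach_del hM2 (CSq n) hn (csq_ok n) (Fam n (n / 2 - r ^ 22)) (1 / (r : ℝ) ^ 2)
    (1 / (8 * (r : ℝ) ^ 36)) (1 / (8 * (r : ℝ) ^ 36)) ((n : ℝ) / 300) hε0 hε1 ha hτ0 hτ16 h.f0
    hmin (fun e f => by convert famall_count h e f) (by rw [hcast]; exact h.small)
  have e3 := ach_sh hM2 (CSq n) (csq_ok n) (1 / (8 * (r : ℝ) ^ 36)) hτ0 hτ32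
  have e4 := ach_mono_sq hM2 (CSq n) (csq_ok n) (1 / (8 * (r : ℝ) ^ 36)) hτ0 hτ32
  have e5 := ach_long (n := n) hM2 (T := 2 * r ^ 22 + 1) (1 / (8 * (r : ℝ) ^ 36)) hτ0 hT h.len
  have e6 := ach_and (ach_and (ach_and (ach_and e1 e2) e3) e4) e5
  obtain ⟨ω, ⟨⟨⟨hc, hd⟩, hs⟩, hm⟩, hl⟩ := ach_exists hM0 e6 (by
    rw [hcast]
    exact h.cost)
  exact ⟨ω, hc, hd, hs, hm, hl⟩

end Pool.Agent.SKA
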