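import Pool.Agent.SKA.DefJ

set_option autoImplicit false

/-!
# SKA JB (package, 0.9 h): distance one pairs leaving `W` against the edge boundary in the level graph

Proof. (low) Let `(A,A') ∈ Sw n k`, `A ∈ W`, `A' ∉ W`, `D = A ∪ A'`; `|D| = k+1` since `|A' \ A| = |A \ A'| = 1`. Map `(A,A')` to the edge `(A',D)` if
`D ∈ W` and to `(A,D)` if `D ∉ W`; this is in `cutF n k W`. Every edge `(A0,D0)` of `cutF` has at most `k` preimages: if `D0 ∈ W` (so `A0 ∉ W`) the preimages are
`(A,A0)` with `A ∪ A0 = D0`, so `A = D0 \ {x}` for some `x ∈ D0`, and `A ≠ A0`: at most `k+1-1 = k` such `A`; if `D0 ∉ W` the preimages are `(A0,A')`, again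
at most `k`. (`Finset.card_le_mul_card_image` / `Finset.card_le_mul_card_image_of_maps_to`.)
(up) Let `(D,D') ∈ Sw n (k+1)`, `D ∈ W`, `D' ∉ W`, `A = D ∩ D'`, `|A| = k`. Map to `(A,D')` if `A ∈ W`, to `(A,D)` if `A ∉ W`. An edge `(A0,D0)` has at most `n-k-1`
preimages: the other set is `insert y A0` with `y ∉ A0`, different from `D0`: `n - k - 1` choices.
-/

open Finset

namespace Pool.Agent.SKA

private theorem jbAux {n k : ℕ} {p : Edg n} (h : p ∈ Sw n k) :
    p.1.card = k ∧ p.2.card = k ∧ (p.1 ∪ p.2).card = k + 1 ∧ (p.1 ∩ p.2).card + 1 = k := by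
  unfold Sw Lv at h
  simp only [mem_filter, mem_product, mem_univ, true_and] at h
  obtain ⟨⟨h1, h2⟩, h3⟩ := h
  refine ⟨h1, h2, ?_, ?_⟩
  · rw [← Finset.sdiff_union_self_eq_union, Finset.card_union_of_disjoint Finset.sdiff_disjoint,
      h2, h3]
    ring
  · have h4 := Finset.card_sdiff_add_card_inter p.1 p.2
    omega

private theorem jbUp {n : ℕ} (A : Finset (Fin n)) :
    (univ.filter (fun D : Finset (Fin n) => A ⊆ D ∧ D.card = A.card + 1)).card ≤ n - A.card := by
  classical
  have h1 : univ.filter (fun D : Finset (Fin n) => A ⊆ D ∧ D.card = A.card + 1) ⊆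
      (univ \ A).image (fun y => insert y A) := by
    intro D hD
    simp only [mem_filter, mem_univ, true_and] at hD
    obtain ⟨a, ha, haD⟩ := Finset.exists_eq_insert_iff.2 ⟨hD.1, hD.2.symm⟩
    exact mem_image.2 ⟨a, mem_sdiff.2 ⟨mem_univ _, ha⟩, haD⟩
  refine (card_le_card h1).trans (card_image_le.trans ?_)
  rw [card_sdiff_of_subset (subset_univ _), card_univ, Fintype.card_fin]

theorem jb_low (n k : ℕ) (W : Finset (Finset (Fin n))) :
    ((Sw n k).filter (fun p => p.1 ∈ W ∧ p.2 ∉ W)).card ≤ k * (cutF n k W).card := by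
  classical
  refine Finset.card_le_mul_card_image_of_maps_to
    (f := fun p : Edg n => if p.1 ∪ p.2 ∈ W then (p.2, p.1 ∪ p.2) else (p.1, p.1 ∪ p.2)) ?_ k ?_
  · intro p hp
    obtain ⟨hp0, hp1, hp2⟩ := mem_filter.1 hp
    obtain ⟨h1, h2, h3, -⟩ := jbAux hp0
    beta_reduce
    unfold cutF
    split_ifs with h
    · exact mem_filter.2 ⟨mem_univ _, h2, h3, subset_union_right, fun h4 => hp2 (h4.2 h)⟩
    · exact mem_filter.2 ⟨mem_univ _, h1, h3, subset_union_left, fun h4 => h (h4.1 hp1)⟩
  · rintro ⟨A0, D0⟩ hb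
    unfold cutF at hb
    obtain ⟨-, hA, hD, hAD, hW⟩ := mem_filter.1 hb
    simp only at hA hD hAD hW
    have hA0 : A0 ∈ powersetCard k D0 := mem_powersetCard.2 ⟨hAD, hA⟩
    have hcard : ((powersetCard k D0).erase A0).card = k := by
      rw [card_erase_of_mem hA0, card_powersetCard, hD, Nat.choose_succ_self_right]
      omega
    by_cases hDW : D0 ∈ W
    · have hAW : A0 ∉ W := fun h => hW ⟨fun _ => hDW, fun _ => h⟩
      calc _ ≤ ((powersetCard k D0).erase A0).card := ?_
        _ = k := hcard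
      refine card_le_card_of_injOn (fun p => p.1) ?_ ?_
      · intro p hp
        obtain ⟨hp, hpf⟩ := mem_filter.1 (mem_coe.1 hp)
        obtain ⟨hp0, hp1, hp2⟩ := mem_filter.1 hp
        obtain ⟨h1, h2, h3, -⟩ := jbAux hp0
        split_ifs at hpf with h
        · have h5 := (Prod.mk.injEq _ _ _ _).mp hpf
          refine mem_coe.2 (mem_erase.2 ⟨fun h6 => hAW ?_, mem_powersetCard.2 ⟨?_, h1⟩⟩)
          · rw [← h6]
            exact hp1
          · rw [← h5.2]
            exact subset_union_left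
        · have h5 := (Prod.mk.injEq _ _ _ _).mp hpf
          exact absurd (h5.2 ▸ hDW) h
      · intro p hp q hq hpq
        obtain ⟨hp, hpf⟩ := mem_filter.1 (mem_coe.1 hp)
        obtain ⟨hq, hqf⟩ := mem_filter.1 (mem_coe.1 hq)
        split_ifs at hpf hqf with h h'
        · have h5 := (Prod.mk.injEq _ _ _ _).mp hpf
          have h6 := (Prod.mk.injEq _ _ _ _).mp hqf
          exact Prod.ext hpq (h5.1.trans h6.1.symm)
        · have h6 := (Prod.mk.injEq _ _ _ _).mp hqf
          exact absurd (h6.2 ▸ hDW) h'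
        · have h6 := (Prod.mk.injEq _ _ _ _).mp hpf
          exact absurd (h6.2 ▸ hDW) h
        · have h6 := (Prod.mk.injEq _ _ _ _).mp hpf
          exact absurd (h6.2 ▸ hDW) h
    · have hAW : A0 ∈ W := by
        by_contra h
        exact hW ⟨fun h' => absurd h' h, fun h' => absurd h' hDW⟩
      calc _ ≤ ((powersetCard k D0).erase A0).card := ?_
        _ = k := hcard
      refine card_le_card_of_injOn (fun p => p.2) ?_ ?_
      · intro p hp
        obtain ⟨hp, hpf⟩ := mem_filter.1 (mem_coe.1 hp)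
        obtain ⟨hp0, hp1, hp2⟩ := mem_filter.1 hp
        obtain ⟨h1, h2, h3, -⟩ := jbAux hp0
        split_ifs at hpf with h
        · have h5 := (Prod.mk.injEq _ _ _ _).mp hpf
          exact absurd (h5.2 ▸ h) hDW
        · have h5 := (Prod.mk.injEq _ _ _ _).mp hpf
          refine mem_coe.2 (mem_erase.2 ⟨fun h6 => hp2 ?_, mem_powersetCard.2 ⟨?_, h2⟩⟩)
          · have h7 : p.2 = A0 := h6
            rw [h7]
            exact hAW
          · rw [← h5.2]
            exact subset_union_right
      · intro p hp q hq hpq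
        obtain ⟨hp, hpf⟩ := mem_filter.1 (mem_coe.1 hp)
        obtain ⟨hq, hqf⟩ := mem_filter.1 (mem_coe.1 hq)
        split_ifs at hpf hqf with h h'
        · have h6 := (Prod.mk.injEq _ _ _ _).mp hpf
          exact absurd (h6.2 ▸ h) hDW
        · have h6 := (Prod.mk.injEq _ _ _ _).mp hpf
          exact absurd (h6.2 ▸ h) hDW
        · rename_i h''
          have h6 := (Prod.mk.injEq _ _ _ _).mp hqf
          exact absurd (h6.2 ▸ h'') hDW
        · have h5 := (Prod.mk.injEq _ _ _ _).mp hpf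
          have h6 := (Prod.mk.injEq _ _ _ _).mp hqf
          exact Prod.ext (h5.1.trans h6.1.symm) hpq

theorem jb_up (n k : ℕ) (W : Finset (Finset (Fin n))) :
    ((Sw n (k + 1)).filter (fun p => p.1 ∈ W ∧ p.2 ∉ W)).card ≤ (n - k - 1) * (cutF n k W).card := by
  classical
  refine Finset.card_le_mul_card_image_of_maps_to
    (f := fun p : Edg n => if p.1 ∩ p.2 ∈ W then (p.1 ∩ p.2, p.2) else (p.1 ∩ p.2, p.1))
    ?_ (n - k - 1) ?_
  · intro p hp
    obtain ⟨hp0, hp1, hp2⟩ := mem_filter.1 hp
    obtain ⟨h1, h2, -, h3⟩ := jbAux hp0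
    have h3' : (p.1 ∩ p.2).card = k := by omega
    beta_reduce
    unfold cutF
    split_ifs with h
    · exact mem_filter.2 ⟨mem_univ _, h3', h2, inter_subset_right, fun h4 => hp2 (h4.1 h)⟩
    · exact mem_filter.2 ⟨mem_univ _, h3', h1, inter_subset_left, fun h4 => h (h4.2 hp1)⟩
  · rintro ⟨A0, D0⟩ hb
    unfold cutF at hb
    obtain ⟨-, hA, hD, hAD, hW⟩ := mem_filter.1 hb
    simp only at hA hD hAD hW
    have hD0 : D0 ∈ univ.filter
        (fun D : Finset (Fin n) => A0 ⊆ D ∧ D.card = A0.card + 1) :=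
      mem_filter.2 ⟨mem_univ _, hAD, by rw [hD, hA]⟩
    have hcard : ((univ.filter
        (fun D : Finset (Fin n) => A0 ⊆ D ∧ D.card = A0.card + 1)).erase D0).card ≤
          n - k - 1 := by
      rw [card_erase_of_mem hD0]
      have h1 := jbUp A0
      rw [hA] at h1
      rw [hA]
      omega
    refine le_trans ?_ hcard
    by_cases hAW : A0 ∈ W
    · have hDW : D0 ∉ W := fun h => hW ⟨fun _ => h, fun _ => hAW⟩
      refine card_le_card_of_injOn (fun p => p.1) ?_ ?_
      · intro p hp
        obtain ⟨hp, hpf⟩ := mem_filter.1 (mem_coe.1 hp)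
        obtain ⟨hp0, hp1, hp2⟩ := mem_filter.1 hp
        obtain ⟨h1, h2, -, h3⟩ := jbAux hp0
        split_ifs at hpf with h
        · have h5 := (Prod.mk.injEq _ _ _ _).mp hpf
          refine mem_coe.2 (mem_erase.2 ⟨fun h6 => hDW ?_, mem_filter.2 ⟨mem_univ _, ?_, ?_⟩⟩)
          · rw [← h6]
            exact hp1
          · rw [← h5.1]
            exact inter_subset_left
          · rw [hA]
            exact h1
        · have h5 := (Prod.mk.injEq _ _ _ _).mp hpf
          exact absurd (h5.1 ▸ hAW) h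
      · intro p hp q hq hpq
        obtain ⟨hp, hpf⟩ := mem_filter.1 (mem_coe.1 hp)
        obtain ⟨hq, hqf⟩ := mem_filter.1 (mem_coe.1 hq)
        split_ifs at hpf hqf with h h'
        · have h5 := (Prod.mk.injEq _ _ _ _).mp hpf
          have h6 := (Prod.mk.injEq _ _ _ _).mp hqf
          exact Prod.ext hpq (h5.2.trans h6.2.symm)
        · have h6 := (Prod.mk.injEq _ _ _ _).mp hqf
          exact absurd (h6.1 ▸ hAW) h'
        · have h6 := (Prod.mk.injEq _ _ _ _).mp hpf
          exact absurd (h6.1 ▸ hAW) h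
        · have h6 := (Prod.mk.injEq _ _ _ _).mp hpf
          exact absurd (h6.1 ▸ hAW) h
    · have hDW : D0 ∈ W := by
        by_contra h
        exact hW ⟨fun h' => absurd h' hAW, fun h' => absurd h' h⟩
      refine card_le_card_of_injOn (fun p => p.2) ?_ ?_
      · intro p hp
        obtain ⟨hp, hpf⟩ := mem_filter.1 (mem_coe.1 hp)
        obtain ⟨hp0, hp1, hp2⟩ := mem_filter.1 hp
        obtain ⟨h1, h2, -, h3⟩ := jbAux hp0
        split_ifs at hpf with h
        · have h5 := (Prod.mk.injEq _ _ _ _).mp hpf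
          exact absurd (h5.1 ▸ h) hAW
        · have h5 := (Prod.mk.injEq _ _ _ _).mp hpf
          refine mem_coe.2 (mem_erase.2 ⟨fun h6 => hp2 ?_, mem_filter.2 ⟨mem_univ _, ?_, ?_⟩⟩)
          · have h7 : p.2 = D0 := h6
            rw [h7]
            exact hDW
          · rw [← h5.1]
            exact inter_subset_right
          · rw [hA]
            exact h2
      · intro p hp q hq hpq
        obtain ⟨hp, hpf⟩ := mem_filter.1 (mem_coe.1 hp)
        obtain ⟨hq, hqf⟩ := mem_filter.1 (mem_coe.1 hq)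
        split_ifs at hpf hqf with h h'
        · have h6 := (Prod.mk.injEq _ _ _ _).mp hpf
          exact absurd (h6.1 ▸ h) hAW
        · have h6 := (Prod.mk.injEq _ _ _ _).mp hpf
          exact absurd (h6.1 ▸ h) hAW
        · rename_i h''
          have h6 := (Prod.mk.injEq _ _ _ _).mp hqf
          exact absurd (h6.1 ▸ h'') hAW
        · have h5 := (Prod.mk.injEq _ _ _ _).mp hpf
          have h6 := (Prod.mk.injEq _ _ _ _).mp hqf
          exact Prod.ext (h5.2.trans h6.2.symm) hpq

end Pool.Agent.SKA
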