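import Pool.Agent.SKA.Johnson
import Pool.Agent.SKA.JB

set_option autoImplicit false

/-!
# SKA IsoG (package, 1.2 h): edge isoperimetry of the full level graph

Notation (real numbers): `N = |Lv n k| = n.choose k`, `N' = |Lv n (k+1)| = n.choose (k+1)`, `(k+1) N' = (n-k) N` (`Nat.choose_succ_right_eq`), so by `h1`, `h4`:
`N ≤ N' ≤ 1.01 N`. `S = W ∩ Lv n k`, `S' = W ∩ Lv n (k+1)`, `|W| = |S| + |S'|`, `u = |S|/N`, `v = |S'|/N'`, `b = |cutF n k W|`. In `jb_low` the pairs counted only depend on
`S` (`p.1 ∈ W ∧ p.2 ∉ W` for `p.1, p.2 ∈ Lv n k` is the same as for `S`); likewise `jb_up` and `S'`.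
(i) `johnson` for `S` and `jb_low`: `2k(n-k)|S|(N-|S|) ≤ n N k b`, so `b ≥ (2(n-k)/n)|S|(1-u) ≥ (9/10)|S|(1-u)` (`k > 0`, `n - k ≥ 9n/20`).
(ii) `johnson` for `S'` (level `k+1`) and `jb_up`: `2(k+1)(n-k-1)|S'|(N'-|S'|) ≤ n N' (n-k-1) b`, so `b ≥ (2(k+1)/n)|S'|(1-v) ≥ (9/10)|S'|(1-v)`.
(iii) edges: the number of cover pairs `(A,D)` with `D ∈ S'` is `(k+1)|S'|`, those with `A ∈ S` are at most `(n-k)|S|`; so `b ≥ (k+1)|S'| - (n-k)|S|`, and in the same way
`b ≥ (n-k)|S| - (k+1)|S'|`.
Case `u, v ≤ 9/10`: `b ≥ (9/100)|S|`, `b ≥ (9/100)|S'|`, so `2b ≥ (9/100)|W|`, `|W| ≤ 25 b`.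
Case `v > 9/10`: `|S| = |W| - |S'| ≤ (3/5)(N+N') - (9/10)N' ≤ (3/10) N`, `b ≥ (9/10)(k+1)N' - (3/10)(n-k)N = (6/10)(n-k)N ≥ 270 N ≥ |W|` (`|W| ≤ (3/5)(2.01) N`).
Case `u > 9/10`: `|S'| ≤ (3/5)(N+N') - (9/10)N = (3/5)N' - (3/10)N ≤ (31/100)N'` (`N ≥ N'/1.01`), `b ≥ (9/10)(n-k)N - (31/100)(k+1)N' = (59/100)(n-k)N ≥ |W|`.
-/

open Finset

namespace Pool.Agent.SKA

theorem isoG_card_Lv (n k : ℕ) : (Lv n k).card = n.choose k := by
  have h : Lv n k = powersetCard k (univ : Finset (Fin n)) := by
    ext A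
    rw [Lv, mem_filter, mem_powersetCard]
    exact ⟨fun h => ⟨subset_univ _, h.2⟩, fun h => ⟨mem_univ _, h.2⟩⟩
  rw [h, card_powersetCard, card_univ, Fintype.card_fin]

theorem isoG_up {n : ℕ} (A : Finset (Fin n)) (k : ℕ) (hA : A.card = k) :
    ((univ : Finset (Finset (Fin n))).filter (fun D => D.card = k + 1 ∧ A ⊆ D)).card = n - k := by
  classical
  have h1 : (univ : Finset (Finset (Fin n))).filter (fun D => D.card = k + 1 ∧ A ⊆ D) =
      (Aᶜ).image (fun x => insert x A) := by
    ext D
    simp only [mem_filter, mem_univ, true_and, mem_image, mem_compl]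
    constructor
    · rintro ⟨h1, h2⟩
      have h3 : (D \ A).card = 1 := by
        rw [card_sdiff_of_subset h2]
        omega
      rw [card_eq_one] at h3
      obtain ⟨x, hx⟩ := h3
      have hxm : x ∈ D \ A := by
        rw [hx]
        exact mem_singleton_self x
      rw [mem_sdiff] at hxm
      refine ⟨x, hxm.2, ?_⟩
      rw [insert_eq, ← hx, sdiff_union_of_subset h2]
    · rintro ⟨x, hx, rfl⟩
      exact ⟨by rw [card_insert_of_notMem hx, hA], subset_insert _ _⟩
  rw [h1, card_image_of_injOn, card_compl, Fintype.card_fin, hA]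
  intro x hx y hy hxy
  rw [mem_coe, mem_compl] at hx hy
  have : x ∈ insert y A := by
    have h := mem_insert_self x A
    simp only at hxy
    rwa [hxy] at h
  rw [mem_insert] at this
  rcases this with h | h
  · exact h
  · exact absurd h hx

theorem isoG_dn {n : ℕ} (D : Finset (Fin n)) (k : ℕ) (hD : D.card = k + 1) :
    ((univ : Finset (Finset (Fin n))).filter (fun A => A.card = k ∧ A ⊆ D)).card = k + 1 := by
  have h1 : (univ : Finset (Finset (Fin n))).filter (fun A => A.card = k ∧ A ⊆ D) =
      powersetCard k D := by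
    ext A
    rw [mem_filter, mem_powersetCard]
    exact ⟨fun h => ⟨h.2.2, h.2.1⟩, fun h => ⟨mem_univ _, h.2, h.1⟩⟩
  rw [h1, card_powersetCard, hD, Nat.choose_succ_self_right]

/-- Double counting of the cover pairs with lower end in `W` and with upper end in `W`. -/
theorem isoG_count (n k : ℕ) (W : Finset (Finset (Fin n))) :
    (n - k) * (W.filter (fun A => A.card = k)).card ≤
        (k + 1) * (W.filter (fun D => D.card = k + 1)).card + (cutF n k W).card ∧
      (k + 1) * (W.filter (fun D => D.card = k + 1)).card ≤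
        (n - k) * (W.filter (fun A => A.card = k)).card + (cutF n k W).card := by
  classical
  set C : Finset (Edg n) :=
    univ.filter (fun e => e.1.card = k ∧ e.2.card = k + 1 ∧ e.1 ⊆ e.2) with hC
  set E1 := C.filter (fun e => e.1 ∈ W ∧ e.2 ∈ W) with hE1
  set E2 := C.filter (fun e => e.1 ∈ W ∧ e.2 ∉ W) with hE2
  set E3 := C.filter (fun e => e.1 ∉ W ∧ e.2 ∈ W) with hE3
  have hb : (cutF n k W).card = E2.card + E3.card := by
    rw [← card_union_of_disjoint]
    · congr 1
      ext e
      simp only [cutF, hE2, hE3, hC, mem_filter, mem_univ, true_and, mem_union]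
      tauto
    · rw [disjoint_left]
      intro e he he'
      rw [hE2, mem_filter] at he
      rw [hE3, mem_filter] at he'
      exact he'.2.1 he.2.1
  have hu : E1.card + E2.card = (n - k) * (W.filter (fun A => A.card = k)).card := by
    rw [← card_union_of_disjoint]
    · have h1 : E1 ∪ E2 = C.filter (fun e => e.1 ∈ W) := by
        ext e
        simp only [hE1, hE2, mem_filter, mem_union]
        tauto
      rw [h1, card_eq_sum_card_fiberwise (f := Prod.fst) (t := W.filter (fun A => A.card = k)),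
        mul_comm, ← smul_eq_mul, ← sum_const]
      · refine sum_congr rfl ?_
        intro A hA
        rw [mem_filter] at hA
        rw [← isoG_up A k hA.2]
        refine card_bij (fun e _ => e.2) ?_ ?_ ?_
        · intro e he
          simp only [hC, mem_filter, mem_univ, true_and] at he ⊢
          obtain ⟨⟨⟨h1, h2, h3⟩, h4⟩, h5⟩ := he
          rw [h5] at h3
          exact ⟨h2, h3⟩
        · intro e he e' he' h
          rw [mem_filter] at he he'
          exact Prod.ext (he.2.trans he'.2.symm) h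
        · intro D hD
          simp only [mem_filter, mem_univ, true_and] at hD
          refine ⟨(A, D), ?_, rfl⟩
          simp only [hC, mem_filter, mem_univ, true_and]
          exact ⟨⟨⟨hA.2, hD.1, hD.2⟩, hA.1⟩, trivial⟩
      · intro e he
        rw [mem_coe, mem_filter, hC, mem_filter] at he
        rw [mem_coe, mem_filter]
        exact ⟨he.2, he.1.2.1⟩
    · rw [disjoint_left]
      intro e he he'
      rw [hE1, mem_filter] at he
      rw [hE2, mem_filter] at he'
      exact he'.2.2 he.2.2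
  have hd : E1.card + E3.card = (k + 1) * (W.filter (fun D => D.card = k + 1)).card := by
    rw [← card_union_of_disjoint]
    · have h1 : E1 ∪ E3 = C.filter (fun e => e.2 ∈ W) := by
        ext e
        simp only [hE1, hE3, mem_filter, mem_union]
        tauto
      rw [h1, card_eq_sum_card_fiberwise (f := Prod.snd) (t := W.filter (fun A => A.card = k + 1)),
        mul_comm, ← smul_eq_mul, ← sum_const]
      · refine sum_congr rfl ?_
        intro D hD
        rw [mem_filter] at hD
        conv_rhs => rw [← isoG_dn D k hD.2]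
        refine card_bij (fun e _ => e.1) ?_ ?_ ?_
        · intro e he
          simp only [hC, mem_filter, mem_univ, true_and] at he ⊢
          obtain ⟨⟨⟨h1, h2, h3⟩, h4⟩, h5⟩ := he
          rw [h5] at h3
          exact ⟨h1, h3⟩
        · intro e he e' he' h
          rw [mem_filter] at he he'
          exact Prod.ext h (he.2.trans he'.2.symm)
        · intro A hA
          simp only [mem_filter, mem_univ, true_and] at hA
          refine ⟨(A, D), ?_, rfl⟩
          simp only [hC, mem_filter, mem_univ, true_and]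
          exact ⟨⟨⟨hA.1, hD.2, hA.2⟩, hD.1⟩, trivial⟩
      · intro e he
        rw [mem_coe, mem_filter, hC, mem_filter] at he
        rw [mem_coe, mem_filter]
        exact ⟨he.2, he.1.2.2.1⟩
    · rw [disjoint_left]
      intro e he he'
      rw [hE1, mem_filter] at he
      rw [hE3, mem_filter] at he'
      exact he'.2.1 he.2.1
  omega

/-- The numerical part. -/
theorem isoG_num (s s' N N' b m1 m2 : ℝ) (hs : 0 ≤ s) (hs' : 0 ≤ s') (hN : 0 < N) (hN' : 0 < N')
    (hm2 : 450 ≤ m2) (hm : m2 ≤ m1) (hm' : 100 * m1 ≤ 101 * m2) (hX : m2 * N' = m1 * N)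
    (h1 : 9 * (s * (N - s)) ≤ 10 * (N * b)) (h2 : 9 * (s' * (N' - s')) ≤ 10 * (N' * b))
    (h3 : m2 * s' ≤ m1 * s + b) (h4 : m1 * s ≤ m2 * s' + b)
    (h5 : 5 * (s + s') ≤ 3 * (N + N')) : s + s' ≤ 25 * b := by
  have hm2p : 0 < m2 := by linarith
  have hm1p : 0 < m1 := by linarith
  have hNN : N ≤ N' := by
    have : m2 * N ≤ m2 * N' := by
      rw [hX]
      exact mul_le_mul_of_nonneg_right hm hN.le
    exact le_of_mul_le_mul_left this hm2p
  have hNN2 : 100 * N' ≤ 101 * N := by
    have : m2 * (100 * N') ≤ m2 * (101 * N) := by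
      have h := mul_le_mul_of_nonneg_right hm' hN.le
      nlinarith
    exact le_of_mul_le_mul_left this hm2p
  have hXN : 450 * N ≤ m1 * N := mul_le_mul_of_nonneg_right (by linarith) hN.le
  by_cases hv : 9 * N' < 10 * s'
  · have h6 : s ≤ 3 / 10 * N := by linarith
    have h7 := mul_le_mul_of_nonneg_left h6 hm1p.le
    have h8 := mul_le_mul_of_nonneg_left hv.le hm2p.le
    nlinarith
  · by_cases hu : 9 * N < 10 * s
    · have h6 : s' ≤ 304 / 1000 * N' := by linarith
      have h7 := mul_le_mul_of_nonneg_left h6 hm2p.le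
      have h8 := mul_le_mul_of_nonneg_left hu.le hm1p.le
      nlinarith
    · push Not at hv hu
      have h6 : s ≤ 12 * b := by
        have h7 : s * (N / 10) ≤ s * (N - s) := mul_le_mul_of_nonneg_left (by linarith) hs
        have h8 : N * s ≤ N * (100 / 9 * b) := by linarith
        have h9 := le_of_mul_le_mul_left h8 hN
        have : 0 ≤ b := by linarith
        linarith
      have h6' : s' ≤ 12 * b := by
        have h7 : s' * (N' / 10) ≤ s' * (N' - s') := mul_le_mul_of_nonneg_left (by linarith) hs'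
        have h8 : N' * s' ≤ N' * (100 / 9 * b) := by linarith
        have h9 := le_of_mul_le_mul_left h8 hN'
        have : 0 ≤ b := by linarith
        linarith
      have : 0 ≤ b := by linarith
      linarith

theorem isoG {n k : ℕ} (h : LevOk n k) (W : Finset (Finset (Fin n)))
    (hW : W ⊆ Lv n k ∪ Lv n (k + 1))
    (hW2 : 5 * W.card ≤ 3 * ((Lv n k).card + (Lv n (k + 1)).card)) :
    W.card ≤ 25 * (cutF n k W).card := by
  classical
  obtain ⟨h0, h1, h2, h3, h4⟩ := h
  set S := W.filter (fun A => A.card = k) with hS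
  set S' := W.filter (fun A => A.card = k + 1) with hS'
  have hSs : S ⊆ Lv n k := by
    intro A hA
    rw [hS, mem_filter] at hA
    exact mem_filter.mpr ⟨mem_univ _, hA.2⟩
  have hSs' : S' ⊆ Lv n (k + 1) := by
    intro A hA
    rw [hS', mem_filter] at hA
    exact mem_filter.mpr ⟨mem_univ _, hA.2⟩
  have hWc : W.card = S.card + S'.card := by
    rw [← card_union_of_disjoint]
    · congr 1
      ext A
      rw [mem_union, hS, hS', mem_filter, mem_filter]
      constructor
      · intro hA
        have := hW hA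
        rw [mem_union, Lv, Lv, mem_filter, mem_filter] at this
        rcases this with h | h
        · exact Or.inl ⟨hA, h.2⟩
        · exact Or.inr ⟨hA, h.2⟩
      · rintro (h | h)
        · exact h.1
        · exact h.1
    · rw [disjoint_left]
      intro A hA hA'
      rw [hS, mem_filter] at hA
      rw [hS', mem_filter] at hA'
      omega
  have hk0 : 0 < k := by omega
  have hkn : k < n := by omega
  have hkn' : k + 1 < n := by omega
  have hj1 := johnson hk0 hkn S hSs
  have hj2 := johnson (Nat.succ_pos k) hkn' S' hSs'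
  have hf1 : (Sw n k).filter (fun p => p.1 ∈ S ∧ p.2 ∉ S) =
      (Sw n k).filter (fun p => p.1 ∈ W ∧ p.2 ∉ W) := by
    refine filter_congr ?_
    intro p hp
    rw [Sw, mem_filter, mem_product, Lv, mem_filter, mem_filter] at hp
    rw [hS, mem_filter, mem_filter]
    constructor
    · rintro ⟨h1, h2⟩
      exact ⟨h1.1, fun h => h2 ⟨h, hp.1.2.2⟩⟩
    · rintro ⟨h1, h2⟩
      exact ⟨⟨h1, hp.1.1.2⟩, fun h => h2 h.1⟩
  have hf2 : (Sw n (k + 1)).filter (fun p => p.1 ∈ S' ∧ p.2 ∉ S') =
      (Sw n (k + 1)).filter (fun p => p.1 ∈ W ∧ p.2 ∉ W) := by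
    refine filter_congr ?_
    intro p hp
    rw [Sw, mem_filter, mem_product, Lv, mem_filter, mem_filter] at hp
    rw [hS', mem_filter, mem_filter]
    constructor
    · rintro ⟨h1, h2⟩
      exact ⟨h1.1, fun h => h2 ⟨h, hp.1.2.2⟩⟩
    · rintro ⟨h1, h2⟩
      exact ⟨⟨h1, hp.1.1.2⟩, fun h => h2 h.1⟩
  rw [hf1, card_sdiff_of_subset hSs] at hj1
  rw [hf2, card_sdiff_of_subset hSs'] at hj2
  have hb1 := jb_low n k W
  have hb2 := jb_up n k W
  obtain ⟨hc1, hc2⟩ := isoG_count n k W
  have hle1 := card_le_card hSs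
  have hle2 := card_le_card hSs'
  have hX : (Lv n (k + 1)).card * (k + 1) = (Lv n k).card * (n - k) := by
    rw [isoG_card_Lv, isoG_card_Lv, Nat.choose_succ_right_eq]
  have hNp : 0 < (Lv n k).card := by
    rw [isoG_card_Lv]
    exact Nat.choose_pos hkn.le
  have hNp' : 0 < (Lv n (k + 1)).card := by
    rw [isoG_card_Lv]
    exact Nat.choose_pos hkn'.le
  set b := (cutF n k W).card with hb
  set s := S.card with hs
  set s' := S'.card with hs'
  set N := (Lv n k).card with hN
  set N' := (Lv n (k + 1)).card with hN'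
  -- first inequality
  have i1 : 9 * (s * (N - s)) ≤ 10 * (N * b) := by
    have e1 : 2 * k * (n - k) * (s * (N - s)) ≤ n * N * (k * b) :=
      hj1.trans (Nat.mul_le_mul_left _ hb1)
    have e2 : (k * n) * (9 * (s * (N - s))) ≤ (k * n) * (10 * (N * b)) := by
      have e3 : 9 * n ≤ 20 * (n - k) := by omega
      calc (k * n) * (9 * (s * (N - s))) = (9 * n) * (k * (s * (N - s))) := by ring
        _ ≤ (20 * (n - k)) * (k * (s * (N - s))) := Nat.mul_le_mul_right _ e3
        _ = 10 * (2 * k * (n - k) * (s * (N - s))) := by ring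
        _ ≤ 10 * (n * N * (k * b)) := Nat.mul_le_mul_left _ e1
        _ = (k * n) * (10 * (N * b)) := by ring
    exact Nat.le_of_mul_le_mul_left e2 (Nat.mul_pos hk0 (by omega))
  have i2 : 9 * (s' * (N' - s')) ≤ 10 * (N' * b) := by
    have e0 : n - (k + 1) = n - k - 1 := by omega
    rw [e0] at hj2
    have e1 : 2 * (k + 1) * (n - k - 1) * (s' * (N' - s')) ≤ n * N' * ((n - k - 1) * b) :=
      hj2.trans (Nat.mul_le_mul_left _ hb2)
    have e2 : ((n - k - 1) * n) * (9 * (s' * (N' - s'))) ≤
        ((n - k - 1) * n) * (10 * (N' * b)) := by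
      calc ((n - k - 1) * n) * (9 * (s' * (N' - s'))) =
            (9 * n) * ((n - k - 1) * (s' * (N' - s'))) := by ring
        _ ≤ (20 * (k + 1)) * ((n - k - 1) * (s' * (N' - s'))) := Nat.mul_le_mul_right _ h2
        _ = 10 * (2 * (k + 1) * (n - k - 1) * (s' * (N' - s'))) := by ring
        _ ≤ 10 * (n * N' * ((n - k - 1) * b)) := Nat.mul_le_mul_left _ e1
        _ = ((n - k - 1) * n) * (10 * (N' * b)) := by ring
    exact Nat.le_of_mul_le_mul_left e2 (Nat.mul_pos (by omega) (by omega))
  have hnum := isoG_num (s : ℝ) s' N N' b ((n - k : ℕ) : ℝ) ((k + 1 : ℕ) : ℝ)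
    (Nat.cast_nonneg _) (Nat.cast_nonneg _) (by exact_mod_cast hNp) (by exact_mod_cast hNp')
    (by exact_mod_cast (show 450 ≤ k + 1 by omega))
    (by exact_mod_cast (show k + 1 ≤ n - k by omega))
    (by exact_mod_cast h4)
    (by
      have : (k + 1) * N' = (n - k) * N := by rw [mul_comm, hX, mul_comm]
      exact_mod_cast this)
    (by
      rw [← Nat.cast_sub hle1]
      exact_mod_cast i1)
    (by
      rw [← Nat.cast_sub hle2]
      exact_mod_cast i2)
    (by exact_mod_cast hc2) (by exact_mod_cast hc1)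
    (by
      rw [hWc] at hW2
      exact_mod_cast hW2)
  rw [hWc]
  exact_mod_cast hnum

end Pool.Agent.SKA
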