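import Pool.Agent.SKA.DefJ

set_option autoImplicit false

/-!
# SKA RsvF (package, 0.5 h): the reserved sets form a code

`rsv_unique`: `D = insert x A`, `D' = insert x' A` with `x, x' ∉ A`; `∑_{D} = ∑_A + x`, `∑_{D'} = ∑_A + x'`; both divisible by `n`, so `n` divides `x - x'` (integers), and
`|x - x'| < n`, so `x = x'`.
`rsv_card`: the sets of lower neighbours `{A : Cov A D}` (each of size `k+1`) of the reserved `D` of level `k+1` are pairwise disjoint subsets of `Lv n k` by `rsv_unique`.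
-/

open Finset

namespace Pool.Agent.SKA

theorem rsv_unique {n : ℕ} {A D D' : Finset (Fin n)} (h : Cov A D) (h' : Cov A D') (hD : Rsv n D)
    (hD' : Rsv n D') : D = D' := by
  obtain ⟨x, hx, rfl⟩ := Finset.exists_eq_insert_iff.2 ⟨h.1, h.2.symm⟩
  obtain ⟨x', hx', rfl⟩ := Finset.exists_eq_insert_iff.2 ⟨h'.1, h'.2.symm⟩
  have h1 := hD.2
  have h2 := hD'.2
  rw [sum_insert hx] at h1
  rw [sum_insert hx'] at h2
  have h3 : (x : ℕ) + ∑ y ∈ A, (y : ℕ) ≡ (x' : ℕ) + ∑ y ∈ A, (y : ℕ) [MOD n] :=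
    ((Nat.modEq_zero_iff_dvd.2 h1).trans (Nat.modEq_zero_iff_dvd.2 h2).symm)
  have h4 : (x : ℕ) ≡ (x' : ℕ) [MOD n] := Nat.ModEq.add_right_cancel' _ h3
  have h5 : (x : ℕ) = x' := Nat.ModEq.eq_of_lt_of_lt h4 x.2 x'.2
  rw [Fin.ext h5]

open Classical in
theorem rsv_card (n k : ℕ) :
    ((Lv n (k + 1)).filter (fun D => Rsv n D)).card * (k + 1) ≤ (Lv n k).card := by
  have hcov : ∀ D A : Finset (Fin n), A ∈ D.image (fun x => D.erase x) → Cov A D := by
    intro D A hA
    obtain ⟨x, hx, rfl⟩ := mem_image.1 hA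
    refine ⟨erase_subset _ _, ?_⟩
    rw [card_erase_of_mem hx]
    have : 0 < D.card := card_pos.2 ⟨x, hx⟩
    omega
  have h1 : (((Lv n (k + 1)).filter (fun D => Rsv n D)).biUnion
      (fun D => D.image (fun x => D.erase x))).card =
      ∑ D ∈ (Lv n (k + 1)).filter (fun D => Rsv n D), (D.image (fun x => D.erase x)).card := by
    refine card_biUnion ?_
    intro D hD D' hD' hne
    refine disjoint_left.2 fun A hA hA' => hne ?_
    exact rsv_unique (hcov D A hA) (hcov D' A hA') (mem_filter.1 hD).2 (mem_filter.1 hD').2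
  have h2 : ∀ D ∈ (Lv n (k + 1)).filter (fun D => Rsv n D),
      (D.image (fun x => D.erase x)).card = k + 1 := by
    intro D hD
    rw [card_image_of_injOn (erase_injOn D)]
    exact (mem_filter.1 (mem_filter.1 hD).1).2
  rw [sum_congr rfl h2, sum_const, smul_eq_mul] at h1
  rw [← h1]
  refine card_le_card ?_
  intro A hA
  obtain ⟨D, hD, hA⟩ := mem_biUnion.1 hA
  have h3 := (hcov D A hA).2
  have h4 : D.card = k + 1 := (mem_filter.1 (mem_filter.1 hD).1).2
  exact mem_filter.2 ⟨mem_univ _, by omega⟩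

end Pool.Agent.SKA
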