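import Pool.Agent.SKA.IsoG
import Pool.Agent.SKA.RsvF

set_option autoImplicit false

/-!
# SKA IsoR (package, 1.5 h): edge isoperimetry of the level graph without the reserved sets

Notation: `Rk` = reserved sets of level `k+1`; for `D0 ∈ Rk`: `p(D0) = |{A ∈ W : Cov A D0}|`, `q(D0) = |{A ∉ W : Cov A D0}|`, `p + q = k+1`. `b' = |cutU| + |cutV|`.
(1) `(n-k-1) ∑_{D0 ∈ Rk} p q ≤ 4 k b'`. Consider the tuples `(D0,x,x',y)`: `D0 ∈ Rk`, `x, x' ∈ D0` with `D0 \ {x} ∈ W`, `D0 \ {x'} ∉ W` (so `x ≠ x'`), `y ∉ D0`. There are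
`(n-k-1) ∑ p q`. The path `D0-x, D0-x+y, D0-x-x'+y, D0-x'+y, D0-x'` (sizes `k, k+1, k, k+1, k`) uses four cover pairs
`e1 = (D0-x, D0-x+y)`, `e2 = (D0-x-x'+y, D0-x+y)`, `e3 = (D0-x-x'+y, D0-x'+y)`, `e4 = (D0-x', D0-x'+y)`, and `D0-x+y`, `D0-x'+y` are not reserved (`rsv_unique`: above `D0-x` only
`D0` is reserved). The first vertex is in `W`, the last is not, so one of the four pairs has exactly one end in `W`, i.e. lies in `cutU ∪ cutV` (as `Lo n k` holds).
Every edge `(A1,D1)` is `e1` of at most `k` tuples: `D0` = the reserved set above `A1` (unique by `rsv_unique`), `x` = the element of `D0 \ A1`, `y` = the element of `D1 \ A1`,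
`x' ∈ D0 \ {x}`: at most `k` choices. `e4`: the same. `e2`: `x'` = the element of `D1 \ A1`; `y ∈ D1`, `y ≠ x'`: at most `k` choices; `D1 \ {y} = D0 - x` determines `D0` (unique reserved
set above) and `x`. `e3`: the same. Total `≤ 4k b'`.
(2) `2 p q ≥ (k+1) min(p,q)`, so `(n-k-1)(k+1) ∑ min(p,q) ≤ 8 k b'`, so `∑ min(p,q) ≤ 8 b'/(n-k-1) ≤ (160/9) b'/n ≤ b'/50` (`h3`, `n ≥ 1000`).
(3) `W+ = W ∪ {D0 ∈ Rk : q ≤ p}`. `|cutF n k W+| = b' + ∑ min(p,q)`: for a cover pair with non reserved upper end, `W+` and `W` agree; for `D0 ∈ Rk` (never in `W`, as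
`W ⊆ Lv ∪ Vp`) the boundary pairs `(A,D0)` are `q` many if `D0 ∈ W+` and `p` many otherwise. So `|cutF n k W+| ≤ (51/50) b'`.
(4) `|W+| ≤ |W| + |Rk|`, `2|W| ≤ |Lv n k| + |Vp n k| ≤ N + N'`, `|Rk| ≤ N/(k+1) ≤ N/400` (`rsv_card`, `h2`), so `5|W+| ≤ 3(N+N')`, and `W+ ⊆ Lv n k ∪ Lv n (k+1)`. By `isoG`:
`|W| ≤ |W+| ≤ 25 (51/50) b' ≤ 30 b'`.
-/

open Finset

namespace Pool.Agent.SKA

open Classical in
private noncomputable def RR (n k : ℕ) : Finset (Finset (Fin n)) :=
  (Lv n (k + 1)).filter (fun D => Rsv n D)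

private theorem mem_RR {n k : ℕ} {D : Finset (Fin n)} :
    D ∈ RR n k ↔ D.card = k + 1 ∧ Rsv n D := by
  classical
  unfold RR Lv
  simp [Finset.mem_filter]

private noncomputable def PP {n : ℕ} (W : Finset (Finset (Fin n))) (D : Finset (Fin n)) :
    Finset (Fin n) := D.filter (fun x => D.erase x ∈ W)

private noncomputable def QQ {n : ℕ} (W : Finset (Finset (Fin n))) (D : Finset (Fin n)) :
    Finset (Fin n) := D.filter (fun x => D.erase x ∉ W)

private theorem pq_card {n : ℕ} (W : Finset (Finset (Fin n))) (D : Finset (Fin n)) :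
    (PP W D).card + (QQ W D).card = D.card := by
  unfold PP QQ
  exact Finset.card_filter_add_card_filter_not (s := D) (fun x => D.erase x ∈ W)

/-- tuples `(D, x, x', y)` -/
private abbrev Tp (n : ℕ) : Type := Finset (Fin n) × Fin n × Fin n × Fin n

private def e1 {n : ℕ} (t : Tp n) : Edg n := (t.1.erase t.2.1, insert t.2.2.2 (t.1.erase t.2.1))

private def e2 {n : ℕ} (t : Tp n) : Edg n :=
  (insert t.2.2.2 ((t.1.erase t.2.1).erase t.2.2.1), insert t.2.2.2 (t.1.erase t.2.1))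

private def sw {n : ℕ} (t : Tp n) : Tp n := (t.1, t.2.2.1, t.2.1, t.2.2.2)

open Classical in
private noncomputable def TT (n k : ℕ) : Finset (Tp n) :=
  univ.filter (fun t => t.1 ∈ RR n k ∧ t.2.1 ∈ t.1 ∧ t.2.2.1 ∈ t.1 ∧ t.2.1 ≠ t.2.2.1 ∧
    t.2.2.2 ∉ t.1)

private theorem mem_TT {n k : ℕ} {t : Tp n} : t ∈ TT n k ↔ t.1 ∈ RR n k ∧ t.2.1 ∈ t.1 ∧
    t.2.2.1 ∈ t.1 ∧ t.2.1 ≠ t.2.2.1 ∧ t.2.2.2 ∉ t.1 := by
  unfold TT
  rw [Finset.mem_filter]
  simp only [Finset.mem_univ, true_and]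

private theorem cov_er {n : ℕ} {D : Finset (Fin n)} {x : Fin n} (hx : x ∈ D) :
    Cov (D.erase x) D := by
  refine ⟨Finset.erase_subset _ _, ?_⟩
  have h := Finset.card_erase_of_mem hx
  have h' := Finset.card_pos.2 ⟨x, hx⟩
  omega

private theorem er_inj {n : ℕ} {D : Finset (Fin n)} {x y : Fin n} (hx : x ∈ D)
    (h : D.erase x = D.erase y) : x = y := by
  by_contra hne
  have h1 : x ∈ D.erase y := Finset.mem_erase.2 ⟨hne, hx⟩
  rw [← h] at h1
  exact Finset.notMem_erase x D h1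

/-- the reserved set and the removed element are determined by the smaller set -/
private theorem det {n k : ℕ} {D D' : Finset (Fin n)} {x x' : Fin n} (hD : D ∈ RR n k)
    (hD' : D' ∈ RR n k) (hx : x ∈ D) (hx' : x' ∈ D') (h : D.erase x = D'.erase x') :
    D = D' ∧ x = x' := by
  have h1 := cov_er hx'
  rw [← h] at h1
  have h2 := rsv_unique (cov_er hx) h1 (mem_RR.1 hD).2 (mem_RR.1 hD').2
  refine ⟨h2, ?_⟩
  rw [← h2] at h
  exact er_inj hx h

private theorem ins_inj {n : ℕ} {A : Finset (Fin n)} {x y : Fin n} (hx : x ∉ A)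
    (h : insert x A = insert y A) : x = y := by
  have h1 : x ∈ insert y A := by
    rw [← h]
    exact Finset.mem_insert_self _ _
  rcases Finset.mem_insert.1 h1 with h2 | h2
  · exact h2
  · exact absurd h2 hx

private theorem bd1 {n k : ℕ} (C : Finset (Edg n)) :
    ((TT n k).filter (fun t => e1 t ∈ C)).card ≤ k * C.card := by
  classical
  refine (Finset.card_le_mul_card_image (f := e1) _ k ?_).trans ?_
  · intro a ha
    obtain ⟨t0, ht0, rfl⟩ := Finset.mem_image.1 ha
    obtain ⟨h0, -⟩ := Finset.mem_filter.1 ht0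
    obtain ⟨hR, hx, hx', hne, hy⟩ := mem_TT.1 h0
    have hcard : (t0.1.erase t0.2.1).card = k := by
      have := Finset.card_erase_of_mem hx
      have h2 := (mem_RR.1 hR).1
      omega
    refine le_trans ?_ hcard.le
    have hdet : ∀ t, t ∈ TT n k → e1 t = e1 t0 → t.1 = t0.1 ∧ t.2.1 = t0.2.1 ∧
        t.2.2.2 = t0.2.2.2 := by
      intro t ht he
      obtain ⟨hR', hu, hu', hne', hv⟩ := mem_TT.1 ht
      have e_1 : t.1.erase t.2.1 = t0.1.erase t0.2.1 := congrArg Prod.fst he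
      have e_2 : insert t.2.2.2 (t.1.erase t.2.1) = insert t0.2.2.2 (t0.1.erase t0.2.1) :=
        congrArg Prod.snd he
      obtain ⟨h1, h2⟩ := det hR' hR hu hx e_1
      refine ⟨h1, h2, ?_⟩
      rw [← e_1] at e_2
      exact ins_inj (fun h => hv (Finset.erase_subset _ _ h)) e_2
    refine Finset.card_le_card_of_injOn (fun t => t.2.2.1) ?_ ?_
    · intro t ht
      obtain ⟨ht1, ht2⟩ := Finset.mem_filter.1 (Finset.mem_coe.1 ht)
      obtain ⟨ht3, -⟩ := Finset.mem_filter.1 ht1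
      obtain ⟨k1, k2, k3⟩ := hdet t ht3 ht2
      obtain ⟨-, -, hu', hne', -⟩ := mem_TT.1 ht3
      rw [Finset.mem_coe, Finset.mem_erase, ← k1, ← k2]
      exact ⟨hne'.symm, hu'⟩
    · intro t ht s hs hts
      obtain ⟨ht1, ht2⟩ := Finset.mem_filter.1 (Finset.mem_coe.1 ht)
      obtain ⟨ht3, -⟩ := Finset.mem_filter.1 ht1
      obtain ⟨hs1, hs2⟩ := Finset.mem_filter.1 (Finset.mem_coe.1 hs)
      obtain ⟨hs3, -⟩ := Finset.mem_filter.1 hs1
      obtain ⟨k1, k2, k3⟩ := hdet t ht3 ht2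
      obtain ⟨l1, l2, l3⟩ := hdet s hs3 hs2
      exact Prod.ext (k1.trans l1.symm) (Prod.ext (k2.trans l2.symm)
        (Prod.ext hts (k3.trans l3.symm)))
  · refine Nat.mul_le_mul_left k (Finset.card_le_card ?_)
    intro a ha
    obtain ⟨t0, ht0, rfl⟩ := Finset.mem_image.1 ha
    exact (Finset.mem_filter.1 ht0).2

private theorem bd2 {n k : ℕ} (C : Finset (Edg n)) :
    ((TT n k).filter (fun t => e2 t ∈ C)).card ≤ k * C.card := by
  classical
  refine (Finset.card_le_mul_card_image (f := e2) _ k ?_).trans ?_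
  · intro a ha
    obtain ⟨t0, ht0, rfl⟩ := Finset.mem_image.1 ha
    obtain ⟨h0, -⟩ := Finset.mem_filter.1 ht0
    obtain ⟨hR, hx, hx', hne, hy⟩ := mem_TT.1 h0
    have hyA : t0.2.2.2 ∉ t0.1.erase t0.2.1 := fun h => hy (Finset.erase_subset _ _ h)
    have hx'A : t0.2.2.1 ∈ t0.1.erase t0.2.1 := Finset.mem_erase.2 ⟨hne.symm, hx'⟩
    have hcard : ((insert t0.2.2.2 (t0.1.erase t0.2.1)).erase t0.2.2.1).card = k := by
      rw [Finset.card_erase_of_mem (Finset.mem_insert_of_mem hx'A),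
        Finset.card_insert_of_notMem hyA]
      have := Finset.card_erase_of_mem hx
      have h2 := (mem_RR.1 hR).1
      omega
    refine le_trans ?_ hcard.le
    have hdet : ∀ t, t ∈ TT n k → e2 t = e2 t0 → t.2.2.1 = t0.2.2.1 ∧
        insert t.2.2.2 (t.1.erase t.2.1) = insert t0.2.2.2 (t0.1.erase t0.2.1) := by
      intro t ht he
      obtain ⟨hR', hu, hu', hne', hv⟩ := mem_TT.1 ht
      have e_1 : insert t.2.2.2 ((t.1.erase t.2.1).erase t.2.2.1) =
        insert t0.2.2.2 ((t0.1.erase t0.2.1).erase t0.2.2.1) := congrArg Prod.fst he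
      have e_2 : insert t.2.2.2 (t.1.erase t.2.1) = insert t0.2.2.2 (t0.1.erase t0.2.1) :=
        congrArg Prod.snd he
      refine ⟨?_, e_2⟩
      by_contra hne2
      have m1 : t.2.2.1 ∈ insert t.2.2.2 (t.1.erase t.2.1) :=
        Finset.mem_insert_of_mem (Finset.mem_erase.2 ⟨hne'.symm, hu'⟩)
      have m2 : t.2.2.1 ∉ insert t.2.2.2 ((t.1.erase t.2.1).erase t.2.2.1) := by
        rw [Finset.mem_insert]
        rintro (h | h)
        · rw [← h] at hv
          exact hv hu'
        · exact Finset.notMem_erase _ _ h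
      rw [e_2] at m1
      rw [e_1] at m2
      rw [Finset.mem_insert] at m1 m2
      rcases m1 with h | h
      · exact m2 (Or.inl h)
      · exact m2 (Or.inr (Finset.mem_erase.2 ⟨hne2, h⟩))
    refine Finset.card_le_card_of_injOn (fun t => t.2.2.2) ?_ ?_
    · intro t ht
      obtain ⟨ht1, ht2⟩ := Finset.mem_filter.1 (Finset.mem_coe.1 ht)
      obtain ⟨ht3, -⟩ := Finset.mem_filter.1 ht1
      obtain ⟨k1, k2⟩ := hdet t ht3 ht2
      obtain ⟨-, -, hu', hne', hv⟩ := mem_TT.1 ht3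
      rw [Finset.mem_coe, Finset.mem_erase, ← k1, ← k2]
      refine ⟨?_, Finset.mem_insert_self _ _⟩
      intro h
      rw [← h] at hu'
      exact hv hu'
    · intro t ht s hs hts
      have hts' : t.2.2.2 = s.2.2.2 := hts
      obtain ⟨ht1, ht2⟩ := Finset.mem_filter.1 (Finset.mem_coe.1 ht)
      obtain ⟨ht3, -⟩ := Finset.mem_filter.1 ht1
      obtain ⟨hs1, hs2⟩ := Finset.mem_filter.1 (Finset.mem_coe.1 hs)
      obtain ⟨hs3, -⟩ := Finset.mem_filter.1 hs1
      obtain ⟨k1, k2⟩ := hdet t ht3 ht2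
      obtain ⟨l1, l2⟩ := hdet s hs3 hs2
      obtain ⟨a1, a2, a3, a4, a5⟩ := mem_TT.1 ht3
      obtain ⟨b1, b2, b3, b4, b5⟩ := mem_TT.1 hs3
      have h3 := k2.trans l2.symm
      have h4 : t.1.erase t.2.1 = s.1.erase s.2.1 := by
        have h5 : (insert t.2.2.2 (t.1.erase t.2.1)).erase t.2.2.2 =
            (insert s.2.2.2 (s.1.erase s.2.1)).erase t.2.2.2 := by rw [h3]
        rw [Finset.erase_insert (fun h => a5 (Finset.erase_subset _ _ h)), hts',
          Finset.erase_insert (fun h => b5 (Finset.erase_subset _ _ h))] at h5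
        exact h5
      obtain ⟨c1, c2⟩ := det a1 b1 a2 b2 h4
      exact Prod.ext c1 (Prod.ext c2 (Prod.ext (k1.trans l1.symm) hts'))
  · refine Nat.mul_le_mul_left k (Finset.card_le_card ?_)
    intro a ha
    obtain ⟨t0, ht0, rfl⟩ := Finset.mem_image.1 ha
    exact (Finset.mem_filter.1 ht0).2

private theorem sw_mem {n k : ℕ} {t : Tp n} (h : t ∈ TT n k) : sw t ∈ TT n k := by
  obtain ⟨a1, a2, a3, a4, a5⟩ := mem_TT.1 h
  exact mem_TT.2 ⟨a1, a3, a2, a4.symm, a5⟩

private theorem bd_sw {n k : ℕ} (f : Tp n → Edg n) (C : Finset (Edg n)) :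
    ((TT n k).filter (fun t => f (sw t) ∈ C)).card ≤
      ((TT n k).filter (fun t => f t ∈ C)).card := by
  classical
  refine Finset.card_le_card_of_injOn sw ?_ ?_
  · intro t ht
    obtain ⟨h1, h2⟩ := Finset.mem_filter.1 (Finset.mem_coe.1 ht)
    exact Finset.mem_coe.2 (Finset.mem_filter.2 ⟨sw_mem h1, h2⟩)
  · rintro ⟨a, b, c, d⟩ - ⟨a', b', c', d'⟩ - h
    unfold sw at h
    simp only [Prod.mk.injEq] at h ⊢
    tauto

/-- the boundary edges -/
private theorem mem_C {n k : ℕ} {W : Finset (Finset (Fin n))} {e : Edg n} :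
    e ∈ cutU n k W ∪ cutV n k W ↔ Lo n k e.1 e.2 ∧ ¬ (e.1 ∈ W ↔ e.2 ∈ W) := by
  classical
  unfold cutU cutV
  rw [Finset.mem_union, Finset.mem_filter, Finset.mem_filter]
  simp only [Finset.mem_univ, true_and]
  tauto

open Classical in
private noncomputable def T0 (n k : ℕ) (W : Finset (Finset (Fin n))) : Finset (Tp n) :=
  (RR n k).biUnion (fun D => ({D} : Finset (Finset (Fin n))) ×ˢ ((PP W D) ×ˢ ((QQ W D) ×ˢ Dᶜ)))

private theorem card_T0 {n k : ℕ} (W : Finset (Finset (Fin n))) :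
    (T0 n k W).card = ∑ D ∈ RR n k, (PP W D).card * ((QQ W D).card * (n - k - 1)) := by
  classical
  unfold T0
  rw [Finset.card_biUnion]
  · refine Finset.sum_congr rfl fun D hD => ?_
    rw [Finset.card_product, Finset.card_product, Finset.card_product, Finset.card_singleton,
      one_mul, Finset.card_compl, Fintype.card_fin, (mem_RR.1 hD).1]
    rfl
  · intro D hD D' hD' hne
    refine Finset.disjoint_left.2 ?_
    intro t ht ht'
    have h1 := Finset.mem_singleton.1 (Finset.mem_product.1 ht).1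
    have h2 := Finset.mem_singleton.1 (Finset.mem_product.1 ht').1
    exact hne (h1.symm.trans h2)

private theorem mem_T0 {n k : ℕ} {W : Finset (Finset (Fin n))} {t : Tp n} :
    t ∈ T0 n k W ↔ t.1 ∈ RR n k ∧ (t.2.1 ∈ t.1 ∧ t.1.erase t.2.1 ∈ W) ∧
      (t.2.2.1 ∈ t.1 ∧ t.1.erase t.2.2.1 ∉ W) ∧ t.2.2.2 ∉ t.1 := by
  classical
  unfold T0 PP QQ
  simp only [Finset.mem_biUnion, Finset.mem_product, Finset.mem_singleton, Finset.mem_filter,
    Finset.mem_compl]
  constructor
  · rintro ⟨D, hD, h1, h2, h3, h4⟩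
    subst h1
    exact ⟨hD, h2, h3, h4⟩
  · rintro ⟨hD, h2, h3, h4⟩
    exact ⟨t.1, hD, rfl, h2, h3, h4⟩

private theorem not_rsv {n k : ℕ} {D : Finset (Fin n)} {x y : Fin n} (hD : D ∈ RR n k)
    (hx : x ∈ D) (hy : y ∉ D) : ¬ Rsv n (insert y (D.erase x)) := by
  intro h
  have hyA : y ∉ D.erase x := fun h => hy (Finset.erase_subset _ _ h)
  have h1 : Cov (D.erase x) (insert y (D.erase x)) :=
    ⟨Finset.subset_insert _ _, Finset.card_insert_of_notMem hyA⟩
  have h2 := rsv_unique h1 (cov_er hx) h (mem_RR.1 hD).2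
  apply hy
  rw [← h2]
  exact Finset.mem_insert_self _ _

private theorem lo1 {n k : ℕ} {D : Finset (Fin n)} {x y : Fin n} (hD : D ∈ RR n k)
    (hx : x ∈ D) (hy : y ∉ D) : Lo n k (D.erase x) (insert y (D.erase x)) := by
  have hyA : y ∉ D.erase x := fun h => hy (Finset.erase_subset _ _ h)
  have h1 := (cov_er hx).2
  have h2 := (mem_RR.1 hD).1
  refine ⟨by omega, ?_, Finset.subset_insert _ _, not_rsv hD hx hy⟩
  rw [Finset.card_insert_of_notMem hyA]
  omega

private theorem lo2 {n k : ℕ} {D : Finset (Fin n)} {x x' y : Fin n} (hD : D ∈ RR n k)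
    (hx : x ∈ D) (hx' : x' ∈ D) (hne : x ≠ x') (hy : y ∉ D) :
    Lo n k (insert y ((D.erase x).erase x')) (insert y (D.erase x)) := by
  have hyA : y ∉ D.erase x := fun h => hy (Finset.erase_subset _ _ h)
  have hyB : y ∉ (D.erase x).erase x' := fun h => hyA (Finset.erase_subset _ _ h)
  have hx'A : x' ∈ D.erase x := Finset.mem_erase.2 ⟨hne.symm, hx'⟩
  have h1 := (cov_er hx).2
  have h2 := (mem_RR.1 hD).1
  have h3 := (cov_er hx'A).2
  refine ⟨?_, ?_, Finset.insert_subset_insert _ (Finset.erase_subset _ _), not_rsv hD hx hy⟩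
  · rw [Finset.card_insert_of_notMem hyB]
    omega
  · rw [Finset.card_insert_of_notMem hyA]
    omega

private theorem T0_cover {n k : ℕ} (W : Finset (Finset (Fin n))) :
    T0 n k W ⊆ (((TT n k).filter (fun t => e1 t ∈ cutU n k W ∪ cutV n k W)) ∪
      ((TT n k).filter (fun t => e2 t ∈ cutU n k W ∪ cutV n k W))) ∪
      (((TT n k).filter (fun t => e1 (sw t) ∈ cutU n k W ∪ cutV n k W)) ∪
      ((TT n k).filter (fun t => e2 (sw t) ∈ cutU n k W ∪ cutV n k W))) := by
  classical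
  intro t ht
  obtain ⟨hR, ⟨hx, hxW⟩, ⟨hx', hxW'⟩, hy⟩ := mem_T0.1 ht
  have hne : t.2.1 ≠ t.2.2.1 := by
    intro h
    rw [h] at hxW
    exact hxW' hxW
  have hT : t ∈ TT n k := mem_TT.2 ⟨hR, hx, hx', hne, hy⟩
  by_contra hcon
  simp only [Finset.mem_union (α := Tp n), Finset.mem_filter, hT, true_and, not_or] at hcon
  obtain ⟨⟨h1, h2⟩, h3, h4⟩ := hcon
  rw [mem_C] at h1 h2 h3 h4
  have k1 : t.1.erase t.2.1 ∈ W ↔ insert t.2.2.2 (t.1.erase t.2.1) ∈ W := by
    by_contra hh
    exact h1 ⟨lo1 hR hx hy, hh⟩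
  have k2 : insert t.2.2.2 ((t.1.erase t.2.1).erase t.2.2.1) ∈ W ↔
      insert t.2.2.2 (t.1.erase t.2.1) ∈ W := by
    by_contra hh
    exact h2 ⟨lo2 hR hx hx' hne hy, hh⟩
  have k3 : t.1.erase t.2.2.1 ∈ W ↔ insert t.2.2.2 (t.1.erase t.2.2.1) ∈ W := by
    by_contra hh
    exact h3 ⟨lo1 hR hx' hy, hh⟩
  have k4 : insert t.2.2.2 ((t.1.erase t.2.2.1).erase t.2.1) ∈ W ↔
      insert t.2.2.2 (t.1.erase t.2.2.1) ∈ W := by
    by_contra hh
    exact h4 ⟨lo2 hR hx' hx hne.symm hy, hh⟩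
  rw [Finset.erase_right_comm] at k4
  tauto

private theorem sum_pq {n k : ℕ} (W : Finset (Finset (Fin n))) :
    ∑ D ∈ RR n k, (PP W D).card * ((QQ W D).card * (n - k - 1)) ≤
      4 * (k * ((cutU n k W).card + (cutV n k W).card)) := by
  rw [← card_T0]
  have h1 := (Finset.card_le_card (T0_cover (n := n) (k := k) W)).trans
    ((Finset.card_union_le _ _).trans (add_le_add (Finset.card_union_le _ _)
      (Finset.card_union_le _ _)))
  have h2 := bd1 (n := n) (k := k) (cutU n k W ∪ cutV n k W)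
  have h3 := bd2 (n := n) (k := k) (cutU n k W ∪ cutV n k W)
  have h4 := bd_sw (n := n) (k := k) e1 (cutU n k W ∪ cutV n k W)
  have h5 := bd_sw (n := n) (k := k) e2 (cutU n k W ∪ cutV n k W)
  have h6 := Nat.mul_le_mul_left k (Finset.card_union_le (cutU n k W) (cutV n k W))
  omega

private theorem min_pq (p q s : ℕ) (h : p + q = s) : s * min p q ≤ 2 * (p * q) := by
  subst h
  rcases le_total p q with h1 | h1
  · rw [min_eq_left h1]
    nlinarith
  · rw [min_eq_right h1]
    nlinarith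

private theorem sum_min {n k : ℕ} (h : LevOk n k) (W : Finset (Finset (Fin n))) :
    50 * ∑ D ∈ RR n k, min (PP W D).card (QQ W D).card ≤
      (cutU n k W).card + (cutV n k W).card := by
  have h1 := sum_pq (n := n) (k := k) W
  set b := (cutU n k W).card + (cutV n k W).card with hb
  have h2 : (n - k - 1) * ((k + 1) * ∑ D ∈ RR n k, min (PP W D).card (QQ W D).card) ≤
      2 * ∑ D ∈ RR n k, (PP W D).card * ((QQ W D).card * (n - k - 1)) := by
    rw [Finset.mul_sum, Finset.mul_sum, Finset.mul_sum]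
    refine Finset.sum_le_sum fun D hD => ?_
    have h3 := min_pq (PP W D).card (QQ W D).card (k + 1) (by
      rw [pq_card, (mem_RR.1 hD).1])
    calc (n - k - 1) * ((k + 1) * min (PP W D).card (QQ W D).card)
        ≤ (n - k - 1) * (2 * ((PP W D).card * (QQ W D).card)) := Nat.mul_le_mul_left _ h3
      _ = 2 * ((PP W D).card * ((QQ W D).card * (n - k - 1))) := by ring
  set S := ∑ D ∈ RR n k, min (PP W D).card (QQ W D).card with hS
  have h3 : (k + 1) * ((n - k - 1) * S) ≤ (k + 1) * (8 * b) := by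
    calc (k + 1) * ((n - k - 1) * S) = (n - k - 1) * ((k + 1) * S) := by ring
      _ ≤ 2 * (4 * (k * b)) := h2.trans (Nat.mul_le_mul_left 2 h1)
      _ = k * (8 * b) := by ring
      _ ≤ (k + 1) * (8 * b) := Nat.mul_le_mul_right _ (Nat.le_succ k)
  have h4 : (n - k - 1) * S ≤ 8 * b := Nat.le_of_mul_le_mul_left h3 (Nat.succ_pos k)
  have h5 : 450 ≤ n - k - 1 := by
    have := h.h0
    have := h.h3
    omega
  have h6 : 450 * S ≤ (n - k - 1) * S := Nat.mul_le_mul_right S h5
  omega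

private theorem er_of_cov {n : ℕ} {A D : Finset (Fin n)} (h : A ⊆ D) (hc : D.card = A.card + 1) :
    ∃ x ∈ D, A = D.erase x := by
  have h1 : (D \ A).card = 1 := by
    have := Finset.card_sdiff_add_card_eq_card h
    omega
  obtain ⟨x, hx⟩ := Finset.card_eq_one.1 h1
  have hxD : x ∈ D \ A := by
    rw [hx]
    exact Finset.mem_singleton_self x
  obtain ⟨hxD1, hxA⟩ := Finset.mem_sdiff.1 hxD
  refine ⟨x, hxD1, Finset.eq_of_subset_of_card_le ?_ ?_⟩
  · intro y hy
    refine Finset.mem_erase.2 ⟨?_, h hy⟩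
    rintro rfl
    exact hxA hy
  · rw [Finset.card_erase_of_mem hxD1]
    omega

private theorem lv_mem {n k : ℕ} {A : Finset (Fin n)} : A ∈ Lv n k ↔ A.card = k := by
  unfold Lv
  simp

private theorem vp_mem {n k : ℕ} {A : Finset (Fin n)} :
    A ∈ Vp n k ↔ A.card = k + 1 ∧ ¬ Rsv n A := by
  classical
  unfold Vp
  rw [Finset.mem_filter, lv_mem]

open Classical in
private noncomputable def WP (n k : ℕ) (W : Finset (Finset (Fin n))) : Finset (Finset (Fin n)) :=
  W ∪ (RR n k).filter (fun D => (QQ W D).card ≤ (PP W D).card)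

private theorem cutF_WP {n k : ℕ} (W : Finset (Finset (Fin n))) (hW : W ⊆ Lv n k ∪ Vp n k) :
    (cutF n k (WP n k W)).card ≤ (cutU n k W).card + (cutV n k W).card +
      ∑ D ∈ RR n k, min (PP W D).card (QQ W D).card := by
  classical
  have hsub : cutF n k (WP n k W) ⊆ (cutU n k W ∪ cutV n k W) ∪
      (RR n k).biUnion (fun D => (if (QQ W D).card ≤ (PP W D).card then QQ W D else PP W D).image
        (fun x => (D.erase x, D))) := by
    intro e he
    unfold cutF at he
    rw [Finset.mem_filter] at he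
    obtain ⟨-, hc1, hc2, hs, hne⟩ := he
    have hlow : e.1 ∈ WP n k W ↔ e.1 ∈ W := by
      unfold WP
      rw [Finset.mem_union, Finset.mem_filter]
      constructor
      · rintro (h | ⟨h, -⟩)
        · exact h
        · have := (mem_RR.1 h).1
          omega
      · exact Or.inl
    by_cases hr : Rsv n e.2
    · have hR : e.2 ∈ RR n k := mem_RR.2 ⟨hc2, hr⟩
      have hnW : e.2 ∉ W := by
        intro h
        rcases Finset.mem_union.1 (hW h) with h1 | h1
        · have := lv_mem.1 h1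
          omega
        · exact (vp_mem.1 h1).2 hr
      have hup : e.2 ∈ WP n k W ↔ (QQ W e.2).card ≤ (PP W e.2).card := by
        unfold WP
        rw [Finset.mem_union, Finset.mem_filter]
        tauto
      obtain ⟨x, hx, hxe⟩ := er_of_cov hs (by omega)
      refine Finset.mem_union_right _ (Finset.mem_biUnion.2 ⟨e.2, hR, Finset.mem_image.2 ⟨x, ?_, ?_⟩⟩)
      · rw [hlow, hup] at hne
        split_ifs with hq
        · refine Finset.mem_filter.2 ⟨hx, ?_⟩
          rw [← hxe]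
          tauto
        · refine Finset.mem_filter.2 ⟨hx, ?_⟩
          rw [← hxe]
          tauto
      · exact Prod.ext hxe.symm rfl
    · have hup : e.2 ∈ WP n k W ↔ e.2 ∈ W := by
        unfold WP
        rw [Finset.mem_union, Finset.mem_filter]
        constructor
        · rintro (h | ⟨h, -⟩)
          · exact h
          · exact absurd (mem_RR.1 h).2 hr
        · exact Or.inl
      refine Finset.mem_union_left _ (mem_C.2 ⟨⟨hc1, hc2, hs, hr⟩, ?_⟩)
      rw [← hlow, ← hup]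
      exact hne
  refine (Finset.card_le_card hsub).trans ((Finset.card_union_le _ _).trans
    (add_le_add (Finset.card_union_le _ _) (Finset.card_biUnion_le.trans
      (Finset.sum_le_sum fun D _ => Finset.card_image_le.trans ?_))))
  split_ifs with hq
  · exact le_min hq le_rfl
  · exact le_min le_rfl (not_le.1 hq).le

theorem isoR {n k : ℕ} (h : LevOk n k) (W : Finset (Finset (Fin n))) (hW : Small n k W) :
    W.card ≤ 30 * ((cutU n k W).card + (cutV n k W).card) := by
  classical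
  obtain ⟨hW1, hW2⟩ := hW
  have h1 := sum_min h W
  have h2 := cutF_WP W hW1
  have hVp : Vp n k ⊆ Lv n (k + 1) := fun A hA => lv_mem.2 (vp_mem.1 hA).1
  have hRR : RR n k ⊆ Lv n (k + 1) := fun A hA => lv_mem.2 (mem_RR.1 hA).1
  have hsub : WP n k W ⊆ Lv n k ∪ Lv n (k + 1) := by
    unfold WP
    refine Finset.union_subset (hW1.trans (Finset.union_subset_union le_rfl hVp)) ?_
    exact (Finset.filter_subset _ _).trans (hRR.trans Finset.subset_union_right)
  have hc : (WP n k W).card ≤ W.card + (RR n k).card := by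
    unfold WP
    exact (Finset.card_union_le _ _).trans
      (add_le_add le_rfl (Finset.card_le_card (Finset.filter_subset _ _)))
  have hr : (RR n k).card * (k + 1) ≤ (Lv n k).card := rsv_card n k
  have hk : 450 ≤ k + 1 := by
    have := h.h0
    have := h.h2
    omega
  have hr2 : (RR n k).card * 450 ≤ (RR n k).card * (k + 1) := Nat.mul_le_mul_left _ hk
  have hv := Finset.card_le_card hVp
  have h3 := isoG h (WP n k W) hsub (by omega)
  have h4 : W.card ≤ (WP n k W).card := by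
    unfold WP
    exact Finset.card_le_card Finset.subset_union_left
  omega

end Pool.Agent.SKA
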