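import Pool.Agent.SKA.Load
import Pool.Agent.OrthoChains.PermCount

set_option autoImplicit false

/-!
# SKA Johnson (package, 1.0 h): spectral gap of the Johnson graph (lossy form)

Proof. Take `load` from `exists_load`. For a permutation `π` of `Fin n` let `πS` be the image of
`S` under `A ↦ A.map π.toEmbedding`; `πS ⊆ Lv n k`, `|πS| = |S|`, `|Lv n k \ πS| = |Lv n k \ S|`.
By `exists_load`: `|S||Lv \ S| ≤ ∑_{p ∈ Sw, p.1 ∈ πS, p.2 ∉ πS} load p`, and the sum is the sum of
`load (πC, πC')` over the pairs `(C, C') ∈ Sw` with `C ∈ S`, `C' ∉ S`; let `J` be their number.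
Sum over all `n!` permutations; for `(C, C') ∈ Sw` and `p ∈ Sw` the number of `π` with
`(πC, πC') = p` is `(k-1)! 1! 1! (n-k-1)!` (`Pool.Agent.OrthoChains.perm_pair_count`, `j = 1`). So
`n! |S||Lv \ S| ≤ J (k-1)! (n-k-1)! ∑ load`, and with (2) of `exists_load`
`2 n! |S||Lv \ S| ≤ J (k-1)! (n-k-1)! n |Lv|^2`. Finally `n! = |Lv| k! (n-k)!`
(`|Lv n k| = n.choose k`, `Nat.choose_mul_factorial_mul_factorial`), `k! = k (k-1)!`,
`(n-k)! = (n-k)(n-k-1)!`; cancel the positive factor `|Lv| (k-1)! (n-k-1)!`.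
-/

open Finset

namespace Pool.Agent.SKA

private theorem mem_Sw {n k : ℕ} {C C' : Finset (Fin n)} :
    (C, C') ∈ Sw n k ↔ C.card = k ∧ C'.card = k ∧ (C \ C').card = 1 := by
  unfold Sw Lv
  simp [and_assoc]

private theorem map_surj {n : ℕ} (π : Equiv.Perm (Fin n)) (A : Finset (Fin n)) :
    ∃ C : Finset (Fin n), C.map π.toEmbedding = A := by
  refine ⟨A.map π.symm.toEmbedding, ?_⟩
  rw [Finset.map_map]
  ext x
  simp

private theorem map_Sw {n k : ℕ} (π : Equiv.Perm (Fin n)) {C C' : Finset (Fin n)} :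
    (C.map π.toEmbedding, C'.map π.toEmbedding) ∈ Sw n k ↔ (C, C') ∈ Sw n k := by
  rw [mem_Sw, mem_Sw, Finset.card_map, Finset.card_map, ← Finset.map_sdiff, Finset.card_map]

private theorem card_Lv (n k : ℕ) : (Lv n k).card = n.choose k := by
  unfold Lv
  have h : (Finset.univ.filter fun A : Finset (Fin n) => A.card = k) =
      Finset.powersetCard k Finset.univ := by
    ext A
    simp [Finset.mem_powersetCard]
  rw [h, Finset.card_powersetCard, Finset.card_univ, Fintype.card_fin]

theorem johnson {n k : ℕ} (hk0 : 0 < k) (hkn : k < n) (S : Finset (Finset (Fin n)))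
    (hS : S ⊆ Lv n k) :
    2 * k * (n - k) * (S.card * (Lv n k \ S).card) ≤
      n * (Lv n k).card * ((Sw n k).filter (fun p => p.1 ∈ S ∧ p.2 ∉ S)).card := by
  classical
  obtain ⟨load, hl1, hl2⟩ := exists_load n k
  obtain ⟨J, hJ⟩ : ∃ J : Finset (Edg n), J =
      (Sw n k).filter (fun p => p.1 ∈ S ∧ p.2 ∉ S) := ⟨_, rfl⟩
  rw [← hJ]
  -- one permutation
  have h1 : ∀ π : Equiv.Perm (Fin n), S.card * (Lv n k \ S).card ≤
      ∑ q ∈ J, load (q.1.map π.toEmbedding, q.2.map π.toEmbedding) := by
    intro π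
    let E : Finset (Fin n) ↪ Finset (Fin n) :=
      ⟨fun A => A.map π.toEmbedding, Finset.map_injective _⟩
    have hE : ∀ A, E A = A.map π.toEmbedding := fun _ => rfl
    have hT : S.map E ⊆ Lv n k := by
      intro A hA
      obtain ⟨C, hC, rfl⟩ := Finset.mem_map.1 hA
      refine Finset.mem_filter.2 ⟨Finset.mem_univ _, ?_⟩
      rw [hE, Finset.card_map]
      exact (Finset.mem_filter.1 (hS hC)).2
    have h2 := hl1 (S.map E) hT
    rw [Finset.card_sdiff_of_subset hT, Finset.card_map, ← Finset.card_sdiff_of_subset hS] at h2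
    have h3 : (Sw n k).filter (fun p => p.1 ∈ S.map E ∧ p.2 ∉ S.map E) =
        J.map (E.prodMap E) := by
      ext ⟨A, A'⟩
      obtain ⟨C, rfl⟩ := map_surj π A
      obtain ⟨C', rfl⟩ := map_surj π A'
      have e1 : ((C.map π.toEmbedding, C'.map π.toEmbedding) : Edg n) =
        (E.prodMap E) (C, C') := rfl
      have e2 : (C.map π.toEmbedding ∈ S.map E) = (E C ∈ S.map E) := rfl
      have e3 : (C'.map π.toEmbedding ∈ S.map E) = (E C' ∈ S.map E) := rfl
      rw [Finset.mem_filter, map_Sw]
      simp only [e2, e3]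
      rw [e1, Finset.mem_map', Finset.mem_map', Finset.mem_map', hJ, Finset.mem_filter]
    rw [h3, Finset.sum_map] at h2
    exact h2
  have h4 : ∀ q ∈ J, ∑ π : Equiv.Perm (Fin n),
      load (q.1.map π.toEmbedding, q.2.map π.toEmbedding) =
      ((k - 1).factorial * (n - k - 1).factorial) * ∑ p ∈ Sw n k, load p := by
    rintro ⟨C, C'⟩ hq
    have hq' : (C, C') ∈ Sw n k := by
      rw [hJ] at hq
      exact (Finset.mem_filter.1 hq).1
    have hC := mem_Sw.1 hq'
    rw [← Finset.sum_fiberwise_of_maps_to (s := Finset.univ) (t := Sw n k)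
      (g := fun π : Equiv.Perm (Fin n) => (C.map π.toEmbedding, C'.map π.toEmbedding))
      (fun π _ => (map_Sw π).2 hq'), Finset.mul_sum]
    refine Finset.sum_congr rfl fun p hp => ?_
    obtain ⟨A, A'⟩ := p
    have hA := mem_Sw.1 hp
    have e1 : ∑ π ∈ (Finset.univ : Finset (Equiv.Perm (Fin n))).filter (fun π =>
        ((C.map π.toEmbedding, C'.map π.toEmbedding) : Edg n) = (A, A')),
        load (C.map π.toEmbedding, C'.map π.toEmbedding) =
        ∑ π ∈ (Finset.univ : Finset (Equiv.Perm (Fin n))).filter (fun π =>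
        C.map π.toEmbedding = A ∧ C'.map π.toEmbedding = A'), load (A, A') := by
      have e2 : (Finset.univ : Finset (Equiv.Perm (Fin n))).filter (fun π =>
          ((C.map π.toEmbedding, C'.map π.toEmbedding) : Edg n) = (A, A')) =
          (Finset.univ : Finset (Equiv.Perm (Fin n))).filter (fun π =>
          C.map π.toEmbedding = A ∧ C'.map π.toEmbedding = A') := by
        ext π
        simp [Prod.ext_iff]
      rw [e2]
      refine Finset.sum_congr rfl fun π hπ => ?_
      obtain ⟨-, h5, h6⟩ := Finset.mem_filter.1 hπ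
      rw [h5, h6]
    refine e1.trans ?_
    rw [Finset.sum_const, Pool.Agent.OrthoChains.perm_pair_count C C' A A' hC.1 hC.2.1 hA.1
      hA.2.1 hC.2.2 hA.2.2, smul_eq_mul, Nat.factorial_one, mul_one, mul_one]
  have h5 : n.factorial * (S.card * (Lv n k \ S).card) ≤
      J.card * (((k - 1).factorial * (n - k - 1).factorial) * ∑ p ∈ Sw n k, load p) := by
    have h6 := Finset.sum_le_sum fun (π : Equiv.Perm (Fin n)) (_ : π ∈ Finset.univ) => h1 π
    rw [Finset.sum_const, Finset.card_univ, Fintype.card_perm, Fintype.card_fin, smul_eq_mul,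
      Finset.sum_comm, Finset.sum_congr rfl h4, Finset.sum_const, smul_eq_mul] at h6
    exact h6
  have hc : 0 < (k - 1).factorial * (n - k - 1).factorial :=
    Nat.mul_pos (Nat.factorial_pos _) (Nat.factorial_pos _)
  have hL : 0 < (Lv n k).card := by
    rw [card_Lv]
    exact Nat.choose_pos hkn.le
  have hn : n.factorial = (Lv n k).card * (k * (k - 1).factorial) *
      ((n - k) * (n - k - 1).factorial) := by
    rw [card_Lv, Nat.mul_factorial_pred hk0.ne', Nat.mul_factorial_pred (Nat.sub_pos_of_lt hkn).ne',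
      Nat.choose_mul_factorial_mul_factorial hkn.le]
  refine Nat.le_of_mul_le_mul_left ?_ (Nat.mul_pos hL hc)
  calc (Lv n k).card * ((k - 1).factorial * (n - k - 1).factorial) *
        (2 * k * (n - k) * (S.card * (Lv n k \ S).card))
      = 2 * (n.factorial * (S.card * (Lv n k \ S).card)) := by
        rw [hn]
        ring
    _ ≤ 2 * (J.card * (((k - 1).factorial * (n - k - 1).factorial) *
        ∑ p ∈ Sw n k, load p)) := Nat.mul_le_mul_left 2 h5
    _ = J.card * ((k - 1).factorial * (n - k - 1).factorial) *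
        (2 * ∑ p ∈ Sw n k, load p) := by ring
    _ ≤ J.card * ((k - 1).factorial * (n - k - 1).factorial) * (n * (Lv n k).card ^ 2) :=
        Nat.mul_le_mul_left _ hl2
    _ = (Lv n k).card * ((k - 1).factorial * (n - k - 1).factorial) *
        (n * (Lv n k).card * J.card) := by ring

end Pool.Agent.SKA
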