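import Mathlib

set_option autoImplicit false

/-!
# SKA Konig (package, 0.8 h): a regular matrix of natural numbers is a sum of permutation matrices

Proof. Induction on `ℓ`. `ℓ = 0`: all entries are `0`; the empty family. `ℓ + 1`: there is a
permutation `σ` with `N i (σ i) ≥ 1` for all `i`:
Hall (`Finset.all_card_le_biUnion_card_iff_exists_injective` with `t i = {j : N i j ≠ 0}`): for a
set `A` of rows
`(ℓ+1)|A| = ∑_{i ∈ A} ∑_j N i j = ∑_{j ∈ ∪ t} ∑_{i ∈ A} N i j ≤ (ℓ+1)|∪ t|`. The injective function
on the finite type `ι` is a permutation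
(`Equiv.ofBijective`, `Finite.injective_iff_bijective`). Apply the induction hypothesis to
`N' i j = N i j - (if σ i = j then 1 else 0)`, whose row and column sums are `ℓ`, and add
`σ` with `Fin.cons`/`Fin.snoc`.
-/

open Finset

namespace Pool.Agent.SKA

variable {ι : Type} [Fintype ι] [DecidableEq ι]

theorem exists_perms (ℓ : ℕ) (N : ι → ι → ℕ) (hr : ∀ i, ∑ j, N i j = ℓ) (hc : ∀ j, ∑ i, N i j = ℓ) :
    ∃ σ : Fin ℓ → Equiv.Perm ι, ∀ i j, N i j = (univ.filter (fun s => σ s i = j)).card := by
  induction ℓ generalizing N with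
  | zero =>
    refine ⟨fun s => s.elim0, fun i j => ?_⟩
    have h1 : N i j ≤ 0 := by
      rw [← hr i]
      exact single_le_sum (f := fun j => N i j) (fun _ _ => Nat.zero_le _) (mem_univ j)
    have h2 : N i j = 0 := by omega
    rw [h2]
    simp
  | succ ℓ ih =>
    let t : ι → Finset ι := fun i => univ.filter (fun j => N i j ≠ 0)
    have hall : ∀ A : Finset ι, A.card ≤ (A.biUnion t).card := by
      intro A
      have h1 : A.card * (ℓ + 1) ≤ (A.biUnion t).card * (ℓ + 1) := by
        calc A.card * (ℓ + 1) = ∑ i ∈ A, ∑ j, N i j := by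
              rw [sum_congr rfl fun i _ => hr i, sum_const, smul_eq_mul]
          _ = ∑ i ∈ A, ∑ j ∈ A.biUnion t, N i j := by
              refine sum_congr rfl fun i hi => (sum_subset (subset_univ _) fun j _ hj => ?_).symm
              by_contra hne
              exact hj (mem_biUnion.2 ⟨i, hi, mem_filter.2 ⟨mem_univ _, hne⟩⟩)
          _ = ∑ j ∈ A.biUnion t, ∑ i ∈ A, N i j := sum_comm
          _ ≤ ∑ j ∈ A.biUnion t, ∑ i, N i j :=
              sum_le_sum fun j _ => sum_le_sum_of_subset (subset_univ _)
          _ = (A.biUnion t).card * (ℓ + 1) := by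
              rw [sum_congr rfl fun j _ => hc j, sum_const, smul_eq_mul]
      exact Nat.le_of_mul_le_mul_right h1 (Nat.succ_pos ℓ)
    obtain ⟨f, hf, hft⟩ := (Finset.all_card_le_biUnion_card_iff_exists_injective t).1 hall
    let p : Equiv.Perm ι := Equiv.ofBijective f (Finite.injective_iff_bijective.1 hf)
    have hp : ∀ i, N i (p i) ≠ 0 := fun i => (mem_filter.1 (hft i)).2
    have key : ∀ i j, (N i j - if p i = j then 1 else 0) + (if p i = j then 1 else 0) = N i j := by
      intro i j
      by_cases h : p i = j
      · have := hp i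
        rw [h] at this
        rw [if_pos h]
        omega
      · rw [if_neg h]
        omega
    have hr' : ∀ i, ∑ j, (N i j - if p i = j then 1 else 0) = ℓ := by
      intro i
      have h1 : ∑ j, ((N i j - if p i = j then 1 else 0) + (if p i = j then 1 else 0)) = ℓ + 1 := by
        rw [sum_congr rfl fun j _ => key i j, hr i]
      rw [sum_add_distrib, sum_ite_eq, if_pos (mem_univ _)] at h1
      omega
    have hc' : ∀ j, ∑ i, (N i j - if p i = j then 1 else 0) = ℓ := by
      intro j
      have h1 : ∑ i, ((N i j - if p i = j then 1 else 0) + (if p i = j then 1 else 0)) = ℓ + 1 := by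
        rw [sum_congr rfl fun i _ => key i j, hc j]
      have h2 : ∑ i, (if p i = j then 1 else 0) = 1 := by
        rw [Finset.sum_eq_single (p.symm j)]
        · simp
        · intro i _ hi
          rw [if_neg]
          rintro rfl
          simp at hi
        · intro h
          exact absurd (mem_univ _) h
      rw [sum_add_distrib, h2] at h1
      omega
    obtain ⟨σ, hσ⟩ := ih (fun i j => N i j - if p i = j then 1 else 0) hr' hc'
    refine ⟨Fin.cons p σ, fun i j => ?_⟩
    rw [card_filter, Fin.sum_univ_succ]
    have h3 := hσ i j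
    rw [card_filter] at h3
    simp only [Fin.cons_zero, Fin.cons_succ]
    rw [← h3, add_comm]
    exact (key i j).symm

end Pool.Agent.SKA
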