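import Pool.Agent.SKA.Indep

set_option autoImplicit false

/-!
# SKA LLL (package, 1.2 h): the asymmetric Lovasz local lemma (variable version)

Proof. Write `av T = {ω | ∀ j ∈ T, ω ∉ B j}` for a finite set `T` of indices, and `Γ j` for the set of
the `j' ≠ j` with `¬ Disjoint (vbl j) (vbl j')`.

CLAIM: for every finset `T` and every `j ∉ T`: `pr (B j ∩ av T) ≤ x j * pr (av T)`.
Strong induction on `|T|`. Put `T1 = T.filter (· ∈ Γ j)`, `T2 = T \ T1`.
(i) `pr (B j ∩ av T) ≤ pr (B j ∩ av T2) = pr (B j) * pr (av T2)`: `av T2` has the support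
`T2.biUnion vbl` (`supp_biInter` for the complements), which is disjoint from `vbl j`, since for `j' ∈ T2`:
`j' ≠ j` (as `j ∉ T`), so `Disjoint (vbl j) (vbl j')`; now `pr_inter`.
(ii) for every `S ⊆ T1`: `(∏ t ∈ S, (1 - x t)) * pr (av T2) ≤ pr (av (T2 ∪ S))`: induction on `S`
(`Finset.induction_on`): for `S' = insert t S ⊆ T1`, `t ∉ S`: `av (T2 ∪ S') = av (T2 ∪ S) \ B t`, so
`pr (av (T2 ∪ S')) = pr (av (T2 ∪ S)) - pr (B t ∩ av (T2 ∪ S)) ≥ (1 - x t) pr (av (T2 ∪ S))` by the claim for
the smaller set `T2 ∪ S` (it does not contain `t ∈ T`, so it has fewer elements than `T`) (use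
`pr_inter_add_diff`), and `1 - x t ≥ 0`.
(iii) with `S = T1`: `pr (B j) pr (av T2) ≤ x j (∏_{Γ j} (1 - x)) pr (av T2) ≤ x j (∏_{T1} (1 - x)) pr (av T2)
≤ x j pr (av T)` (the factors `1 - x` are in `[0,1]` and `T1 ⊆ Γ j`:
`Finset.prod_le_prod_of_subset_of_le_one'`-type lemma, or `Finset.prod_sdiff` and `Finset.prod_le_one`).

Conclusion: by induction on `T` (`Finset.induction_on`): `pr (av T) ≥ ∏_{t ∈ T} (1 - x t) > 0`, with
`pr (av ∅) = pr univ = 1` (`pr_univ`). For `T = univ` there is a colouring avoiding all events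
(`exists_of_pr_pos`).
-/

open Finset

namespace Pool.Agent.SKA

variable {I : Type} [Fintype I] [DecidableEq I] {M : ℕ}

/-- all events of `T` are avoided -/
private def av {J : Type} (B : J → Set (I → Fin M)) (T : Finset J) : Set (I → Fin M) :=
  {ω | ∀ j ∈ T, ω ∉ B j}

private theorem av_supp {J : Type} {vbl : J → Finset I} {B : J → Set (I → Fin M)}
    (hs : ∀ j, Supp (B j) (vbl j)) (T : Finset J) : Supp (av B T) (T.biUnion vbl) :=
  supp_biInter T (fun j => (B j)ᶜ) vbl (fun j _ => supp_compl (hs j))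

open Classical in
private theorem av_insert {J : Type} (B : J → Set (I → Fin M)) (T : Finset J) (t : J) :
    av B (insert t T) = av B T \ B t := by
  ext ω
  constructor
  · intro h
    exact ⟨fun i hi => h i (Finset.mem_insert_of_mem hi), h t (Finset.mem_insert_self t T)⟩
  · rintro ⟨h, h'⟩ i hi
    rcases Finset.mem_insert.1 hi with rfl | hi
    · exact h'
    · exact h i hi

open Classical in
private theorem lll_claim {J : Type} [Fintype J] (hM : 0 < M) (vbl : J → Finset I)
    (B : J → Set (I → Fin M)) (hs : ∀ j, Supp (B j) (vbl j)) (x : J → ℝ) (hx0 : ∀ j, 0 ≤ x j)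
    (hx1 : ∀ j, x j < 1)
    (hP : ∀ j, pr (B j) ≤ x j *
      ∏ j' ∈ univ.filter (fun j' => j' ≠ j ∧ ¬ Disjoint (vbl j) (vbl j')), (1 - x j')) :
    ∀ (n : ℕ) (T : Finset J), T.card = n → ∀ j, j ∉ T →
      pr (B j ∩ av B T) ≤ x j * pr (av B T) := by
  intro n
  induction n using Nat.strong_induction_on with
  | _ n ih =>
    intro T hT j hj
    obtain ⟨T1, hT1⟩ : ∃ T1, T1 = T.filter (fun t => ¬ Disjoint (vbl j) (vbl t)) := ⟨_, rfl⟩
    obtain ⟨T2, hT2⟩ : ∃ T2, T2 = T.filter (fun t => Disjoint (vbl j) (vbl t)) := ⟨_, rfl⟩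
    have m1 : ∀ t, t ∈ T1 ↔ t ∈ T ∧ ¬ Disjoint (vbl j) (vbl t) := by
      intro t
      rw [hT1, Finset.mem_filter]
    have m2 : ∀ t, t ∈ T2 ↔ t ∈ T ∧ Disjoint (vbl j) (vbl t) := by
      intro t
      rw [hT2, Finset.mem_filter]
    have h1 : pr (B j ∩ av B T) ≤ pr (B j) * pr (av B T2) := by
      rw [← pr_inter hM (hs j) (av_supp hs T2)]
      · exact pr_mono (Set.inter_subset_inter_right _ (fun ω hω t ht => hω t ((m2 t).1 ht).1))
      · rw [Finset.disjoint_biUnion_right]
        intro t ht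
        exact ((m2 t).1 ht).2
    have h2 : ∀ S : Finset J, S ⊆ T1 →
        (∏ t ∈ S, (1 - x t)) * pr (av B T2) ≤ pr (av B (T2 ∪ S)) := by
      intro S
      induction S using Finset.induction_on with
      | empty =>
        intro _
        rw [Finset.prod_empty, one_mul, Finset.union_empty]
      | insert t S htS ihS =>
        intro hS
        have hS' : S ⊆ T1 := (Finset.subset_insert t S).trans hS
        have ht1 := (m1 t).1 (hS (Finset.mem_insert_self t S))
        have htn : t ∉ T2 ∪ S := by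
          rw [Finset.mem_union, not_or]
          exact ⟨fun h => ht1.2 ((m2 t).1 h).2, htS⟩
        have hsub : T2 ∪ S ⊆ T := by
          intro i hi
          rcases Finset.mem_union.1 hi with h | h
          · exact ((m2 i).1 h).1
          · exact ((m1 i).1 (hS' h)).1
        have hlt : (T2 ∪ S).card < n := by
          rw [← hT]
          exact Finset.card_lt_card ⟨hsub, fun h => htn (h ht1.1)⟩
        have h3 := ih _ hlt (T2 ∪ S) rfl t htn
        have h4 := pr_inter_add_diff (B t) (av B (T2 ∪ S))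
        rw [Set.inter_comm] at h4
        have h6 := ihS hS'
        have h7 : 0 ≤ 1 - x t := by linarith [hx1 t]
        rw [Finset.union_insert, av_insert, Finset.prod_insert htS, mul_assoc]
        have h8 := mul_le_mul_of_nonneg_left h6 h7
        linarith
    have h3 : T2 ∪ T1 = T := by
      ext i
      rw [Finset.mem_union, m1, m2]
      tauto
    have h4 := h2 T1 (Finset.Subset.refl T1)
    rw [h3] at h4
    have h5 : ∏ j' ∈ univ.filter (fun j' => j' ≠ j ∧ ¬ Disjoint (vbl j) (vbl j')), (1 - x j') ≤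
        ∏ t ∈ T1, (1 - x t) := by
      have hsub : T1 ⊆ univ.filter (fun j' => j' ≠ j ∧ ¬ Disjoint (vbl j) (vbl j')) := by
        intro t ht
        have ht' := (m1 t).1 ht
        rw [Finset.mem_filter]
        exact ⟨Finset.mem_univ t, fun h => hj (h ▸ ht'.1), ht'.2⟩
      rw [← Finset.prod_sdiff hsub]
      refine mul_le_of_le_one_left (Finset.prod_nonneg fun t _ => by linarith [hx1 t]) ?_
      exact Finset.prod_le_one (fun t _ => by linarith [hx1 t]) (fun t _ => by linarith [hx0 t])
    calc pr (B j ∩ av B T) ≤ pr (B j) * pr (av B T2) := h1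
      _ ≤ (x j * ∏ t ∈ T1, (1 - x t)) * pr (av B T2) := by
          refine mul_le_mul_of_nonneg_right ?_ (pr_nonneg _)
          exact (hP j).trans (mul_le_mul_of_nonneg_left h5 (hx0 j))
      _ = x j * ((∏ t ∈ T1, (1 - x t)) * pr (av B T2)) := by ring
      _ ≤ x j * pr (av B T) := mul_le_mul_of_nonneg_left h4 (hx0 j)

open Classical in
theorem lll {J : Type} [Fintype J] (hM : 0 < M) (vbl : J → Finset I) (B : J → Set (I → Fin M))
    (hs : ∀ j, Supp (B j) (vbl j)) (x : J → ℝ) (hx0 : ∀ j, 0 ≤ x j) (hx1 : ∀ j, x j < 1)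
    (hP : ∀ j, pr (B j) ≤ x j *
      ∏ j' ∈ univ.filter (fun j' => j' ≠ j ∧ ¬ Disjoint (vbl j) (vbl j')), (1 - x j')) :
    ∃ ω : I → Fin M, ∀ j, ω ∉ B j := by
  have key : ∀ T : Finset J, ∏ t ∈ T, (1 - x t) ≤ pr (av B T) := by
    intro T
    induction T using Finset.induction_on with
    | empty =>
      have h1 : av B (∅ : Finset J) = Set.univ := by
        ext ω
        simp [av]
      rw [Finset.prod_empty, h1, pr_univ hM]
    | insert t T ht ih =>
      have h3 := lll_claim hM vbl B hs x hx0 hx1 hP _ T rfl t ht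
      have h4 := pr_inter_add_diff (B t) (av B T)
      rw [Set.inter_comm] at h4
      have h7 : 0 ≤ 1 - x t := by linarith [hx1 t]
      have h8 := mul_le_mul_of_nonneg_left ih h7
      rw [av_insert, Finset.prod_insert ht]
      linarith
  have h1 : 0 < pr (av B (univ : Finset J)) :=
    lt_of_lt_of_le (Finset.prod_pos fun t _ => by linarith [hx1 t]) (key univ)
  obtain ⟨ω, hω⟩ := exists_of_pr_pos h1
  exact ⟨ω, fun j => hω j (Finset.mem_univ j)⟩

end Pool.Agent.SKA
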