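import Pool.Agent.SKA.DefJ

set_option autoImplicit false

/-!
# SKA Load (package, 1.0 h): paths between all pairs of `k`-sets and their loads

Proof. For `A, A'` of size `k` with `|A \ A'| = d` there is a finset `Pt(A,A') ⊆ Sw n k` with at most `d` elements, such that for every set
`T` of sets with `A ∈ T`, `A' ∉ T` there is `(X,Y) ∈ Pt(A,A')` with `X ∈ T`, `Y ∉ T`. Induction on `d`: `d = 0`: `A = A'` (equal cardinality), the empty
set works vacuously. `d+1`: choose `a ∈ A \ A'`, `c ∈ A' \ A` (`|A' \ A| = |A \ A'|`), `A1 = (A.erase a) ∪ {c}`: `|A1| = k`, `|A \ A1| = 1`,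
`|A1 \ A'| = d`; `Pt(A,A') = {(A,A1)} ∪ Pt(A1,A')` (if `A1 ∉ T` the first pair is the crossing, otherwise use the second part).
`load p = |{(A,A') ∈ Lv n k × Lv n k : p ∈ Pt(A,A')}|`.
(1) For `T ⊆ Lv n k`: every pair in `T × (Lv n k \ T)` has a crossing pair in `Pt`; so `|T||Lv n k \ T| ≤ ∑_{p ∈ Sw, p.1 ∈ T, p.2 ∉ T} load p`
(double counting of `((A,A'), p)`).
(2) `∑_p load p ≤ ∑_{(A,A')} |A \ A'|`, and `2 |A \ A'| ≤ n`, because `A \ A'` and `A' \ A` are disjoint subsets of `Fin n` of the same size.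
-/

open Finset

namespace Pool.Agent.SKA

private theorem load_mem_Lv {n k : ℕ} {A : Finset (Fin n)} : A ∈ Lv n k ↔ A.card = k := by
  unfold Lv
  rw [mem_filter]
  exact ⟨fun h => h.2, fun h => ⟨mem_univ _, h⟩⟩

private theorem load_path (n k : ℕ) : ∀ d, ∀ A A' : Finset (Fin n), A ∈ Lv n k → A' ∈ Lv n k →
    (A \ A').card = d → ∃ P ⊆ Sw n k, P.card ≤ d ∧
      ∀ T : Finset (Finset (Fin n)), A ∈ T → A' ∉ T → ∃ p ∈ P, p.1 ∈ T ∧ p.2 ∉ T := by
  intro d
  induction d with
  | zero =>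
    intro A A' hA hA' hd
    have h1 : A ⊆ A' := sdiff_eq_empty_iff_subset.1 (card_eq_zero.1 hd)
    have h2 : A = A' := eq_of_subset_of_card_le h1 (by
      rw [load_mem_Lv.1 hA, load_mem_Lv.1 hA'])
    refine ⟨∅, empty_subset _, by simp, fun T h3 h4 => ?_⟩
    rw [h2] at h3
    exact absurd h3 h4
  | succ d ih =>
    intro A A' hA hA' hd
    have hAk := load_mem_Lv.1 hA
    have hAk' := load_mem_Lv.1 hA'
    obtain ⟨a, ha⟩ : (A \ A').Nonempty := card_pos.1 (by rw [hd]; exact Nat.succ_pos d)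
    have hcomm : (A \ A').card = (A' \ A).card := card_sdiff_comm (by rw [hAk, hAk'])
    obtain ⟨c, hc⟩ : (A' \ A).Nonempty := card_pos.1 (by rw [← hcomm, hd]; exact Nat.succ_pos d)
    rw [mem_sdiff] at ha hc
    have hne : c ≠ a := fun h => hc.2 (h ▸ ha.1)
    have hc1 : c ∉ A.erase a := fun h => hc.2 (mem_of_mem_erase h)
    have hkpos : 0 < A.card := card_pos.2 ⟨a, ha.1⟩
    have hA1 : (insert c (A.erase a)).card = k := by
      rw [card_insert_of_notMem hc1, card_erase_of_mem ha.1]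
      omega
    have hs1 : A \ insert c (A.erase a) = {a} := by
      ext x
      rw [mem_sdiff, mem_insert, mem_erase, mem_singleton]
      constructor
      · rintro ⟨h1, h2⟩
        by_contra h3
        exact h2 (Or.inr ⟨h3, h1⟩)
      · rintro rfl
        refine ⟨ha.1, ?_⟩
        rintro (h1 | h1)
        · exact hne h1.symm
        · exact h1.1 rfl
    have hs2 : insert c (A.erase a) \ A' = (A \ A').erase a := by
      ext x
      rw [mem_sdiff, mem_insert, mem_erase, mem_erase, mem_sdiff]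
      constructor
      · rintro ⟨h1 | h1, h2⟩
        · rw [h1] at h2
          exact absurd hc.1 h2
        · exact ⟨h1.1, h1.2, h2⟩
      · rintro ⟨h1, h2, h3⟩
        exact ⟨Or.inr ⟨h1, h2⟩, h3⟩
    have hd1 : (insert c (A.erase a) \ A').card = d := by
      rw [hs2, card_erase_of_mem (mem_sdiff.2 ha), hd]
      rfl
    obtain ⟨P, hP, hPc, hPT⟩ := ih _ A' (load_mem_Lv.2 hA1) hA' hd1
    refine ⟨insert (A, insert c (A.erase a)) P, ?_, ?_, ?_⟩
    · refine insert_subset ?_ hP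
      unfold Sw
      rw [mem_filter, mem_product]
      refine ⟨⟨hA, load_mem_Lv.2 hA1⟩, ?_⟩
      change (A \ insert c (A.erase a)).card = 1
      rw [hs1, card_singleton]
    · exact (card_insert_le _ _).trans (Nat.succ_le_succ hPc)
    · intro T h1 h2
      by_cases h3 : insert c (A.erase a) ∈ T
      · obtain ⟨p, hp, hp1⟩ := hPT T h3 h2
        exact ⟨p, mem_insert_of_mem hp, hp1⟩
      · exact ⟨_, mem_insert_self _ _, h1, h3⟩

private theorem load_half {n : ℕ} {A A' : Finset (Fin n)} (h : A.card = A'.card) :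
    2 * (A \ A').card ≤ n := by
  have h1 : (A \ A').card = (A' \ A).card := card_sdiff_comm h
  have h2 : Disjoint (A \ A') (A' \ A) := by
    rw [disjoint_left]
    intro x hx hx'
    exact (mem_sdiff.1 hx).2 (mem_sdiff.1 hx').1
  have h3 := card_union_of_disjoint h2
  have h4 : ((A \ A') ∪ (A' \ A)).card ≤ n := by
    have h5 := card_le_univ ((A \ A') ∪ (A' \ A))
    rwa [Fintype.card_fin] at h5
  omega

theorem exists_load (n k : ℕ) : ∃ load : Edg n → ℕ,
    (∀ T ⊆ Lv n k, T.card * (Lv n k \ T).card ≤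
      ∑ p ∈ (Sw n k).filter (fun p => p.1 ∈ T ∧ p.2 ∉ T), load p) ∧
    2 * ∑ p ∈ Sw n k, load p ≤ n * (Lv n k).card ^ 2 := by
  classical
  have hex : ∀ p : Edg n, ∃ P : Finset (Edg n), p.1 ∈ Lv n k → p.2 ∈ Lv n k →
      P ⊆ Sw n k ∧ P.card ≤ (p.1 \ p.2).card ∧
      ∀ T : Finset (Finset (Fin n)), p.1 ∈ T → p.2 ∉ T → ∃ q ∈ P, q.1 ∈ T ∧ q.2 ∉ T := by
    intro p
    by_cases h1 : p.1 ∈ Lv n k
    · by_cases h2 : p.2 ∈ Lv n k
      · obtain ⟨P, hP⟩ := load_path n k _ p.1 p.2 h1 h2 rfl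
        exact ⟨P, fun _ _ => hP⟩
      · exact ⟨∅, fun _ h => absurd h h2⟩
    · exact ⟨∅, fun h => absurd h h1⟩
  choose Pt hPt using hex
  refine ⟨fun q => ∑ p ∈ Lv n k ×ˢ Lv n k, if q ∈ Pt p then 1 else 0, fun T hT => ?_, ?_⟩
  · rw [sum_comm]
    calc T.card * (Lv n k \ T).card = ∑ p ∈ T ×ˢ (Lv n k \ T), 1 := by
          rw [sum_const, smul_eq_mul, mul_one, card_product]
      _ ≤ ∑ p ∈ T ×ˢ (Lv n k \ T), ∑ q ∈ (Sw n k).filter (fun p => p.1 ∈ T ∧ p.2 ∉ T),
            (if q ∈ Pt p then 1 else 0) := by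
          refine sum_le_sum fun p hp => ?_
          rw [mem_product, mem_sdiff] at hp
          obtain ⟨h1, h2, h3⟩ := hp
          obtain ⟨h4, -, h5⟩ := hPt p (hT h1) h2
          obtain ⟨q, hq, hq1, hq2⟩ := h5 T h1 h3
          have h6 : q ∈ (Sw n k).filter (fun p => p.1 ∈ T ∧ p.2 ∉ T) :=
            mem_filter.2 ⟨h4 hq, hq1, hq2⟩
          have h7 := single_le_sum (f := fun q => if q ∈ Pt p then 1 else 0)
            (fun _ _ => Nat.zero_le _) h6
          simp only [hq, if_true] at h7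
          exact h7
      _ ≤ _ := sum_le_sum_of_subset (product_subset_product hT sdiff_subset)
  · rw [sum_comm]
    calc 2 * ∑ p ∈ Lv n k ×ˢ Lv n k, ∑ q ∈ Sw n k, (if q ∈ Pt p then 1 else 0)
        = ∑ p ∈ Lv n k ×ˢ Lv n k, 2 * ∑ q ∈ Sw n k, (if q ∈ Pt p then 1 else 0) := mul_sum _ _ _
      _ ≤ ∑ p ∈ Lv n k ×ˢ Lv n k, n := by
          refine sum_le_sum fun p hp => ?_
          rw [mem_product] at hp
          obtain ⟨h1, h2⟩ := hp
          obtain ⟨-, h4, -⟩ := hPt p h1 h2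
          have h5 : (∑ q ∈ Sw n k, if q ∈ Pt p then 1 else 0) ≤ (Pt p).card := by
            rw [← card_filter]
            exact card_le_card fun q hq => (mem_filter.1 hq).2
          have h6 : 2 * (p.1 \ p.2).card ≤ n :=
            load_half (by rw [load_mem_Lv.1 h1, load_mem_Lv.1 h2])
          omega
      _ = n * (Lv n k).card ^ 2 := by
          rw [sum_const, card_product, smul_eq_mul]
          ring

end Pool.Agent.SKA
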