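import Pool.Agent.SKA.BMatch
import Pool.Agent.SKA.Konig

set_option autoImplicit false

/-!
# SKA MatchMany (package, 1.0 h): many disjoint saturating matchings

Proof. Take `K` from `exists_bmatch`. Let `ι = α' ⊕ β'` with `α' = {a // a ∈ U}`, and (to get a square matrix) rows indexed by `α' ⊕ β`, columns indexed by `β ⊕ α'`;
identify them by `Sum.swap` (so work with the type `ι = α' ⊕ β` and `N (x) (y)` where the column `y` is read through the swap). Matrix:
row `a`, column `b`: `1` if `K a b`, else `0`; row `a`, column `a'`: `0`; row `b`, column `b'`: `ℓ - deg b` if `b = b'` (`deg b = |{a : K a b}| ≤ ℓ`), else `0`;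
row `b`, column `a`: `1` if `K a b`, else `0`. Row `a`: `ℓ`. Row `b`: `(ℓ - deg b) + deg b = ℓ`. Column `b`: `deg b + (ℓ - deg b) = ℓ`. Column `a`: `ℓ`.
`exists_perms` gives `σ s` (`s < ℓ`). For `a ∈ U` the entry at `(a, σ s a)` is `≥ 1`, so `σ s a` is a column `b` with `K a b`; put `M s a = b` (and anything for `a ∉ U`; if
`β` is empty then `U` is empty or `ℓ = 0`, `β` is used only through these values: use a default obtained from an arbitrary element, or treat the case `β` empty
separately). `M s` is injective on `U` since `σ s` is. If `M s a = M s' a = b` with `s ≠ s'`, then the entry `(a,b)` would be `≥ 2`, but it is `≤ 1`.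
-/

open Finset

namespace Pool.Agent.SKA

variable {α β : Type} [Fintype α] [DecidableEq α] [Fintype β] [DecidableEq β]

open Classical in
theorem match_many [Nonempty β] (ℓ : ℕ) (U : Finset α) (E : α → β → Prop)
    (h : ∀ X ⊆ U, ∀ Y : Finset β, ℓ * X.card ≤ ℓ * Y.card +
      ((univ : Finset (α × β)).filter (fun e => e.1 ∈ X ∧ e.2 ∉ Y ∧ E e.1 e.2)).card) :
    ∃ M : Fin ℓ → α → β, (∀ s, ∀ a ∈ U, E a (M s a)) ∧ (∀ s, Set.InjOn (M s) U) ∧
      (∀ s s', s ≠ s' → ∀ a ∈ U, M s a ≠ M s' a) := by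
  obtain ⟨K, hK1, hK2, hK3⟩ := exists_bmatch ℓ U E h
  let N : ({a // a ∈ U} ⊕ β) → ({a // a ∈ U} ⊕ β) → ℕ := fun x y =>
    match x, y with
    | .inl _, .inl _ => 0
    | .inl a, .inr b => if K a.1 b then 1 else 0
    | .inr b, .inl a => if K a.1 b then 1 else 0
    | .inr b, .inr b' => if b = b' then ℓ - (univ.filter (fun a => K a b)).card else 0
  have hdeg : ∀ b, ∑ a : {a // a ∈ U}, (if K a.1 b then 1 else 0) =
      (univ.filter (fun a => K a b)).card := by
    intro b
    rw [card_filter]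
    have h1 : ∑ a, (if K a b then 1 else 0) = ∑ a ∈ U, (if K a b then 1 else 0) := by
      refine (sum_subset (subset_univ U) ?_).symm
      intro a _ ha
      rw [if_neg fun hk => ha (hK1 a b hk).1]
    rw [h1]
    exact sum_coe_sort U (fun a => if K a b then 1 else 0)
  have hrow : ∀ a : {a // a ∈ U}, ∑ b, (if K a.1 b then 1 else 0) = ℓ := by
    intro a
    rw [← card_filter]
    exact hK2 a.1 a.2
  obtain ⟨σ, hσ⟩ := exists_perms ℓ N (by
    rintro (a | b)
    · rw [Fintype.sum_sum_type]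
      change ∑ _a' : {a // a ∈ U}, 0 + ∑ b, (if K a.1 b then 1 else 0) = ℓ
      rw [hrow a, sum_const_zero, zero_add]
    · rw [Fintype.sum_sum_type]
      change ∑ a : {a // a ∈ U}, (if K a.1 b then 1 else 0) + ∑ b', (if b = b' then
        ℓ - (univ.filter (fun a => K a b)).card else 0) = ℓ
      rw [hdeg b, sum_ite_eq, if_pos (mem_univ b)]
      exact Nat.add_sub_cancel' (hK3 b)) (by
    rintro (a | b)
    · rw [Fintype.sum_sum_type]
      change ∑ _a' : {a // a ∈ U}, 0 + ∑ b, (if K a.1 b then 1 else 0) = ℓ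
      rw [hrow a, sum_const_zero, zero_add]
    · rw [Fintype.sum_sum_type]
      change ∑ a : {a // a ∈ U}, (if K a.1 b then 1 else 0) + ∑ b', (if b' = b then
        ℓ - (univ.filter (fun a => K a b')).card else 0) = ℓ
      rw [hdeg b, sum_ite_eq', if_pos (mem_univ b)]
      exact Nat.add_sub_cancel' (hK3 b))
  have key : ∀ (s : Fin ℓ) (a : {a // a ∈ U}), ∃ b, σ s (.inl a) = .inr b ∧ K a.1 b := by
    intro s a
    have h1 : 0 < N (.inl a) (σ s (.inl a)) := by
      rw [hσ]
      exact card_pos.2 ⟨s, mem_filter.2 ⟨mem_univ _, rfl⟩⟩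
    rcases hy : σ s (.inl a) with a' | b
    · rw [hy] at h1
      exact absurd h1 (lt_irrefl 0)
    · refine ⟨b, rfl, ?_⟩
      rw [hy] at h1
      by_contra hk
      have h2 : N (.inl a) (.inr b) = if K a.1 b then 1 else 0 := rfl
      rw [h2, if_neg hk] at h1
      exact lt_irrefl 0 h1
  choose f hf1 hf2 using key
  refine ⟨fun s a => if h : a ∈ U then f s ⟨a, h⟩ else Classical.arbitrary β, ?_, ?_, ?_⟩
  · intro s a ha
    simp only [ha, dif_pos]
    exact (hK1 _ _ (hf2 s ⟨a, ha⟩)).2
  · intro s a ha a' ha' hab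
    have ha1 : a ∈ U := ha
    have ha2 : a' ∈ U := ha'
    simp only [ha1, ha2, dif_pos] at hab
    have h1 := hf1 s ⟨a, ha1⟩
    rw [hab, ← hf1 s ⟨a', ha2⟩] at h1
    have h2 := Sum.inl.inj ((σ s).injective h1)
    exact congrArg Subtype.val h2
  · intro s s' hss a ha hab
    simp only [ha, dif_pos] at hab
    have h1 := hσ (.inl ⟨a, ha⟩) (.inr (f s ⟨a, ha⟩))
    have h2 : N (.inl ⟨a, ha⟩) (.inr (f s ⟨a, ha⟩)) ≤ 1 := by
      change (if K a (f s ⟨a, ha⟩) then 1 else 0) ≤ 1
      split_ifs <;> omega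
    have h3 : ({s, s'} : Finset (Fin ℓ)) ⊆
        univ.filter (fun s_1 => σ s_1 (.inl ⟨a, ha⟩) = .inr (f s ⟨a, ha⟩)) := by
      intro r hr
      rw [mem_insert, mem_singleton] at hr
      rw [mem_filter]
      refine ⟨mem_univ _, ?_⟩
      rcases hr with rfl | rfl
      · exact hf1 _ _
      · rw [hab]
        exact hf1 _ _
    have h4 := card_le_card h3
    rw [card_pair hss, ← h1] at h4
    omega

end Pool.Agent.SKA
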