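import Pool.Agent.SKA.CutInd
import Pool.Agent.SKA.CutDiff
import Pool.Agent.SKA.MatchMany

set_option autoImplicit false

/-!
# SKA LowMatch (package, 1.0 h): many disjoint matchings of a lower pair inside a good edge set

Proof. Apply `match_many` with `α = β = Finset (Fin n)`, `U = Lv n k`, `E A D = (Lo n k A D ∧ (A,D) ∈ H)`.
Hypothesis: let `X ⊆ Lv n k`, `Y` any finset. Put `Y' = Y ∩ Vp n k`, `W = X ∪ Y'`. Then
`W ∩ Lv n k = X`, `W ∩ Vp n k = Y'` and
`cutU n k W ∩ H = {(A,D) : A ∈ X, D ∉ Y, Lo n k A D, (A,D) ∈ H}` (for `Lo n k A D`: `A ∈ W ↔ A ∈ X`,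
`D ∈ W ↔ D ∈ Y`). By `cut_all` and `cut_diff`:
if `|X| ≥ |Y'|`: `|cutU W ∩ H| ≥ κ (|cutU W| - |cutV W|) ≥ κ (k+1)(|X| - |Y'|) ≥ ℓ(|X| - |Y'|)`;
so `ℓ|X| ≤ ℓ|Y'| + |..| ≤ ℓ|Y| + |..|`; if `|X| < |Y'|` trivial.
(`κ ((|cutU| : ℝ) - |cutV|) ≥ κ (k+1) (|X| - |Y'|)` from `cut_diff` cast to `ℝ`.)
-/

open Finset

namespace Pool.Agent.SKA

theorem low_match {n k : ℕ} (h1 : 2 * k < n) (H : Finset (Edg n)) (κ : ℝ) (hκ : 0 ≤ κ)
    (hF : ∀ F ∈ famCut n k, κ * F.card ≤ ((F ∩ H).card : ℝ)) (ℓ : ℕ) (hℓ : (ℓ : ℝ) ≤ κ * (k + 1)) :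
    ∃ M : Fin ℓ → Finset (Fin n) → Finset (Fin n),
      (∀ s A, A.card = k → Lo n k A (M s A) ∧ (A, M s A) ∈ H) ∧
      (∀ s, Set.InjOn (M s) {A | A.card = k}) ∧
      (∀ s s', s ≠ s' → ∀ A, A.card = k → M s A ≠ M s' A) := by
  classical
  have memL : ∀ A : Finset (Fin n), A ∈ Lv n k ↔ A.card = k := by
    intro A
    unfold Lv
    rw [Finset.mem_filter]
    exact ⟨fun h => h.2, fun h => ⟨Finset.mem_univ _, h⟩⟩
  have memV : ∀ D : Finset (Fin n), D ∈ Vp n k ↔ D.card = k + 1 ∧ ¬ Rsv n D := by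
    intro D
    unfold Vp Lv
    rw [Finset.mem_filter, Finset.mem_filter]
    exact ⟨fun h => ⟨h.1.2, h.2⟩, fun h => ⟨⟨Finset.mem_univ _, h.1⟩, h.2⟩⟩
  have key : ∀ X ⊆ Lv n k, ∀ Y : Finset (Finset (Fin n)), ℓ * X.card ≤ ℓ * Y.card +
      ((univ : Finset (Finset (Fin n) × Finset (Fin n))).filter
        (fun e => e.1 ∈ X ∧ e.2 ∉ Y ∧ (Lo n k e.1 e.2 ∧ (e.1, e.2) ∈ H))).card := by
    intro X hX Y
    obtain ⟨Y', hY'⟩ : ∃ Y' : Finset (Finset (Fin n)), Y' = Y ∩ Vp n k := ⟨_, rfl⟩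
    have hYY : Y'.card ≤ Y.card := by
      rw [hY']
      exact Finset.card_le_card Finset.inter_subset_left
    rcases Nat.lt_or_ge Y'.card X.card with hlt | hle
    · obtain ⟨W, hWd⟩ : ∃ W : Finset (Finset (Fin n)), W = X ∪ Y' := ⟨_, rfl⟩
      have hWs : W ⊆ Lv n k ∪ Vp n k := by
        rw [hWd, hY']
        exact Finset.union_subset_union hX Finset.inter_subset_right
      have hWL : W ∩ Lv n k = X := by
        ext A
        rw [hWd, hY', Finset.mem_inter, Finset.mem_union, Finset.mem_inter, memL, memV]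
        constructor
        · rintro ⟨h | h, h'⟩
          · exact h
          · omega
        · intro h
          exact ⟨Or.inl h, (memL A).1 (hX h)⟩
      have hWV : W ∩ Vp n k = Y' := by
        ext D
        rw [hWd, hY', Finset.mem_inter, Finset.mem_union, Finset.mem_inter, memV]
        constructor
        · rintro ⟨h | h, h'⟩
          · have := (memL D).1 (hX h)
            omega
          · exact h
        · intro h
          exact ⟨Or.inr h, h.2⟩
      have hsub : cutU n k W ∩ H ⊆ (univ : Finset (Finset (Fin n) × Finset (Fin n))).filter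
          (fun e => e.1 ∈ X ∧ e.2 ∉ Y ∧ (Lo n k e.1 e.2 ∧ (e.1, e.2) ∈ H)) := by
        intro e he
        rw [Finset.mem_inter] at he
        obtain ⟨he1, he2⟩ := he
        unfold cutU at he1
        rw [Finset.mem_filter] at he1
        obtain ⟨-, hLo, hA, hD⟩ := he1
        rw [Finset.mem_filter]
        refine ⟨Finset.mem_univ _, ?_, ?_, hLo, he2⟩
        · rw [← hWL]
          exact Finset.mem_inter.2 ⟨hA, (memL _).2 hLo.1⟩
        · intro hY
          apply hD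
          have h3 : e.2 ∈ Vp n k := (memV _).2 ⟨hLo.2.1, hLo.2.2.2⟩
          rw [hWd, hY']
          exact Finset.mem_union_right _ (Finset.mem_inter.2 ⟨hY, h3⟩)
      have hc1 := cut_all H κ hκ hF W hWs
      have hc2 := cut_diff h1 W
      rw [hWL, hWV] at hc2
      have hc3 := Finset.card_le_card hsub
      obtain ⟨c, hc⟩ : ∃ c : ℕ, c = ((univ : Finset (Finset (Fin n) × Finset (Fin n))).filter
          (fun e => e.1 ∈ X ∧ e.2 ∉ Y ∧ (Lo n k e.1 e.2 ∧ (e.1, e.2) ∈ H))).card := ⟨_, rfl⟩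
      rw [← hc] at hc3 ⊢
      have hc2' : ((k : ℝ) + 1) * X.card + (cutV n k W).card ≤
          ((k : ℝ) + 1) * Y'.card + (cutU n k W).card := by
        exact_mod_cast hc2
      have hc3' : ((cutU n k W ∩ H).card : ℝ) ≤ (c : ℝ) := by
        exact_mod_cast hc3
      have hlt' : (Y'.card : ℝ) ≤ (X.card : ℝ) := by
        exact_mod_cast hlt.le
      have h5 : (ℓ : ℝ) * ((X.card : ℝ) - Y'.card) ≤ κ * (k + 1) * ((X.card : ℝ) - Y'.card) :=
        mul_le_mul_of_nonneg_right hℓ (sub_nonneg.2 hlt')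
      have h6 : κ * (k + 1) * ((X.card : ℝ) - Y'.card) ≤
          κ * (((cutU n k W).card : ℝ) - (cutV n k W).card) := by
        rw [mul_assoc]
        refine mul_le_mul_of_nonneg_left ?_ hκ
        linarith
      have h7 : (ℓ : ℝ) * X.card ≤ (ℓ : ℝ) * Y'.card + c := by
        linarith
      have h8 : ℓ * X.card ≤ ℓ * Y'.card + c := by
        exact_mod_cast h7
      exact h8.trans (Nat.add_le_add_right (Nat.mul_le_mul_left ℓ hYY) c)
    · exact (Nat.mul_le_mul_left ℓ (hle.trans hYY)).trans (Nat.le_add_right _ _)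
  obtain ⟨M, hM1, hM2, hM3⟩ := match_many ℓ (Lv n k)
    (fun A D => Lo n k A D ∧ (A, D) ∈ H) (by convert key)
  refine ⟨M, fun s A hA => hM1 s A ((memL A).2 hA), fun s A hA B hB hAB => ?_,
    fun s s' hs A hA => hM3 s s' hs A ((memL A).2 hA)⟩
  exact hM2 s (Finset.mem_coe.2 ((memL A).2 hA)) (Finset.mem_coe.2 ((memL B).2 hB)) hAB

end Pool.Agent.SKA
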