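import Pool.Agent.SKA.Clean
import Pool.Agent.SKA.LowMatch

set_option autoImplicit false

/-!
# SKA MtOf (package, 1.4 h): the matchings of all level pairs for all decompositions

Proof. Put `κ = (1 - 2ε)/M ≥ 0`, `lo` as given. For a colour `i` and a lower pair `k` (`lo ≤ k`, `2k < n`):
LOWER: `famCut n k ⊆ Fam n lo` (`k < n`), so `clean_cut` gives `κ|F| ≤ |F ∩ Hc ω i|` for `F ∈ famCut n k`, and `low_match` (with `ℓ ≤ κ(lo+1) ≤ κ(k+1)`) gives `M1 i k s : Finset → Finset`, `s < ℓ`.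
UPPER: `H' = (Hc ω i).image sg`; `sg (sg e) = e`. For `F ∈ famCut n k`: `F.image sg ∈ Fam n lo`, `|F.image sg| = |F|`, `|F ∩ H'| = |F.image sg ∩ Hc ω i|`; so `low_match` gives `M2 i k s` with `(A, M2 A) ∈ H'`, i.e.
`sg (A, M2 A) = ((M2 A)ᶜ, Aᶜ) ∈ Hc ω i`.
Define for `p = (i,s)`: `up p A = M1 i |A| s A`, `dn p D = (M2 i (n - |D|) s Dᶜ)ᶜ` (for `A`, `D` in the relevant ranges; arbitrary otherwise, e.g. by choosing total functions with `choose!` or `if`).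
`Mt`: `up_cov`: `Lo n k A (M1 A)` gives `Cov` and `¬ Rsv`. `up_inj`: `InjOn` for the common level. `dn_cov`: for `D` with `|D| ≤ n - lo`, `(n+1)/2 < |D|`: `|Dᶜ| = n - |D| =: k ≥ lo`, `2k < n`; `Dᶜ ⊆ M2 Dᶜ`, so
`dn D ⊆ D`, cardinalities; `¬ Rsv (M2 Dᶜ) = ¬ Rsv (dn D)ᶜ`. `dn_inj`: complement twice.
Steps: a step `(A, D)` of `p = (i,s)` is `(A, up A) ∈ Hc ω i` or `(dn D, D) = sg (Dᶜ, M2 Dᶜ) ∈ Hc ω i`, so `ω (A,D) = i`, `¬ InBad`, and it is a cover pair.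
Two different `p = (i,s)`, `p' = (i',s')` have no common step: `ω (A,D)` is `i` and `i'`, so `i = i'`, `s ≠ s'`. Both `up`: `M1 s A = M1 s' A`, excluded. Both `dn`: `M2 s Dᶜ = M2 s' Dᶜ`, excluded. One `up` and one `dn`:
`2|A| < n` and `(n+1)/2 < |D| = |A| + 1`, impossible.
-/

open Finset

namespace Pool.Agent.SKA

private theorem sg_sg {n : ℕ} (e : Edg n) : sg (sg e) = e := by
  obtain ⟨A, D⟩ := e
  simp [sg]

private theorem sg_inj {n : ℕ} : Function.Injective (sg (n := n)) :=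
  fun a b h => by rw [← sg_sg a, h, sg_sg]

open Classical in
private theorem card_inter_sg {n : ℕ} (F H : Finset (Edg n)) :
    (F ∩ H.image sg).card = (F.image sg ∩ H).card := by
  rw [← Finset.card_image_of_injective (F ∩ H.image sg) sg_inj]
  congr 1
  ext e
  simp only [Finset.mem_image, Finset.mem_inter]
  constructor
  · rintro ⟨a, ⟨ha, b, hb, rfl⟩, rfl⟩
    refine ⟨⟨_, ha, rfl⟩, ?_⟩
    rw [sg_sg]
    exact hb
  · rintro ⟨⟨a, ha, rfl⟩, hb⟩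
    exact ⟨a, ⟨ha, sg a, hb, sg_sg a⟩, rfl⟩

private theorem famCut_low {n lo k : ℕ} (hk : lo ≤ k) (h1 : 2 * k < n) {F : Finset (Edg n)}
    (hF : F ∈ famCut n k) : F ∈ Fam n lo := by
  classical
  unfold Fam
  refine Finset.mem_union_left _ (Finset.mem_biUnion.2 ⟨k, ?_, hF⟩)
  exact Finset.mem_filter.2 ⟨Finset.mem_range.2 (by omega), hk, h1⟩

open Classical in
private theorem famCut_up {n lo k : ℕ} (hk : lo ≤ k) (h1 : 2 * k < n) {F : Finset (Edg n)}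
    (hF : F ∈ famCut n k) : F.image sg ∈ Fam n lo := by
  unfold Fam
  refine Finset.mem_union_right _ (Finset.mem_image.2 ⟨F, Finset.mem_biUnion.2 ⟨k, ?_, hF⟩, ?_⟩)
  · exact Finset.mem_filter.2 ⟨Finset.mem_range.2 (by omega), hk, h1⟩
  · congr

/-- the matchings of one level pair -/
private def PM (n k ℓ : ℕ) (H : Set (Edg n)) (M : Fin ℓ → Finset (Fin n) → Finset (Fin n)) :
    Prop :=
  (∀ s A, A.card = k → Lo n k A (M s A) ∧ (A, M s A) ∈ H) ∧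
    (∀ s, Set.InjOn (M s) {A | A.card = k}) ∧
    (∀ s s', s ≠ s' → ∀ A, A.card = k → M s A ≠ M s' A)

theorem exists_mts {n M T lo ℓ : ℕ} {ε : ℝ} {ω : Edg n → Fin M} (h : GoodCol n M T lo ε ω)
    (hε : 2 * ε ≤ 1) (hℓ : (ℓ : ℝ) ≤ (1 - 2 * ε) / M * (lo + 1)) :
    ∃ up dn : Fin M × Fin ℓ → Finset (Fin n) → Finset (Fin n),
      (∀ p, Mt n lo (up p) (dn p)) ∧
      (∀ p A D, Stp (up p) (dn p) lo A D → Cov A D ∧ ω (A, D) = p.1 ∧ ¬ InBad ω (A, D)) ∧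
      (∀ p p', p ≠ p' → ∀ A D, Stp (up p) (dn p) lo A D → ¬ Stp (up p') (dn p') lo A D) := by
  classical
  have hκ : 0 ≤ (1 - 2 * ε) / M := div_nonneg (sub_nonneg.2 hε) (Nat.cast_nonneg M)
  have hℓk : ∀ k : ℕ, lo ≤ k → (ℓ : ℝ) ≤ (1 - 2 * ε) / M * (k + 1) := by
    intro k hk
    have : (lo : ℝ) ≤ k := by exact_mod_cast hk
    exact hℓ.trans (mul_le_mul_of_nonneg_left (by linarith) hκ)
  have hL : ∀ (i : Fin M) (k : ℕ), ∃ M1 : Fin ℓ → Finset (Fin n) → Finset (Fin n),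
      lo ≤ k → 2 * k < n → PM n k ℓ (Hc ω i) M1 := by
    intro i k
    by_cases hk : lo ≤ k ∧ 2 * k < n
    · obtain ⟨M1, h1, h2, h3⟩ := low_match hk.2 (Hc ω i) _ hκ
        (fun F hF => clean_cut h (famCut_low hk.1 hk.2 hF) i) ℓ (hℓk k hk.1)
      exact ⟨M1, fun _ _ => ⟨h1, h2, h3⟩⟩
    · exact ⟨fun _ _ => ∅, fun h1 h2 => absurd ⟨h1, h2⟩ hk⟩
  have hU : ∀ (i : Fin M) (k : ℕ), ∃ M2 : Fin ℓ → Finset (Fin n) → Finset (Fin n),
      lo ≤ k → 2 * k < n → PM n k ℓ ((Hc ω i).image sg) M2 := by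
    intro i k
    by_cases hk : lo ≤ k ∧ 2 * k < n
    · obtain ⟨M2, h1, h2, h3⟩ := low_match hk.2 ((Hc ω i).image sg) _ hκ
        (fun F hF => by
          have h4 := clean_cut h (famCut_up hk.1 hk.2 hF) i
          rw [Finset.card_image_of_injective F sg_inj] at h4
          have h5 := card_inter_sg F (Hc ω i)
          calc (1 - 2 * ε) / M * (F.card : ℝ) ≤ ((F.image sg ∩ Hc ω i).card : ℝ) := by
                convert h4
            _ = ((F ∩ (Hc ω i).image sg).card : ℝ) := by rw [h5]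
            _ ≤ _ := le_of_eq (by congr)) ℓ (hℓk k hk.1)
      exact ⟨M2, fun _ _ => ⟨h1, h2, h3⟩⟩
    · exact ⟨fun _ _ => ∅, fun h1 h2 => absurd ⟨h1, h2⟩ hk⟩
  choose M1 hM1 using hL
  choose M2 hM2 using hU
  have hcc : ∀ D : Finset (Fin n), Dᶜ.card = n - D.card := by
    intro D
    rw [Finset.card_compl, Fintype.card_fin]
  have hcn : ∀ D : Finset (Fin n), D.card ≤ n := by
    intro D
    have := Finset.card_le_univ D
    rwa [Fintype.card_fin] at this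
  have hlo : ∀ D : Finset (Fin n), D.card ≤ n - lo → (n + 1) / 2 < D.card →
      lo ≤ Dᶜ.card ∧ 2 * Dᶜ.card < n := by
    intro D h1 h2
    have h3 := hcn D
    rw [hcc D]
    omega
  have hdn : ∀ (p : Fin M × Fin ℓ) (D : Finset (Fin n)), D.card ≤ n - lo →
      (n + 1) / 2 < D.card →
      (Cov (M2 p.1 Dᶜ.card p.2 Dᶜ)ᶜ D ∧ ¬ Rsv n (M2 p.1 Dᶜ.card p.2 Dᶜ)ᶜᶜ) ∧
      ((M2 p.1 Dᶜ.card p.2 Dᶜ)ᶜ, D) ∈ Hc ω p.1 := by
    intro p D h1 h2
    obtain ⟨h3, h4⟩ := hlo D h1 h2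
    obtain ⟨⟨-, h6, h7, h8⟩, h9⟩ := (hM2 p.1 Dᶜ.card h3 h4).1 p.2 Dᶜ rfl
    refine ⟨⟨⟨?_, ?_⟩, ?_⟩, ?_⟩
    · have := Finset.compl_subset_compl.2 h7
      rwa [compl_compl] at this
    · have h10 := hcc (M2 p.1 Dᶜ.card p.2 Dᶜ)
      rw [h10, h6, hcc D]
      rw [hcc D] at h3 h4
      have := hcn D
      omega
    · rw [compl_compl]
      exact h8
    · obtain ⟨e, he, he'⟩ := Finset.mem_image.1 (Finset.mem_coe.1 h9)
      have h10 : e = ((M2 p.1 Dᶜ.card p.2 Dᶜ)ᶜ, D) := by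
        rw [← sg_sg e, he']
        simp [sg]
      rw [← h10]
      exact he
  have hup : ∀ (p : Fin M × Fin ℓ) (A : Finset (Fin n)), lo ≤ A.card → 2 * A.card < n →
      (Cov A (M1 p.1 A.card p.2 A) ∧ ¬ Rsv n (M1 p.1 A.card p.2 A)) ∧
      (A, M1 p.1 A.card p.2 A) ∈ Hc ω p.1 := by
    intro p A h1 h2
    obtain ⟨⟨-, h6, h7, h8⟩, h9⟩ := (hM1 p.1 A.card h1 h2).1 p.2 A rfl
    exact ⟨⟨⟨h7, h6⟩, h8⟩, Finset.mem_coe.1 h9⟩
  have hstp : ∀ (p : Fin M × Fin ℓ) (A D : Finset (Fin n)),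
      Stp (fun A => M1 p.1 A.card p.2 A) (fun D => (M2 p.1 Dᶜ.card p.2 Dᶜ)ᶜ) lo A D →
      Cov A D ∧ ω (A, D) = p.1 ∧ ¬ InBad ω (A, D) := by
    intro p A D hS
    rcases hS with ⟨h1, h2, rfl⟩ | ⟨h1, h2, rfl⟩
    · obtain ⟨⟨h3, -⟩, h4⟩ := hup p A h1 h2
      unfold Hc at h4
      exact ⟨h3, (Finset.mem_filter.1 h4).2⟩
    · obtain ⟨⟨h3, -⟩, h4⟩ := hdn p D h1 h2
      unfold Hc at h4
      exact ⟨h3, (Finset.mem_filter.1 h4).2⟩
  refine ⟨fun p A => M1 p.1 A.card p.2 A, fun p D => (M2 p.1 Dᶜ.card p.2 Dᶜ)ᶜ, ?_, hstp, ?_⟩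
  · intro p
    refine ⟨?_, ?_, ?_, ?_⟩
    · intro A h1 h2
      exact (hup p A h1 h2).1
    · intro A B h1 h2 hAB he
      have he' : M1 p.1 A.card p.2 A = M1 p.1 A.card p.2 B := by
        have : M1 p.1 A.card p.2 A = M1 p.1 B.card p.2 B := he
        rw [← hAB] at this
        exact this
      exact (hM1 p.1 A.card h1 h2).2.1 p.2 rfl hAB.symm he'
    · intro D h1 h2
      exact (hdn p D h1 h2).1
    · intro D B h1 h2 hDB he
      obtain ⟨h3, h4⟩ := hlo D h1 h2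
      have hBD : Bᶜ.card = Dᶜ.card := by rw [hcc, hcc, hDB]
      have he' : M2 p.1 Dᶜ.card p.2 Dᶜ = M2 p.1 Dᶜ.card p.2 Bᶜ := by
        have h5 : M2 p.1 Dᶜ.card p.2 Dᶜ = M2 p.1 Bᶜ.card p.2 Bᶜ := compl_injective he
        rw [hBD] at h5
        exact h5
      exact compl_injective ((hM2 p.1 Dᶜ.card h3 h4).2.1 p.2 rfl hBD he')
  · intro p p' hpp A D hS hS'
    obtain ⟨hc, hω, -⟩ := hstp p A D hS
    obtain ⟨-, hω', -⟩ := hstp p' A D hS'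
    have h1 : p.1 = p'.1 := hω.symm.trans hω'
    have h2 : p.2 ≠ p'.2 := fun h => hpp (Prod.ext h1 h)
    have hcard := hc.2
    rcases hS with ⟨a1, a2, a3⟩ | ⟨a1, a2, a3⟩ <;> rcases hS' with ⟨b1, b2, b3⟩ | ⟨b1, b2, b3⟩
    · have h3 : M1 p.1 A.card p.2 A = M1 p.1 A.card p'.2 A := by
        have h4 : M1 p.1 A.card p.2 A = M1 p'.1 A.card p'.2 A := a3.symm.trans b3
        rw [← h1] at h4
        exact h4
      exact (hM1 p.1 A.card a1 a2).2.2 p.2 p'.2 h2 A rfl h3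
    · omega
    · omega
    · obtain ⟨h5, h6⟩ := hlo D a1 a2
      have h3 : M2 p.1 Dᶜ.card p.2 Dᶜ = M2 p.1 Dᶜ.card p'.2 Dᶜ := by
        have h4 : (M2 p.1 Dᶜ.card p.2 Dᶜ)ᶜ = (M2 p'.1 Dᶜ.card p'.2 Dᶜ)ᶜ := a3.symm.trans b3
        rw [← h1] at h4
        exact compl_injective h4
      exact (hM2 p.1 Dᶜ.card h5 h6).2.2 p.2 p'.2 h2 Dᶜ rfl h3

end Pool.Agent.SKA
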