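import Pool.Agent.SKA.DefJ

set_option autoImplicit false

/-!
# SKA NumA (package, 1.2 h): numerical conditions, part A (`n` between `r^40` and `(r+1)^40`)

All statements are for `r` large. Use `Filter.eventually_atTop` and standard limits, or explicit inequalities.
`numA_le`: `(r+1)^40 ≤ 2 r^40` for large `r` (`(1+1/r)^40 → 1`).
`numA_exp`: `30 · 2 r^40 · exp (-r/5) → 0` (`Real.tendsto_pow_mul_exp_neg_atTop_nhds_zero` after substitution `u = r/5`). `numA_log`: `4(2r^40+1) exp (-r) → 0`.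
`numA_lev`: `n ≥ 1000`; `k ≥ n/2 - r^22`, `2k < n`; with `r^22 ≤ n/2000 - 10` (as `n ≥ r^40`) all four inequalities of `LevOk` follow by `omega` from `1000·r^22·2 ≤ n - 10^5` or a similar linear fact (prove `r^22 * 4000 ≤ r^40`, `10^6 ≤ r^40`).
`numA_f0`: `n/(2400 r^36) ≥ r^4/2400 ≥ 1`. `numA_small`: `2 exp 2 · 2 r^40 ≤ r^62` (`exp 2 ≤ 8`). `numA_len`: `4(2r^22+1) 2 r^40 ≤ r^64`.
-/

open Finset

namespace Pool.Agent.SKA

theorem numA_le : ∃ r0 : ℕ, ∀ r : ℕ, r0 ≤ r → (r + 1) ^ 40 ≤ 2 * r ^ 40 := by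
  refine ⟨80, fun r hr => ?_⟩
  have hx : (0 : ℝ) < (r : ℝ) + 1 := by positivity
  have hr' : (80 : ℝ) ≤ (r : ℝ) := by exact_mod_cast hr
  have h1 : (1 : ℝ) / 2 ≤ ((r : ℝ) / ((r : ℝ) + 1)) ^ 40 := by
    have e : (r : ℝ) / ((r : ℝ) + 1) = 1 + (-(1 / ((r : ℝ) + 1))) := by
      field_simp
      ring
    have h2 : 1 / ((r : ℝ) + 1) ≤ 1 / 80 := by
      apply one_div_le_one_div_of_le <;> linarith
    have h0 : 0 < 1 / ((r : ℝ) + 1) := by positivity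
    have h3 := one_add_mul_le_pow (a := -(1 / ((r : ℝ) + 1))) (by linarith) 40
    rw [e]
    refine le_trans ?_ h3
    push_cast
    linarith
  have h4 : ((r : ℝ) + 1) ^ 40 ≤ 2 * (r : ℝ) ^ 40 := by
    rw [div_pow, le_div_iff₀ (by positivity)] at h1
    linarith
  exact_mod_cast h4

private theorem numA_ev (c : ℝ) (hc : 0 < c) :
    ∃ x0 : ℝ, ∀ x : ℝ, x0 ≤ x → x ^ 40 * Real.exp (-x) ≤ c := by
  have h := Real.tendsto_pow_mul_exp_neg_atTop_nhds_zero 40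
  have h2 := h.eventually (Iic_mem_nhds hc)
  exact Filter.eventually_atTop.mp h2

theorem numA_exp : ∃ r0 : ℕ, ∀ n r : ℕ, r0 ≤ r → n ≤ 2 * r ^ 40 →
    30 * (n : ℝ) * Real.exp (-((r : ℝ) / 5)) ≤ 1 := by
  obtain ⟨x0, hx0⟩ := numA_ev (1 / (60 * 5 ^ 40)) (by positivity)
  refine ⟨⌈5 * x0⌉₊, fun n r hr hn => ?_⟩
  have h1 : x0 ≤ (r : ℝ) / 5 := by
    have h2 := Nat.ceil_le.mp hr
    linarith
  have h3 := hx0 _ h1
  have h4 : (n : ℝ) ≤ 2 * (r : ℝ) ^ 40 := by exact_mod_cast hn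
  have h5 : (r : ℝ) ^ 40 = 5 ^ 40 * ((r : ℝ) / 5) ^ 40 := by
    rw [← mul_pow]
    congr 1
    ring
  have h6 : 0 < Real.exp (-((r : ℝ) / 5)) := Real.exp_pos _
  calc 30 * (n : ℝ) * Real.exp (-((r : ℝ) / 5))
      ≤ 30 * (2 * (5 ^ 40 * ((r : ℝ) / 5) ^ 40)) * Real.exp (-((r : ℝ) / 5)) := by
        rw [← h5]
        gcongr
    _ = (60 * 5 ^ 40) * (((r : ℝ) / 5) ^ 40 * Real.exp (-((r : ℝ) / 5))) := by ring
    _ ≤ (60 * 5 ^ 40) * (1 / (60 * 5 ^ 40)) := by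
        exact mul_le_mul_of_nonneg_left h3 (by positivity)
    _ = 1 := by norm_num

theorem numA_log : ∃ r0 : ℕ, ∀ n r : ℕ, r0 ≤ r → n ≤ 2 * r ^ 40 →
    4 * ((n : ℝ) + 1) ≤ Real.exp r := by
  obtain ⟨x0, hx0⟩ := numA_ev (1 / 12) (by positivity)
  refine ⟨max 1 ⌈x0⌉₊, fun n r hr hn => ?_⟩
  have hr1 : 1 ≤ r := le_trans (le_max_left _ _) hr
  have h1 : x0 ≤ (r : ℝ) := Nat.ceil_le.mp (le_trans (le_max_right _ _) hr)
  have h3 := hx0 _ h1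
  have h4 : (n : ℝ) ≤ 2 * (r : ℝ) ^ 40 := by exact_mod_cast hn
  have h5 : (1 : ℝ) ≤ (r : ℝ) ^ 40 := one_le_pow₀ (by exact_mod_cast hr1)
  have h6 : 0 < Real.exp (r : ℝ) := Real.exp_pos _
  rw [Real.exp_neg] at h3
  have h7 : (r : ℝ) ^ 40 ≤ 1 / 12 * Real.exp (r : ℝ) := by
    rw [← div_eq_mul_inv, div_le_iff₀ h6] at h3
    exact h3
  linarith

theorem numA_lev {n r : ℕ} (hr : 93 ≤ r) (hn : r ^ 40 ≤ n) :
    r ^ 22 + 10 ≤ n / 2 ∧ ∀ k, n / 2 - r ^ 22 ≤ k → 2 * k < n → LevOk n k := by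
  have e : r ^ 40 = r ^ 22 * r ^ 18 := by rw [← pow_add]
  have h18 : 1000000 ≤ r ^ 18 :=
    le_trans (by norm_num) (Nat.pow_le_pow_left hr 18)
  have h22 : 1000000 ≤ r ^ 22 :=
    le_trans (by norm_num) (Nat.pow_le_pow_left hr 22)
  have h1 : r ^ 22 * 1000000 ≤ n := by
    rw [e] at hn
    exact le_trans (Nat.mul_le_mul_left _ h18) hn
  generalize r ^ 22 = m at h22 h1 ⊢
  refine ⟨by omega, fun k hk hk2 => ⟨by omega, hk2, by omega, by omega, by omega⟩⟩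

theorem numA_f0 {n r : ℕ} (hr : 93 ≤ r) (hn : r ^ 40 ≤ n) :
    1 ≤ 1 / (8 * (r : ℝ) ^ 36) * ((n : ℝ) / 300) := by
  have hr' : (93 : ℝ) ≤ (r : ℝ) := by exact_mod_cast hr
  have hn' : (r : ℝ) ^ 40 ≤ n := by exact_mod_cast hn
  have h4 : (2400 : ℝ) ≤ (r : ℝ) ^ 4 :=
    le_trans (by norm_num) (pow_le_pow_left₀ (by norm_num) hr' 4)
  have h0 : (0 : ℝ) < r := by linarith
  have h36 : (0 : ℝ) < (r : ℝ) ^ 36 := by positivity
  have e : (r : ℝ) ^ 40 = (r : ℝ) ^ 36 * (r : ℝ) ^ 4 := by rw [← pow_add]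
  have h5 : 2400 * (r : ℝ) ^ 36 ≤ n := by
    rw [e] at hn'
    nlinarith
  rw [div_mul_div_comm, le_div_iff₀ (by positivity)]
  linarith

theorem numA_small {n r : ℕ} (hr : 93 ≤ r) (hn : n ≤ 2 * r ^ 40) :
    2 * Real.exp 2 * n ≤ 1 / (r : ℝ) ^ 2 * ((r : ℝ) ^ 32) ^ 2 := by
  have hr' : (93 : ℝ) ≤ (r : ℝ) := by exact_mod_cast hr
  have hn' : (n : ℝ) ≤ 2 * (r : ℝ) ^ 40 := by exact_mod_cast hn
  have h0 : (0 : ℝ) < r := by linarith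
  have he : Real.exp 2 ≤ 9 := by
    have h1 : Real.exp 2 = Real.exp 1 * Real.exp 1 := by
      rw [← Real.exp_add]
      norm_num
    have h2 := Real.exp_one_lt_three
    have h3 := Real.exp_pos 1
    rw [h1]
    nlinarith
  have e : 1 / (r : ℝ) ^ 2 * ((r : ℝ) ^ 32) ^ 2 = (r : ℝ) ^ 40 * (r : ℝ) ^ 22 := by
    field_simp
  have h22 : (36 : ℝ) ≤ (r : ℝ) ^ 22 :=
    le_trans (by norm_num) (pow_le_pow_left₀ (by norm_num) hr' 22)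
  rw [e]
  have h40 : (0 : ℝ) < (r : ℝ) ^ 40 := by positivity
  have hn0 : (0 : ℝ) ≤ n := Nat.cast_nonneg n
  calc 2 * Real.exp 2 * n ≤ 2 * 9 * (2 * (r : ℝ) ^ 40) := by
        gcongr
    _ = (r : ℝ) ^ 40 * 36 := by ring
    _ ≤ (r : ℝ) ^ 40 * (r : ℝ) ^ 22 := mul_le_mul_of_nonneg_left h22 h40.le

theorem numA_len {n r : ℕ} (hr : 93 ≤ r) (hn : n ≤ 2 * r ^ 40) :
    4 * (2 * r ^ 22 + 1) * n ≤ (r ^ 32) ^ 2 := by
  have h22 : 1 ≤ r ^ 22 := Nat.one_le_pow _ _ (by omega)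
  have h2 : 24 ≤ r ^ 2 := le_trans (by norm_num) (Nat.pow_le_pow_left hr 2)
  calc 4 * (2 * r ^ 22 + 1) * n ≤ 4 * (3 * r ^ 22) * (2 * r ^ 40) := by
        apply Nat.mul_le_mul _ hn
        omega
    _ = r ^ 62 * 24 := by ring
    _ ≤ r ^ 62 * r ^ 2 := Nat.mul_le_mul_left _ h2
    _ = (r ^ 32) ^ 2 := by ring

end Pool.Agent.SKA
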