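import Pool.Agent.SKA.DefJ

set_option autoImplicit false

/-!
# SKA NumB (package, 0.9 h): the total cost is below the threshold

Proof. Multiply by `8 r^36`. With `r^40 ≤ n ≤ 2r^40`: first term: `8r^36 · r^32 · 32 r^36 · exp (-n/(2400 r^36)) ≤ 256 r^104 exp (-r^4/2400)`, tends to `0` (`r^4 ≥ r`, `Real.tendsto_pow_mul_exp_neg_atTop_nhds_zero`). Second:
`8r^36 · 16 · 2r^40 · r^32 · 8 r^36 exp (-r^4/2400) = 2048 r^144 exp (-r^4/2400) → 0`. Third: `8r^36 · 16 · 4 r^80/r^128 = 512 r^(-12) → 0`. Fourth: `8 r^36 · 8 r^40/r^96 = 64 r^(-20)`. Fifth: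
`8r^36 · 120 (2 r^40/r^64)^2 = 3840 r^(-12)`. So for large `r` each is `≤ 1/5`.
-/

open Finset

namespace Pool.Agent.SKA

private theorem expC : ∃ C : ℝ, 0 < C ∧ ∀ x : ℝ, 0 < x →
    Real.exp (-(x ^ 4 / 2400)) ≤ C / x ^ 160 := by
  refine ⟨(Nat.factorial 40 : ℝ) * 2400 ^ 40, by positivity, fun x hx => ?_⟩
  have h1 := Real.pow_div_factorial_le_exp (x ^ 4 / 2400) (by positivity) 40
  have h2 : 0 < (x ^ 4 / 2400) ^ 40 / (Nat.factorial 40 : ℝ) := by positivity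
  rw [Real.exp_neg]
  refine (inv_anti₀ h2 h1).trans (le_of_eq ?_)
  rw [inv_div, div_pow, ← pow_mul, div_div_eq_mul_div]

private theorem t1 {C x E : ℝ} (hC : 0 < C) (hx : 1 ≤ x) (hxC : 10240 * C ≤ x)
    (hE : E ≤ C / x ^ 160) : x ^ 32 * (4 / (1 / (8 * x ^ 36))) * E ≤ 1 / (40 * x ^ 36) := by
  have hx0 : 0 < x := by linarith
  have h1 : x ≤ x ^ 56 := le_self_pow₀ hx (by norm_num)
  calc x ^ 32 * (4 / (1 / (8 * x ^ 36))) * E
      ≤ x ^ 32 * (4 / (1 / (8 * x ^ 36))) * (C / x ^ 160) :=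
        mul_le_mul_of_nonneg_left hE (by positivity)
    _ = 32 * C / x ^ 92 := by
        field_simp
        norm_num
    _ ≤ 1 / (40 * x ^ 36) := by
        rw [div_le_div_iff₀ (by positivity) (by positivity)]
        have h2 : 1280 * C ≤ x ^ 56 := by linarith
        have h3 : (0 : ℝ) < x ^ 36 := by positivity
        calc 32 * C * (40 * x ^ 36) = 1280 * C * x ^ 36 := by ring
          _ ≤ x ^ 56 * x ^ 36 := mul_le_mul_of_nonneg_right h2 h3.le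
          _ = 1 * x ^ 92 := by ring

private theorem t2 {C x E n : ℝ} (hC : 0 < C) (hx : 1 ≤ x) (hxC : 10240 * C ≤ x)
    (hE0 : 0 ≤ E) (hE : E ≤ C / x ^ 160) (hn : n ≤ 2 * x ^ 40) :
    16 * n * x ^ 32 / (1 / (8 * x ^ 36)) * E ≤ 1 / (40 * x ^ 36) := by
  have hx0 : 0 < x := by linarith
  have h1 : x ≤ x ^ 16 := le_self_pow₀ hx (by norm_num)
  have e : 16 * n * x ^ 32 / (1 / (8 * x ^ 36)) = 128 * x ^ 68 * n := by
    field_simp
    ring
  rw [e]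
  calc 128 * x ^ 68 * n * E ≤ 128 * x ^ 68 * (2 * x ^ 40) * E := by gcongr
    _ ≤ 128 * x ^ 68 * (2 * x ^ 40) * (C / x ^ 160) :=
        mul_le_mul_of_nonneg_left hE (by positivity)
    _ = 256 * C / x ^ 52 := by
        field_simp
        norm_num
    _ ≤ 1 / (40 * x ^ 36) := by
        rw [div_le_div_iff₀ (by positivity) (by positivity)]
        have h2 : 10240 * C ≤ x ^ 16 := by linarith
        have h3 : (0 : ℝ) < x ^ 36 := by positivity
        calc 256 * C * (40 * x ^ 36) = 10240 * C * x ^ 36 := by ring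
          _ ≤ x ^ 16 * x ^ 36 := mul_le_mul_of_nonneg_right h2 h3.le
          _ = 1 * x ^ 52 := by ring

private theorem t3 {x n : ℝ} (hx : 19200 ≤ x) (hn0 : 0 ≤ n) (hn : n ≤ 2 * x ^ 40) :
    16 * n ^ 2 / (x ^ 32) ^ 4 ≤ 1 / (40 * x ^ 36) := by
  have hx0 : 0 < x := by linarith
  have h1 : x ≤ x ^ 12 := le_self_pow₀ (by linarith) (by norm_num)
  calc 16 * n ^ 2 / (x ^ 32) ^ 4 ≤ 16 * (2 * x ^ 40) ^ 2 / (x ^ 32) ^ 4 := by gcongr
    _ = 64 / x ^ 48 := by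
        field_simp
        norm_num
    _ ≤ 1 / (40 * x ^ 36) := by
        rw [div_le_div_iff₀ (by positivity) (by positivity)]
        have h2 : 2560 ≤ x ^ 12 := by linarith
        have h3 : (0 : ℝ) < x ^ 36 := by positivity
        calc 64 * (40 * x ^ 36) = 2560 * x ^ 36 := by ring
          _ ≤ x ^ 12 * x ^ 36 := mul_le_mul_of_nonneg_right h2 h3.le
          _ = 1 * x ^ 48 := by ring

private theorem t4 {x n : ℝ} (hx : 19200 ≤ x) (hn : n ≤ 2 * x ^ 40) :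
    4 * n / (x ^ 32) ^ 3 ≤ 1 / (40 * x ^ 36) := by
  have hx0 : 0 < x := by linarith
  have h1 : x ≤ x ^ 20 := le_self_pow₀ (by linarith) (by norm_num)
  calc 4 * n / (x ^ 32) ^ 3 ≤ 4 * (2 * x ^ 40) / (x ^ 32) ^ 3 := by gcongr
    _ = 8 / x ^ 56 := by
        field_simp
        norm_num
    _ ≤ 1 / (40 * x ^ 36) := by
        rw [div_le_div_iff₀ (by positivity) (by positivity)]
        have h2 : 320 ≤ x ^ 20 := by linarith
        have h3 : (0 : ℝ) < x ^ 36 := by positivity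
        calc 8 * (40 * x ^ 36) = 320 * x ^ 36 := by ring
          _ ≤ x ^ 20 * x ^ 36 := mul_le_mul_of_nonneg_right h2 h3.le
          _ = 1 * x ^ 56 := by ring

private theorem t5 {x n : ℝ} (hx : 19200 ≤ x) (hn0 : 0 ≤ n) (hn : n ≤ 2 * x ^ 40) :
    120 * (n / (x ^ 32) ^ 2) ^ 2 ≤ 1 / (40 * x ^ 36) := by
  have hx0 : 0 < x := by linarith
  have h1 : x ≤ x ^ 12 := le_self_pow₀ (by linarith) (by norm_num)
  calc 120 * (n / (x ^ 32) ^ 2) ^ 2 ≤ 120 * ((2 * x ^ 40) / (x ^ 32) ^ 2) ^ 2 := by gcongr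
    _ = 480 / x ^ 48 := by
        field_simp
        norm_num
    _ ≤ 1 / (40 * x ^ 36) := by
        rw [div_le_div_iff₀ (by positivity) (by positivity)]
        have h2 : 19200 ≤ x ^ 12 := by linarith
        have h3 : (0 : ℝ) < x ^ 36 := by positivity
        calc 480 * (40 * x ^ 36) = 19200 * x ^ 36 := by ring
          _ ≤ x ^ 12 * x ^ 36 := mul_le_mul_of_nonneg_right h2 h3.le
          _ = 1 * x ^ 48 := by ring

theorem numB_cost : ∃ r0 : ℕ, ∀ n r : ℕ, r0 ≤ r → r ^ 40 ≤ n → n ≤ 2 * r ^ 40 →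
    (r : ℝ) ^ 32 * (4 / (1 / (8 * (r : ℝ) ^ 36))) *
        Real.exp (-(1 / (8 * (r : ℝ) ^ 36) * ((n : ℝ) / 300))) +
      16 * n * (r : ℝ) ^ 32 / (1 / (8 * (r : ℝ) ^ 36)) *
        Real.exp (-(1 / (8 * (r : ℝ) ^ 36) * ((n : ℝ) / 300))) +
      16 * (n : ℝ) ^ 2 / ((r : ℝ) ^ 32) ^ 4 + 4 * n / ((r : ℝ) ^ 32) ^ 3 +
      120 * ((n : ℝ) / ((r : ℝ) ^ 32) ^ 2) ^ 2 ≤ 1 / (8 * (r : ℝ) ^ 36) := by
  obtain ⟨C, hC, hexp⟩ := expC
  refine ⟨⌈10240 * C⌉₊ + 19200, fun n r hr h1 h2 => ?_⟩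
  have hr' : (((⌈10240 * C⌉₊ + 19200 : ℕ)) : ℝ) ≤ (r : ℝ) := by exact_mod_cast hr
  push_cast at hr'
  have hc1 : 10240 * C ≤ (⌈10240 * C⌉₊ : ℝ) := Nat.le_ceil _
  have hc2 : (0 : ℝ) ≤ (⌈10240 * C⌉₊ : ℝ) := by positivity
  have h1' : (r : ℝ) ^ 40 ≤ (n : ℝ) := by exact_mod_cast h1
  have h2' : (n : ℝ) ≤ 2 * (r : ℝ) ^ 40 := by exact_mod_cast h2
  have hn0 : (0 : ℝ) ≤ n := by positivity
  generalize (r : ℝ) = x at *
  generalize (n : ℝ) = y at *
  have hx : 19200 ≤ x := by linarith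
  have hxC : 10240 * C ≤ x := by linarith
  have hx0 : 0 < x := by linarith
  have hE : Real.exp (-(1 / (8 * x ^ 36) * (y / 300))) ≤ C / x ^ 160 := by
    refine le_trans (Real.exp_le_exp.2 ?_) (hexp x hx0)
    rw [neg_le_neg_iff]
    calc x ^ 4 / 2400 = 1 / (8 * x ^ 36) * (x ^ 40 / 300) := by
          field_simp
          norm_num
      _ ≤ 1 / (8 * x ^ 36) * (y / 300) := by gcongr
  have k1 := t1 hC (by linarith : 1 ≤ x) hxC hE
  have k2 := t2 hC (by linarith : 1 ≤ x) hxC (Real.exp_pos _).le hE h2'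
  have k3 := t3 hx hn0 h2'
  have k4 := t4 hx h2'
  have k5 := t5 hx hn0 h2'
  have k6 : 1 / (8 * x ^ 36) = 5 * (1 / (40 * x ^ 36)) := by
    field_simp
    norm_num
  refine le_trans ?_ (le_of_eq k6.symm)
  linarith

end Pool.Agent.SKA
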