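import Pool.Agent.SKA.DefJ

set_option autoImplicit false

/-!
# SKA NumC (package, 1.2 h): the numerical condition for the outer sets

Proof. `h = n/2`, `k' = h - 2`, `w = r^22`, `a < h - w`. `X := (n.choose k')/(n.choose a)` (real) `= ∏_{j=a}^{k'-1} (n-j)/(j+1)` (`Nat.choose_succ_right_eq`). All factors are `≥ 1` (`j + 1 ≤ k' ≤ n - j`). For `a ≤ j < h - ⌈w/2⌉`... for
`j + w/2 ≤ h` the factor is `≥ (n - h + w/2)/(h - w/2 + 1) ≥ 1 + (w-1)/(n/2) ≥ 1 + w/n`; there are at least `w/2 - 3` such `j` with `a ≤ j < k'` (as `a < h - w`), so `X ≥ (1 + w/n)^(w/2 - 3) ≥ exp ((w/(2n)) (w/2-3)) ≥ exp (w²/(8n)) ≥ exp (r^4/16)`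
(`log (1+x) ≥ x/2` for `0 ≤ x ≤ 1`; `w/2 - 3 ≥ w/4`; `w² = r^44`, `n ≤ 2r^40`).
`n.choose k' · k'.choose a = n.choose a · (n-a).choose (k'-a)` (`Nat.choose_mul`), so `(n-a).choose (k'-a) = X k'.choose a ≥ X` (`k'.choose a ≥ 1`). The claim follows from
`n² (n k'.choose a + n(n+2)) ≤ n² · (n + n(n+2)) k'.choose a ≤ 4 n⁴ k'.choose a ≤ X k'.choose a` when `X ≥ exp (r^4/16) ≥ 4 (2r^40)^4 ≥ 4n⁴`: true for large `r`.
-/

open Finset

namespace Pool.Agent.SKA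

private theorem numC_pow : ∃ r1 : ℕ, ∀ r : ℕ, r1 ≤ r → (16 : ℝ) * (r : ℝ) ^ 160 ≤ 2 ^ r := by
  have h1 := tendsto_pow_const_div_const_pow_of_one_lt 160 (r := (2 : ℝ)) (by norm_num)
  have h2 := h1.eventually_le_const (show (0 : ℝ) < 1 / 16 by norm_num)
  obtain ⟨r1, hr1⟩ := Filter.eventually_atTop.1 h2
  refine ⟨r1, fun r hr => ?_⟩
  have h3 := hr1 r hr
  rw [div_le_iff₀ (by positivity)] at h3
  linarith

private theorem numC_mono (n i : ℕ) : ∀ m, i + m ≤ n / 2 → n.choose i ≤ n.choose (i + m) := by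
  intro m
  induction m with
  | zero =>
    intro _
    exact le_rfl
  | succ m ih =>
    intro hm
    exact (ih (by omega)).trans (Nat.choose_le_succ_of_lt_half_left (by omega))

theorem numC_outer : ∃ r0 : ℕ, ∀ n r : ℕ, r0 ≤ r → r ^ 40 ≤ n → n ≤ 2 * r ^ 40 →
    ∀ a, a < n / 2 - r ^ 22 →
      n ^ 2 * (n * (n / 2 - 2).choose a + n * (n + 2)) ≤ 6 * (n - a).choose (n / 2 - 2 - a) := by
  obtain ⟨r1, hr1⟩ := numC_pow
  refine ⟨max r1 2, fun n r hr hn1 hn2 a ha => ?_⟩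
  have hr1' : r1 ≤ r := (le_max_left _ _).trans hr
  have hr2 : 2 ≤ r := (le_max_right _ _).trans hr
  have hbig : (16 : ℝ) * (r : ℝ) ^ 160 ≤ 2 ^ r := hr1 r hr1'
  obtain ⟨w, hw⟩ : ∃ w, w = r ^ 22 := ⟨_, rfl⟩
  rw [← hw] at ha
  have hw3 : 8 * r ^ 19 ≤ w := by
    have h1 : 2 ^ 3 ≤ r ^ 3 := Nat.pow_le_pow_left hr2 3
    calc 8 * r ^ 19 ≤ r ^ 3 * r ^ 19 := Nat.mul_le_mul_right _ (by omega)
      _ = w := by rw [hw, ← pow_add]
  have hr19 : 1 ≤ r ^ 19 := Nat.one_le_pow _ _ (by omega)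
  have hr18 : 1 ≤ r ^ 18 := Nat.one_le_pow _ _ (by omega)
  have hr40 : 1 ≤ r ^ 40 := Nat.one_le_pow _ _ (by omega)
  have hw0 : 0 < w := by omega
  have hn0 : 0 < n := by omega
  have hs1 : n < w * (n / w + 1) := Nat.lt_mul_div_succ n hw0
  have hs2 : n / w ≤ 2 * r ^ 18 := by
    refine Nat.div_le_of_le_mul ?_
    calc n ≤ 2 * r ^ 40 := hn2
      _ = w * (2 * r ^ 18) := by rw [hw]; ring
  have hsr : (n / w + 1) * r ≤ w / 2 := by
    have h1 : (n / w + 1) * r ≤ 3 * r ^ 19 := by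
      calc (n / w + 1) * r ≤ (3 * r ^ 18) * r := Nat.mul_le_mul_right _ (by omega)
        _ = 3 * r ^ 19 := by ring
    omega
  have haK : a ≤ n / 2 - 2 := by omega
  -- the quotient of the binomial coefficients
  have hn0' : (0 : ℝ) < n := by exact_mod_cast hn0
  have hq1 : (1 : ℝ) ≤ 1 + w / n := by
    have h1 : (0 : ℝ) ≤ (w : ℝ) / n := by positivity
    linarith
  have hratio : ∀ j, j + 1 ≤ n / 2 - w / 2 →
      (1 + (w : ℝ) / n) * (n.choose j : ℝ) ≤ (n.choose (j + 1) : ℝ) := by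
    intro j hj
    have h1 : (n.choose (j + 1) : ℝ) * ((j : ℝ) + 1) = (n.choose j : ℝ) * ((n : ℝ) - j) := by
      have h2 := Nat.choose_succ_right_eq n j
      have h3 : ((n - j : ℕ) : ℝ) = (n : ℝ) - j := Nat.cast_sub (by omega)
      rw [← h3]
      exact_mod_cast h2
    have h4 : ((n : ℝ) + w) * ((j : ℝ) + 1) ≤ n * ((n : ℝ) - j) := by
      have h5 : ((n + w) * (j + 1) : ℕ) ≤ n * (n - j) := by
        obtain ⟨v, hv⟩ : ∃ v, v = w / 2 := ⟨_, rfl⟩
        obtain ⟨h, hh⟩ : ∃ h, h = n / 2 := ⟨_, rfl⟩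
        rw [← hv, ← hh] at hj
        have e1 : w ≤ 2 * v + 1 := by omega
        have e2 : 2 * h ≤ n := by omega
        have e3 : h + v + 1 ≤ n - j := by omega
        have e4 : j + 1 + v ≤ h := by omega
        have e5 : w * (j + 1) ≤ n * v + n := by
          calc w * (j + 1) ≤ (2 * v + 1) * (j + 1) := Nat.mul_le_mul_right _ e1
            _ ≤ (2 * v + 1) * h := Nat.mul_le_mul_left _ (by omega)
            _ = (2 * h) * v + h := by ring
            _ ≤ n * v + n := Nat.add_le_add (Nat.mul_le_mul_right _ e2) (by omega)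
        calc (n + w) * (j + 1) = n * (j + 1) + w * (j + 1) := by ring
          _ ≤ n * h + (n * v + n) := Nat.add_le_add (Nat.mul_le_mul_left _ (by omega)) e5
          _ = n * (h + v + 1) := by ring
          _ ≤ n * (n - j) := Nat.mul_le_mul_left _ e3
      have h6 : ((n - j : ℕ) : ℝ) = (n : ℝ) - j := Nat.cast_sub (by omega)
      rw [← h6]
      exact_mod_cast h5
    have h7 : (0 : ℝ) < (j : ℝ) + 1 := by positivity
    have h8 : (0 : ℝ) ≤ (n.choose j : ℝ) := by positivity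
    have h9 : ((n : ℝ) + w) * (n.choose j : ℝ) ≤ n * (n.choose (j + 1) : ℝ) := by
      refine le_of_mul_le_mul_right ?_ h7
      calc ((n : ℝ) + w) * (n.choose j : ℝ) * ((j : ℝ) + 1)
          = (((n : ℝ) + w) * ((j : ℝ) + 1)) * (n.choose j : ℝ) := by ring
        _ ≤ (n * ((n : ℝ) - j)) * (n.choose j : ℝ) := mul_le_mul_of_nonneg_right h4 h8
        _ = n * ((n.choose j : ℝ) * ((n : ℝ) - j)) := by ring
        _ = n * (n.choose (j + 1) : ℝ) * ((j : ℝ) + 1) := by rw [← h1]; ring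
    have h10 : 1 + (w : ℝ) / n = ((n : ℝ) + w) / n := by
      field_simp
    rw [h10, div_mul_eq_mul_div, div_le_iff₀ hn0', mul_comm (n.choose (j + 1) : ℝ)]
    exact h9
  have hind : ∀ m, a + m ≤ n / 2 - w / 2 →
      (1 + (w : ℝ) / n) ^ m * (n.choose a : ℝ) ≤ (n.choose (a + m) : ℝ) := by
    intro m
    induction m with
    | zero =>
      intro _
      rw [pow_zero, one_mul, add_zero]
    | succ m ih =>
      intro hm
      calc (1 + (w : ℝ) / n) ^ (m + 1) * (n.choose a : ℝ)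
          = (1 + (w : ℝ) / n) * ((1 + (w : ℝ) / n) ^ m * (n.choose a : ℝ)) := by ring
        _ ≤ (1 + (w : ℝ) / n) * (n.choose (a + m) : ℝ) :=
            mul_le_mul_of_nonneg_left (ih (by omega)) (by linarith)
        _ ≤ (n.choose (a + m + 1) : ℝ) := hratio (a + m) (by omega)
  have htwo : (2 : ℝ) ≤ (1 + (w : ℝ) / n) ^ (n / w + 1) := by
    have h1 : (0 : ℝ) ≤ (w : ℝ) / n := by positivity
    have h2 := one_add_mul_le_pow (a := (w : ℝ) / n) (by linarith) (n / w + 1)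
    have h3 : (1 : ℝ) ≤ ((n / w + 1 : ℕ) : ℝ) * ((w : ℝ) / n) := by
      rw [← mul_div_assoc, le_div_iff₀ hn0', one_mul]
      have h4 : n ≤ (n / w + 1) * w := by rw [mul_comm]; exact hs1.le
      exact_mod_cast h4
    linarith
  have hX : (2 : ℝ) ^ r * (n.choose a : ℝ) ≤ (n.choose (n / 2 - 2) : ℝ) := by
    have h0 : (0 : ℝ) ≤ (n.choose a : ℝ) := by positivity
    have h1 : (2 : ℝ) ^ r ≤ (1 + (w : ℝ) / n) ^ (n / 2 - w / 2 - a) := by
      calc (2 : ℝ) ^ r ≤ ((1 + (w : ℝ) / n) ^ (n / w + 1)) ^ r :=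
            pow_le_pow_left₀ (by norm_num) htwo r
        _ = (1 + (w : ℝ) / n) ^ ((n / w + 1) * r) := (pow_mul _ _ _).symm
        _ ≤ (1 + (w : ℝ) / n) ^ (n / 2 - w / 2 - a) := pow_le_pow_right₀ hq1 (by omega)
    have h2 := hind (n / 2 - w / 2 - a) (by omega)
    have h3 : n.choose (a + (n / 2 - w / 2 - a)) ≤ n.choose (n / 2 - 2) := by
      have h4 : n / 2 - 2 = a + (n / 2 - w / 2 - a) + (w / 2 - 2) := by omega
      rw [h4]
      exact numC_mono n _ _ (by omega)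
    calc (2 : ℝ) ^ r * (n.choose a : ℝ)
        ≤ (1 + (w : ℝ) / n) ^ (n / 2 - w / 2 - a) * (n.choose a : ℝ) :=
          mul_le_mul_of_nonneg_right h1 h0
      _ ≤ (n.choose (a + (n / 2 - w / 2 - a)) : ℝ) := h2
      _ ≤ (n.choose (n / 2 - 2) : ℝ) := by exact_mod_cast h3
  have hn4 : (n : ℝ) ^ 4 ≤ 2 ^ r := by
    refine le_trans ?_ hbig
    have h1 : (n : ℝ) ≤ 2 * (r : ℝ) ^ 40 := by exact_mod_cast hn2
    calc (n : ℝ) ^ 4 ≤ (2 * (r : ℝ) ^ 40) ^ 4 := pow_le_pow_left₀ hn0'.le h1 4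
      _ = 16 * (r : ℝ) ^ 160 := by ring
  have hmul : (n.choose (n / 2 - 2) : ℝ) * ((n / 2 - 2).choose a : ℝ) =
      (n.choose a : ℝ) * ((n - a).choose (n / 2 - 2 - a) : ℝ) := by
    have h1 := Nat.choose_mul (n := n) (k := n / 2 - 2) (s := a) haK
    exact_mod_cast h1
  have hca : (0 : ℝ) < (n.choose a : ℝ) := by
    have h1 : 0 < n.choose a := Nat.choose_pos (by omega)
    exact_mod_cast h1
  have hc1 : (1 : ℝ) ≤ ((n / 2 - 2).choose a : ℝ) := by
    have h1 : 0 < (n / 2 - 2).choose a := Nat.choose_pos haK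
    exact_mod_cast h1
  have hmain : (n : ℝ) ^ 4 * ((n / 2 - 2).choose a : ℝ) ≤
      ((n - a).choose (n / 2 - 2 - a) : ℝ) := by
    refine le_of_mul_le_mul_left ?_ hca
    rw [← hmul]
    calc (n.choose a : ℝ) * ((n : ℝ) ^ 4 * ((n / 2 - 2).choose a : ℝ))
        = ((n : ℝ) ^ 4 * (n.choose a : ℝ)) * ((n / 2 - 2).choose a : ℝ) := by ring
      _ ≤ ((2 : ℝ) ^ r * (n.choose a : ℝ)) * ((n / 2 - 2).choose a : ℝ) :=
          mul_le_mul_of_nonneg_right (mul_le_mul_of_nonneg_right hn4 hca.le) (by linarith)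
      _ ≤ (n.choose (n / 2 - 2) : ℝ) * ((n / 2 - 2).choose a : ℝ) :=
          mul_le_mul_of_nonneg_right hX (by linarith)
  have hn1' : (1 : ℝ) ≤ n := by exact_mod_cast hn0
  have hfin : (n : ℝ) ^ 2 * (n * ((n / 2 - 2).choose a : ℝ) + n * (n + 2)) ≤
      6 * ((n - a).choose (n / 2 - 2 - a) : ℝ) := by
    obtain ⟨c, hc⟩ : ∃ c : ℝ, c = ((n / 2 - 2).choose a : ℝ) := ⟨_, rfl⟩
    rw [← hc] at hmain hc1 ⊢
    have h1 : (n : ℝ) * (n + 2) ≤ n * (n + 2) * c := by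
      have h2 : (0 : ℝ) ≤ n * (n + 2) := by positivity
      nlinarith
    have h3 : (n : ℝ) ^ 3 ≤ (n : ℝ) ^ 4 := pow_le_pow_right₀ hn1' (by norm_num)
    have h4 : (0 : ℝ) ≤ (n : ℝ) ^ 2 := by positivity
    calc (n : ℝ) ^ 2 * (n * c + n * (n + 2)) ≤ (n : ℝ) ^ 2 * (n * c + n * (n + 2) * c) :=
          mul_le_mul_of_nonneg_left (by linarith) h4
      _ = ((n : ℝ) ^ 4 + 3 * (n : ℝ) ^ 3) * c := by ring
      _ ≤ (4 * (n : ℝ) ^ 4) * c := mul_le_mul_of_nonneg_right (by linarith) (by linarith)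
      _ = 4 * ((n : ℝ) ^ 4 * c) := by ring
      _ ≤ 4 * ((n - a).choose (n / 2 - 2 - a) : ℝ) := by linarith
      _ ≤ 6 * ((n - a).choose (n / 2 - 2 - a) : ℝ) := by
          have h5 : (0 : ℝ) ≤ ((n - a).choose (n / 2 - 2 - a) : ℝ) := by positivity
          linarith
  exact_mod_cast hfin

end Pool.Agent.SKA
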