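import Pool.Agent.SKA.DefJ

set_option autoImplicit false

/-!
# SKA NumD (package, 0.7 h): the number of decompositions

Proof. `lo = n/2 - r^22` (floor of `n/2`; `r^22 + 10 ≤ n/2`), so `lo + 1 ≥ n/2 - r^22` (real `n/2`). `κ(lo+1) = (1 - 2/r²)(lo+1)/r^32`, `ℓ = ⌊κ(lo+1)⌋₊`, so `ℓ ≤ κ(lo+1)` and
`r^32 ℓ ≥ (1 - 2/r²)(lo+1) - r^32 ≥ (n/2 - r^22) - (2/r²)(n/2) - r^32 ≥ n/2 - r^22 - 2 r^38 - r^32 ≥ n/2 - 4 r^38` (`(1 - 2/r²)(lo+1) ≥ (lo+1) - (2/r²)(lo+1)`, `lo + 1 ≤ n/2 ≤ r^40`).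
`r^32 ℓ ≤ (1 - 2/r²)(lo+1) ≤ lo + 1 ≤ n`.
-/

open Finset

namespace Pool.Agent.SKA

theorem numD {n r : ℕ} (h : Nums n r) : ∃ ℓ : ℕ,
    (ℓ : ℝ) ≤ (1 - 2 * (1 / (r : ℝ) ^ 2)) / ((r ^ 32 : ℕ) : ℝ) * (((n / 2 - r ^ 22 : ℕ) : ℝ) + 1) ∧
    r ^ 32 * ℓ ≤ n ∧ (n : ℝ) / 2 - 4 * (r : ℝ) ^ 38 ≤ ((r ^ 32 * ℓ : ℕ) : ℝ) := by
  have hr : (93 : ℝ) ≤ (r : ℝ) := by exact_mod_cast h.hr
  have hr0 : (0 : ℝ) < (r : ℝ) := by linarith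
  have hr1 : (1 : ℝ) ≤ (r : ℝ) := by linarith
  have hwin := h.win
  obtain ⟨L, hL⟩ : ∃ L : ℕ, L = n / 2 - r ^ 22 := ⟨_, rfl⟩
  have hL1 : L + r ^ 22 = n / 2 := by omega
  have hn : n ≤ 2 * (n / 2) + 1 := by omega
  have hn2 : 2 * (n / 2) ≤ n := by omega
  rw [← hL1] at hn hn2
  rw [← hL]
  have hnR : (n : ℝ) ≤ 2 * ((L : ℝ) + (r : ℝ) ^ 22) + 1 := by exact_mod_cast hn
  have hnR2 : 2 * ((L : ℝ) + (r : ℝ) ^ 22) ≤ (n : ℝ) := by exact_mod_cast hn2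
  have hn40 : (n : ℝ) ≤ 2 * (r : ℝ) ^ 40 := by exact_mod_cast h.n2
  have hp22 : (1 : ℝ) ≤ (r : ℝ) ^ 22 := one_le_pow₀ hr1
  have hp32 : (1 : ℝ) ≤ (r : ℝ) ^ 32 := one_le_pow₀ hr1
  have hp2238 : (r : ℝ) ^ 22 ≤ (r : ℝ) ^ 38 := pow_le_pow_right₀ hr1 (by norm_num)
  have hp3238 : (r : ℝ) ^ 32 ≤ (r : ℝ) ^ 38 := pow_le_pow_right₀ hr1 (by norm_num)
  have hr2 : (0 : ℝ) < (r : ℝ) ^ 2 := by positivity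
  have h2r : 2 * (1 / (r : ℝ) ^ 2) ≤ 1 := by
    rw [mul_one_div, div_le_one hr2]
    nlinarith
  have h2r0 : 0 ≤ 2 * (1 / (r : ℝ) ^ 2) := by positivity
  have hcast : (((r ^ 32 : ℕ)) : ℝ) = (r : ℝ) ^ 32 := by push_cast; ring
  rw [hcast]
  set δ : ℝ := 2 * (1 / (r : ℝ) ^ 2) with hδ
  set x : ℝ := (L : ℝ) + 1 with hx
  have hL0 : (0 : ℝ) ≤ (L : ℝ) := Nat.cast_nonneg L
  have hx0 : 0 ≤ x := by linarith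
  have hxn : x ≤ (n : ℝ) / 2 := by linarith
  have hδx : δ * x ≤ 2 * (r : ℝ) ^ 38 := by
    have h1 : x ≤ (r : ℝ) ^ 40 := by linarith
    have h2 : δ * (r : ℝ) ^ 40 = 2 * (r : ℝ) ^ 38 := by
      rw [hδ]
      field_simp
    rw [← h2]
    exact mul_le_mul_of_nonneg_left h1 h2r0
  have hδx0 : 0 ≤ δ * x := mul_nonneg h2r0 hx0
  have hy0 : 0 ≤ (1 - δ) / (r : ℝ) ^ 32 * x :=
    mul_nonneg (div_nonneg (by linarith) (by positivity)) hx0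
  have hmul : (r : ℝ) ^ 32 * ((1 - δ) / (r : ℝ) ^ 32 * x) = (1 - δ) * x := by
    have h32 : (r : ℝ) ^ 32 ≠ 0 := by positivity
    field_simp
  have h32p : (0 : ℝ) < (r : ℝ) ^ 32 := by positivity
  have hf1 := Nat.floor_le hy0
  have hf2 := Nat.lt_floor_add_one ((1 - δ) / (r : ℝ) ^ 32 * x)
  refine ⟨⌊(1 - δ) / (r : ℝ) ^ 32 * x⌋₊, hf1, ?_, ?_⟩
  · have h1 := mul_le_mul_of_nonneg_left hf1 h32p.le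
    rw [hmul] at h1
    have h2 : ((r ^ 32 * ⌊(1 - δ) / (r : ℝ) ^ 32 * x⌋₊ : ℕ) : ℝ) ≤ (n : ℝ) := by
      push_cast
      have hn0 : (0 : ℝ) ≤ (n : ℝ) := Nat.cast_nonneg n
      nlinarith
    exact_mod_cast h2
  · push_cast
    have h1 := mul_le_mul_of_nonneg_left hf2.le h32p.le
    rw [hmul] at h1
    nlinarith

end Pool.Agent.SKA
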