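import Pool.Agent.SKA.Defs
import Pool.Agent.OrthoChains.StepWin

set_option autoImplicit false

/-!
# SKA WinOf (package, 1.3 h): the window decomposition defined by the matchings

Proof. Let `ρ = (n+1)/2`; `|A| < ρ ↔ 2|A| < n`. Label `c A = up^[ρ - |A|] A` if `|A| ≤ ρ`, `c A = dn^[|A| - ρ] A` otherwise. For `lo ≤ |A| ≤ n - lo` all intermediate sets are in the window, one level apart, and `|c A| = ρ`
(`lo ≤ ρ ≤ n - lo` by `hlo`). Facts: (a) `lo ≤ |A|`, `2|A| < n`: `c (up A) = c A` (`ρ - |A| = (ρ - |up A|) + 1`, `Function.iterate_succ_apply`). (b) `ρ < |D| ≤ n - lo`: `c (dn D) = c D` (if `|dn D| = ρ` use `c (dn D) = dn D`).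
`inj`: equal levels `|A| = |B|`: the iterates stay injective step by step (`up_inj`, `dn_inj`; induction on the distance to `ρ`).
`Win.up`: `B = up A`. `Win.down`: `n < 2|B|`, `lo < |B| ≤ n - lo`: if `|B| > ρ`: `A = dn B`. If `|B| = ρ` then `n < 2ρ` means `n` odd, `ρ - 1 = n/2 ≥ lo`, and `up` maps the sets of level `ρ - 1` injectively to those of level `ρ`;
both levels have the same number of elements (`n.choose (n/2) = n.choose (n/2+1)` for odd `n`, `Nat.choose_symm_half`-like; `Finset.card_powersetCard`), so it is surjective and `B = up A` for some `A`, `c A = c B`.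
`resLow`: `A ⊆ B`, `|B| = |A|+1`, `Rsv n B`, so `|B| = n/2 - 2`, `2|A| < n`; if `c A = c B` then `c (up A) = c A = c B`, same level, so `B = up A` by `inj`, but `¬ Rsv n (up A)`. `resHigh`: `Rsv n Aᶜ`: `|A| = n - (n/2 - 2) ≥ ρ`, so
`|B| > ρ`, `dn B` and `A` have the same level and the same label, so `A = dn B`, but `¬ Rsv n (dn B)ᶜ`.
PATHS: let `c B = c D`, `t = |D| - |B|`. Induction on `t`: `t = 0`: `B = D` by `inj`. `t + 1`: if `2|B| < n`: `B1 = up B`, `c B1 = c B = c D`, path from `B1` to `D` by induction, put `B` in front; the step `(B, up B)` is a `Stp`.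
If `2|B| ≥ n`: `|D| > |B| ≥ ρ`: `D1 = dn D`, path from `B` to `D1`, put `D` at the end.
-/

open Finset

namespace Pool.Agent.SKA

/-- The label of a set. -/
private def lab (n : ℕ) (up dn : Finset (Fin n) → Finset (Fin n)) (A : Finset (Fin n)) :
    Finset (Fin n) :=
  if A.card ≤ (n + 1) / 2 then up^[(n + 1) / 2 - A.card] A else dn^[A.card - (n + 1) / 2] A

private theorem lab_mid {n : ℕ} {up dn : Finset (Fin n) → Finset (Fin n)} {A : Finset (Fin n)}
    (h : A.card = (n + 1) / 2) : lab n up dn A = A := by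
  rw [lab, if_pos h.le, h, Nat.sub_self]
  rfl

private theorem lab_up {n lo : ℕ} {up dn : Finset (Fin n) → Finset (Fin n)} (h : Mt n lo up dn)
    {A : Finset (Fin n)} (h1 : lo ≤ A.card) (h2 : 2 * A.card < n) :
    lab n up dn (up A) = lab n up dn A := by
  have hc := (h.up_cov A h1 h2).1.2
  rw [lab, lab, if_pos (by omega), if_pos (by omega), hc]
  have : (n + 1) / 2 - A.card = ((n + 1) / 2 - (A.card + 1)) + 1 := by omega
  rw [this, Function.iterate_succ_apply]

private theorem lab_dn {n lo : ℕ} {up dn : Finset (Fin n) → Finset (Fin n)} (h : Mt n lo up dn)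
    {D : Finset (Fin n)} (h1 : D.card ≤ n - lo) (h2 : (n + 1) / 2 < D.card) :
    lab n up dn (dn D) = lab n up dn D := by
  have hc := (h.dn_cov D h1 h2).1.2
  by_cases h3 : (dn D).card = (n + 1) / 2
  · rw [lab_mid h3, lab, if_neg (by omega)]
    have : D.card - (n + 1) / 2 = 1 := by omega
    rw [this]
    rfl
  · rw [lab, lab, if_neg (by omega), if_neg (by omega)]
    have : D.card - (n + 1) / 2 = ((dn D).card - (n + 1) / 2) + 1 := by omega
    rw [this, Function.iterate_succ_apply]

private theorem lab_inj_low {n lo : ℕ} {up dn : Finset (Fin n) → Finset (Fin n)}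
    (h : Mt n lo up dn) (t : ℕ) : ∀ A B : Finset (Fin n), lo ≤ A.card → A.card = B.card →
    A.card + t = (n + 1) / 2 → lab n up dn A = lab n up dn B → A = B := by
  induction t with
  | zero =>
    intro A B _ h2 h3 h4
    rwa [lab_mid (by omega), lab_mid (by omega)] at h4
  | succ t ih =>
    intro A B h1 h2 h3 h4
    have hA : 2 * A.card < n := by omega
    have hB : 2 * B.card < n := by omega
    have hcA := (h.up_cov A h1 hA).1.2
    have hcB := (h.up_cov B (by omega) hB).1.2
    apply h.up_inj A B h1 hA h2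
    apply ih _ _ (by omega) (by omega) (by omega)
    rw [lab_up h h1 hA, lab_up h (by omega) hB, h4]

private theorem lab_inj_high {n lo : ℕ} {up dn : Finset (Fin n) → Finset (Fin n)}
    (h : Mt n lo up dn) (t : ℕ) : ∀ A B : Finset (Fin n), A.card ≤ n - lo → A.card = B.card →
    A.card = (n + 1) / 2 + t → lab n up dn A = lab n up dn B → A = B := by
  induction t with
  | zero =>
    intro A B _ h2 h3 h4
    rwa [lab_mid (by omega), lab_mid (by omega)] at h4
  | succ t ih =>
    intro A B h1 h2 h3 h4
    have hA : (n + 1) / 2 < A.card := by omega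
    have hB : (n + 1) / 2 < B.card := by omega
    have hcA := (h.dn_cov A h1 hA).1.2
    have hcB := (h.dn_cov B (by omega) hB).1.2
    apply h.dn_inj A B h1 hA h2
    apply ih _ _ (by omega) (by omega) (by omega)
    rw [lab_dn h h1 hA, lab_dn h (by omega) hB, h4]

private theorem lab_inj {n lo : ℕ} {up dn : Finset (Fin n) → Finset (Fin n)}
    (h : Mt n lo up dn) (A B : Finset (Fin n)) (h1 : lo ≤ A.card) (h2 : A.card ≤ n - lo)
    (h3 : A.card = B.card) (h4 : lab n up dn A = lab n up dn B) : A = B := by
  rcases le_total A.card ((n + 1) / 2) with h5 | h5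
  · exact lab_inj_low h ((n + 1) / 2 - A.card) A B h1 h3 (by omega) h4
  · exact lab_inj_high h (A.card - (n + 1) / 2) A B h2 h3 (by omega) h4

private theorem up_surj {n lo : ℕ} {up dn : Finset (Fin n) → Finset (Fin n)}
    (h : Mt n lo up dn) (hlo : lo + 3 ≤ n / 2) (B : Finset (Fin n)) (hB : B.card = (n + 1) / 2)
    (hn : n < 2 * B.card) : ∃ A : Finset (Fin n), lo ≤ A.card ∧ 2 * A.card < n ∧ up A = B := by
  obtain ⟨m, hm⟩ : ∃ m, n = 2 * m + 1 := ⟨n / 2, by omega⟩
  have hs := Finset.surjOn_of_injOn_of_card_le (s := powersetCard m (univ : Finset (Fin n)))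
    (t := powersetCard (m + 1) (univ : Finset (Fin n))) up
    (by
      intro A hA
      have hA' : A.card = m := (mem_powersetCard.1 (mem_coe.1 hA)).2
      have hc := (h.up_cov A (by omega) (by omega)).1.2
      exact mem_coe.2 (mem_powersetCard.2 ⟨subset_univ _, by omega⟩))
    (by
      intro A hA A' hA' he
      have h1 : A.card = m := (mem_powersetCard.1 (mem_coe.1 hA)).2
      have h2 : A'.card = m := (mem_powersetCard.1 (mem_coe.1 hA')).2
      exact h.up_inj A A' (by omega) (by omega) (by omega) he)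
    (by
      rw [card_powersetCard, card_powersetCard, card_univ, Fintype.card_fin, hm,
        Nat.choose_symm_half])
  obtain ⟨A, hA, hAB⟩ := hs (mem_coe.2 (mem_powersetCard.2 ⟨subset_univ B, by omega⟩))
  have h1 : A.card = m := (mem_powersetCard.1 (mem_coe.1 hA)).2
  exact ⟨A, by omega, by omega, hAB⟩

theorem win_of {n lo : ℕ} {up dn : Finset (Fin n) → Finset (Fin n)} (h : Mt n lo up dn)
    (hlo : lo + 3 ≤ n / 2) :
    ∃ c : Finset (Fin n) → Finset (Fin n),
      Pool.Agent.OrthoChains.Win (Rsv n) lo (n - lo) c ∧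
      ∀ B D : Finset (Fin n), lo ≤ B.card → B.card ≤ D.card → D.card ≤ n - lo → c B = c D →
        ∃ P : ℕ → Finset (Fin n), P 0 = B ∧ P (D.card - B.card) = D ∧
          ∀ j < D.card - B.card, Stp up dn lo (P j) (P (j + 1)) ∧ c (P (j + 1)) = c B := by
  refine ⟨lab n up dn, ⟨?_, ?_, ?_, ?_, ?_⟩, ?_⟩
  · intro A B h1 h2 h3 h4
    exact lab_inj h A B h1 h2 h3 h4
  · intro A h1 _ h3
    have hc := (h.up_cov A h1 h3).1
    exact ⟨up A, hc.1, hc.2, lab_up h h1 h3⟩
  · intro B h1 h2 h3
    rcases lt_or_ge ((n + 1) / 2) B.card with h4 | h4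
    · have hc := (h.dn_cov B h2 h4).1
      exact ⟨dn B, hc.1, hc.2, lab_dn h h2 h4⟩
    · obtain ⟨A, hA1, hA2, hA3⟩ := up_surj h hlo B (by omega) h3
      have hc := (h.up_cov A hA1 hA2).1
      have hl := lab_up h hA1 hA2
      rw [hA3] at hc hl
      exact ⟨A, hc.1, hc.2, hl.symm⟩
  · intro A B h1 h2 _ h4 h5 h6
    have hB := h5.1
    have hA : 2 * A.card < n := by omega
    have hc := h.up_cov A h1 hA
    have : up A = B := by
      apply lab_inj h _ _ (by rw [hc.1.2]; omega) (by rw [hc.1.2]; omega) (by rw [hc.1.2]; omega)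
      rw [lab_up h h1 hA, h6]
    rw [this] at hc
    exact hc.2 h5
  · intro A B h1 h2 _ h4 h5 h6
    have hA := h5.1
    rw [card_compl, Fintype.card_fin] at hA
    have hAn : A.card ≤ n := by
      have := card_le_univ A
      rwa [Fintype.card_fin] at this
    have hB : (n + 1) / 2 < B.card := by omega
    have hc := h.dn_cov B h2 hB
    have hc2 := hc.1.2
    have : dn B = A := by
      apply lab_inj h _ _ (by omega) (by omega) (by omega)
      rw [lab_dn h h2 hB, h6]
    rw [this] at hc
    exact hc.2 h5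
  · intro B D h1 h2 h3 h4
    obtain ⟨t, ht⟩ : ∃ t, D.card = B.card + t := ⟨D.card - B.card, by omega⟩
    rw [ht, Nat.add_sub_cancel_left]
    induction t generalizing B D with
    | zero =>
      have := lab_inj h B D h1 (by omega) (by omega) h4
      exact ⟨fun _ => B, rfl, this, fun j hj => absurd hj (Nat.not_lt_zero j)⟩
    | succ t ih =>
      by_cases h5 : 2 * B.card < n
      · have hc := (h.up_cov B h1 h5).1.2
        have hl := lab_up h h1 h5
        obtain ⟨P, hP0, hPt, hP⟩ := ih (up B) D (by omega) (by omega) h3 (hl.trans h4) (by omega)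
        refine ⟨fun j => Nat.casesOn j B P, rfl, hPt, ?_⟩
        intro j hj
        cases j with
        | zero =>
          refine ⟨Or.inl ⟨h1, h5, hP0⟩, ?_⟩
          change lab n up dn (P 0) = _
          rw [hP0, hl]
        | succ j =>
          have := hP j (by omega)
          exact ⟨this.1, this.2.trans hl⟩
      · have h6 : (n + 1) / 2 < D.card := by omega
        have hc := (h.dn_cov D h3 h6).1.2
        have hl := lab_dn h h3 h6
        obtain ⟨P, hP0, hPt, hP⟩ := ih B (dn D) h1 (by omega) (by omega) (h4.trans hl.symm)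
          (by omega)
        refine ⟨fun j => if j ≤ t then P j else D, ?_, ?_, ?_⟩
        · simp only [Nat.zero_le, if_true, hP0]
        · simp only [Nat.not_succ_le_self, if_false]
        · intro j hj
          rcases Nat.lt_or_ge j t with h7 | h7
          · simp only [if_pos h7.le, if_pos (Nat.succ_le_of_lt h7)]
            exact hP j h7
          · have h8 : j = t := by omega
            subst h8
            simp only [le_refl, if_true, Nat.not_succ_le_self, if_false]
            exact ⟨Or.inr ⟨h3, h6, hPt⟩, h4.symm⟩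

end Pool.Agent.SKA
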