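import Pool.Agent.SKA.SqCube
import Pool.Agent.SKA.WinOf

set_option autoImplicit false

/-!
# SKA OrthOf (package, 1.2 h): orthogonality in the window

Proof. Suppose `Orth` fails: there are `A ≠ B` in the window with `c A = c B`, `c' A = c' B`. Among all pairs `B, D` in the window with `B ≠ D`, `c B = c D`, `c' B = c' D`, `|B| ≤ |D|` choose one with `t = |D| - |B|` minimal
(`Nat.find`/`WellFounded.min`). `t ≥ 1` (otherwise `B = D` by `hw.inj`). Let `P`, `Q` be the two paths from `hpath`, `hpath'`. All `P j`, `Q j` (`j ≤ t`) are in the window, `|P j| = |B| + j`, `c (P j) = c B`, `c' (Q j) = c' B`; steps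
are cover pairs (`hs`, `hs'`).
If `P j = Q j` for some `0 < j < t` then `(B, P j)` is a pair with smaller difference: contradiction to the minimality. So `P j ≠ Q j` for `0 < j < t`.
`t = 1`: `(B,D)` is a step of both: excluded by `hdis`.
`t = 2`: `csq_of_paths` gives a square `s` with `p1 s = (P 0, P 1)`, `p2 s = (P 1, P 2)`, `q1 s = (Q 0, Q 1)`, `q2 s = (Q 1, Q 2)`; the colours are `i, i, i', i'`. If `i = i'`: contradicts `GoodCol.mono`. If `i ≠ i'`: `s` is `Bad`, so
`InBad ω (P 0, P 1)`, contradicting `hs`.
`t ≥ 3`: `t ≤ n - 2 lo ≤ T`, so `P, Q` form a `LongPair`: contradicts `GoodCol.long`.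
(Cases by which of the two sets is larger: `Orth` is symmetric in `A, B`.)
-/

open Finset

namespace Pool.Agent.SKA

theorem orth_of {n M T lo : ℕ} {ε : ℝ} {ω : Edg n → Fin M} (h : GoodCol n M T lo ε ω)
    (hT : n - 2 * lo ≤ T) {i i' : Fin M} {up dn up' dn' c c' : Finset (Fin n) → Finset (Fin n)}
    (hw : Pool.Agent.OrthoChains.Win (Rsv n) lo (n - lo) c)
    (hw' : Pool.Agent.OrthoChains.Win (Rsv n) lo (n - lo) c')
    (hpath : ∀ B D : Finset (Fin n), lo ≤ B.card → B.card ≤ D.card → D.card ≤ n - lo → c B = c D →
        ∃ P : ℕ → Finset (Fin n), P 0 = B ∧ P (D.card - B.card) = D ∧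
          ∀ j < D.card - B.card, Stp up dn lo (P j) (P (j + 1)) ∧ c (P (j + 1)) = c B)
    (hpath' : ∀ B D : Finset (Fin n), lo ≤ B.card → B.card ≤ D.card → D.card ≤ n - lo → c' B = c' D →
        ∃ P : ℕ → Finset (Fin n), P 0 = B ∧ P (D.card - B.card) = D ∧
          ∀ j < D.card - B.card, Stp up' dn' lo (P j) (P (j + 1)) ∧ c' (P (j + 1)) = c' B)
    (hs : ∀ A D, Stp up dn lo A D → Cov A D ∧ ω (A, D) = i ∧ ¬ InBad ω (A, D))
    (hs' : ∀ A D, Stp up' dn' lo A D → Cov A D ∧ ω (A, D) = i' ∧ ¬ InBad ω (A, D))
    (hdis : ∀ A D, Stp up dn lo A D → ¬ Stp up' dn' lo A D) :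
    Pool.Agent.OrthoChains.Orth lo (n - lo) c c' := by
  have key : ∀ t : ℕ, ∀ B D : Finset (Fin n), lo ≤ B.card → D.card = B.card + t →
      D.card ≤ n - lo → c B = c D → c' B = c' D → B = D := by
    intro t
    induction t using Nat.strong_induction_on with
    | _ t ih =>
      intro B D hB hBD hD hc hc'
      rcases Nat.eq_zero_or_pos t with ht0 | htpos
      · subst ht0
        exact hw.inj B D hB (by omega) (by omega) hc
      exfalso
      have hle : B.card ≤ D.card := by omega
      have hsub : D.card - B.card = t := by omega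
      obtain ⟨P, hP0, hPt, hPs⟩ := hpath B D hB hle hD hc
      obtain ⟨Q, hQ0, hQt, hQs⟩ := hpath' B D hB hle hD hc'
      rw [hsub] at hPt hPs hQt hQs
      have hPc : ∀ j, j ≤ t → (P j).card = B.card + j := by
        intro j
        induction j with
        | zero =>
          intro _
          rw [hP0, Nat.add_zero]
        | succ j ihj =>
          intro hj
          have h1 := ihj (by omega)
          have h2 := (hs _ _ (hPs j (by omega)).1).1.2
          omega
      have hPl : ∀ j, j ≤ t → c (P j) = c B := by
        intro j hj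
        rcases j with _ | j
        · rw [hP0]
        · exact (hPs j (by omega)).2
      have hQl : ∀ j, j ≤ t → c' (Q j) = c' B := by
        intro j hj
        rcases j with _ | j
        · rw [hQ0]
        · exact (hQs j (by omega)).2
      have hne : ∀ j, 0 < j → j < t → P j ≠ Q j := by
        intro j hj hjt hPQ
        have h1 := hPc j hjt.le
        have h2 : c' (P j) = c' B := by
          rw [hPQ]
          exact hQl j hjt.le
        have h3 := ih j hjt B (P j) hB h1 (by omega) (hPl j hjt.le).symm h2.symm
        rw [← h3] at h1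
        omega
      rcases Nat.lt_or_ge t 3 with ht3 | ht3
      · rcases Nat.lt_or_ge t 2 with ht2 | ht2
        · have ht1 : t = 1 := by omega
          subst ht1
          have h1 := (hPs 0 (by omega)).1
          have h2 := (hQs 0 (by omega)).1
          rw [Nat.zero_add, hP0, hPt] at h1
          rw [Nat.zero_add, hQ0, hQt] at h2
          exact hdis _ _ h1 h2
        · have ht22 : t = 2 := by omega
          subst ht22
          have h1 := (hPs 0 (by omega)).1
          have h2 := (hPs 1 (by omega)).1
          have h3 := (hQs 0 (by omega)).1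
          have h4 := (hQs 1 (by omega)).1
          rw [Nat.zero_add, hP0] at h1
          rw [show (1 : ℕ) + 1 = 2 from rfl, hPt] at h2
          rw [Nat.zero_add, hQ0] at h3
          rw [show (1 : ℕ) + 1 = 2 from rfl, hQt] at h4
          obtain ⟨a1, b1, c1⟩ := hs _ _ h1
          obtain ⟨a2, b2, c2⟩ := hs _ _ h2
          obtain ⟨a3, b3, c3⟩ := hs' _ _ h3
          obtain ⟨a4, b4, c4⟩ := hs' _ _ h4
          obtain ⟨s, s1, s2, s3, s4⟩ := csq_of_paths a1 a2 a3 a4 (hne 1 (by omega) (by omega))
          by_cases hii : i = i'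
          · apply h.mono s
            rw [s1, s2, s3, s4, b1, b2, b3, b4]
            exact ⟨rfl, rfl, hii⟩
          · apply c1
            refine ⟨s, ?_, Or.inl s1.symm⟩
            unfold SqSys.Bad
            rw [s1, s2, s3, s4, b1, b2, b3, b4]
            exact ⟨rfl, rfl, hii⟩
      · apply h.long
        refine ⟨t, P, Q, i, i', ht3, by omega, hP0.trans hQ0.symm, hPt.trans hQt.symm, ?_, ?_, hne,
          ?_, ?_⟩
        · intro j hj
          exact (hs _ _ (hPs j hj).1).1
        · intro j hj
          exact (hs' _ _ (hQs j hj).1).1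
        · intro j hj
          exact (hs _ _ (hPs j hj).1).2.1
        · intro j hj
          exact (hs' _ _ (hQs j hj).1).2.1
  intro A B hA1 hA2 hB1 hB2 hc hc'
  rcases le_total A.card B.card with hle | hle
  · exact key (B.card - A.card) A B hA1 (by omega) hB2 hc hc'
  · exact (key (A.card - B.card) B A hB1 (by omega) hA2 hc.symm hc'.symm).symm

end Pool.Agent.SKA
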