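import Pool.Agent.SKA.Defs
import Pool.Agent.OrthoChains.Outer

set_option autoImplicit false

/-!
# SKA OuterX (package, 0.8 h): extension to the outer levels

Adapt `Pool/Agent/OrthoChains/Outer.lean` (`exists_choice`, `extend_outer`, proved) to the window `lo .. n - lo` and the reserved level `k' = n/2 - 2`, `q = n`: `Rsv n B` is definitionally `Pool.Agent.OrthoChains.Res n (n/2-2) n B`, so the
structures `Choice` and `OneRep n lo (n/2-2) n c g g'` and all lemmas of the file (`Win.climb`, `Win.descend`, `OneRep.chain`, ...) can be used as they are; only the two theorems `exists_choice` and `extend_outer` have to be copied with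
`n/2 - 2*s` replaced by `lo`, `n/2 - s` by `n/2 - 2`, and `attach hG Ex hEx` replaced by the hypothesis `hatt Ex hEx`. Numerical facts used there: `lo ≤ n/2 - 2`, `2 (n/2 - 2) ≤ n`, `n/2 - 2 ≤ n - lo` (omega from `hlo`).
-/

open Finset

namespace Pool.Agent.SKA

open Pool.Agent.OrthoChains in
private theorem exists_choiceX {n m lo : ℕ} (hlo : lo + 3 ≤ n / 2)
    (hatt : ∀ Ex : Finset (Fin n) → Finset (Finset (Fin n)), (∀ A, (Ex A).card ≤ m * (n + 2)) →
      ∃ g : Finset (Fin n) → Finset (Fin n),
        (∀ A, A.card < lo → A ⊆ g A ∧ Rsv n (g A) ∧ g A ∉ Ex A) ∧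
        Set.InjOn g {A | A.card < lo})
    (C : ℕ → Finset (Fin n) → Finset (Fin n))
    (hC : ∀ i < m, Win (Res n (n / 2 - 2) n) (lo) (n - (lo)) (C i)) :
    ∀ m' ≤ m, ∃ g g', Choice (Res n (n / 2 - 2) n) (lo) C m' g g' := by
  classical
  have hkc : (n / 2 - 2) ≤ n - (lo) := by omega
  intro m'
  induction m' with
  | zero =>
    intro _
    refine ⟨fun _ A => A, fun _ A => A, ?_, ?_, ?_, ?_, ?_, ?_, ?_⟩ <;> intro i hi <;>
      exact absurd hi (Nat.not_lt_zero i)
  | succ k ih =>
    intro hk
    obtain ⟨g, g', hg⟩ := ih (by omega)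
    have hCk := hC k (by omega)
    -- lower choice
    let Ex : Finset (Fin n) → Finset (Finset (Fin n)) := fun A =>
      Finset.univ.filter (fun B => B.card = n / 2 - 2 ∧ ∃ j < k, ∃ D : Finset (Fin n),
        lo ≤ D.card ∧ D.card ≤ n - (lo) ∧
        C j D = C j (g j A) ∧ C k D = C k B)
    have hEx : ∀ A, (Ex A).card ≤ m * (n + 2) := by
      intro A
      have h1 : ∀ B ∈ Ex A, ∃ p : ℕ × ℕ, p.1 < k ∧ p.2 < n + 1 ∧ ∃ D : Finset (Fin n),
          D.card = p.2 ∧ lo ≤ D.card ∧ D.card ≤ n - (lo) ∧
          C p.1 D = C p.1 (g p.1 A) ∧ C k D = C k B := by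
        intro B hB
        obtain ⟨-, j, hj, D, hD⟩ := (Finset.mem_filter.1 hB).2
        have hDn : D.card ≤ n := by simpa using Finset.card_le_univ D
        exact ⟨(j, D.card), hj, Nat.lt_succ_of_le hDn, D, rfl, hD⟩
      choose! f hf using h1
      have h2 : (Ex A).card ≤ (Finset.range k ×ˢ Finset.range (n + 1)).card := by
        refine Finset.card_le_card_of_injOn f ?_ ?_
        · intro B hB
          have := hf B hB
          simp only [Finset.coe_product, Finset.coe_range, Set.mem_prod, Set.mem_Iio]
          exact ⟨this.1, this.2.1⟩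
        · intro B hB B' hB' hBB
          obtain ⟨h3, -, D, h4, h5, h6, h7, h8⟩ := hf B hB
          obtain ⟨-, -, D', h4', h5', h6', h7', h8'⟩ := hf B' hB'
          rw [← hBB] at h4' h7'
          have hD : D = D' := (hC _ (by omega)).inj D D' h5 h6 (h4.trans h4'.symm)
            (h7.trans h7'.symm)
          have hBc := (Finset.mem_filter.1 hB).2.1
          have hBc' := (Finset.mem_filter.1 hB').2.1
          refine hCk.inj B B' (by omega) (by omega) (hBc.trans hBc'.symm) ?_
          rw [← h8, ← h8', hD]
      rw [Finset.card_product, Finset.card_range, Finset.card_range] at h2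
      refine h2.trans (Nat.mul_le_mul (by omega) (by omega))
    obtain ⟨gk, hgk, hgki⟩ := hatt Ex hEx
    -- upper choice
    let Ex1 : Finset (Fin n) → Finset (Finset (Fin n)) := fun A =>
      Finset.univ.filter (fun B => B.card = n / 2 - 2 ∧ ∃ j < k, ∃ D : Finset (Fin n),
        lo ≤ D.card ∧ D.card ≤ n - (lo) ∧
        C j D = C j (g' j A)ᶜ ∧ C k D = C k Bᶜ)
    let Ex2 : Finset (Fin n) → Finset (Finset (Fin n)) := fun A =>
      Finset.univ.filter (fun B => B.card = n / 2 - 2 ∧ ∃ j < k, ∃ A1 : Finset (Fin n),
        A1.card < lo ∧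
        C j (g j A1) = C j (g' j A)ᶜ ∧ C k (gk A1) = C k Bᶜ)
    have hinjc : ∀ B B' : Finset (Fin n), B.card = n / 2 - 2 → B'.card = n / 2 - 2 →
        C k Bᶜ = C k B'ᶜ → B = B' := by
      intro B B' hB hB' h
      have h1 : (Bᶜ).card = n - (n / 2 - 2) := by rw [Finset.card_compl, hB, Fintype.card_fin]
      have h2 : (B'ᶜ).card = n - (n / 2 - 2) := by rw [Finset.card_compl, hB', Fintype.card_fin]
      have := hCk.inj Bᶜ B'ᶜ (by omega) (by omega) (h1.trans h2.symm) h
      exact compl_injective this
    have hEx1 : ∀ A, (Ex1 A).card ≤ k * (n + 1) := by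
      intro A
      have h1 : ∀ B ∈ Ex1 A, ∃ p : ℕ × ℕ, p.1 < k ∧ p.2 < n + 1 ∧ ∃ D : Finset (Fin n),
          D.card = p.2 ∧ lo ≤ D.card ∧ D.card ≤ n - (lo) ∧
          C p.1 D = C p.1 (g' p.1 A)ᶜ ∧ C k D = C k Bᶜ := by
        intro B hB
        obtain ⟨-, j, hj, D, hD⟩ := (Finset.mem_filter.1 hB).2
        have hDn : D.card ≤ n := by simpa using Finset.card_le_univ D
        exact ⟨(j, D.card), hj, Nat.lt_succ_of_le hDn, D, rfl, hD⟩
      choose! f hf using h1
      have h2 : (Ex1 A).card ≤ (Finset.range k ×ˢ Finset.range (n + 1)).card := by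
        refine Finset.card_le_card_of_injOn f ?_ ?_
        · intro B hB
          have := hf B hB
          simp only [Finset.coe_product, Finset.coe_range, Set.mem_prod, Set.mem_Iio]
          exact ⟨this.1, this.2.1⟩
        · intro B hB B' hB' hBB
          obtain ⟨h3, -, D, h4, h5, h6, h7, h8⟩ := hf B hB
          obtain ⟨-, -, D', h4', h5', h6', h7', h8'⟩ := hf B' hB'
          rw [← hBB] at h4' h7'
          have hD : D = D' := (hC _ (by omega)).inj D D' h5 h6 (h4.trans h4'.symm)
            (h7.trans h7'.symm)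
          refine hinjc B B' (Finset.mem_filter.1 hB).2.1 (Finset.mem_filter.1 hB').2.1 ?_
          rw [← h8, ← h8', hD]
      rwa [Finset.card_product, Finset.card_range, Finset.card_range] at h2
    have hEx2 : ∀ A, (Ex2 A).card ≤ k := by
      intro A
      have h1 : ∀ B ∈ Ex2 A, ∃ p : ℕ, p < k ∧ ∃ A1 : Finset (Fin n),
          A1.card < lo ∧
          C p (g p A1) = C p (g' p A)ᶜ ∧ C k (gk A1) = C k Bᶜ := by
        intro B hB
        obtain ⟨-, j, hj, A1, hA1⟩ := (Finset.mem_filter.1 hB).2
        exact ⟨j, hj, A1, hA1⟩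
      choose! f hf using h1
      have h2 : (Ex2 A).card ≤ (Finset.range k).card := by
        refine Finset.card_le_card_of_injOn f ?_ ?_
        · intro B hB
          rw [Finset.coe_range, Set.mem_Iio]
          exact (hf B hB).1
        · intro B hB B' hB' hBB
          obtain ⟨h3, A1, h4, h5, h6⟩ := hf B hB
          obtain ⟨-, A1', h4', h5', h6'⟩ := hf B' hB'
          rw [← hBB] at h5'
          have e1 := (hg.sub _ h3 A1 h4).2.1
          have e2 := (hg.sub _ h3 A1' h4').2.1
          have hgg : g (f B) A1 = g (f B) A1' := (hC _ (by omega)).inj _ _ (by omega) (by omega)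
            (e1.trans e2.symm) (h5.trans h5'.symm)
          have hA : A1 = A1' := hg.inj _ h3 h4 h4' hgg
          refine hinjc B B' (Finset.mem_filter.1 hB).2.1 (Finset.mem_filter.1 hB').2.1 ?_
          rw [← h6, ← h6', hA]
      rwa [Finset.card_range] at h2
    have hEx' : ∀ A, (Ex1 A ∪ Ex2 A).card ≤ m * (n + 2) := by
      intro A
      refine (Finset.card_union_le _ _).trans ?_
      have := hEx1 A
      have := hEx2 A
      have h3 : k * (n + 1) + k ≤ m * (n + 2) := by
        have : k * (n + 1) + k = k * (n + 2) := by ring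
        rw [this]
        exact Nat.mul_le_mul (by omega) le_rfl
      omega
    obtain ⟨gk', hgk', hgki'⟩ := hatt (fun A => Ex1 A ∪ Ex2 A) hEx'
    refine ⟨Function.update g k gk, Function.update g' k gk', ?_, ?_, ?_, ?_, ?_, ?_, ?_⟩
    · intro i hi A hA
      rcases Nat.lt_succ_iff_lt_or_eq.1 hi with h | h
      · rw [Function.update_of_ne h.ne]; exact hg.sub i h A hA
      · subst h; rw [Function.update_self]; exact ⟨(hgk A hA).1, (hgk A hA).2.1⟩
    · intro i hi
      rcases Nat.lt_succ_iff_lt_or_eq.1 hi with h | h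
      · rw [Function.update_of_ne h.ne]; exact hg.inj i h
      · subst h; rw [Function.update_self]; exact hgki
    · intro i hi A hA
      rcases Nat.lt_succ_iff_lt_or_eq.1 hi with h | h
      · rw [Function.update_of_ne h.ne]; exact hg.sub' i h A hA
      · subst h; rw [Function.update_self]; exact ⟨(hgk' A hA).1, (hgk' A hA).2.1⟩
    · intro i hi
      rcases Nat.lt_succ_iff_lt_or_eq.1 hi with h | h
      · rw [Function.update_of_ne h.ne]; exact hg.inj' i h
      · subst h; rw [Function.update_self]; exact hgki'
    · intro i hi j hj A D hA hD1 hD2 h1 h2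
      rcases Nat.lt_succ_iff_lt_or_eq.1 hi with h | h
      · rw [Function.update_of_ne (hj.trans h).ne] at h1
        rw [Function.update_of_ne h.ne] at h2
        exact hg.low i h j hj A D hA hD1 hD2 h1 h2
      · subst h
        rw [Function.update_of_ne hj.ne] at h1
        rw [Function.update_self] at h2
        refine (hgk A hA).2.2 (Finset.mem_filter.2 ⟨Finset.mem_univ _, (hgk A hA).2.1.1, j, hj, D,
          hD1, hD2, h1, h2⟩)
    · intro i hi j hj A D hA hD1 hD2 h1 h2
      rcases Nat.lt_succ_iff_lt_or_eq.1 hi with h | h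
      · rw [Function.update_of_ne (hj.trans h).ne] at h1
        rw [Function.update_of_ne h.ne] at h2
        exact hg.high i h j hj A D hA hD1 hD2 h1 h2
      · subst h
        rw [Function.update_of_ne hj.ne] at h1
        rw [Function.update_self] at h2
        refine (hgk' A hA).2.2 (Finset.mem_union_left _ (Finset.mem_filter.2
          ⟨Finset.mem_univ _, (hgk' A hA).2.1.1, j, hj, D, hD1, hD2, h1, h2⟩))
    · intro i hi j hj A A' hA hA' h1 h2
      rcases Nat.lt_succ_iff_lt_or_eq.1 hi with h | h
      · rw [Function.update_of_ne (hj.trans h).ne, Function.update_of_ne (hj.trans h).ne] at h1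
        rw [Function.update_of_ne h.ne, Function.update_of_ne h.ne] at h2
        exact hg.both i h j hj A A' hA hA' h1 h2
      · subst h
        rw [Function.update_of_ne hj.ne, Function.update_of_ne hj.ne] at h1
        rw [Function.update_self, Function.update_self] at h2
        refine (hgk' A' hA').2.2 (Finset.mem_union_right _ (Finset.mem_filter.2
          ⟨Finset.mem_univ _, (hgk' A' hA').2.1.1, j, hj, A, hA, h1, h2⟩))

open Pool.Agent.OrthoChains in
theorem extend_outerX {n m lo : ℕ} (hlo : lo + 3 ≤ n / 2)
    (hatt : ∀ Ex : Finset (Fin n) → Finset (Finset (Fin n)), (∀ A, (Ex A).card ≤ m * (n + 2)) →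
      ∃ g : Finset (Fin n) → Finset (Fin n),
        (∀ A, A.card < lo → A ⊆ g A ∧ Rsv n (g A) ∧ g A ∉ Ex A) ∧
        Set.InjOn g {A | A.card < lo})
    (c : Fin m → Finset (Fin n) → Finset (Fin n))
    (hc : ∀ i, Pool.Agent.OrthoChains.Win (Rsv n) lo (n - lo) (c i))
    (hcc : ∀ i j, i ≠ j → Pool.Agent.OrthoChains.Orth lo (n - lo) (c i) (c j)) :
    ∃ e : Fin m → Finset (Fin n) → Finset (Fin n), Pool.Agent.OrthoChains.Full e := by
  classical
  let C : ℕ → Finset (Fin n) → Finset (Fin n) := fun i => if h : i < m then c ⟨i, h⟩ else fun A => A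
  have hCc : ∀ i : Fin m, C i = c i := fun i => by
    change (if h : (i : ℕ) < m then c ⟨i, h⟩ else fun A => A) = c i
    rw [dif_pos i.2]
  have hC : ∀ i < m, Win (Res n (n / 2 - 2) n) lo (n - lo) (C i) := by
    intro i hi
    rw [hCc ⟨i, hi⟩]
    exact hc _
  obtain ⟨g, g', hg⟩ := exists_choiceX hlo hatt C hC m le_rfl
  have hone : ∀ i : Fin m, OneRep n lo (n / 2 - 2) n (c i) (g i) (g' i) := by
    intro i
    exact ⟨hc i, by omega, by omega, hg.sub i i.2, hg.inj i i.2, hg.sub' i i.2, hg.inj' i i.2⟩
  refine ⟨fun i A => c i (rep lo (g i) (g' i) A), ?_, ?_, ?_, ?_⟩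
  · intro i A B h
    rcases le_total A.card B.card with h1 | h1
    · exact Or.inl ((hone i).chain h1 h)
    · exact Or.inr ((hone i).chain h1 h.symm)
  · intro i A
    obtain ⟨h1, h2⟩ := (hone i).rep_window A
    have hM : ∃ M : Finset (Fin n), M.card = n / 2 ∧ c i M = c i (rep lo (g i) (g' i) A) := by
      rcases le_total (rep lo (g i) (g' i) A).card (n / 2) with h | h
      · obtain ⟨Z, hZ, hZA⟩ := (hc i).climb (n / 2 - (rep lo (g i) (g' i) A).card) _ h1
          (by omega) (by omega)
        exact ⟨Z, by omega, hZA⟩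
      · obtain ⟨Z, hZ, hZA⟩ := (hc i).descend ((rep lo (g i) (g' i) A).card - n / 2) _ h2
          (by omega) (by omega)
        exact ⟨Z, by omega, hZA⟩
    obtain ⟨M, hM1, hM2⟩ := hM
    refine ⟨M, hM1, ?_⟩
    have : rep lo (g i) (g' i) M = M := by
      unfold rep; rw [if_neg (by omega), if_neg (by omega)]
    rw [this, hM2]
  · intro i M M' hM hM' h
    have e1 : rep lo (g i) (g' i) M = M := by
      unfold rep; rw [if_neg (by omega), if_neg (by omega)]
    have e2 : rep lo (g i) (g' i) M' = M' := by
      unfold rep; rw [if_neg (by omega), if_neg (by omega)]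
    rw [e1, e2] at h
    exact (hc i).inj M M' (by omega) (by omega) (hM.trans hM'.symm) h
  · -- orthogonality, first for `j < i` and `|A| ≤ |B|`
    have key : ∀ i j : Fin m, j < i → ∀ A B : Finset (Fin n), A.card ≤ B.card →
        c i (rep lo (g i) (g' i) A) = c i (rep lo (g i) (g' i) B) →
        c j (rep lo (g j) (g' j) A) = c j (rep lo (g j) (g' j) B) → A = B := by
      intro i j hij A B hAB h1 h2
      have hij' : (j : ℕ) < (i : ℕ) := hij
      by_cases hA : A.card < lo
      · have rA : ∀ i : Fin m, rep lo (g i) (g' i) A = g i A := fun i => by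
          unfold rep; rw [if_pos hA]
        rw [rA] at h1 h2
        by_cases hB : B.card < lo
        · have rB : ∀ i : Fin m, rep lo (g i) (g' i) B = g i B := fun i => by
            unfold rep; rw [if_pos hB]
          rw [rB] at h1 h2
          exact (hone i).eq_low hA hB h1
        · exfalso
          by_cases hB2 : n - lo < B.card
          · have rB : ∀ i : Fin m, rep lo (g i) (g' i) B = (g' i Bᶜ)ᶜ := fun i => by
              unfold rep; rw [if_neg hB, if_pos hB2]
            rw [rB] at h1 h2
            refine hg.both i i.2 j hij' A Bᶜ hA (compl_card_lt hB2) ?_ ?_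
            · rw [hCc]; exact h2
            · rw [hCc]; exact h1
          · have rB : ∀ i : Fin m, rep lo (g i) (g' i) B = B := fun i => by
              unfold rep; rw [if_neg hB, if_neg hB2]
            rw [rB] at h1 h2
            refine hg.low i i.2 j hij' A B hA (by omega) (by omega) ?_ ?_
            · rw [hCc]; exact h2.symm
            · rw [hCc]; exact h1.symm
      · by_cases hA2 : n - lo < A.card
        · have hB2 : n - lo < B.card := by omega
          have rA : ∀ i : Fin m, rep lo (g i) (g' i) A = (g' i Aᶜ)ᶜ := fun i => by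
            unfold rep; rw [if_neg hA, if_pos hA2]
          have rB : ∀ i : Fin m, rep lo (g i) (g' i) B = (g' i Bᶜ)ᶜ := fun i => by
            unfold rep; rw [if_neg (by omega), if_pos hB2]
          rw [rA, rB] at h1
          exact (hone i).eq_high hA2 hB2 h1
        · have rA : ∀ i : Fin m, rep lo (g i) (g' i) A = A := fun i => by
            unfold rep; rw [if_neg hA, if_neg hA2]
          rw [rA] at h1 h2
          by_cases hB2 : n - lo < B.card
          · exfalso
            have rB : ∀ i : Fin m, rep lo (g i) (g' i) B = (g' i Bᶜ)ᶜ := fun i => by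
              unfold rep; rw [if_neg (by omega), if_pos hB2]
            rw [rB] at h1 h2
            refine hg.high i i.2 j hij' Bᶜ A (compl_card_lt hB2) (by omega) (by omega) ?_ ?_
            · rw [hCc]; exact h2
            · rw [hCc]; exact h1
          · have rB : ∀ i : Fin m, rep lo (g i) (g' i) B = B := fun i => by
              unfold rep; rw [if_neg (by omega), if_neg hB2]
            rw [rB] at h1 h2
            exact hcc i j (ne_of_gt hij) A B (by omega) (by omega) (by omega) (by omega) h1 h2
    intro i j hij A B h1 h2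
    rcases lt_or_gt_of_ne hij with h | h
    · rcases le_total A.card B.card with h3 | h3
      · exact key j i h A B h3 h2 h1
      · exact (key j i h B A h3 h2.symm h1.symm).symm
    · rcases le_total A.card B.card with h3 | h3
      · exact key i j h A B h3 h1 h2
      · exact (key i j h B A h3 h1.symm h2.symm).symm

end Pool.Agent.SKA
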