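import Pool.Agent.SKA.GoodEx
import Pool.Agent.SKA.MtOf
import Pool.Agent.SKA.OrthOf
import Pool.Agent.SKA.AttachX
import Pool.Agent.SKA.OuterX
import Pool.Agent.SKA.NumA
import Pool.Agent.SKA.NumB
import Pool.Agent.SKA.NumC
import Pool.Agent.SKA.NumD
import Pool.Agent.OrthoChains.Final

set_option autoImplicit false

/-!
# SKA Main (package, 1.2 h): assembly

`nums_eventually`: combine `numA_le`, ..., `numC_outer` (take the maximum of the `r0` and `93`); `n2` from `numA_le`: `n < (r+1)^40 ≤ 2r^40`.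
`full_of_nums`: `exists_good` gives `ω`; `numD` gives `ℓ`; `exists_mts` (with `ε = 1/r²`, `M = r^32`, `2ε ≤ 1`) gives `up, dn : Fin M × Fin ℓ → ..`; `win_of` (`lo + 3 ≤ n/2` from `Nums.win`: `lo = n/2 - r^22`, `r^22 ≥ 3`) gives for each `p` a label function `c p` with
`Win` and the path property; `orth_of` (`T = 2r^22+1 ≥ n - 2 lo`) gives `Orth` for `p ≠ p'`. Re-index by `Fin (r^32 * ℓ)` (`finProdFinEquiv : Fin m × Fin n ≃ Fin (m * n)`). `extend_outerX` with `attachX` (`hnum` from `Nums.outer`, as `m = r^32 ℓ ≤ n`: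
`m (n+2) ≤ n (n+2)`) gives `Full e`.
`main`: by `Pool.Agent.OrthoChains.of_full`. Given `n`, let `r` be the largest natural number with `r^40 ≤ n` (`Nat.findGreatest` or `Nat.nthRoot`, `⌊n^(1/40)⌋₊`). If `r ≥ r0`: `m = r^32 ℓ ≥ n/2 - 4 r^38` and `r^38 ≤ n^(19/20)` (`r ≤ n^(1/40)`), so `C ≥ 4` works. If
`r < r0`: `n < (r0+1)^40`; take `m = 0`: need `n/2 - C n^(19/20) ≤ 0`: for `n = 0` both are `0` (`0^(19/20) = 0`), for `n ≥ 1`: `n^(19/20) ≥ 1`, and `C ≥ (r0+1)^40` suffices.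
-/

open Finset

namespace Pool.Agent.SKA

theorem nums_eventually : ∃ r0 : ℕ, ∀ n r : ℕ, r0 ≤ r → r ^ 40 ≤ n → n < (r + 1) ^ 40 → Nums n r := by
  obtain ⟨ra, hra⟩ := numA_le
  obtain ⟨rb, hrb⟩ := numA_exp
  obtain ⟨rc, hrc⟩ := numA_log
  obtain ⟨rd, hrd⟩ := numB_cost
  obtain ⟨re, hre⟩ := numC_outer
  refine ⟨ra + rb + rc + rd + re + 93, fun n r hr h1 h2 => ?_⟩
  have h93 : 93 ≤ r := by omega
  have h3 : n ≤ 2 * r ^ 40 := h2.le.trans (hra r (by omega))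
  exact
    { hr := h93
      n1 := h1
      n2 := h3
      hexp := hrb n r (by omega) h3
      hlog := hrc n r (by omega) h3
      lev := (numA_lev h93 h1).2
      win := (numA_lev h93 h1).1
      f0 := numA_f0 h93 h1
      small := numA_small h93 h3
      len := numA_len h93 h3
      cost := hrd n r (by omega) h1 h3
      outer := hre n r (by omega) h1 h3 }

theorem full_of_nums {n r : ℕ} (h : Nums n r) : ∃ m : ℕ, (n : ℝ) / 2 - 4 * (r : ℝ) ^ 38 ≤ m ∧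
    ∃ e : Fin m → Finset (Fin n) → Finset (Fin n), Pool.Agent.OrthoChains.Full e := by
  obtain ⟨ω, hω⟩ := exists_good h
  obtain ⟨ℓ, hℓ1, hℓ2, hℓ3⟩ := numD h
  have hr := h.hr
  have hw := h.win
  have hr22 : 93 ≤ r ^ 22 := le_trans hr (Nat.le_self_pow (by norm_num) r)
  have hlo : n / 2 - r ^ 22 + 3 ≤ n / 2 := by omega
  have hrR : (93 : ℝ) ≤ r := by exact_mod_cast hr
  have hε : 2 * (1 / (r : ℝ) ^ 2) ≤ 1 := by
    have h1 : (2 : ℝ) ≤ (r : ℝ) ^ 2 := by nlinarith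
    rw [mul_one_div, div_le_one (by positivity)]
    exact h1
  obtain ⟨up, dn, hmt, hst, hdis⟩ := exists_mts hω hε hℓ1
  have hwin := fun p => win_of (hmt p) hlo
  choose c hc hpath using hwin
  have horth : ∀ p p', p ≠ p' → Pool.Agent.OrthoChains.Orth (n / 2 - r ^ 22)
      (n - (n / 2 - r ^ 22)) (c p) (c p') := by
    intro p p' hpp
    exact orth_of hω (by omega) (hc p) (hc p') (hpath p) (hpath p') (hst p) (hst p')
      (hdis p p' hpp)
  refine ⟨r ^ 32 * ℓ, hℓ3, ?_⟩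
  refine extend_outerX hlo ?_ (fun i => c (finProdFinEquiv.symm i)) (fun i => hc _) ?_
  · intro Ex hEx
    refine attachX hlo ?_ Ex hEx
    intro a ha
    refine le_trans ?_ (h.outer a ha)
    refine Nat.mul_le_mul le_rfl (Nat.add_le_add le_rfl (Nat.mul_le_mul hℓ2 le_rfl))
  · intro i j hij
    exact horth _ _ (fun h => hij (finProdFinEquiv.symm.injective h))

private theorem pow_aux (x y : ℝ) (hx : 0 ≤ x) (h : x ^ 40 ≤ y) : x ^ 38 ≤ y ^ (19 / 20 : ℝ) := by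
  have h0 : 0 ≤ x ^ 40 := pow_nonneg hx 40
  have h3 : (x ^ 40) ^ (19 / 20 : ℝ) ≤ y ^ (19 / 20 : ℝ) :=
    Real.rpow_le_rpow h0 h (by norm_num)
  have h4 : (x ^ 40) ^ (19 / 20 : ℝ) = x ^ 38 := by
    rw [← Real.rpow_natCast, ← Real.rpow_natCast, ← Real.rpow_mul hx]
    norm_num
  rwa [h4] at h3

private theorem real_aux (a b c K m : ℝ) (h1 : b ≤ c) (h2 : 0 ≤ K * c) (h3 : a - 4 * b ≤ m) :
    a - (4 + K) * c ≤ m := by
  have h7 : (4 + K) * c = 4 * c + K * c := by ring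
  rw [h7]
  linarith

open Ne731736f in
theorem main : ∃ C : ℝ, ∀ n : ℕ, ∃ m : ℕ, (n : ℝ) / 2 - C * (n : ℝ) ^ (19 / 20 : ℝ) ≤ m ∧
    ∃ F : Fin m → Finset (Finset (Finset (Fin n))),
      (∀ i, IsChainDecomposition (F i)) ∧ (∀ i j, i ≠ j → Orthogonal (F i) (F j)) := by
  obtain ⟨r0, hr0⟩ := nums_eventually
  obtain ⟨K, hK⟩ : ∃ K : ℝ, K = ((r0 : ℝ) + 1) ^ 40 := ⟨_, rfl⟩
  have hK0 : 0 ≤ K := by rw [hK]; positivity
  refine ⟨4 + K, fun n => ?_⟩
  obtain ⟨r, hr1, hr2⟩ : ∃ r : ℕ, r ^ 40 ≤ n ∧ n < (r + 1) ^ 40 := by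
    have h1 : ∃ r : ℕ, n < (r + 1) ^ 40 :=
      ⟨n, lt_of_lt_of_le (Nat.lt_succ_self n) (Nat.le_self_pow (by norm_num) (n + 1))⟩
    classical
    refine ⟨Nat.find h1, ?_, Nat.find_spec h1⟩
    by_contra h2
    push Not at h2
    rcases Nat.eq_zero_or_pos (Nat.find h1) with h3 | h3
    · rw [h3] at h2
      simp at h2
    · have h4 := Nat.find_min h1 (m := Nat.find h1 - 1) (by omega)
      rw [Nat.sub_add_cancel h3] at h4
      exact h4 h2
  rcases Nat.lt_or_ge r r0 with hlt | hge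
  · -- small n
    refine ⟨0, ?_, fun i => i.elim0, fun i => i.elim0, fun i => i.elim0⟩
    rcases Nat.eq_zero_or_pos n with rfl | hn
    · simp
    · have hn1 : (1 : ℝ) ≤ n := by exact_mod_cast hn
      have h1 : (1 : ℝ) ≤ (n : ℝ) ^ (19 / 20 : ℝ) := Real.one_le_rpow hn1 (by norm_num)
      have h2 : (n : ℝ) ≤ K := by
        have h3 : n ≤ (r0 + 1) ^ 40 :=
          hr2.le.trans (Nat.pow_le_pow_left (by omega) 40)
        have h5 : (n : ℝ) ≤ (((r0 + 1) ^ 40 : ℕ) : ℝ) := Nat.cast_le.2 h3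
        rw [hK]
        rwa [Nat.cast_pow, Nat.cast_add, Nat.cast_one] at h5
      have h4 : (n : ℝ) ≤ (4 + K) * (n : ℝ) ^ (19 / 20 : ℝ) := by
        calc (n : ℝ) ≤ (4 + K) * 1 := by linarith
          _ ≤ _ := mul_le_mul_of_nonneg_left h1 (by positivity)
      rw [Nat.cast_zero]
      linarith
  · obtain ⟨m, hm, e, he⟩ := full_of_nums (hr0 n r hge hr1 hr2)
    obtain ⟨F, hF1, hF2⟩ := Pool.Agent.OrthoChains.of_full e he
    have h1 : (r : ℝ) ^ 38 ≤ (n : ℝ) ^ (19 / 20 : ℝ) := by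
      refine pow_aux (r : ℝ) (n : ℝ) (Nat.cast_nonneg r) ?_
      have h2 : ((r ^ 40 : ℕ) : ℝ) ≤ (n : ℝ) := Nat.cast_le.2 hr1
      rwa [Nat.cast_pow] at h2
    have h5 : 0 ≤ K * (n : ℝ) ^ (19 / 20 : ℝ) :=
      mul_nonneg hK0 (Real.rpow_nonneg (Nat.cast_nonneg n) _)
    exact ⟨m, real_aux _ _ _ _ _ h1 h5 hm, F, hF1, hF2⟩

end Pool.Agent.SKA
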