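import Pool.Agent.SKA.Defs

set_option autoImplicit false

/-!
# SKA Prob (package, 0.4 h): elementary facts on the uniform probability `pr`

All statements are immediate from `Set.ncard` lemmas (`Set.ncard_le_ncard`, `Set.ncard_union_le`,
`Set.ncard_inter_add_ncard_diff_eq_ncard`, `Set.ncard_univ`, `Nat.card_eq_fintype_card`,
`Fintype.card_fun`/`Fintype.card_pi`); every set of colourings is finite (`Set.toFinite _`).
`pr univ = 1` needs `0 < M`.
-/

open Finset

namespace Pool.Agent.SKA

variable {I : Type} [Fintype I] [DecidableEq I] {M : ℕ}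

theorem pr_nonneg (A : Set (I → Fin M)) : 0 ≤ pr A := by
  unfold pr
  positivity

theorem pr_mono {A B : Set (I → Fin M)} (h : A ⊆ B) : pr A ≤ pr B := by
  unfold pr
  have h1 : A.ncard ≤ B.ncard := Set.ncard_le_ncard h (Set.toFinite _)
  have h2 : (A.ncard : ℝ) ≤ B.ncard := by exact_mod_cast h1
  exact div_le_div_of_nonneg_right h2 (by positivity)

theorem pr_univ (hM : 0 < M) : pr (Set.univ : Set (I → Fin M)) = 1 := by
  unfold pr
  have h1 : (Set.univ : Set (I → Fin M)).ncard = M ^ Fintype.card I := by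
    rw [Set.ncard_univ, Nat.card_eq_fintype_card, Fintype.card_fun, Fintype.card_fin]
  rw [h1, Nat.cast_pow]
  have h2 : (0 : ℝ) < M := by exact_mod_cast hM
  exact div_self (pow_pos h2 _).ne'

theorem pr_union_le (A B : Set (I → Fin M)) : pr (A ∪ B) ≤ pr A + pr B := by
  unfold pr
  rw [← add_div]
  have h1 : (A ∪ B).ncard ≤ A.ncard + B.ncard := Set.ncard_union_le A B
  have h2 : ((A ∪ B).ncard : ℝ) ≤ A.ncard + B.ncard := by exact_mod_cast h1
  exact div_le_div_of_nonneg_right h2 (by positivity)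

/-- Splitting along an event. -/
theorem pr_inter_add_diff (A B : Set (I → Fin M)) : pr (B ∩ A) + pr (B \ A) = pr B := by
  unfold pr
  rw [← add_div]
  have h1 : (B ∩ A).ncard + (B \ A).ncard = B.ncard :=
    Set.ncard_inter_add_ncard_sdiff_eq_ncard B A (Set.toFinite _)
  have h2 : ((B ∩ A).ncard : ℝ) + (B \ A).ncard = B.ncard := by exact_mod_cast h1
  rw [h2]

theorem exists_of_pr_pos {A : Set (I → Fin M)} (h : 0 < pr A) : ∃ ω, ω ∈ A := by
  by_contra hne
  have h1 : A = ∅ := Set.eq_empty_iff_forall_notMem.2 fun ω hω => hne ⟨ω, hω⟩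
  rw [h1] at h
  unfold pr at h
  rw [Set.ncard_empty, Nat.cast_zero, zero_div] at h
  exact lt_irrefl _ h

end Pool.Agent.SKA
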