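import Pool.Agent.SKA.Defs

set_option autoImplicit false

/-!
# SKA Supply (package, 1.3 h): reserved sets above a given set

Proof. `k' = n/2 - 2`, `a = |A|`. Count the pairs `(C, {u,v})` with `A ⊆ C`, `|C| = k' - 2`, `u ≠ v`, `u, v ∉ C`, `n ∣ ∑_C + u + v` (residues of `Fin n`).
(1) For fixed `C` the number of ordered pairs `(u,v)` of elements of `Cᶜ` with `u + v ≡ -∑_C (mod n)` is at least `2|Cᶜ| - n = 2(n - k' + 2) - n = n - 2k' + 4 ≥ 8`: the map `u ↦ v(u)` = the unique element with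
`u + v ≡ -∑_C` is a bijection of `Fin n`, and `|{u ∈ Cᶜ : v(u) ∈ Cᶜ}| ≥ |Cᶜ| + |Cᶜ| - n`. At most `2` of them have `u = v`: `2u ≡ s (mod n)`, `0 ≤ u < n` means `2u ∈ {s0, s0 + n}` for the residue `0 ≤ s0 < n`. So at least `6` ordered
pairs with `u ≠ v`.
(2) The number of `C` is `(n-a).choose (k'-2-a)`.
(3) Map `(C,u,v)` (ordered) to `B = C ∪ {u,v}`: a reserved set above `A`. Every `B` has at most `(k'-a)(k'-a-1)` preimages (`u, v ∈ B \ A`, `u ≠ v`, ordered).
So `6 (n-a).choose (k'-2-a) ≤ #B (k'-a)(k'-a-1)`.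
(4) `(n-a).choose (k'-a) (k'-a)(k'-a-1) = (n-a).choose (k'-a-2) (n-k'+2)(n-k'+1)` (twice `Nat.choose_succ_right_eq`), so
`6 (n-a).choose (k'-a) (k'-a)(k'-a-1) ≤ #B (k'-a)(k'-a-1)(n-k'+2)(n-k'+1)`; cancel `(k'-a)(k'-a-1) > 0` (`a + 2 ≤ k'`), and `(n-k'+2)(n-k'+1) ≤ n²` since `k' ≥ 2` (`a + 2 ≤ k'`).
-/

open Finset

namespace Pool.Agent.SKA

/-- The coordinates as residues. -/
private noncomputable def eqv (n : ℕ) [NeZero n] : Fin n ≃ ZMod n :=
  Equiv.ofBijective (fun u => ((u : ℕ) : ZMod n)) (by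
    rw [Fintype.bijective_iff_injective_and_card]
    refine ⟨fun u v h => ?_, by rw [Fintype.card_fin, ZMod.card]⟩
    have h1 := congrArg ZMod.val h
    simp only at h1
    rw [ZMod.val_natCast_of_lt u.2, ZMod.val_natCast_of_lt v.2] at h1
    exact Fin.ext h1)

private theorem eqv_apply (n : ℕ) [NeZero n] (u : Fin n) : eqv n u = ((u : ℕ) : ZMod n) := rfl

/-- The partner of `u`. -/
private noncomputable def prt {n : ℕ} [NeZero n] (C : Finset (Fin n)) : Equiv.Perm (Fin n) :=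
  (eqv n).trans ((Equiv.subLeft (-((∑ x ∈ C, (x : ℕ) : ℕ) : ZMod n))).trans (eqv n).symm)

private theorem prt_spec {n : ℕ} [NeZero n] (C : Finset (Fin n)) (u : Fin n) :
    n ∣ (∑ x ∈ C, (x : ℕ)) + u + prt C u := by
  rw [← ZMod.natCast_eq_zero_iff]
  have h1 : (((prt C u : Fin n) : ℕ) : ZMod n) =
      -((∑ x ∈ C, (x : ℕ) : ℕ) : ZMod n) - ((u : ℕ) : ZMod n) := by
    rw [← eqv_apply, ← eqv_apply]
    exact (eqv n).apply_symm_apply _
  rw [Nat.cast_add, Nat.cast_add, h1]
  ring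

open Classical in
/-- The fixed points of the partner map. -/
private theorem fix_le {n : ℕ} [NeZero n] (C : Finset (Fin n)) :
    (univ.filter fun u : Fin n => prt C u = u).card ≤ 2 := by
  have h : (univ.filter fun u : Fin n => prt C u = u).card ≤ (univ : Finset Bool).card := by
    refine Finset.card_le_card_of_injOn (fun u => decide (n ≤ 2 * (u : ℕ)))
      (fun _ _ => mem_coe.2 (mem_univ _)) ?_
    intro u hu v hv huv
    rw [mem_coe, mem_filter] at hu hv
    have h1 := prt_spec C u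
    have h2 := prt_spec C v
    rw [hu.2] at h1
    rw [hv.2] at h2
    have h3 : (n : ℤ) ∣ 2 * (u : ℤ) - 2 * (v : ℤ) := by
      have h4 := dvd_sub (Int.natCast_dvd_natCast.2 h1) (Int.natCast_dvd_natCast.2 h2)
      have e : (((∑ x ∈ C, (x : ℕ)) + (u : ℕ) + (u : ℕ) : ℕ) : ℤ) -
          (((∑ x ∈ C, (x : ℕ)) + (v : ℕ) + (v : ℕ) : ℕ) : ℤ) = 2 * (u : ℤ) - 2 * (v : ℤ) := by
        push_cast
        ring
      rwa [e] at h4
    have hu' := u.2
    have hv' := v.2
    have h5 : 2 * (u : ℤ) - 2 * (v : ℤ) = 0 := by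
      refine Int.eq_zero_of_abs_lt_dvd h3 ?_
      have h6 : (n ≤ 2 * (u : ℕ)) ↔ (n ≤ 2 * (v : ℕ)) := by
        simpa using huv
      rw [abs_lt]
      by_cases h7 : n ≤ 2 * (u : ℕ)
      · have h8 := h6.1 h7
        omega
      · have h8 : ¬ n ≤ 2 * (v : ℕ) := fun h => h7 (h6.2 h)
        omega
    exact Fin.ext (by omega)
  rwa [Finset.card_univ, Fintype.card_bool] at h

open Classical in
/-- The good elements. -/
private noncomputable def Qc {n : ℕ} [NeZero n] (C : Finset (Fin n)) : Finset (Fin n) :=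
  univ.filter fun u => u ∉ C ∧ prt C u ∉ C ∧ prt C u ≠ u

open Classical in
private theorem Qc_card {n : ℕ} [NeZero n] (C : Finset (Fin n)) :
    n ≤ (Qc C).card + 2 * C.card + 2 := by
  have h1 : (univ : Finset (Fin n)) ⊆ (Qc C ∪ C ∪ C.map (prt C).symm.toEmbedding) ∪
      (univ.filter fun u : Fin n => prt C u = u) := by
    intro u _
    rw [mem_union, mem_union, mem_union]
    by_cases a1 : u ∈ C
    · exact Or.inl (Or.inl (Or.inr a1))
    by_cases a2 : prt C u ∈ C
    · refine Or.inl (Or.inr (mem_map.2 ⟨_, a2, ?_⟩))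
      exact (prt C).symm_apply_apply u
    by_cases a3 : prt C u = u
    · exact Or.inr (mem_filter.2 ⟨mem_univ _, a3⟩)
    · exact Or.inl (Or.inl (Or.inl (mem_filter.2 ⟨mem_univ _, a1, a2, a3⟩)))
  have h2 := card_le_card h1
  rw [card_univ, Fintype.card_fin] at h2
  have h3 := card_union_le (Qc C ∪ C ∪ C.map (prt C).symm.toEmbedding)
    (univ.filter fun u : Fin n => prt C u = u)
  have h4 := card_union_le (Qc C ∪ C) (C.map (prt C).symm.toEmbedding)
  have h5 := card_union_le (Qc C) C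
  have h6 := fix_le C
  rw [card_map] at h4
  omega

private theorem arith {N j b n : ℕ} (h1 : 6 * N.choose j ≤ b * ((j + 2) * (j + 1)))
    (hj : j + 2 ≤ N) (hn : N - j ≤ n) : 6 * N.choose (j + 2) ≤ n ^ 2 * b := by
  have e1 : N.choose (j + 2) * (j + 2) = N.choose (j + 1) * (N - (j + 1)) :=
    Nat.choose_succ_right_eq N (j + 1)
  have e2 : N.choose (j + 1) * (j + 1) = N.choose j * (N - j) := Nat.choose_succ_right_eq N j
  have h2 : 6 * N.choose (j + 2) * ((j + 2) * (j + 1)) ≤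
      (b * ((N - j) * (N - (j + 1)))) * ((j + 2) * (j + 1)) := by
    calc 6 * N.choose (j + 2) * ((j + 2) * (j + 1)) =
        6 * ((N.choose (j + 2) * (j + 2)) * (j + 1)) := by ring
      _ = 6 * ((N.choose (j + 1) * (j + 1)) * (N - (j + 1))) := by rw [e1]; ring
      _ = (6 * N.choose j) * ((N - j) * (N - (j + 1))) := by rw [e2]; ring
      _ ≤ (b * ((j + 2) * (j + 1))) * ((N - j) * (N - (j + 1))) := Nat.mul_le_mul_right _ h1
      _ = (b * ((N - j) * (N - (j + 1)))) * ((j + 2) * (j + 1)) := by ring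
  have h3 := Nat.le_of_mul_le_mul_right h2 (by positivity)
  refine h3.trans ?_
  rw [mul_comm (n ^ 2), pow_two]
  exact Nat.mul_le_mul_left _ (Nat.mul_le_mul hn ((Nat.sub_le_sub_left (by omega) N).trans hn))

open Classical in
theorem supply {n : ℕ} (A : Finset (Fin n)) (hA : A.card + 2 ≤ n / 2 - 2) :
    6 * (n - A.card).choose (n / 2 - 2 - A.card) ≤
      n ^ 2 * (univ.filter (fun B => A ⊆ B ∧ Rsv n B)).card := by
  have hn0 : n ≠ 0 := by
    rintro rfl
    simp at hA
  have : NeZero n := ⟨hn0⟩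
  obtain ⟨j, hj⟩ : ∃ j, n / 2 - 2 - A.card = j + 2 := ⟨n / 2 - 2 - A.card - 2, by omega⟩
  rw [hj]
  have hAc : (Aᶜ).card = n - A.card := by rw [card_compl, Fintype.card_fin]
  set 𝒞 : Finset (Finset (Fin n)) := (powersetCard j Aᶜ).image (fun D => A ∪ D) with h𝒞
  have hdis : ∀ D ∈ powersetCard j Aᶜ, Disjoint A D := by
    intro D hD
    rw [mem_powersetCard] at hD
    exact Disjoint.mono_right hD.1 (disjoint_compl_right : Disjoint A Aᶜ)
  have hcard : 𝒞.card = (n - A.card).choose j := by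
    rw [h𝒞, card_image_of_injOn, card_powersetCard, hAc]
    intro D hD D' hD' h
    have h1 := hdis D (mem_coe.1 hD)
    have h2 := hdis D' (mem_coe.1 hD')
    have h3 : (A ∪ D) \ A = (A ∪ D') \ A := by
      simp only at h
      rw [h]
    rwa [union_sdiff_cancel_left h1, union_sdiff_cancel_left h2] at h3
  have hC : ∀ C ∈ 𝒞, A ⊆ C ∧ C.card = A.card + j := by
    intro C hC
    obtain ⟨D, hD, rfl⟩ := mem_image.1 hC
    refine ⟨subset_union_left, ?_⟩
    rw [card_union_of_disjoint (hdis D hD), (mem_powersetCard.1 hD).2]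
  set P : Finset (Σ _ : Finset (Fin n), Fin n) := 𝒞.sigma fun C => Qc C with hP
  have hlow : 6 * (n - A.card).choose j ≤ P.card := by
    rw [hP, card_sigma, ← hcard, mul_comm, ← smul_eq_mul]
    refine Finset.card_nsmul_le_sum _ _ _ fun C hC' => ?_
    have h1 := Qc_card C
    have h2 := (hC C hC').2
    omega
  let f : (Σ _ : Finset (Fin n), Fin n) → Finset (Fin n) := fun x =>
    x.1 ∪ {x.2, prt x.1 x.2}
  have hmem : ∀ x ∈ P, (A ⊆ x.1 ∧ x.1.card = A.card + j) ∧ x.2 ∉ x.1 ∧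
      prt x.1 x.2 ∉ x.1 ∧ prt x.1 x.2 ≠ x.2 := by
    intro x hx
    rw [hP, mem_sigma] at hx
    exact ⟨hC _ hx.1, (mem_filter.1 hx.2).2⟩
  have hdj : ∀ x ∈ P, Disjoint x.1 {x.2, prt x.1 x.2} := by
    intro x hx
    obtain ⟨-, h1, h2, -⟩ := hmem x hx
    rw [disjoint_insert_right, disjoint_singleton_right]
    exact ⟨h1, h2⟩
  have hfc : ∀ x ∈ P, (f x).card = A.card + j + 2 := by
    intro x hx
    obtain ⟨⟨-, h0⟩, h1, h2, h3⟩ := hmem x hx
    change (x.1 ∪ {x.2, prt x.1 x.2}).card = _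
    rw [card_union_of_disjoint (hdj x hx), h0, card_pair (Ne.symm h3)]
  have himg : P.image f ⊆ univ.filter (fun B => A ⊆ B ∧ Rsv n B) := by
    intro B hB
    obtain ⟨x, hx, rfl⟩ := mem_image.1 hB
    obtain ⟨⟨h0, -⟩, h1, h2, h3⟩ := hmem x hx
    refine mem_filter.2 ⟨mem_univ _, h0.trans subset_union_left, ?_, ?_⟩
    · rw [hfc x hx]
      omega
    · change n ∣ ∑ y ∈ x.1 ∪ {x.2, prt x.1 x.2}, (y : ℕ)
      rw [sum_union (hdj x hx), sum_pair (Ne.symm h3), ← add_assoc]
      exact prt_spec x.1 x.2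
  have hup : P.card ≤ (j + 2) * (j + 1) * (P.image f).card := by
    refine card_le_mul_card_image P _ fun B hB => ?_
    obtain ⟨y, hy, hyB⟩ := mem_image.1 hB
    have hBA : (B \ A).card = j + 2 := by
      rw [card_sdiff_of_subset (by
        rw [← hyB]
        exact (hmem y hy).1.1.trans subset_union_left), ← hyB, hfc y hy]
      omega
    have hoff : ((B \ A).offDiag).card = (j + 2) * (j + 1) := by
      rw [offDiag_card, hBA]
      have : (j + 2) * (j + 2) = (j + 2) * (j + 1) + (j + 2) := by ring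
      omega
    rw [← hoff]
    refine card_le_card_of_injOn (fun x => (x.2, prt x.1 x.2)) ?_ ?_
    · intro x hx
      rw [mem_coe, mem_filter] at hx
      obtain ⟨⟨h0, -⟩, h1, h2, h3⟩ := hmem x hx.1
      rw [mem_coe, mem_offDiag]
      have hx2 : f x = B := hx.2
      refine ⟨?_, ?_, Ne.symm h3⟩
      · rw [mem_sdiff, ← hx2]
        exact ⟨mem_union_right _ (mem_insert_self _ _), fun h => h1 (h0 h)⟩
      · rw [mem_sdiff, ← hx2]
        exact ⟨mem_union_right _ (mem_insert_of_mem (mem_singleton_self _)), fun h => h2 (h0 h)⟩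
    · intro x hx x' hx' h
      rw [mem_coe, mem_filter] at hx hx'
      have e1 : f x = f x' := hx.2.trans hx'.2.symm
      have e2 := hdj x hx.1
      have e3 := hdj x' hx'.1
      have e4 : x.1 = f x \ {x.2, prt x.1 x.2} := (union_sdiff_cancel_right e2).symm
      have e5 : x'.1 = f x' \ {x'.2, prt x'.1 x'.2} := (union_sdiff_cancel_right e3).symm
      have e6 : x.2 = x'.2 := congrArg Prod.fst h
      have e7 : prt x.1 x.2 = prt x'.1 x'.2 := congrArg Prod.snd h
      have e8 : x.1 = x'.1 := by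
        rw [e4, e5, e1, e7, e6]
      exact Sigma.ext e8 (heq_of_eq e6)
  have h6 : 6 * (n - A.card).choose j ≤
      (univ.filter (fun B => A ⊆ B ∧ Rsv n B)).card * ((j + 2) * (j + 1)) := by
    refine hlow.trans (hup.trans ?_)
    rw [mul_comm]
    exact Nat.mul_le_mul_right _ (card_le_card himg)
  exact arith h6 (by omega) (by omega)

end Pool.Agent.SKA
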