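import Pool.Agent.SKA.Defs

set_option autoImplicit false

/-!
# SKA Tuple (package, 0.8 h): a random tuple

Proof. `W` has `N = |W| ≥ 1` elements. Average over all tuples `φ ∈ W^s` (functions `Fin s → V` with values in `W`:
`Fintype.piFinset (fun _ => W)`, `N^s` of them).
`∑_φ |{z ∈ Z : ∀ j, ¬ Adj (φ j) z}| = ∑_{z ∈ Z} |{w ∈ W : ¬ Adj w z}|^s ≤ |Z| (N - δ)^s` where
`(N-δ)^s` means: `|{w ∈ W : ¬ Adj w z}| = N - |{w ∈ W : Adj w z}| ≤ N - δ ≤ N exp (-δ/N)` (`1 - u ≤ exp (-u)`), so each term is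
`≤ N^s exp (-δ s/N)`.
`∑_φ ∑_j c (φ j) = s N^(s-1) ∑_{w ∈ W} c w ≤ N^s (s b/N)` (for every `j` the value `φ j` takes every `w ∈ W` exactly `N^(s-1)` times).
So the average of the sum is at most the right hand side and some tuple does at least as well (`Finset.exists_le_of_sum_le`).
-/

open Finset

namespace Pool.Agent.SKA

variable {V : Type} [Fintype V] [DecidableEq V]

open Classical in
private theorem tup_first (Adj : V → V → Prop) (W Z : Finset V) (hW : W.Nonempty) (δ : ℝ)
    (hδ : ∀ z ∈ Z, δ ≤ ((W.filter (fun w => Adj w z)).card : ℝ)) (s : ℕ) :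
    ∑ φ ∈ Fintype.piFinset (fun _ : Fin s => W),
      ((Z.filter (fun z => ∀ j, ¬ Adj (φ j) z)).card : ℝ) ≤
      (W.card : ℝ) ^ s * (Z.card * Real.exp (-(δ * s / W.card))) := by
  have hN : (0 : ℝ) < W.card := by exact_mod_cast hW.card_pos
  have h1 : ∑ φ ∈ Fintype.piFinset (fun _ : Fin s => W),
      ((Z.filter (fun z => ∀ j, ¬ Adj (φ j) z)).card : ℝ) =
      ∑ z ∈ Z, (((W.filter (fun w => ¬ Adj w z)).card : ℝ)) ^ s := by
    have h2 : ∀ φ : Fin s → V, ((Z.filter (fun z => ∀ j, ¬ Adj (φ j) z)).card : ℝ) =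
        ∑ z ∈ Z, if (∀ j, ¬ Adj (φ j) z) then (1 : ℝ) else 0 := by
      intro φ
      rw [Finset.sum_ite, Finset.sum_const_zero, add_zero, Finset.sum_const, nsmul_eq_mul,
        mul_one]
    simp_rw [h2]
    rw [Finset.sum_comm]
    refine Finset.sum_congr rfl fun z _ => ?_
    rw [Finset.sum_ite, Finset.sum_const_zero, add_zero, Finset.sum_const, nsmul_eq_mul,
      mul_one]
    have h3 : (Fintype.piFinset (fun _ : Fin s => W)).filter (fun φ => ∀ j, ¬ Adj (φ j) z) =
        Fintype.piFinset (fun _ : Fin s => W.filter (fun w => ¬ Adj w z)) := by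
      ext φ
      simp only [Finset.mem_filter, Fintype.mem_piFinset]
      constructor
      · rintro ⟨h4, h5⟩ j
        exact ⟨h4 j, h5 j⟩
      · intro h
        exact ⟨fun j => (h j).1, fun j => (h j).2⟩
    rw [h3, Fintype.card_piFinset]
    simp
  rw [h1]
  calc ∑ z ∈ Z, (((W.filter (fun w => ¬ Adj w z)).card : ℝ)) ^ s
      ≤ ∑ _z ∈ Z, (W.card : ℝ) ^ s * Real.exp (-(δ * s / W.card)) := by
        refine Finset.sum_le_sum fun z hz => ?_
        have h4 : ((W.filter (fun w => Adj w z)).card : ℝ) +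
            ((W.filter (fun w => ¬ Adj w z)).card : ℝ) = W.card := by
          exact_mod_cast Finset.card_filter_add_card_filter_not (s := W) (fun w => Adj w z)
        have h5 := hδ z hz
        have h6 : ((W.filter (fun w => ¬ Adj w z)).card : ℝ) ≤
            W.card * Real.exp (-(δ / W.card)) := by
          have h7 := Real.one_sub_le_exp_neg (δ / W.card)
          have h8 := mul_le_mul_of_nonneg_left h7 hN.le
          have h9 : (W.card : ℝ) * (1 - δ / W.card) = W.card - δ := by
            field_simp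
          linarith
        have h10 := pow_le_pow_left₀ (Nat.cast_nonneg _) h6 s
        refine h10.trans (le_of_eq ?_)
        rw [mul_pow, ← Real.exp_nat_mul]
        congr 2
        ring
    _ = (W.card : ℝ) ^ s * (Z.card * Real.exp (-(δ * s / W.card))) := by
        rw [Finset.sum_const, nsmul_eq_mul]
        ring

open Classical in
private theorem tup_second (W : Finset V) (hW : W.Nonempty) (b : ℝ) (c : V → ℕ)
    (hc : ∑ w ∈ W, (c w : ℝ) ≤ b) (s : ℕ) :
    ∑ φ ∈ Fintype.piFinset (fun _ : Fin s => W), ∑ j, (c (φ j) : ℝ) ≤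
      (W.card : ℝ) ^ s * (s * b / W.card) := by
  have hN : (0 : ℝ) < W.card := by exact_mod_cast hW.card_pos
  rw [Finset.sum_comm]
  have h1 : ∀ j : Fin s, ∑ φ ∈ Fintype.piFinset (fun _ : Fin s => W), (c (φ j) : ℝ) ≤
      (W.card : ℝ) ^ s * (b / W.card) := by
    intro j
    have h2 := Finset.prod_univ_sum (fun _ : Fin s => W)
      (fun (i : Fin s) (w : V) => if i = j then (c w : ℝ) else 1)
    have h3 : ∀ φ : Fin s → V, ∏ i, (if i = j then (c (φ i) : ℝ) else 1) = c (φ j) := by
      intro φ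
      rw [Finset.prod_ite_eq' univ j, if_pos (Finset.mem_univ j)]
    have h4 : ∏ i : Fin s, ∑ w ∈ W, (if i = j then (c w : ℝ) else 1) =
        (∑ w ∈ W, (c w : ℝ)) * (W.card : ℝ) ^ (s - 1) := by
      rw [← Finset.mul_prod_erase univ _ (Finset.mem_univ j)]
      congr 1
      · simp
      · have h5 : ∀ i ∈ univ.erase j, ∑ w ∈ W, (if i = j then (c w : ℝ) else 1) =
            (W.card : ℝ) := by
          intro i hi
          simp [Finset.ne_of_mem_erase hi]
        rw [Finset.prod_congr rfl h5, Finset.prod_const, Finset.card_erase_of_mem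
          (Finset.mem_univ j), Finset.card_univ, Fintype.card_fin]
    rw [h4] at h2
    simp only [h3] at h2
    rw [← h2]
    have hs : 1 ≤ s := by
      have := j.pos
      omega
    have h6 : (W.card : ℝ) ^ s = (W.card : ℝ) ^ (s - 1) * W.card := by
      rw [← pow_succ, Nat.sub_add_cancel hs]
    have h7 : (W.card : ℝ) ^ s * (b / W.card) = b * (W.card : ℝ) ^ (s - 1) := by
      rw [h6]
      field_simp
    rw [h7]
    exact mul_le_mul_of_nonneg_right hc (by positivity)
  calc ∑ j : Fin s, ∑ φ ∈ Fintype.piFinset (fun _ : Fin s => W), (c (φ j) : ℝ)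
      ≤ ∑ _j : Fin s, (W.card : ℝ) ^ s * (b / W.card) := Finset.sum_le_sum fun j _ => h1 j
    _ = (W.card : ℝ) ^ s * (s * b / W.card) := by
        rw [Finset.sum_const, Finset.card_univ, Fintype.card_fin, nsmul_eq_mul]
        ring

open Classical in
theorem tuple_avg (Adj : V → V → Prop) (W Z : Finset V) (hW : W.Nonempty) (δ b : ℝ)
    (hδ : ∀ z ∈ Z, δ ≤ ((W.filter (fun w => Adj w z)).card : ℝ)) (c : V → ℕ)
    (hc : ∑ w ∈ W, (c w : ℝ) ≤ b) (s : ℕ) :
    ∃ φ : Fin s → V, (∀ j, φ j ∈ W) ∧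
      (((Z.filter (fun z => ∀ j, ¬ Adj (φ j) z)).card : ℝ) + ∑ j, (c (φ j) : ℝ)) ≤
        Z.card * Real.exp (-(δ * s / W.card)) + s * b / W.card := by
  have hne : (Fintype.piFinset (fun _ : Fin s => W)).Nonempty := by
    obtain ⟨w, hw⟩ := hW
    exact ⟨fun _ => w, by simp [hw]⟩
  have hcard : (Fintype.piFinset (fun _ : Fin s => W)).card = W.card ^ s := by
    rw [Fintype.card_piFinset]
    simp
  obtain ⟨φ, hφ, h⟩ := Finset.exists_le_of_sum_le hne
    (f := fun φ : Fin s → V => ((Z.filter (fun z => ∀ j, ¬ Adj (φ j) z)).card : ℝ) +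
      ∑ j, (c (φ j) : ℝ))
    (g := fun _ => Z.card * Real.exp (-(δ * s / W.card)) + s * b / W.card) (by
      rw [Finset.sum_add_distrib, Finset.sum_const, hcard, nsmul_eq_mul, mul_add]
      push_cast
      exact add_le_add (tup_first Adj W Z hW δ hδ s) (tup_second W hW b c hc s))
  exact ⟨φ, fun j => Fintype.mem_piFinset.1 hφ j, h⟩

end Pool.Agent.SKA
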