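import Pool.Agent.SKA.Defs

set_option autoImplicit false

/-!
# SKA Walk (package, 1.0 h): a lazy walk through a set that is connected in the distance `≤ 3`

Proof. CLAIM: for every `m` with `1 ≤ m ≤ |Q|` there are `Q' ⊆ Q`, `q0 ∈ Q'`, `|Q'| = m`, and a lazy walk
`P : ℕ → V` with `P 0 = q0`, `P (6(m-1)) = q0`, all steps `Lz`, such that every `q ∈ Q'` is `P j` for some
`j ≤ 6(m-1)`. `m = 1`: `Q' = {q0}`, constant walk. `m → m+1` (`m < |Q|`): `Q' ≠ Q`, so there are `q1 ∈ Q'`,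
`q2 ∈ Q`, `q2 ∉ Q'` and `a, b` with `Lz q1 a`, `Lz a b`, `Lz b q2`. Let `P j1 = q1`, `j1 ≤ 6(m-1)`. New walk:
`P` up to time `j1`, then `a, b, q2, b, a, q1` (6 steps), then `P` from time `j1` on:
`P' j = if j ≤ j1 then P j else if j ≤ j1+6 then [a,b,q2,b,a,q1] (j-j1) else P (j-6)`. It visits `Q' ∪ {q2}`
and ends at time `6m` in `q0`. (`Lz` is symmetric.) Take `m = |Q|`, so `Q' = Q`; after the time `6(|Q|-1)` let the walk stay
(so that all steps for all `j : ℕ` are lazy steps).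
-/

open Finset

namespace Pool.Agent.SKA

variable {V : Type} [Fintype V] [DecidableEq V] (G : SimpleGraph V)

omit [Fintype V] [DecidableEq V] in
private lemma lz_symm {a b : V} (h : Lz G a b) : Lz G b a := by
  rcases h with h | h
  · exact Or.inl h.symm
  · exact Or.inr h.symm

omit [Fintype V] [DecidableEq V] in
/-- Insertion of the detour `a, b, q2, b, a` after the time `j1`. -/
private lemma detour (P : ℕ → V) (hP : ∀ j, Lz G (P j) (P (j + 1))) (j1 : ℕ) (a b q2 : V)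
    (h1 : Lz G (P j1) a) (h2 : Lz G a b) (h3 : Lz G b q2) :
    ∃ P' : ℕ → V, (∀ j, j ≤ j1 → P' j = P j) ∧ P' (j1 + 3) = q2 ∧
      (∀ j, j1 ≤ j → P' (j + 6) = P j) ∧ ∀ j, Lz G (P' j) (P' (j + 1)) := by
  refine ⟨fun j => if j ≤ j1 then P j else if j = j1 + 1 then a else if j = j1 + 2 then b
    else if j = j1 + 3 then q2 else if j = j1 + 4 then b else if j = j1 + 5 then a
    else P (j - 6), ?_, ?_, ?_, ?_⟩
  · intro j hj
    simp only [if_pos hj]
  · have e1 : ¬ j1 + 3 ≤ j1 := by omega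
    have e2 : ¬ j1 + 3 = j1 + 1 := by omega
    have e3 : ¬ j1 + 3 = j1 + 2 := by omega
    simp only [if_neg e1, if_neg e2, if_neg e3, if_true]
  · intro j hj
    have e1 : ¬ j + 6 ≤ j1 := by omega
    have e2 : ¬ j + 6 = j1 + 1 := by omega
    have e3 : ¬ j + 6 = j1 + 2 := by omega
    have e4 : ¬ j + 6 = j1 + 3 := by omega
    have e5 : ¬ j + 6 = j1 + 4 := by omega
    have e6 : ¬ j + 6 = j1 + 5 := by omega
    simp only [if_neg e1, if_neg e2, if_neg e3, if_neg e4, if_neg e5, if_neg e6,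
      Nat.add_sub_cancel]
  · intro j
    rcases Nat.lt_or_ge j j1 with h | h
    · have e1 : j ≤ j1 := by omega
      have e2 : j + 1 ≤ j1 := by omega
      simp only [if_pos e1, if_pos e2]
      exact hP j
    · obtain ⟨t, rfl⟩ := Nat.exists_eq_add_of_le h
      rcases Nat.lt_or_ge t 6 with ht | ht
      · interval_cases t
        · simpa using h1
        · simpa using h2
        · simpa using h3
        · simpa using lz_symm G h3
        · simpa using lz_symm G h2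
        · have e1 : ¬ j1 + 5 + 1 ≤ j1 := by omega
          have e7 : j1 + 5 + 1 - 6 = j1 := by omega
          simpa [e7] using lz_symm G h1
      · obtain ⟨u, rfl⟩ := Nat.exists_eq_add_of_le ht
        have e1 : ¬ j1 + (6 + u) ≤ j1 := by omega
        have e2 : ¬ j1 + (6 + u) = j1 + 1 := by omega
        have e3 : ¬ j1 + (6 + u) = j1 + 2 := by omega
        have e4 : ¬ j1 + (6 + u) = j1 + 3 := by omega
        have e5 : ¬ j1 + (6 + u) = j1 + 4 := by omega
        have e6 : ¬ j1 + (6 + u) = j1 + 5 := by omega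
        have f1 : ¬ j1 + (6 + u) + 1 ≤ j1 := by omega
        have f2 : ¬ j1 + (6 + u) + 1 = j1 + 1 := by omega
        have f3 : ¬ j1 + (6 + u) + 1 = j1 + 2 := by omega
        have f4 : ¬ j1 + (6 + u) + 1 = j1 + 3 := by omega
        have f5 : ¬ j1 + (6 + u) + 1 = j1 + 4 := by omega
        have f6 : ¬ j1 + (6 + u) + 1 = j1 + 5 := by omega
        have g1 : j1 + (6 + u) - 6 = j1 + u := by omega
        have g2 : j1 + (6 + u) + 1 - 6 = j1 + u + 1 := by omega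
        simp only [if_neg e1, if_neg e2, if_neg e3, if_neg e4, if_neg e5, if_neg e6,
          if_neg f1, if_neg f2, if_neg f3, if_neg f4, if_neg f5, if_neg f6, g1, g2]
        exact hP (j1 + u)

omit [Fintype V] in
/-- The claim of the module text. -/
private lemma walk_aux (Q : Finset V)
    (hQ : ∀ Q1 ⊆ Q, Q1.Nonempty → Q1 ≠ Q → ∃ q1 ∈ Q1, ∃ q2 ∈ Q, q2 ∉ Q1 ∧
      ∃ a b, Lz G q1 a ∧ Lz G a b ∧ Lz G b q2)
    (q0 : V) (hq0 : q0 ∈ Q) (m : ℕ) (hm : m + 1 ≤ Q.card) :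
    ∃ Q' ⊆ Q, q0 ∈ Q' ∧ Q'.card = m + 1 ∧ ∃ P : ℕ → V, P 0 = q0 ∧
      (∀ j, Lz G (P j) (P (j + 1))) ∧ ∀ q ∈ Q', ∃ j ≤ 6 * m, P j = q := by
  induction m with
  | zero =>
    refine ⟨{q0}, by simpa using hq0, by simp, by simp, fun _ => q0, rfl,
      fun _ => Or.inl rfl, ?_⟩
    intro q hq
    exact ⟨0, by omega, (Finset.mem_singleton.mp hq).symm⟩
  | succ m ih =>
    obtain ⟨Q', hsub, h0, hcard, P, hP0, hP, hvis⟩ := ih (by omega)
    have hne : Q' ≠ Q := by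
      rintro rfl
      omega
    obtain ⟨q1, hq1, q2, hq2, hq2n, a, b, h1, h2, h3⟩ := hQ Q' hsub ⟨q0, h0⟩ hne
    obtain ⟨j1, hj1, rfl⟩ := hvis q1 hq1
    obtain ⟨P', hp1, hp2, hp3, hp4⟩ := detour G P hP j1 a b q2 h1 h2 h3
    refine ⟨insert q2 Q', ?_, Finset.mem_insert_of_mem h0, ?_, P', ?_, hp4, ?_⟩
    · intro x hx
      rcases Finset.mem_insert.mp hx with rfl | hx
      · exact hq2
      · exact hsub hx
    · rw [Finset.card_insert_of_notMem hq2n, hcard]
    · rw [hp1 0 (Nat.zero_le _), hP0]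
    · intro q hq
      rcases Finset.mem_insert.mp hq with rfl | hq
      · exact ⟨j1 + 3, by omega, hp2⟩
      · obtain ⟨j, hj, rfl⟩ := hvis q hq
        rcases Nat.lt_or_ge j j1 with h | h
        · exact ⟨j, by omega, hp1 j h.le⟩
        · exact ⟨j + 6, by omega, hp3 j h⟩

theorem exists_walk (Q : Finset V)
    (hQ : ∀ Q1 ⊆ Q, Q1.Nonempty → Q1 ≠ Q → ∃ q1 ∈ Q1, ∃ q2 ∈ Q, q2 ∉ Q1 ∧
      ∃ a b, Lz G q1 a ∧ Lz G a b ∧ Lz G b q2)
    (q0 : V) (hq0 : q0 ∈ Q) :
    ∃ P : ℕ → V, P 0 = q0 ∧ (∀ j, Lz G (P j) (P (j + 1))) ∧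
      ∀ q ∈ Q, ∃ j ≤ 6 * (Q.card - 1), P j = q := by
  have hpos : 0 < Q.card := Finset.card_pos.mpr ⟨q0, hq0⟩
  obtain ⟨Q', hsub, -, hcard, P, hP0, hP, hvis⟩ :=
    walk_aux G Q hQ q0 hq0 (Q.card - 1) (by omega)
  have hQQ : Q' = Q := Finset.eq_of_subset_of_card_le hsub (by omega)
  subst hQQ
  exact ⟨P, hP0, hP, hvis⟩

end Pool.Agent.SKA
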